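import Mathlib

set_option autoImplicit false

namespace Pool.Agent.P.MP_e86632_nt

open MeasureTheory Filter Topology Set Complex

/-- The triangle function. -/
noncomputable def tri (t : ℝ) : ℝ := max (1 - |t|) 0

/-- The Fejer kernel. -/
noncomputable def fej (u : ℝ) : ℝ := 2 * (1 - Real.cos u) / u ^ 2

theorem tri_cont : Continuous tri := by unfold tri; fun_prop

theorem tri_nonneg (t : ℝ) : 0 ≤ tri t := le_max_right _ _

theorem tri_eq_zero {t : ℝ} (h : 1 ≤ |t|) : tri t = 0 := max_eq_right (by linarith)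

theorem tri_supp : HasCompactSupport tri := by
  refine HasCompactSupport.intro (isCompact_Icc (a := (-1 : ℝ)) (b := 1)) fun t ht => ?_
  apply tri_eq_zero
  by_contra h
  exact ht (abs_le.1 (le_of_lt (not_le.1 h)))

theorem tri_integrable : Integrable tri := tri_cont.integrable_of_hasCompactSupport tri_supp

theorem fej_nonneg (u : ℝ) : 0 ≤ fej u :=
  div_nonneg (mul_nonneg (by norm_num) (sub_nonneg.2 (Real.cos_le_one u))) (sq_nonneg u)

theorem fej_meas : Measurable fej := by unfold fej; fun_prop

theorem fej_le (u : ℝ) : fej u ≤ 5 * (1 + u ^ 2)⁻¹ := by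
  rcases eq_or_ne u 0 with rfl | hu
  · simp [fej]
  have h2 : 0 < u ^ 2 := by positivity
  have h3 := Real.one_sub_sq_div_two_le_cos (x := u)
  have h4 := Real.neg_one_le_cos u
  rw [fej, ← div_eq_mul_inv, div_le_div_iff₀ h2 (by positivity)]
  nlinarith [mul_nonneg h2.le (sub_nonneg.2 h4)]

theorem fej_integrable : Integrable fej := by
  refine (integrable_inv_one_add_sq.const_mul 5).mono' fej_meas.aestronglyMeasurable ?_
  exact ae_of_all _ fun u => by rw [Real.norm_of_nonneg (fej_nonneg u)]; exact fej_le u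

theorem fej_int_pos : 0 < ∫ u, fej u := by
  rw [integral_pos_iff_support_of_nonneg fej_nonneg fej_integrable]
  have : Ioo (0 : ℝ) 1 ⊆ Function.support fej := by
    intro u hu
    have h1 : Real.cos u < 1 := by
      have := Real.cos_lt_cos_of_nonneg_of_le_pi (x := 0) (y := u) le_rfl
        (by linarith [hu.2, Real.pi_gt_three]) hu.1
      simpa using this
    have : 0 < fej u := div_pos (by linarith) (pow_pos hu.1 2)
    exact this.ne'
  refine lt_of_lt_of_le ?_ (measure_mono this)
  simp

theorem tri_fourier {u : ℝ} (hu : u ≠ 0) :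
    ∫ t : ℝ, (tri t : ℂ) * cexp (I * t * u) = (fej u : ℂ) := by
  set c : ℂ := I * u with hc
  have hc0 : c ≠ 0 := mul_ne_zero I_ne_zero (by exact_mod_cast hu)
  have hcont : Continuous fun t : ℝ => (tri t : ℂ) * cexp (I * t * u) := by
    have := tri_cont; fun_prop
  have h1 : ∫ t : ℝ, (tri t : ℂ) * cexp (I * t * u)
      = ∫ t in (-1 : ℝ)..1, (tri t : ℂ) * cexp (I * t * u) := by
    rw [intervalIntegral.integral_of_le (by norm_num)]
    symm
    refine setIntegral_eq_integral_of_forall_compl_eq_zero fun t ht => ?_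
    have : 1 ≤ |t| := by
      by_contra h
      have := abs_lt.1 (not_le.1 h)
      exact ht ⟨this.1, this.2.le⟩
    simp [tri_eq_zero this]
  have h2 : ∫ t in (-1 : ℝ)..0, (tri t : ℂ) * cexp (I * t * u)
      = ((1 + (0 : ℝ)) * cexp (c * (0 : ℝ)) / c - cexp (c * (0 : ℝ)) / c ^ 2)
        - ((1 + (-1 : ℝ)) * cexp (c * (-1 : ℝ)) / c - cexp (c * (-1 : ℝ)) / c ^ 2) := by
    rw [← intervalIntegral.integral_eq_sub_of_hasDerivAt
      (f := fun t : ℝ => (1 + (t : ℂ)) * cexp (c * t) / c - cexp (c * t) / c ^ 2)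
      (f' := fun t : ℝ => (1 + (t : ℂ)) * cexp (c * t))]
    · refine intervalIntegral.integral_congr fun t ht => ?_
      rw [uIcc_of_le (by norm_num)] at ht
      have : tri t = 1 + t := by
        rw [tri, abs_of_nonpos ht.2, max_eq_left (by linarith [ht.1])]; ring
      simp only [this, hc]; push_cast; ring_nf
    · intro t _
      have e1 : HasDerivAt (fun t : ℝ => (t : ℂ)) 1 t := ofRealCLM.hasDerivAt
      have e2 : HasDerivAt (fun t : ℝ => cexp (c * t)) (cexp (c * t) * (c * 1)) t :=
        (e1.const_mul c).cexp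
      refine HasDerivAt.congr_deriv
        ((((e1.const_add 1).mul e2).div_const c).sub (e2.div_const (c ^ 2))) ?_
      field_simp; ring
    · exact Continuous.intervalIntegrable (by fun_prop) _ _
  have h3 : ∫ t in (0 : ℝ)..1, (tri t : ℂ) * cexp (I * t * u)
      = ((1 - (1 : ℝ)) * cexp (c * (1 : ℝ)) / c + cexp (c * (1 : ℝ)) / c ^ 2)
        - ((1 - (0 : ℝ)) * cexp (c * (0 : ℝ)) / c + cexp (c * (0 : ℝ)) / c ^ 2) := by
    rw [← intervalIntegral.integral_eq_sub_of_hasDerivAt
      (f := fun t : ℝ => (1 - (t : ℂ)) * cexp (c * t) / c + cexp (c * t) / c ^ 2)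
      (f' := fun t : ℝ => (1 - (t : ℂ)) * cexp (c * t))]
    · refine intervalIntegral.integral_congr fun t ht => ?_
      rw [uIcc_of_le (by norm_num)] at ht
      have : tri t = 1 - t := by
        rw [tri, abs_of_nonneg ht.1, max_eq_left (by linarith [ht.2])]
      simp only [this, hc]; push_cast; ring_nf
    · intro t _
      have e1 : HasDerivAt (fun t : ℝ => (t : ℂ)) 1 t := ofRealCLM.hasDerivAt
      have e2 : HasDerivAt (fun t : ℝ => cexp (c * t)) (cexp (c * t) * (c * 1)) t :=
        (e1.const_mul c).cexp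
      refine HasDerivAt.congr_deriv
        ((((e1.const_sub 1).mul e2).div_const c).add (e2.div_const (c ^ 2))) ?_
      field_simp; ring
    · exact Continuous.intervalIntegrable (by fun_prop) _ _
  rw [h1, ← intervalIntegral.integral_add_adjacent_intervals (b := 0)
    (hcont.intervalIntegrable _ _) (hcont.intervalIntegrable _ _), h2, h3]
  have hcos : cexp c + cexp (-c) = 2 * Complex.cos u := by
    rw [Complex.two_cos, hc]; ring_nf
  have hsq : c ^ 2 = -(u : ℂ) ^ 2 := by rw [hc, mul_pow, I_sq]; ring
  have hu' : (u : ℂ) ≠ 0 := by exact_mod_cast hu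
  simp only [fej]
  push_cast
  simp only [mul_zero, Complex.exp_zero, mul_one, mul_neg, add_zero, sub_zero, sub_self, zero_mul,
    zero_div, zero_add, add_neg_cancel, zero_sub]
  have : (1 : ℂ) / c - 1 / c ^ 2 - -(cexp (-c) / c ^ 2) + (cexp c / c ^ 2 - (1 / c + 1 / c ^ 2))
      = (cexp c + cexp (-c) - 2) / c ^ 2 := by ring
  rw [this, hcos, hsq]
  field_simp
  ring

section Tauber

variable {k : ℝ → ℝ} {M : ℝ} {g : ℂ → ℂ}

theorem damp_integrable (hk : Measurable k) (hM : ∀ u, |k u| ≤ M) (h0 : ∀ u ≤ 0, k u = 0)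
    {z : ℂ} (hz : 0 < z.re) : Integrable fun u : ℝ => (k u : ℂ) * cexp (-z * u) := by
  have h1 : IntegrableOn (fun u : ℝ => (k u : ℂ) * cexp (-z * u)) (Ioi 0) := by
    refine Integrable.bdd_mul (c := M) (integrableOn_exp_mul_complex_Ioi (by simpa using hz) 0)
      (by fun_prop) (ae_of_all _ fun u => ?_)
    simpa using hM u
  refine h1.integrable_of_forall_notMem_eq_zero fun u hu => ?_
  simp [h0 u (not_lt.1 hu)]

theorem conv_damp (hk : Measurable k) (hM : ∀ u, |k u| ≤ M) (h0 : ∀ u ≤ 0, k u = 0)
    (hL : ∀ z : ℂ, 0 < z.re → g z = ∫ u : ℝ, (k u : ℂ) * cexp (-z * u)) {e : ℝ} (he : 0 < e)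
    (y : ℝ) :
    ∫ u : ℝ, (k u : ℂ) * cexp (-e * u) * fej (y - u)
      = ∫ t : ℝ, (tri t : ℂ) * cexp (I * t * y) * g (e + I * t) := by
  have hint : Integrable (Function.uncurry fun u t : ℝ =>
      (k u : ℂ) * cexp (-e * u) * (tri t : ℂ) * cexp (I * t * ((y - u : ℝ) : ℂ)))
      (volume.prod volume) := by
    have a1 := damp_integrable hk hM h0 (z := e) (by simpa using he)
    have a2 : Integrable fun t : ℝ => (tri t : ℂ) := tri_integrable.ofReal
    refine Integrable.mul_bdd (c := 1) (a1.mul_prod a2) (by fun_prop) (ae_of_all _ fun p => ?_)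
    rw [Complex.norm_exp]
    simp
  have hs := integral_integral_swap hint
  have l1 : ∫ u : ℝ, (k u : ℂ) * cexp (-e * u) * fej (y - u) = ∫ u : ℝ, ∫ t : ℝ,
      (k u : ℂ) * cexp (-e * u) * (tri t : ℂ) * cexp (I * t * ((y - u : ℝ) : ℂ)) := by
    refine integral_congr_ae ?_
    have : ∀ᵐ u : ℝ, u ≠ y := by simp [ae_iff]
    filter_upwards [this] with u hu
    rw [← tri_fourier (sub_ne_zero.2 hu.symm), ← integral_const_mul]
    simp only [mul_assoc]
  rw [l1, hs]
  refine integral_congr_ae (ae_of_all _ fun t => ?_)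
  simp only
  rw [hL _ (by simpa using he), ← integral_const_mul]
  refine integral_congr_ae (ae_of_all _ fun u => ?_)
  simp only
  have : cexp (-e * u) * cexp (I * t * ((y - u : ℝ) : ℂ))
      = cexp (I * t * y) * cexp (-(e + I * t) * u) := by
    rw [← Complex.exp_add, ← Complex.exp_add]; congr 1; push_cast; ring
  linear_combination (k u : ℂ) * (tri t : ℂ) * this

theorem conv_eq (hk : Measurable k) (hM : ∀ u, |k u| ≤ M) (h0 : ∀ u ≤ 0, k u = 0)
    (hg : ContinuousOn g {z | 0 ≤ z.re})
    (hL : ∀ z : ℂ, 0 < z.re → g z = ∫ u : ℝ, (k u : ℂ) * cexp (-z * u)) (y : ℝ) :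
    ∫ u : ℝ, (k u : ℂ) * fej (y - u)
      = ∫ t : ℝ, (tri t : ℂ) * cexp (I * t * y) * g (I * t) := by
  set e : ℕ → ℝ := fun n => 1 / ((n : ℝ) + 1) with he
  have he0 : ∀ n, 0 < e n := fun n => by simp only [he]; positivity
  have he1 : ∀ n, e n ≤ 1 := fun n => by
    simp only [he]; rw [div_le_one (by positivity)]; linarith [Nat.cast_nonneg (α := ℝ) n]
  have het : Tendsto e atTop (𝓝 0) := tendsto_one_div_add_atTop_nhds_zero_nat
  have hetc : Tendsto (fun n => (e n : ℂ)) atTop (𝓝 0) := by
    simpa [Function.comp_def] using (continuous_ofReal.tendsto 0).comp het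
  have hM0 : 0 ≤ M := (abs_nonneg _).trans (hM 0)
  have t1 : Tendsto (fun n => ∫ u : ℝ, (k u : ℂ) * cexp (-(e n) * u) * fej (y - u)) atTop
      (𝓝 (∫ u : ℝ, (k u : ℂ) * fej (y - u))) := by
    refine tendsto_integral_of_dominated_convergence (fun u => M * fej (y - u)) ?_
      ((fej_integrable.comp_sub_left y).const_mul M) ?_ ?_
    · intro n
      have := fej_meas
      exact Measurable.aestronglyMeasurable (by fun_prop)
    · intro n
      refine ae_of_all _ fun u => ?_
      rcases le_or_gt u 0 with hu | hu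
      · simp only [h0 u hu, ofReal_zero, zero_mul, norm_zero]
        exact mul_nonneg hM0 (fej_nonneg _)
      · rw [norm_mul, norm_mul, Complex.norm_exp, Complex.norm_real, Complex.norm_real,
          Real.norm_of_nonneg (fej_nonneg _), Real.norm_eq_abs]
        refine mul_le_mul_of_nonneg_right ?_ (fej_nonneg _)
        have : Real.exp (-(e n : ℂ) * u).re ≤ 1 := by
          rw [Real.exp_le_one_iff]
          simp only [neg_mul, neg_re, mul_re, ofReal_re, ofReal_im, mul_zero, sub_zero]
          have := mul_pos (he0 n) hu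
          linarith
        calc _ ≤ M * 1 := mul_le_mul (hM u) this (Real.exp_pos _).le hM0
          _ = M := mul_one M
    · refine ae_of_all _ fun u => ?_
      have : Tendsto (fun n => (k u : ℂ) * cexp (-(e n) * u) * fej (y - u)) atTop
          (𝓝 ((k u : ℂ) * cexp (-0 * u) * fej (y - u))) :=
        ((((Complex.continuous_exp.tendsto _).comp (hetc.neg.mul_const (u : ℂ)))).const_mul
          _).mul_const _
      simpa using this
  have hK : IsCompact (Icc (0 : ℝ) 1 ×ℂ Icc (-1 : ℝ) 1) := isCompact_Icc.reProdIm isCompact_Icc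
  obtain ⟨B, hB⟩ := hK.exists_bound_of_continuousOn (hg.mono fun z hz => hz.1.1)
  have hgc : ∀ s : ℝ, 0 ≤ s → Continuous fun t : ℝ => g (s + I * t) := fun s hs =>
    hg.comp_continuous (by fun_prop) fun t => by simpa using hs
  have t2 : Tendsto (fun n => ∫ t : ℝ, (tri t : ℂ) * cexp (I * t * y) * g (e n + I * t)) atTop
      (𝓝 (∫ t : ℝ, (tri t : ℂ) * cexp (I * t * y) * g (I * t))) := by
    refine tendsto_integral_of_dominated_convergence (fun t => tri t * B) ?_
      (tri_integrable.mul_const B) ?_ ?_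
    · intro n
      exact Continuous.aestronglyMeasurable
        (((continuous_ofReal.comp tri_cont).mul (by fun_prop)).mul (hgc _ (he0 n).le))
    · intro n
      refine ae_of_all _ fun t => ?_
      rcases le_or_gt 1 |t| with ht | ht
      · simp [tri_eq_zero ht]
      · rw [norm_mul, norm_mul, Complex.norm_exp, Complex.norm_real,
          Real.norm_of_nonneg (tri_nonneg _)]
        have h1 : (I * t * y).re = 0 := by simp
        rw [h1, Real.exp_zero, mul_one]
        refine mul_le_mul_of_nonneg_left (hB _ ?_) (tri_nonneg _)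
        have := abs_lt.1 ht
        refine ⟨?_, ?_⟩
        · simpa using ⟨(he0 n).le, he1 n⟩
        · simpa using ⟨this.1.le, this.2.le⟩
    · refine ae_of_all _ fun t => ?_
      refine Tendsto.const_mul _ ?_
      refine (hg (I * t) (by simp)).tendsto.comp ?_
      rw [tendsto_nhdsWithin_iff]
      refine ⟨by simpa using hetc.add_const (I * t), Eventually.of_forall fun n => ?_⟩
      simpa using (he0 n).le
  refine tendsto_nhds_unique t1 ?_
  simpa only [conv_damp hk hM h0 hL (he0 _) y] using t2

theorem conv_tendsto (hk : Measurable k) (hM : ∀ u, |k u| ≤ M) (h0 : ∀ u ≤ 0, k u = 0)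
    (hg : ContinuousOn g {z | 0 ≤ z.re})
    (hL : ∀ z : ℂ, 0 < z.re → g z = ∫ u : ℝ, (k u : ℂ) * cexp (-z * u)) :
    Tendsto (fun y => ∫ v, k (y - v) * fej v) atTop (𝓝 0) := by
  have h1 := Real.tendsto_integral_exp_smul_cocompact (fun t : ℝ => (tri t : ℂ) * g (I * t))
  have h2 : Tendsto (fun y : ℝ => -(y / (2 * Real.pi))) atTop (cocompact ℝ) := by
    refine Tendsto.mono_right ?_ atBot_le_cocompact
    exact tendsto_neg_atTop_atBot.comp (tendsto_id.atTop_div_const (by positivity))
  have h3 := h1.comp h2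
  have h4 : ∀ y : ℝ, ((∫ v, k (y - v) * fej v : ℝ) : ℂ)
      = ∫ t : ℝ, Real.fourierChar (-(t * -(y / (2 * Real.pi)))) • ((tri t : ℂ) * g (I * t)) := by
    intro y
    rw [← integral_sub_left_eq_self (fun v => k (y - v) * fej v) volume y, ← integral_complex_ofReal]
    simp only [sub_sub_cancel]
    have := conv_eq hk hM h0 hg hL y
    refine Eq.trans ?_ (this.trans ?_)
    · simp
    · refine integral_congr_ae (ae_of_all _ fun t => ?_)
      simp only [Circle.smul_def, Real.fourierChar_apply, smul_eq_mul]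
      have hp : (Real.pi : ℂ) ≠ 0 := by exact_mod_cast Real.pi_ne_zero
      have : ((2 * Real.pi * -(t * -(y / (2 * Real.pi))) : ℝ) : ℂ) * I = I * t * y := by
        push_cast; field_simp
      rw [this]; ring
  have h5 : Tendsto (fun y : ℝ => ((∫ v, k (y - v) * fej v : ℝ) : ℂ)) atTop (𝓝 0) := by
    simpa only [h4, Function.comp_def] using h3
  simpa [Function.comp_def] using (continuous_re.tendsto 0).comp h5

/-- Mass of the kernel outside a window. -/
noncomputable def tail (R : ℝ) : ℝ := ∫ v, indicator {v : ℝ | R < |v|} fej v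

theorem tail_meas (R : ℝ) : MeasurableSet {v : ℝ | R < |v|} :=
  measurableSet_lt measurable_const (by fun_prop)

theorem tail_tendsto : Tendsto (fun n : ℕ => tail n) atTop (𝓝 0) := by
  have := tendsto_integral_of_dominated_convergence (μ := volume)
    (F := fun (n : ℕ) v => indicator {v : ℝ | (n : ℝ) < |v|} fej v) (f := fun _ => 0) fej
    (fun n => (fej_integrable.indicator (tail_meas n)).aestronglyMeasurable) fej_integrable
    (fun n => ae_of_all _ fun v => by
      rw [Real.norm_of_nonneg (indicator_nonneg (fun _ _ => fej_nonneg _) _)]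
      exact indicator_le_self' (fun _ _ => fej_nonneg _) _)
    (ae_of_all _ fun v => by
      refine tendsto_const_nhds.congr' ?_
      filter_upwards [tendsto_natCast_atTop_atTop.eventually (eventually_ge_atTop |v|)] with n hn
      rw [indicator_of_notMem (by simpa using hn)])
  simpa [tail] using this

theorem tauber_bound {C : ℝ} (hk : Measurable k) (hM : ∀ u, |k u| ≤ M) (h0 : ∀ u ≤ 0, k u = 0)
    (hC : 0 ≤ C) (hsl : ∀ y u, 0 < y → y ≤ u → k y - C * (u - y) ≤ k u)
    (hg : ContinuousOn g {z | 0 ≤ z.re})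
    (hL : ∀ z : ℂ, 0 < z.re → g z = ∫ u : ℝ, (k u : ℂ) * cexp (-z * u)) {R ε : ℝ} (hR : 0 ≤ R)
    (hε : 0 < ε) :
    ∀ᶠ y in atTop, |k y| * (∫ v, fej v) ≤ 2 * C * R * (∫ v, fej v) + 2 * M * tail R + ε := by
  have ht := conv_tendsto hk hM h0 hg hL
  have hi : ∀ y, Integrable fun v => k (y - v) * fej v := fun y =>
    Integrable.bdd_mul (c := M) fej_integrable
      (Measurable.aestronglyMeasurable (hk.comp (by fun_prop))) (ae_of_all _ fun v => hM _)
  have hti := fej_integrable.indicator (tail_meas R)
  have up : ∀ y, 0 < y → (k y - 2 * C * R) * (∫ v, fej v) - 2 * M * tail R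
      ≤ ∫ v, k (y + R - v) * fej v := by
    intro y hy
    rw [tail, ← integral_const_mul, ← integral_const_mul,
      ← integral_sub (fej_integrable.const_mul _) (hti.const_mul _)]
    refine integral_mono ((fej_integrable.const_mul _).sub (hti.const_mul _)) (hi _) fun v => ?_
    have hf := fej_nonneg v
    have hCR := mul_nonneg hC hR
    by_cases hv : R < |v|
    · simp only [indicator_of_mem (show v ∈ {v : ℝ | R < |v|} from hv)]
      have a1 := abs_le.1 (hM y)
      have a2 := abs_le.1 (hM (y + R - v))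
      nlinarith
    · simp only [indicator_of_notMem (show v ∉ {v : ℝ | R < |v|} from hv)]
      have a1 := abs_le.1 (not_lt.1 hv)
      have a2 := hsl y (y + R - v) hy (by linarith)
      have a3 : C * (y + R - v - y) ≤ 2 * C * R := by nlinarith
      nlinarith
  have lo : ∀ y, 2 * R < y → ∫ v, k (y - R - v) * fej v
      ≤ (k y + 2 * C * R) * (∫ v, fej v) + 2 * M * tail R := by
    intro y hy
    rw [tail, ← integral_const_mul, ← integral_const_mul,
      ← integral_add (fej_integrable.const_mul _) (hti.const_mul _)]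
    refine integral_mono (hi _) ((fej_integrable.const_mul _).add (hti.const_mul _)) fun v => ?_
    have hf := fej_nonneg v
    have hCR := mul_nonneg hC hR
    by_cases hv : R < |v|
    · simp only [indicator_of_mem (show v ∈ {v : ℝ | R < |v|} from hv)]
      have a1 := abs_le.1 (hM y)
      have a2 := abs_le.1 (hM (y - R - v))
      nlinarith
    · simp only [indicator_of_notMem (show v ∉ {v : ℝ | R < |v|} from hv)]
      have a1 := abs_le.1 (not_lt.1 hv)
      have a2 := hsl (y - R - v) y (by linarith) (by linarith)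
      have a3 : C * (y - (y - R - v)) ≤ 2 * C * R := by nlinarith
      nlinarith
  have e1 := (ht.comp (tendsto_atTop_add_const_right atTop R tendsto_id)).eventually
    (gt_mem_nhds hε)
  have e2 := (ht.comp (tendsto_atTop_add_const_right atTop (-R) tendsto_id)).eventually
    (lt_mem_nhds (neg_lt_zero.2 hε))
  filter_upwards [e1, e2, eventually_gt_atTop (2 * R)] with y h1 h2 h3
  simp only [Function.comp, id, ← sub_eq_add_neg] at h1 h2
  have a1 := up y (by linarith)
  have a2 := lo y h3
  rcases abs_cases (k y) with h | h <;> rw [h.1] <;> nlinarith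

/-- Tauberian theorem for bounded slowly decreasing functions whose Laplace transform extends
continuously to the closed half plane. -/
theorem tauber {C : ℝ} (hk : Measurable k) (hM : ∀ u, |k u| ≤ M) (h0 : ∀ u ≤ 0, k u = 0)
    (hC : 0 ≤ C) (hsl : ∀ y u, 0 < y → y ≤ u → k y - C * (u - y) ≤ k u)
    (hg : ContinuousOn g {z | 0 ≤ z.re})
    (hL : ∀ z : ℂ, 0 < z.re → g z = ∫ u : ℝ, (k u : ℂ) * cexp (-z * u)) :
    Tendsto k atTop (𝓝 0) := by
  rw [Metric.tendsto_atTop']
  intro ε hε
  set J := ∫ v, fej v with hJ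
  have hJ0 : 0 < J := fej_int_pos
  obtain ⟨R, hR⟩ := (((tail_tendsto.const_mul (2 * M)).eventually
    (gt_mem_nhds (show 2 * M * 0 < ε * J / 4 by rw [mul_zero]; positivity))).exists)
  set l : ℝ := 8 * C * R / ε + 1 with hl
  have hl0 : 0 < l := by positivity
  have hlc : (l : ℂ) ≠ 0 := by exact_mod_cast hl0.ne'
  have hb := tauber_bound (k := fun u => k (l⁻¹ * u)) (M := M) (C := C / l)
    (g := fun z => l * g (l * z)) (by fun_prop) (fun u => hM _)
    (fun u hu => h0 _ (mul_nonpos_of_nonneg_of_nonpos (by positivity) hu)) (by positivity)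
    (fun y u hy hyu => by
      have := hsl (l⁻¹ * y) (l⁻¹ * u) (by positivity) (by gcongr)
      have e : C / l * (u - y) = C * (l⁻¹ * u - l⁻¹ * y) := by field_simp
      rw [e]; exact this)
    (continuousOn_const.mul (hg.comp (by fun_prop) fun z hz => by
      have : 0 ≤ z.re := hz
      simp only [mem_ofPred_eq, mul_re, ofReal_re, ofReal_im, zero_mul, sub_zero]
      positivity))
    (fun z hz => by
      rw [hL _ (by simp only [mul_re, ofReal_re, ofReal_im, zero_mul, sub_zero]; positivity)]
      have := Measure.integral_comp_inv_mul_left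
        (fun u : ℝ => (k u : ℂ) * cexp (-(l * z) * u)) l
      rw [abs_of_pos hl0, real_smul] at this
      rw [← this]
      refine integral_congr_ae (ae_of_all _ fun u => ?_)
      simp only
      congr 2
      push_cast; field_simp)
    (R := R) (ε := ε * J / 4) (Nat.cast_nonneg R) (by positivity)
  have hb2 := (tendsto_id.const_mul_atTop hl0).eventually hb
  obtain ⟨N, hN⟩ := eventually_atTop.1 hb2
  refine ⟨N, fun y hy => ?_⟩
  have h1 := hN y hy.le
  simp only [id, inv_mul_cancel_left₀ hl0.ne'] at h1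
  rw [← hJ] at h1
  have h2 : 2 * (C / l) * R ≤ ε / 4 := by
    rw [show 2 * (C / l) * R = 2 * C * R / l by ring, div_le_iff₀ hl0, hl]
    field_simp
    nlinarith
  rw [Real.dist_eq, sub_zero]
  have h3 : |k y| * J < ε * J := by nlinarith
  exact lt_of_mul_lt_mul_right h3 hJ0.le

end Tauber

/-- The Wiener-Ikehara theorem for sequences with linearly bounded sums. -/
theorem wiener_ikehara (f : ℕ → ℝ) (hf : ∀ n, 0 ≤ f n) {C A : ℝ}
    (hC : ∀ n : ℕ, ∑ j ∈ Finset.Icc 1 n, f j ≤ C * n) (G : ℂ → ℂ)
    (hG : ContinuousOn G {s | 1 ≤ s.re})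
    (hGL : ∀ s : ℂ, 1 < s.re → G s = LSeries (fun n => (f n : ℂ)) s - A / (s - 1)) :
    Tendsto (fun N : ℕ => (∑ j ∈ Finset.Icc 1 N, f j) / (N : ℝ)) atTop (𝓝 A) := by
  set S : ℕ → ℝ := fun n => ∑ j ∈ Finset.Icc 1 n, f j with hS
  have hS0 : ∀ n, 0 ≤ S n := fun n => Finset.sum_nonneg fun j _ => hf j
  have hSm : Monotone S := fun a b hab =>
    Finset.sum_le_sum_of_subset_of_nonneg (Finset.Icc_subset_Icc_right hab) fun j _ _ => hf j
  have hC0 : 0 ≤ C := by simpa using (hS0 1).trans (hC 1)
  set h : ℝ → ℝ := fun u => Real.exp (-u) * S ⌊Real.exp u⌋₊ with hh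
  have hh0 : ∀ u, 0 ≤ h u := fun u => mul_nonneg (Real.exp_pos _).le (hS0 _)
  have hh1 : ∀ u, h u ≤ C := fun u => by
    have a1 : S ⌊Real.exp u⌋₊ ≤ C * Real.exp u :=
      (hC _).trans (mul_le_mul_of_nonneg_left (Nat.floor_le (Real.exp_pos u).le) hC0)
    calc h u ≤ Real.exp (-u) * (C * Real.exp u) :=
          mul_le_mul_of_nonneg_left a1 (Real.exp_pos _).le
      _ = C := by rw [Real.exp_neg]; field_simp
  have hhm : Measurable h := by
    have : Measurable S := measurable_of_countable _
    simp only [hh]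
    exact (by fun_prop : Measurable fun u : ℝ => Real.exp (-u)).mul
      (this.comp (Nat.measurable_floor.comp Real.measurable_exp))
  set k : ℝ → ℝ := indicator (Ioi 0) fun u => h u - A with hk
  have hkm : Measurable k := (hhm.sub_const A).indicator measurableSet_Ioi
  have hbd : ∀ u, |h u - A| ≤ C + |A| := fun u => by
    have := hh0 u; have := hh1 u; have := le_abs_self A; have := neg_abs_le A
    rw [abs_le]; constructor <;> linarith
  have hkM : ∀ u, |k u| ≤ C + |A| := fun u => by
    by_cases hu : u ∈ Ioi (0 : ℝ)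
    · simpa only [hk, indicator_of_mem hu] using hbd u
    · simp only [hk, indicator_of_notMem hu, abs_zero]; positivity
  have hk0 : ∀ u ≤ 0, k u = 0 := fun u hu => indicator_of_notMem (by simpa using hu) _
  have hsl : ∀ y u, 0 < y → y ≤ u → k y - C * (u - y) ≤ k u := by
    intro y u hy hyu
    simp only [hk, indicator_of_mem (show y ∈ Ioi (0 : ℝ) from hy),
      indicator_of_mem (show u ∈ Ioi (0 : ℝ) from hy.trans_le hyu)]
    have a1 : Real.exp (-(u - y)) * h y ≤ h u := by
      simp only [hh]
      rw [← mul_assoc, ← Real.exp_add, show -(u - y) + -y = -u by ring]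
      exact mul_le_mul_of_nonneg_left (hSm (Nat.floor_mono (Real.exp_le_exp.2 hyu)))
        (Real.exp_pos _).le
    have a2 := Real.add_one_le_exp (-(u - y))
    have a3 := hh0 y
    have a4 := hh1 y
    nlinarith [mul_nonneg (sub_nonneg.2 hyu) (sub_nonneg.2 a4), mul_nonneg (sub_nonneg.2 a2) a3]
  have hO : (fun n => ∑ j ∈ Finset.Icc 1 n, f j) =O[atTop] fun n : ℕ => (n : ℝ) ^ (1 : ℝ) := by
    refine Asymptotics.IsBigO.of_bound C (Eventually.of_forall fun n => ?_)
    rw [Real.norm_of_nonneg (hS0 n), Real.rpow_one, Real.norm_natCast]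
    exact hC n
  have ht := tauber (g := fun z => (G (1 + z) - A) / (1 + z)) hkm hkM hk0 hC0 hsl
    (((hG.comp (by fun_prop) fun z hz => by
        have : 0 ≤ z.re := hz
        simpa using this).sub continuousOn_const).div (by fun_prop) fun z hz e => by
        have h1 : 0 ≤ z.re := hz
        have h2 := congrArg Complex.re e
        simp only [add_re, one_re, zero_re] at h2
        linarith)
    (fun z hz => by
      have hz0 : z ≠ 0 := fun e => by simp [e] at hz
      have hz1 : 1 + z ≠ 0 := fun e => by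
        have h2 := congrArg Complex.re e
        simp only [add_re, one_re, zero_re] at h2
        linarith
      have hs : 1 < (1 + z).re := by simpa using hz
      have i1 : IntegrableOn (fun u : ℝ => cexp (-z * u)) (Ioi 0) :=
        integrableOn_exp_mul_complex_Ioi (by simpa using hz) 0
      have i2 : IntegrableOn (fun u : ℝ => (h u : ℂ) * cexp (-z * u)) (Ioi 0) :=
        Integrable.bdd_mul (c := C) i1 (by fun_prop) (ae_of_all _ fun u => by
          rw [Complex.norm_real, Real.norm_of_nonneg (hh0 u)]; exact hh1 u)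
      have e1 : ∫ u : ℝ, (k u : ℂ) * cexp (-z * u)
          = ∫ u in Ioi (0 : ℝ), ((h u : ℂ) * cexp (-z * u) - A * cexp (-z * u)) := by
        rw [← integral_indicator measurableSet_Ioi]
        refine integral_congr_ae (ae_of_all _ fun u => ?_)
        by_cases hu : u ∈ Ioi (0 : ℝ)
        · simp only [hk, indicator_of_mem hu]; push_cast; ring
        · simp only [hk, indicator_of_notMem hu]; simp
      have e2 := LSeries_eq_mul_integral_of_nonneg f (r := 1) zero_le_one hs hO hf
      rw [← Real.exp_zero, ← integral_comp_exp_Ioi] at e2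
      have e3 : ∫ u in Ioi (0 : ℝ), Real.exp u • ((∑ j ∈ Finset.Icc 1 ⌊Real.exp u⌋₊, (f j : ℂ))
          * (Real.exp u : ℂ) ^ (-(1 + z + 1)))
          = ∫ u in Ioi (0 : ℝ), (h u : ℂ) * cexp (-z * u) := by
        refine integral_congr_ae (ae_of_all _ fun u => ?_)
        simp only [hh, hS, real_smul]
        rw [Complex.cpow_def_of_ne_zero (by exact_mod_cast (Real.exp_pos u).ne'),
          ← Complex.ofReal_log (Real.exp_pos u).le, Real.log_exp]
        push_cast
        have : cexp u * cexp (u * -(1 + z + 1)) = cexp (-u) * cexp (-z * u) := by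
          rw [← Complex.exp_add, ← Complex.exp_add]; congr 1; ring
        linear_combination (∑ j ∈ Finset.Icc 1 ⌊Real.exp u⌋₊, (f j : ℂ)) * this
      rw [e3] at e2
      rw [e1, integral_sub i2 (i1.const_mul _), integral_const_mul,
        integral_exp_mul_complex_Ioi (by simpa using hz), hGL _ hs, e2]
      simp only [ofReal_zero, mul_zero, Complex.exp_zero, add_sub_cancel_left]
      field_simp
      ring)
  have hlog : Tendsto (fun N : ℕ => Real.log N) atTop atTop :=
    Real.tendsto_log_atTop.comp tendsto_natCast_atTop_atTop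
  have h2 := (ht.comp hlog).add_const A
  rw [zero_add] at h2
  refine h2.congr' ?_
  filter_upwards [eventually_ge_atTop 2] with N hN
  have hN1 : (1 : ℝ) < N := by exact_mod_cast hN
  have hN0 : (0 : ℝ) < N := by linarith
  simp only [Function.comp, hk, indicator_of_mem (show Real.log N ∈ Ioi (0 : ℝ) from
    Real.log_pos hN1), hh, Real.exp_neg, Real.exp_log hN0, Nat.floor_natCast, hS]
  field_simp
  ring

/-- The prime number theorem in arithmetic progressions. -/
theorem pnt_ap (q : ℕ) [NeZero q] (a : ZMod q) (ha : IsUnit a) :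
    Filter.Tendsto (fun N : ℕ => (∑ n ∈ Finset.range (N + 1),
      ArithmeticFunction.vonMangoldt.residueClass a n) / (N : ℝ))
      Filter.atTop (nhds (1 / (q.totient : ℝ))) := by
  have h := wiener_ikehara (ArithmeticFunction.vonMangoldt.residueClass a)
    (ArithmeticFunction.vonMangoldt.residueClass_nonneg a) (C := Real.log 4 + 4)
    (A := 1 / (q.totient : ℝ)) (fun n => by
      refine le_trans ?_ (Chebyshev.psi_le_const_mul_self (Nat.cast_nonneg n))
      rw [Chebyshev.psi, Nat.floor_natCast]
      exact Finset.sum_le_sum fun j _ => ArithmeticFunction.vonMangoldt.residueClass_le a j)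
    (ArithmeticFunction.vonMangoldt.LFunctionResidueClassAux a)
    (ArithmeticFunction.vonMangoldt.continuousOn_LFunctionResidueClassAux a)
    (fun s hs => by
      rw [ArithmeticFunction.vonMangoldt.eqOn_LFunctionResidueClassAux ha hs]
      simp)
  refine h.congr fun N => ?_
  congr 1
  rw [Finset.range_eq_Ico, Finset.sum_eq_sum_Ico_succ_bot (Nat.succ_pos N)]
  simp only [ArithmeticFunction.vonMangoldt.residueClass_apply_zero, zero_add]
  rfl

end Pool.Agent.P.MP_e86632_nt
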