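import Pool.Agent.P.MP_e86632_nt.Basic

/-! Generalised von Mangoldt functions `Lam j = μ * log ^ j` and Chebyshev / Mertens bounds. -/

namespace Pool.Agent.P.MP_e86632_nt

open Finset Real ArithmeticFunction
open scoped ArithmeticFunction.zeta ArithmeticFunction.Moebius

lemma sum_antidiag {E : Type*} [AddCommMonoid E] (G : ℕ → ℕ → E) (N : ℕ) :
    ∑ n ∈ Ioc 0 N, ∑ x ∈ n.divisorsAntidiagonal, G x.1 x.2
      = ∑ m ∈ Ioc 0 N, ∑ k ∈ Ioc 0 (N / m), G m k := by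
  rw [Finset.sum_sigma', Finset.sum_sigma']
  refine Finset.sum_bij' (fun x _ => ⟨x.2.1, x.2.2⟩) (fun x _ => ⟨x.1 * x.2, (x.1, x.2)⟩)
    ?_ ?_ ?_ ?_ ?_
  · rintro ⟨n, a, b⟩ h
    simp only [Finset.mem_sigma, Finset.mem_Ioc, Nat.mem_divisorsAntidiagonal] at h ⊢
    obtain ⟨⟨h1, h2⟩, h3, h4⟩ := h
    have ha : 0 < a := Nat.pos_of_ne_zero (by rintro rfl; simp at h3; omega)
    have hb : 0 < b := Nat.pos_of_ne_zero (by rintro rfl; simp at h3; omega)
    refine ⟨⟨ha, ?_⟩, hb, ?_⟩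
    · nlinarith
    · rw [Nat.le_div_iff_mul_le ha]; nlinarith
  · rintro ⟨a, b⟩ h
    simp only [Finset.mem_sigma, Finset.mem_Ioc, Nat.mem_divisorsAntidiagonal] at h ⊢
    obtain ⟨⟨h1, h2⟩, h3, h4⟩ := h
    rw [Nat.le_div_iff_mul_le h1] at h4
    refine ⟨⟨by positivity, by nlinarith⟩, trivial, by positivity⟩
  · rintro ⟨n, a, b⟩ h
    simp only [Finset.mem_sigma, Finset.mem_Ioc, Nat.mem_divisorsAntidiagonal] at h
    obtain ⟨_, h3, _⟩ := h
    subst h3; rfl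
  · rintro ⟨a, b⟩ _; rfl
  · rintro ⟨n, a, b⟩ _; rfl

lemma sum_mul_weight (f g : ArithmeticFunction ℝ) (F : ℕ → ℂ) (N : ℕ) :
    ∑ n ∈ Ioc 0 N, ((f * g) n : ℂ) * F n
      = ∑ m ∈ Ioc 0 N, ∑ k ∈ Ioc 0 (N / m), (f m : ℂ) * g k * F (m * k) := by
  rw [← sum_antidiag (fun m k => (f m : ℂ) * g k * F (m * k))]
  refine Finset.sum_congr rfl fun n _ => ?_
  rw [ArithmeticFunction.mul_apply]; push_cast
  rw [Finset.sum_mul]
  refine Finset.sum_congr rfl fun x hx => ?_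
  rw [(Nat.mem_divisorsAntidiagonal.1 hx).1]

lemma pmul_log_mul (f g : ArithmeticFunction ℝ) :
    pmul log (f * g) = pmul log f * g + f * pmul log g := by
  ext n
  simp only [pmul_apply, ArithmeticFunction.add_apply, ArithmeticFunction.mul_apply, log_apply]
  rw [Finset.mul_sum, ← Finset.sum_add_distrib]
  refine Finset.sum_congr rfl fun x hx => ?_
  obtain ⟨h1, h2⟩ := Nat.mem_divisorsAntidiagonal.1 hx
  have ha : (x.1 : ℝ) ≠ 0 := by
    have : x.1 ≠ 0 := by rintro h; rw [h] at h1; simp at h1; omega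
    exact_mod_cast this
  have hb : (x.2 : ℝ) ≠ 0 := by
    have : x.2 ≠ 0 := by rintro h; rw [h] at h1; simp at h1; omega
    exact_mod_cast this
  rw [← h1]; push_cast; rw [Real.log_mul ha hb]; ring

noncomputable def Lam : ℕ → ArithmeticFunction ℝ
  | 0 => 1
  | j + 1 => pmul log (Lam j) + Λ * Lam j

lemma Lam_succ (j : ℕ) : Lam (j + 1) = pmul log (Lam j) + Λ * Lam j := rfl

lemma zeta_mul_Lam (j : ℕ) : (ζ : ArithmeticFunction ℝ) * Lam j = ppow log j := by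
  induction j with
  | zero => simp [Lam]
  | succ j ih =>
    rw [ppow_succ', ← ih, pmul_log_mul, Lam_succ, mul_add, ← mul_assoc, zeta_mul_vonMangoldt,
      add_comm]
    simp

lemma Lam_eq (j : ℕ) : Lam j = (μ : ArithmeticFunction ℝ) * ppow log j := by
  rw [← zeta_mul_Lam, ← mul_assoc, coe_moebius_mul_coe_zeta, one_mul]

lemma log_nat_nonneg (n : ℕ) : 0 ≤ Real.log n := Real.log_natCast_nonneg n

lemma conv_nonneg {f g : ArithmeticFunction ℝ} (hf : ∀ n, 0 ≤ f n) (hg : ∀ n, 0 ≤ g n) (n : ℕ) :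
    0 ≤ (f * g) n := by
  rw [ArithmeticFunction.mul_apply]
  exact Finset.sum_nonneg fun x _ => mul_nonneg (hf _) (hg _)

lemma Lam_nonneg (j n : ℕ) : 0 ≤ Lam j n := by
  induction j generalizing n with
  | zero => simp only [Lam, ArithmeticFunction.one_apply]; split_ifs <;> norm_num
  | succ j ih =>
    rw [Lam_succ, ArithmeticFunction.add_apply, pmul_apply, log_apply]
    exact add_nonneg (mul_nonneg (log_nat_nonneg n) (ih n))
      (conv_nonneg (fun _ => vonMangoldt_nonneg) ih n)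

lemma Lam_one : Lam 1 = Λ := by
  rw [Lam_eq, ArithmeticFunction.ppow_one, moebius_mul_log_eq_vonMangoldt]

lemma Lam_succ_apply (j n : ℕ) : Lam (j + 1) n = Real.log n * Lam j n + (Λ * Lam j) n := by
  rw [Lam_succ, ArithmeticFunction.add_apply, pmul_apply, log_apply]

lemma log_pow_mul_Lam_le (i j n : ℕ) : Real.log n ^ i * Lam j n ≤ Lam (j + i) n := by
  induction i with
  | zero => simp
  | succ i ih =>
    rw [← add_assoc, Lam_succ_apply]
    have h1 := conv_nonneg (fun _ => vonMangoldt_nonneg) (Lam_nonneg (j + i)) n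
    have h2 := mul_le_mul_of_nonneg_left ih (log_nat_nonneg n)
    rw [pow_succ]; nlinarith

lemma psi_le (y : ℕ) : ∑ n ∈ Ioc 0 y, Λ n ≤ 6 * y := by
  have h := Chebyshev.psi_le_const_mul_self (x := y) (by positivity)
  have h2 : Real.log 4 ≤ 2 := by
    have := Real.log_two_lt_d9
    rw [show (4 : ℝ) = 2 ^ 2 by norm_num, Real.log_pow]; push_cast; linarith
  unfold Chebyshev.psi at h
  rw [Nat.floor_natCast] at h
  nlinarith [(Nat.cast_nonneg y : (0 : ℝ) ≤ y)]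

/-- general Mertens type bound from the values of `ζ * f` -/
lemma mertens_gen (f : ArithmeticFunction ℝ) (hf : ∀ n, 0 ≤ f n) (y : ℕ) :
    y * ∑ n ∈ Ioc 0 y, f n / n ≤ ∑ n ∈ Ioc 0 y, (f * ζ) n + ∑ n ∈ Ioc 0 y, f n := by
  rw [sum_Ioc_mul_zeta_eq_sum, ← Finset.sum_add_distrib, Finset.mul_sum]
  refine Finset.sum_le_sum fun n hn => ?_
  have hn0 : 0 < n := (Finset.mem_Ioc.1 hn).1
  have hn' : (0 : ℝ) < n := by exact_mod_cast hn0
  have h1 : (y : ℝ) / n ≤ ((y / n : ℕ) : ℝ) + 1 := by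
    rw [div_le_iff₀ hn']
    have := Nat.lt_div_mul_add (a := y) hn0
    have h2 : y ≤ (y / n + 1) * n := by nlinarith
    exact_mod_cast h2
  have := mul_le_mul_of_nonneg_left h1 (hf n)
  calc (y : ℝ) * (f n / n) = f n * (y / n) := by ring
    _ ≤ _ := this
    _ = _ := by ring

lemma sum_logpow_le (j y : ℕ) : ∑ n ∈ Ioc 0 y, (ppow log (j + 1) : ArithmeticFunction ℝ) n
    ≤ y * Real.log y ^ (j + 1) := by
  have : ∀ n ∈ Ioc 0 y, (ppow log (j + 1) : ArithmeticFunction ℝ) n ≤ Real.log y ^ (j + 1) := by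
    intro n hn
    obtain ⟨h0, h1⟩ := Finset.mem_Ioc.1 hn
    rw [ppow_apply (by omega), log_apply]
    apply pow_le_pow_left₀ (log_nat_nonneg n)
    exact Real.log_le_log (by exact_mod_cast h0) (by exact_mod_cast h1)
  refine (Finset.sum_le_sum this).trans ?_
  simp

lemma mertens (y : ℕ) : ∑ n ∈ Ioc 0 y, Λ n / n ≤ Real.log y + 6 := by
  rcases Nat.eq_zero_or_pos y with rfl | hy
  · simp
  have h := mertens_gen Λ (fun _ => vonMangoldt_nonneg) y
  have h1 := sum_logpow_le 0 y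
  rw [zero_add, ArithmeticFunction.ppow_one, pow_one] at h1
  rw [vonMangoldt_mul_zeta] at h
  have h2 := psi_le y
  have hy' : (0 : ℝ) < y := by exact_mod_cast hy
  nlinarith

lemma cheb (j : ℕ) : ∃ C : ℝ, 1 ≤ C ∧ ∀ (y : ℕ) (L : ℝ), 1 ≤ L → Real.log y ≤ L →
    ∑ n ∈ Ioc 0 y, Lam (j + 1) n ≤ C * y * L ^ j := by
  induction j with
  | zero =>
    refine ⟨6, by norm_num, fun y L _ _ => ?_⟩
    rw [zero_add, Lam_one]; simpa using psi_le y
  | succ j ih =>
    obtain ⟨C, hC, h⟩ := ih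
    refine ⟨8 * C, by linarith, fun y L hL hy => ?_⟩
    have hlog : ∀ n, n ≤ y → Real.log n ≤ L := by
      intro n hn
      rcases Nat.eq_zero_or_pos n with rfl | h0
      · simp; linarith
      · exact (Real.log_le_log (by exact_mod_cast h0) (by exact_mod_cast hn)).trans hy
    simp_rw [Lam_succ_apply (j + 1)]
    rw [Finset.sum_add_distrib, sum_Ioc_mul_eq_sum_sum]
    have h1 : ∑ n ∈ Ioc 0 y, Real.log n * Lam (j + 1) n ≤ L * (C * y * L ^ j) := by
      refine le_trans ?_ (mul_le_mul_of_nonneg_left (h y L hL hy) (by linarith))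
      rw [Finset.mul_sum]
      exact Finset.sum_le_sum fun n hn =>
        mul_le_mul_of_nonneg_right (hlog n (Finset.mem_Ioc.1 hn).2) (Lam_nonneg _ _)
    have h2 : ∑ n ∈ Ioc 0 y, Λ n * ∑ m ∈ Ioc 0 (y / n), Lam (j + 1) m
        ≤ (C * y * L ^ j) * ∑ n ∈ Ioc 0 y, Λ n / n := by
      rw [Finset.mul_sum]
      refine Finset.sum_le_sum fun n hn => ?_
      have h3 := h (y / n) L hL (hlog _ (Nat.div_le_self _ _))
      have h4 : ((y / n : ℕ) : ℝ) ≤ y / n := Nat.cast_div_le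
      have h5 : C * ((y / n : ℕ) : ℝ) * L ^ j ≤ C * (y / n) * L ^ j := by gcongr
      calc _ ≤ Λ n * (C * (y / n) * L ^ j) :=
            mul_le_mul_of_nonneg_left (h3.trans h5) vonMangoldt_nonneg
        _ = _ := by ring
    have h3 := mertens y
    have h4 : 0 ≤ C * y * L ^ j := by positivity
    have h5 : (C * y * L ^ j) * ∑ n ∈ Ioc 0 y, Λ n / n ≤ (C * y * L ^ j) * (7 * L) :=
      mul_le_mul_of_nonneg_left (by linarith) h4
    rw [pow_succ]
    nlinarith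

lemma mertensLam (j : ℕ) : ∃ C : ℝ, 1 ≤ C ∧ ∀ (y : ℕ) (L : ℝ), 1 ≤ L → Real.log y ≤ L →
    ∑ n ∈ Ioc 0 y, Lam (j + 1) n / n ≤ L ^ (j + 1) + C * L ^ j := by
  obtain ⟨C, hC, h⟩ := cheb j
  refine ⟨C, hC, fun y L hL hy => ?_⟩
  rcases Nat.eq_zero_or_pos y with rfl | hy0
  · simp; positivity
  have h0 := mertens_gen (Lam (j + 1)) (Lam_nonneg _) y
  rw [mul_comm (Lam (j + 1)), zeta_mul_Lam] at h0
  have h1 := sum_logpow_le j y
  have h2 := h y L hL hy
  have h3 : Real.log y ^ (j + 1) ≤ L ^ (j + 1) := pow_le_pow_left₀ (log_nat_nonneg y) hy _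
  have hy' : (0 : ℝ) < y := by exact_mod_cast hy0
  have h4 : (y : ℝ) * ∑ n ∈ Ioc 0 y, Lam (j + 1) n / n ≤ y * (L ^ (j + 1) + C * L ^ j) := by
    nlinarith
  exact le_of_mul_le_mul_left h4 hy'

end Pool.Agent.P.MP_e86632_nt
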