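import Mathlib

/-! Exponentials `ee x = exp (2 π i x)`, distance to the nearest integer, Abel summation bounds. -/

namespace Pool.Agent.P.MP_e86632_nt

open Finset Real

noncomputable def ee (x : ℝ) : ℂ := Complex.exp (Complex.I * ((2 * π * x : ℝ) : ℂ))

lemma ee_add (x y : ℝ) : ee (x + y) = ee x * ee y := by
  unfold ee; rw [← Complex.exp_add]; congr 1; push_cast; ring

@[simp] lemma norm_ee (x : ℝ) : ‖ee x‖ = 1 := Complex.norm_exp_I_mul_ofReal _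

@[simp] lemma ee_zero : ee 0 = 1 := by simp [ee]

lemma ee_int (k : ℤ) : ee k = 1 := by
  unfold ee
  have : Complex.I * ((2 * π * (k : ℝ) : ℝ) : ℂ) = k * (2 * π * Complex.I) := by push_cast; ring
  rw [this, Complex.exp_int_mul_two_pi_mul_I]

lemma ee_add_int (x : ℝ) (k : ℤ) : ee (x + k) = ee x := by rw [ee_add, ee_int, mul_one]

lemma ee_sub_int (x : ℝ) (k : ℤ) : ee (x - k) = ee x := by
  have := ee_add_int x (-k); rw [← this]; congr 1; push_cast; ring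

lemma ee_neg (x : ℝ) : ee (-x) = (starRingEnd ℂ) (ee x) := by
  unfold ee; rw [← Complex.exp_conj]; congr 1
  simp only [map_mul, Complex.conj_I, Complex.conj_ofReal]; push_cast; ring

lemma ee_ne_zero (x : ℝ) : ee x ≠ 0 := Complex.exp_ne_zero _

lemma norm_ee_sub_one_le (x : ℝ) : ‖ee x - 1‖ ≤ 2 * π * |x| := by
  have := Real.norm_exp_I_mul_ofReal_sub_one_le (x := 2 * π * x)
  rw [Real.norm_eq_abs, abs_mul, abs_of_pos (by positivity : 0 < 2 * π)] at this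
  exact this

lemma norm_ee_sub_ee (x y : ℝ) : ‖ee x - ee y‖ ≤ 2 * π * |x - y| := by
  have : ee x - ee y = ee y * (ee (x - y) - 1) := by
    rw [mul_sub, ← ee_add]; simp
  rw [this, norm_mul, norm_ee, one_mul]; exact norm_ee_sub_one_le _

/-- distance to the nearest integer -/
noncomputable def nn (x : ℝ) : ℝ := |x - round x|

lemma nn_nonneg (x : ℝ) : 0 ≤ nn x := abs_nonneg _

lemma nn_le (x : ℝ) (k : ℤ) : nn x ≤ |x - k| := round_le x k

lemma nn_le_half (x : ℝ) : nn x ≤ 1 / 2 := abs_sub_round x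

lemma nn_of_abs_le {x : ℝ} (h : |x| ≤ 1 / 2) : nn x = |x| := by
  apply le_antisymm
  · simpa using nn_le x 0
  · unfold nn
    rcases eq_or_ne (round x) 0 with h0 | h0
    · simp [h0]
    · have h1 : (1 : ℝ) ≤ |((round x : ℤ) : ℝ)| := by
        rw [← Int.cast_abs]; exact_mod_cast Int.one_le_abs h0
      have := abs_sub_abs_le_abs_sub ((round x : ℤ) : ℝ) x
      rw [abs_sub_comm] at this
      linarith

lemma four_nn_le (x : ℝ) : 4 * nn x ≤ ‖ee x - 1‖ := by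
  rw [← ee_sub_int x (round x)]
  set t := x - round x with ht
  have h1 : |t| ≤ 1 / 2 := abs_sub_round x
  have h2 : nn x = |t| := rfl
  unfold ee
  rw [Complex.norm_exp_I_mul_ofReal_sub_one, h2]
  have h3 : |π * t| ≤ π / 2 := by
    rw [abs_mul, abs_of_pos pi_pos]; nlinarith [pi_pos]
  have h4 := Real.mul_abs_le_abs_sin h3
  have h5 : 2 * π * t / 2 = π * t := by ring
  rw [h5, Real.norm_eq_abs, abs_mul, abs_two]
  rw [abs_mul, abs_of_pos pi_pos] at h4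
  have h6 : 2 / π * (π * |t|) = 2 * |t| := by field_simp
  linarith

lemma geom_mul (θ : ℝ) (a b : ℕ) (hab : a ≤ b) :
    (ee θ - 1) * ∑ m ∈ Ioc a b, ee (m * θ) = ee ((b + 1) * θ) - ee ((a + 1) * θ) := by
  induction b, hab using Nat.le_induction with
  | base => simp
  | succ b hb ih =>
    rw [Finset.sum_Ioc_succ_top hb, mul_add, ih]
    have : ee (((b + 1 : ℕ) + 1) * θ) = ee θ * ee ((b + 1 : ℕ) * θ) := by
      rw [← ee_add]; congr 1; ring
    rw [this]; push_cast; ring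

lemma geom_bound {θ : ℝ} (h : 0 < nn θ) (a b : ℕ) :
    ‖∑ m ∈ Ioc a b, ee (m * θ)‖ ≤ 1 / (2 * nn θ) := by
  rcases le_or_gt a b with hab | hab
  · have h1 := congrArg norm (geom_mul θ a b hab)
    rw [norm_mul] at h1
    have h2 : ‖ee ((b + 1) * θ) - ee ((a + 1) * θ)‖ ≤ 2 := by
      refine (norm_sub_le _ _).trans ?_; simp; norm_num
    have h3 := four_nn_le θ
    rw [le_div_iff₀ (by positivity)]
    nlinarith [norm_nonneg (∑ m ∈ Ioc a b, ee (m * θ))]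
  · rw [Finset.Ioc_eq_empty (by omega)]; simp; exact nn_nonneg _

section Abel

variable {E : Type*} [NormedRing E]

lemma abel_id (b w : ℕ → E) (a N : ℕ) (h : a ≤ N) :
    ∑ i ∈ Ioc a (N + 1), b i * w i = (∑ i ∈ Ioc a (N + 1), b i) * w (N + 1)
      - ∑ i ∈ Ioc a N, (∑ k ∈ Ioc a i, b k) * (w (i + 1) - w i) := by
  induction N, h using Nat.le_induction with
  | base => simp
  | succ N hN ih =>
    rw [Finset.sum_Ioc_succ_top (by omega : a ≤ N + 1), ih,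
      Finset.sum_Ioc_succ_top (by omega : a ≤ N + 1) b, Finset.sum_Ioc_succ_top hN
        (fun i => (∑ k ∈ Ioc a i, b k) * (w (i + 1) - w i))]
    noncomm_ring

/-- Abel summation bound: `V` bounds the last weight plus the variation. -/
lemma abel_bound (b w : ℕ → E) (a N : ℕ) (B V : ℝ) (hB0 : 0 ≤ B) (hV0 : 0 ≤ V)
    (hB : ∀ n, n ≤ N → ‖∑ i ∈ Ioc a n, b i‖ ≤ B)
    (hV : a < N → ‖w N‖ + ∑ i ∈ Ioc a (N - 1), ‖w (i + 1) - w i‖ ≤ V) :
    ‖∑ i ∈ Ioc a N, b i * w i‖ ≤ B * V := by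
  rcases le_or_gt N a with h | h
  · rw [Finset.Ioc_eq_empty (by omega)]; simp; positivity
  obtain ⟨M, rfl⟩ : ∃ M, N = M + 1 := ⟨N - 1, by omega⟩
  rw [abel_id b w a M (by omega)]
  have hV' := hV h
  simp only [Nat.add_sub_cancel] at hV'
  refine (norm_sub_le _ _).trans ?_
  have h1 : ‖(∑ i ∈ Ioc a (M + 1), b i) * w (M + 1)‖ ≤ B * ‖w (M + 1)‖ :=
    (norm_mul_le _ _).trans (mul_le_mul_of_nonneg_right (hB _ le_rfl) (norm_nonneg _))
  have h2 : ‖∑ i ∈ Ioc a M, (∑ k ∈ Ioc a i, b k) * (w (i + 1) - w i)‖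
      ≤ B * ∑ i ∈ Ioc a M, ‖w (i + 1) - w i‖ := by
    rw [Finset.mul_sum]
    refine (norm_sum_le _ _).trans (Finset.sum_le_sum fun i hi => ?_)
    refine (norm_mul_le _ _).trans (mul_le_mul_of_nonneg_right (hB _ ?_) (norm_nonneg _))
    have := (Finset.mem_Ioc.1 hi).2; omega
  nlinarith

end Abel

lemma tele_Ioc (g : ℕ → ℝ) (a M : ℕ) (h : a ≤ M) :
    ∑ i ∈ Ioc a M, (g (i + 1) - g i) = g (M + 1) - g (a + 1) := by
  induction M, h using Nat.le_induction with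
  | base => simp
  | succ M hM ih => rw [Finset.sum_Ioc_succ_top hM, ih]; ring

/-- monotone weight times an exponential -/
lemma abel_mono (b : ℕ → ℂ) (g : ℕ → ℝ) (β : ℝ) (a N : ℕ) (B G : ℝ) (hB0 : 0 ≤ B) (hG0 : 0 ≤ G)
    (hB : ∀ n, n ≤ N → ‖∑ i ∈ Ioc a n, b i‖ ≤ B)
    (hg0 : ∀ i, 0 ≤ g i) (hg : ∀ i, a < i → i < N → g i ≤ g (i + 1)) (hG : ∀ i, i ≤ N → g i ≤ G) :
    ‖∑ i ∈ Ioc a N, b i * (g i * ee (i * β))‖ ≤ B * (G * (2 + 2 * π * |β| * N)) := by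
  apply abel_bound b _ a N B _ hB0 (by positivity) hB
  intro haN
  obtain ⟨M, rfl⟩ : ∃ M, N = M + 1 := ⟨N - 1, by omega⟩
  simp only [Nat.add_sub_cancel]
  have h1 : ‖(g (M + 1) : ℂ) * ee ((M + 1 : ℕ) * β)‖ ≤ G := by
    rw [norm_mul, norm_ee, mul_one, Complex.norm_real, Real.norm_eq_abs, abs_of_nonneg (hg0 _)]
    exact hG _ le_rfl
  have h2 : ∀ i ∈ Ioc a M, ‖(g (i + 1) : ℂ) * ee ((i + 1 : ℕ) * β) - g i * ee (i * β)‖
      ≤ (g (i + 1) - g i) + G * (2 * π * |β|) := by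
    intro i hi
    obtain ⟨hi1, hi2⟩ := Finset.mem_Ioc.1 hi
    have e : (g (i + 1) : ℂ) * ee ((i + 1 : ℕ) * β) - g i * ee (i * β)
        = ((g (i + 1) - g i : ℝ) : ℂ) * ee ((i + 1 : ℕ) * β)
          + g i * (ee ((i + 1 : ℕ) * β) - ee (i * β)) := by push_cast; ring
    rw [e]
    refine (norm_add_le _ _).trans (add_le_add ?_ ?_)
    · rw [norm_mul, norm_ee, mul_one, Complex.norm_real, Real.norm_eq_abs,
        abs_of_nonneg (sub_nonneg.2 (hg i hi1 (by omega)))]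
    · rw [norm_mul, Complex.norm_real, Real.norm_eq_abs, abs_of_nonneg (hg0 _)]
      refine mul_le_mul (hG _ (by omega)) ?_ (norm_nonneg _) hG0
      refine (norm_ee_sub_ee _ _).trans (le_of_eq ?_)
      congr 2; push_cast; ring
  have h3 := Finset.sum_le_sum h2
  rw [Finset.sum_add_distrib, tele_Ioc g a M (by omega), Finset.sum_const, Nat.card_Ioc,
    nsmul_eq_mul] at h3
  have h4 : ((M - a : ℕ) : ℝ) ≤ ((M + 1 : ℕ) : ℝ) := by exact_mod_cast (by omega : M - a ≤ M + 1)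
  have h5 : ((M - a : ℕ) : ℝ) * (G * (2 * π * |β|)) ≤ ((M + 1 : ℕ) : ℝ) * (G * (2 * π * |β|)) :=
    mul_le_mul_of_nonneg_right h4 (by positivity)
  have h6 := hG (M + 1) le_rfl
  have h7 := hg0 (a + 1)
  nlinarith

/-- antitone nonnegative weights -/
lemma abel_anti (b g : ℕ → ℝ) (a N : ℕ) (B : ℝ) (hB0 : 0 ≤ B)
    (hB : ∀ n, n ≤ N → |∑ i ∈ Ioc a n, b i| ≤ B)
    (hg0 : ∀ i, 0 ≤ g i) (hg : ∀ i, a < i → g (i + 1) ≤ g i) :
    |∑ i ∈ Ioc a N, b i * g i| ≤ B * g (a + 1) := by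
  have := abel_bound b g a N B (g (a + 1)) hB0 (hg0 _) hB ?_
  · exact this
  intro haN
  obtain ⟨M, rfl⟩ : ∃ M, N = M + 1 := ⟨N - 1, by omega⟩
  simp only [Nat.add_sub_cancel]
  have h2 : ∀ i ∈ Ioc a M, ‖g (i + 1) - g i‖ = -(g (i + 1) - g i) := by
    intro i hi
    rw [Real.norm_eq_abs, abs_of_nonpos (sub_nonpos.2 (hg i (Finset.mem_Ioc.1 hi).1))]
  rw [Finset.sum_congr rfl h2, Finset.sum_neg_distrib, tele_Ioc g a M (by omega),
    Real.norm_eq_abs, abs_of_nonneg (hg0 _)]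
  linarith

/-- one sided Abel summation -/
lemma abel_onesided (b g : ℕ → ℝ) (κ : ℝ) (N : ℕ)
    (hB : ∀ n, n ≤ N → ∑ i ∈ Ioc 0 n, b i ≤ κ * n)
    (hg0 : ∀ i, 0 ≤ g i) (hg : ∀ i, 0 < i → g (i + 1) ≤ g i) :
    ∑ i ∈ Ioc 0 N, b i * g i ≤ κ * ∑ i ∈ Ioc 0 N, g i := by
  have key : ∀ n, n ≤ N → ∑ i ∈ Ioc 0 n, (b i - κ) * g i
      ≤ (∑ i ∈ Ioc 0 n, b i - κ * n) * g n := by
    intro n hn
    induction n with
    | zero => simp
    | succ n ih =>
      rw [Finset.sum_Ioc_succ_top (Nat.zero_le n), Finset.sum_Ioc_succ_top (Nat.zero_le n)]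
      have h1 := ih (by omega)
      have h2 := hB n (by omega)
      rcases Nat.eq_zero_or_pos n with rfl | hn0
      · simp
      · have h3 := hg n hn0
        push_cast
        nlinarith
  have h1 := key N le_rfl
  have h2 : (∑ i ∈ Ioc 0 N, b i - κ * N) * g N ≤ 0 :=
    mul_nonpos_of_nonpos_of_nonneg (sub_nonpos.2 (hB N le_rfl)) (hg0 _)
  have h3 : ∑ i ∈ Ioc 0 N, (b i - κ) * g i = ∑ i ∈ Ioc 0 N, b i * g i - κ * ∑ i ∈ Ioc 0 N, g i := by
    rw [Finset.mul_sum, ← Finset.sum_sub_distrib]; exact Finset.sum_congr rfl fun i _ => by ring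
  linarith

lemma sum_inv_le (N : ℕ) : ∑ i ∈ Ioc 0 N, (1 / (i : ℝ)) ≤ 1 + Real.log N := by
  have h := harmonic_le_one_add_log N
  rw [harmonic_eq_sum_Icc] at h
  push_cast at h
  have : Ioc 0 N = Icc 1 N := by ext; simp; omega
  rw [this]; simpa using h

lemma sum_inv_sqrt_le (N : ℕ) : ∑ i ∈ Ioc 0 N, (1 / √(i : ℝ)) ≤ 2 * √(N : ℝ) := by
  induction N with
  | zero => simp
  | succ N ih =>
    rw [Finset.sum_Ioc_succ_top (Nat.zero_le N)]
    have h1 : 0 < √((N + 1 : ℕ) : ℝ) := Real.sqrt_pos.2 (by positivity)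
    have h2 : √(N : ℝ) ^ 2 = N := Real.sq_sqrt (by positivity)
    have h3 : √((N + 1 : ℕ) : ℝ) ^ 2 = N + 1 := by rw [Real.sq_sqrt (by positivity)]; push_cast; ring
    have h4 : 1 / √((N + 1 : ℕ) : ℝ) ≤ 2 * √((N + 1 : ℕ) : ℝ) - 2 * √(N : ℝ) := by
      rw [div_le_iff₀ h1]; nlinarith [sq_nonneg (√((N + 1 : ℕ) : ℝ) - √(N : ℝ))]
    linarith

/-- `∑_{d ≤ Y} log (Y / d) ^ K ≤ C Y` -/
lemma sum_log_pow_le (K : ℕ) : ∃ C : ℝ, 0 < C ∧ ∀ Y : ℕ,
    ∑ d ∈ Ioc 0 Y, Real.log ((Y : ℝ) / d) ^ K ≤ C * Y := by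
  refine ⟨2 * (2 * (K + 1)) ^ K, by positivity, fun Y => ?_⟩
  have h1 : ∀ d ∈ Ioc 0 Y, Real.log ((Y : ℝ) / d) ^ K ≤ (2 * (K + 1)) ^ K * √(Y : ℝ) * (1 / √(d : ℝ)) := by
    intro d hd
    obtain ⟨hd0, hdY⟩ := Finset.mem_Ioc.1 hd
    have hd' : (0 : ℝ) < d := by exact_mod_cast hd0
    have hu : 1 ≤ (Y : ℝ) / d := by rw [le_div_iff₀ hd', one_mul]; exact_mod_cast hdY
    set u := (Y : ℝ) / d with hu'
    have h2 : Real.log u ≤ u ^ (1 / (2 * (K + 1) : ℝ)) / (1 / (2 * (K + 1) : ℝ)) :=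
      Real.log_le_rpow_div (by linarith) (by positivity)
    have h3 : Real.log u ^ K ≤ (2 * (K + 1) * u ^ (1 / (2 * (K + 1) : ℝ))) ^ K := by
      apply pow_le_pow_left₀ (Real.log_nonneg hu)
      refine h2.trans (le_of_eq ?_); field_simp
    have h4 : (u ^ (1 / (2 * (K + 1) : ℝ))) ^ K ≤ √u := by
      rw [← Real.rpow_natCast, ← Real.rpow_mul (by linarith), Real.sqrt_eq_rpow]
      apply Real.rpow_le_rpow_of_exponent_le hu
      rw [div_mul_eq_mul_div, div_le_div_iff₀ (by positivity) (by positivity)]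
      nlinarith [(Nat.cast_nonneg K : (0 : ℝ) ≤ K)]
    have h5 : √u = √(Y : ℝ) * (1 / √(d : ℝ)) := by
      rw [hu', Real.sqrt_div (by positivity)]; ring
    rw [mul_pow] at h3
    calc _ ≤ _ := h3
      _ ≤ (2 * (K + 1)) ^ K * √u := mul_le_mul_of_nonneg_left h4 (by positivity)
      _ = _ := by rw [h5]; ring
  refine (Finset.sum_le_sum h1).trans ?_
  rw [← Finset.mul_sum]
  have h6 := sum_inv_sqrt_le Y
  have h7 : √(Y : ℝ) * √(Y : ℝ) = Y := Real.mul_self_sqrt (by positivity)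
  calc _ ≤ (2 * (K + 1)) ^ K * √(Y : ℝ) * (2 * √(Y : ℝ)) :=
        mul_le_mul_of_nonneg_left h6 (by positivity)
    _ = 2 * (2 * (K + 1)) ^ K * (√(Y : ℝ) * √(Y : ℝ)) := by ring
    _ = _ := by rw [h7]

end Pool.Agent.P.MP_e86632_nt
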