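import Pool.Agent.P.MP_e86632_nt.TypeI2

/-! Mass of `Lam 8` on Bohr sets. -/

namespace Pool.Agent.P.MP_e86632_nt

open Finset Real ArithmeticFunction Filter

lemma sum_norm_sq_le {ι κ : Type*} (s : Finset ι) (t : Finset κ) (w : ι → ℝ) (c : ι → κ → ℂ) :
    ∑ n ∈ s, w n * ‖∑ l ∈ t, c n l‖ ^ 2
      ≤ ∑ l ∈ t, ∑ l' ∈ t, ‖∑ n ∈ s, (w n : ℂ) * (c n l * (starRingEnd ℂ) (c n l'))‖ := by
  have e : ((∑ n ∈ s, w n * ‖∑ l ∈ t, c n l‖ ^ 2 : ℝ) : ℂ)
      = ∑ l ∈ t, ∑ l' ∈ t, ∑ n ∈ s, (w n : ℂ) * (c n l * (starRingEnd ℂ) (c n l')) := by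
    push_cast
    have : ∀ n ∈ s, (w n : ℂ) * ((‖∑ l ∈ t, c n l‖ : ℝ) : ℂ) ^ 2
        = ∑ l ∈ t, ∑ l' ∈ t, (w n : ℂ) * (c n l * (starRingEnd ℂ) (c n l')) := by
      intro n _
      rw [← Complex.mul_conj', map_sum, Finset.sum_mul_sum, Finset.mul_sum]
      exact Finset.sum_congr rfl fun l _ => Finset.mul_sum _ _ _
    rw [Finset.sum_congr rfl this, Finset.sum_comm]
    exact Finset.sum_congr rfl fun l _ => Finset.sum_comm
  refine (le_abs_self _).trans ?_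
  rw [← Real.norm_eq_abs, ← Complex.norm_real, e]
  exact (norm_sum_le _ _).trans (Finset.sum_le_sum fun l _ => norm_sum_le _ _)

lemma Maj_of_int {Q : ℕ} {Y φ : ℝ} {g a : ℤ} (hg : g ≠ 0) (hgQ : |g| ≤ Q)
    (h : |g * φ - a| ≤ Q / Y) : Maj Q Y φ := by
  refine ⟨g.natAbs, Int.natAbs_pos.2 hg, by rw [← Int.natCast_natAbs] at hgQ; exact_mod_cast hgQ, g.sign * a, ?_⟩
  rcases lt_or_gt_of_ne hg with h0 | h0
  · rw [Nat.cast_natAbs, abs_of_neg h0, Int.sign_eq_neg_one_of_neg h0]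
    push_cast
    rwa [show -(g : ℝ) * φ - -1 * a = -(g * φ - a) by ring, abs_neg]
  · rw [Nat.cast_natAbs, abs_of_pos h0, Int.sign_eq_one_of_pos h0]
    simpa using h

lemma interval_mass : ∃ C : ℝ, 0 < C ∧ ∀ (N : ℕ) (L c r : ℝ), 1 ≤ L → Real.log N ≤ L → 0 ≤ r →
    ∑ n ∈ Ioc 0 N, (if |(n : ℝ) - c| ≤ r then Lam 8 n else 0) ≤ C * ((2 * r + 1) * L ^ 7 + N) := by
  obtain ⟨C, hC, h⟩ := short 7
  refine ⟨C, hC, fun N L c r hL hN hr => ?_⟩
  rw [← Finset.sum_filter]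
  rcases ((Ioc 0 N).filter fun n : ℕ => |(n : ℝ) - c| ≤ r).eq_empty_or_nonempty with h0 | h0
  · rw [h0]; simp; positivity
  obtain ⟨n₀, hn₀, hmin⟩ := Finset.exists_min_image _ (fun n => n) h0
  simp only [Finset.mem_filter, Finset.mem_Ioc] at hn₀ hmin
  have hsub : ((Ioc 0 N).filter fun n : ℕ => |(n : ℝ) - c| ≤ r)
      ⊆ Ioc (n₀ - 1) (min N (n₀ + ⌊2 * r⌋₊)) := by
    intro n hn
    simp only [Finset.mem_filter, Finset.mem_Ioc] at hn ⊢
    have h1 := hmin n hn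
    refine ⟨by omega, le_min hn.1.2 ?_⟩
    have h2 : ((n - n₀ : ℕ) : ℝ) ≤ 2 * r := by
      rw [Nat.cast_sub h1]
      have := abs_le.1 hn.2
      have := abs_le.1 hn₀.2
      linarith
    have := Nat.le_floor h2
    omega
  refine (Finset.sum_le_sum_of_subset_of_nonneg hsub fun _ _ _ => Lam_nonneg _ _).trans ?_
  refine (h _ _ N L (min_le_left _ _) hL hN).trans ?_
  have h3 : ((min N (n₀ + ⌊2 * r⌋₊) - (n₀ - 1) : ℕ) : ℝ) ≤ 2 * r + 1 := by
    have h4 : min N (n₀ + ⌊2 * r⌋₊) - (n₀ - 1) ≤ ⌊2 * r⌋₊ + 1 := by omega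
    have h5 : (⌊2 * r⌋₊ : ℝ) ≤ 2 * r := Nat.floor_le (by positivity)
    have : ((min N (n₀ + ⌊2 * r⌋₊) - (n₀ - 1) : ℕ) : ℝ) ≤ ((⌊2 * r⌋₊ + 1 : ℕ) : ℝ) := by
      exact_mod_cast h4
    push_cast at this ⊢
    linarith
  gcongr

lemma fejer_lower {H : ℕ} {z : ℝ} (hz : nn z * H ≤ 1 / 14) :
    (H : ℝ) / 2 ≤ ‖∑ l ∈ range H, ee (l * z)‖ := by
  have h1 : ‖∑ l ∈ range H, (ee (l * z) - 1)‖ ≤ H / 2 := by
    refine (norm_sum_le _ _).trans ?_
    refine (Finset.sum_le_sum (g := fun _ => (1 / 2 : ℝ)) fun l hl => ?_).trans (by simp; linarith)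
    have hl' : (l : ℝ) ≤ H := by exact_mod_cast (Finset.mem_range.1 hl).le
    rw [← ee_sub_int _ (l * round z)]
    refine (norm_ee_sub_one_le _).trans ?_
    have e : (l : ℝ) * z - ((l * round z : ℤ) : ℝ) = l * (z - round z) := by push_cast; ring
    rw [e, abs_mul, Nat.abs_cast]
    change 2 * π * (l * nn z) ≤ 1 / 2
    have hpi : π ≤ 7 / 2 := by have := Real.pi_lt_d2; linarith
    have h2 : l * nn z ≤ 1 / 14 := by nlinarith [nn_nonneg z]
    have h3 : 0 ≤ l * nn z := mul_nonneg (by positivity) (nn_nonneg z)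
    nlinarith
  rw [Finset.sum_sub_distrib] at h1
  simp only [Finset.sum_const, Finset.card_range, nsmul_eq_mul, mul_one] at h1
  have h2 := norm_sub_norm_le (H : ℂ) (∑ l ∈ range H, ee (l * z))
  rw [norm_sub_rev, Complex.norm_natCast] at h2
  linarith

theorem bohr {ε : ℝ} (hε : 0 < ε) (Q₁ : ℕ) : ∃ Q₂ Z₀ : ℕ, 0 < Q₂ ∧ ∀ (x M N : ℕ) (L φ : ℝ),
    Z₀ ≤ M → Z₀ ≤ N → 0 < x → (x : ℝ) ≤ 2 * M * N → Real.log N ≤ L → ¬ Maj Q₂ x φ → ∀ n' : ℕ, n' ≤ N →
    ∑ n ∈ Ioc 0 N, (if nn (((n : ℝ) - n') * φ) ≤ Q₁ / M then Lam 8 n else 0) ≤ ε * N * L ^ 7 := by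
  obtain ⟨C₁, hC₁, h₁⟩ := cheb 7
  obtain ⟨C₂, hC₂, h₂⟩ := interval_mass
  obtain ⟨H, hH⟩ := exists_nat_ge (8 * C₁ / ε + 1)
  have hH0 : (0 : ℝ) < H := lt_of_lt_of_le (by positivity) hH
  obtain ⟨Q₃, hQ₃, h₃⟩ := typeI (ε := ε / 8) (by positivity)
  set K : ℝ := (2 * Q₃ + 3) * C₂ with hK
  have hK0 : 0 < K := by positivity
  obtain ⟨Q₂, hQ₂⟩ := exists_nat_ge (H * Q₃ + 1 + 12 * K * H * Q₃ * Q₁ / ε)
  obtain ⟨Z₁, hZ₁⟩ := eventually_atTop.1 (h₃.and ((ev_log 1).and (ev_log (3 * K / ε))))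
  obtain ⟨Z₂, hZ₂⟩ := exists_nat_ge (14 * Q₁ * H + H * Q₃ * Q₁ + 1 + 3 * K / ε)
  have hQ₂' : (H : ℝ) * Q₃ + 1 ≤ Q₂ := le_trans (le_add_of_nonneg_right (by positivity)) hQ₂
  have hQ₂0 : (0 : ℝ) < Q₂ := lt_of_lt_of_le (by positivity) hQ₂'
  refine ⟨Q₂, max Z₁ Z₂, by exact_mod_cast hQ₂0, fun x M N L φ hM hN hx hxMN hL hφ n' hn' => ?_⟩
  obtain ⟨k₃, kL, kL2⟩ := hZ₁ N ((le_max_left _ _).trans hN)
  have hM2 : (Z₂ : ℝ) ≤ M := by exact_mod_cast (le_max_right _ _).trans hM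
  have hN2 : (Z₂ : ℝ) ≤ N := by exact_mod_cast (le_max_right _ _).trans hN
  have p1 : (0 : ℝ) ≤ 14 * Q₁ * H := by positivity
  have p2 : (0 : ℝ) ≤ H * Q₃ * Q₁ := by positivity
  have p3 : (0 : ℝ) ≤ 3 * K / ε := by positivity
  have hM0 : (0 : ℝ) < M := by linarith
  have hN0 : (0 : ℝ) < N := by linarith
  have hL1 : 1 ≤ L := kL.trans hL
  have hL7 : L ≤ L ^ 7 := le_self_pow₀ hL1 (by norm_num)
  by_cases hcase : ∀ h : ℤ, h ≠ 0 → |h| ≤ H → ¬ Maj Q₃ N (h * φ)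
  · have a1 : ∀ n ∈ Ioc 0 N, (if nn (((n : ℝ) - n') * φ) ≤ Q₁ / M then Lam 8 n else 0)
        ≤ 4 / H ^ 2 * (Lam 8 n * ‖∑ l ∈ range H, ee (l * (((n : ℝ) - n') * φ))‖ ^ 2) := by
      intro n _
      split_ifs with h
      · have b1 : nn (((n : ℝ) - n') * φ) * H ≤ 1 / 14 := by
          refine (mul_le_mul_of_nonneg_right h hH0.le).trans ?_
          rw [div_mul_eq_mul_div, div_le_div_iff₀ hM0 (by norm_num)]
          linarith
        have b2 := pow_le_pow_left₀ (by positivity) (fejer_lower b1) 2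
        have b3 := mul_le_mul_of_nonneg_left b2 (Lam_nonneg 8 n)
        refine le_trans (le_of_eq ?_) (mul_le_mul_of_nonneg_left b3 (by positivity))
        field_simp; ring
      · exact mul_nonneg (by positivity) (mul_nonneg (Lam_nonneg _ _) (by positivity))
    refine (Finset.sum_le_sum a1).trans ?_
    rw [← Finset.mul_sum]
    have a2 := sum_norm_sq_le (Ioc 0 N) (range H) (Lam 8) (fun n l => ee (l * (((n : ℝ) - n') * φ)))
    have a3 : ∀ l ∈ range H, ∀ l' ∈ range H, ‖∑ n ∈ Ioc 0 N, (Lam 8 n : ℂ) *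
        (ee (l * (((n : ℝ) - n') * φ)) * (starRingEnd ℂ) (ee (l' * (((n : ℝ) - n') * φ))))‖
        ≤ (if l' = l then C₁ * N * L ^ 7 else 0) + ε / 8 * N * L ^ 7 := by
      intro l hl l' hl'
      have e : ∀ n : ℕ, (Lam 8 n : ℂ) *
          (ee (l * (((n : ℝ) - n') * φ)) * (starRingEnd ℂ) (ee (l' * (((n : ℝ) - n') * φ))))
          = ee (-(n' * ((((l : ℤ) - l' : ℤ) : ℝ) * φ)))
            * ((Lam 8 n : ℂ) * ee (n * ((((l : ℤ) - l' : ℤ) : ℝ) * φ))) := by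
        intro n
        rw [← ee_neg, ← ee_add, mul_left_comm (ee _), ← ee_add]
        congr 2; push_cast; ring
      simp_rw [e]
      rw [← Finset.mul_sum, norm_mul, norm_ee, one_mul]
      split_ifs with h
      · refine (norm_sum_ee_le _ (Lam_nonneg 8) _ _).trans ((h₁ N L hL1 hL).trans ?_)
        exact le_add_of_nonneg_right (by positivity)
      · rw [zero_add]
        have := Finset.mem_range.1 hl
        have := Finset.mem_range.1 hl'
        refine (k₃ _ (hcase _ (by omega) (by rw [abs_le]; omega)) N le_rfl).trans ?_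
        have := pow_le_pow_left₀ (log_nat_nonneg N) hL 7
        gcongr
    have a4 := a2.trans (Finset.sum_le_sum fun l hl => Finset.sum_le_sum (a3 l hl))
    have a5 : ∑ l ∈ range H, ∑ l' ∈ range H,
        ((if l' = l then C₁ * N * L ^ 7 else 0) + ε / 8 * N * L ^ 7)
        = H * (C₁ * N * L ^ 7 + H * (ε / 8 * N * L ^ 7)) := by
      rw [Finset.sum_congr rfl (g := fun _ => C₁ * N * L ^ 7 + H * (ε / 8 * N * L ^ 7))]
      · simp only [Finset.sum_const, Finset.card_range, nsmul_eq_mul]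
      · intro l hl
        rw [Finset.sum_add_distrib, Finset.sum_ite_eq', if_pos hl]; simp
    rw [a5] at a4
    refine (mul_le_mul_of_nonneg_left a4 (by positivity)).trans ?_
    have e : 4 / (H : ℝ) ^ 2 * (H * (C₁ * N * L ^ 7 + H * (ε / 8 * N * L ^ 7)))
        = (4 * C₁ / H + ε / 2) * (N * L ^ 7) := by field_simp; ring
    rw [e, mul_assoc]
    refine mul_le_mul_of_nonneg_right ?_ (by positivity)
    have : 4 * C₁ / H ≤ ε / 2 := by
      rw [div_le_iff₀ hH0]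
      have : 8 * C₁ / ε ≤ H := by linarith
      rw [div_le_iff₀ hε] at this; linarith
    linarith
  · push Not at hcase
    obtain ⟨h, h0, hH', q, hq0, hqQ, a, ha⟩ := hcase
    set g : ℤ := q * h with hg
    have hg0 : g ≠ 0 := mul_ne_zero (by omega) h0
    have hgb : (|g| : ℝ) ≤ H * Q₃ := by
      have c1 : |(h : ℝ)| ≤ H := by exact_mod_cast hH'
      have c2 : (q : ℝ) ≤ Q₃ := by exact_mod_cast hqQ
      rw [hg]; push_cast; rw [abs_mul, Nat.abs_cast, mul_comm]; gcongr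
    set β : ℝ := g * φ - a with hβ
    have hβ1 : |β| ≤ Q₃ / N := by
      rw [hβ, hg]; push_cast; rwa [mul_assoc]
    have hβ2 : (Q₂ : ℝ) / x < |β| := by
      by_contra hcon
      push Not at hcon
      refine hφ (Maj_of_int hg0 ?_ hcon)
      have : (|g| : ℝ) ≤ Q₂ := by linarith
      exact_mod_cast this
    have hx' : (0 : ℝ) < x := by exact_mod_cast hx
    have hβ0 : 0 < |β| := lt_trans (by positivity) hβ2
    set r : ℝ := 2 * H * Q₃ * Q₁ / Q₂ * N with hr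
    have hr0 : 0 ≤ r := by positivity
    have a1 : ∀ n ∈ Ioc 0 N, (if nn (((n : ℝ) - n') * φ) ≤ Q₁ / M then Lam 8 n else 0)
        ≤ ∑ i ∈ Icc (-(Q₃ + 1 : ℤ)) (Q₃ + 1),
          (if |(n : ℝ) - (n' + i / β)| ≤ r then Lam 8 n else 0) := by
      intro n hn
      have hnonneg : ∀ i ∈ Icc (-(Q₃ + 1 : ℤ)) (Q₃ + 1),
          0 ≤ (if |(n : ℝ) - (n' + i / β)| ≤ r then Lam 8 n else 0) := by
        intro i _; split_ifs; exacts [Lam_nonneg _ _, le_rfl]
      split_ifs with hb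
      swap
      · exact Finset.sum_nonneg hnonneg
      set k := round (((n : ℝ) - n') * φ) with hk
      set i : ℤ := g * k - (n - n') * a with hi
      have b1 : |((n : ℝ) - n') * β - i| ≤ H * Q₃ * (Q₁ / M) := by
        have e : ((n : ℝ) - n') * β - i = g * (((n : ℝ) - n') * φ - k) := by
          rw [hβ, hi]; push_cast; ring
        rw [e, abs_mul]
        exact mul_le_mul hgb hb (abs_nonneg _) (by positivity)
      have b2 : H * Q₃ * ((Q₁ : ℝ) / M) ≤ 1 := by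
        rw [← mul_div_assoc, div_le_one hM0]; linarith
      have b3 : |((n : ℝ) - n') * β| ≤ Q₃ := by
        have c1 : (n : ℝ) ≤ N := by exact_mod_cast (Finset.mem_Ioc.1 hn).2
        have c2 : (n' : ℝ) ≤ N := by exact_mod_cast hn'
        have c3 : |(n : ℝ) - n'| ≤ N := by
          rw [abs_le]; constructor <;> linarith [(Nat.cast_nonneg n : (0 : ℝ) ≤ n),
            (Nat.cast_nonneg n' : (0 : ℝ) ≤ n')]
        rw [abs_mul]
        refine (mul_le_mul c3 hβ1 (abs_nonneg _) hN0.le).trans (le_of_eq ?_)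
        field_simp
      have b4 : i ∈ Icc (-(Q₃ + 1 : ℤ)) (Q₃ + 1) := by
        rw [Finset.mem_Icc, ← abs_le]
        have : |(i : ℝ)| ≤ Q₃ + 1 := by
          rw [abs_le] at b1 b3 ⊢; constructor <;> linarith [b1.1, b1.2, b3.1, b3.2]
        exact_mod_cast this
      refine le_trans (le_of_eq ?_) (Finset.single_le_sum hnonneg b4)
      rw [if_pos]
      have hβne : β ≠ 0 := abs_pos.1 hβ0
      have e : (n : ℝ) - (n' + i / β) = (((n : ℝ) - n') * β - i) / β := by field_simp; ring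
      rw [e, abs_div, div_le_iff₀ hβ0]
      refine b1.trans (le_trans ?_ (mul_le_mul_of_nonneg_left hβ2.le hr0))
      have e2 : r * (Q₂ / x) = H * Q₃ * Q₁ * (2 * N / x) := by rw [hr]; field_simp
      have e3 : H * Q₃ * ((Q₁ : ℝ) / M) = H * Q₃ * Q₁ * (1 / M) := by ring
      rw [e2, e3]
      refine mul_le_mul_of_nonneg_left ?_ p2
      rw [div_le_div_iff₀ hM0 hx']; linarith
    refine (Finset.sum_le_sum a1).trans ?_
    rw [Finset.sum_comm]
    refine (Finset.sum_le_sum fun i _ => h₂ N L _ r hL1 hL hr0).trans ?_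
    rw [Finset.sum_const, Int.card_Icc, nsmul_eq_mul]
    have e : (((Q₃ + 1 : ℤ) + 1 - -(Q₃ + 1 : ℤ)).toNat : ℝ) = 2 * Q₃ + 3 := by
      have : ((Q₃ + 1 : ℤ) + 1 - -(Q₃ + 1 : ℤ)).toNat = 2 * Q₃ + 3 := by omega
      rw [this]; push_cast; ring
    rw [e, ← mul_assoc, ← hK]
    have c1 : K * (2 * r) ≤ ε / 3 * N := by
      have d1 : 12 * K * H * Q₃ * Q₁ / ε ≤ Q₂ := le_trans (le_add_of_nonneg_left (by positivity)) hQ₂
      rw [div_le_iff₀ hε] at d1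
      have e2 : K * (2 * r) = (4 * K * H * Q₃ * Q₁ / Q₂) * N := by rw [hr]; ring
      rw [e2]
      refine mul_le_mul_of_nonneg_right ?_ hN0.le
      rw [div_le_iff₀ hQ₂0]; linarith
    have c2 : K ≤ ε / 3 * N := by
      have : 3 * K / ε ≤ N := by linarith
      rw [div_le_iff₀ hε] at this; linarith
    have c3 : K ≤ ε / 3 * L ^ 7 := by
      have : 3 * K / ε ≤ L ^ 7 := by linarith
      rw [div_le_iff₀ hε] at this; linarith
    have c4 : 0 ≤ L ^ 7 := by positivity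
    nlinarith

end Pool.Agent.P.MP_e86632_nt
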