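import Mathlib

/-! Definitions: lower density, the function `f*`, and the finite problems modulo `q`. -/

namespace Pool.Agent.P.MP_e86632_nt

open Filter Pointwise

/-- lower asymptotic density `liminf A(n) / n`, with `A(n) = #{a ∈ A : 1 ≤ a ≤ n}` -/
noncomputable def lowerDensity (A : Set ℕ) : ℝ :=
  liminf (fun n : ℕ => ((A ∩ Set.Icc 1 n).ncard : ℝ) / n) atTop

/-- `f*(x)`: infimum of the lower density of `A + primes` over sets `A` of positive integers with
lower density `x` -/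
noncomputable def fstar (x : ℝ) : ℝ :=
  sInf {y | ∃ A : Set ℕ, 0 ∉ A ∧ lowerDensity A = x ∧ lowerDensity (A + {p | p.Prime}) = y}

/-- admissible pair of weights modulo `q` -/
def Admissible (q : ℕ) (α β : ZMod q → ℝ) : Prop :=
  (∀ s, 0 ≤ α s) ∧ (∀ t, β t ≤ 1) ∧ (∀ s, ∀ p : ℕ, p.Prime → α s ≤ β (s + p)) ∧
    ∀ s, ∀ u : (ZMod q)ˣ, 0 < α s → β (s + u) = 1

/-- value of the finite problem modulo `q` -/
noncomputable def F (q : ℕ+) (x : ℝ) : ℝ :=
  sInf {y | ∃ α β : ZMod q → ℝ, Admissible q α β ∧ x ≤ (∑ s, α s) / q ∧ y = (∑ s, β s) / q}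

end Pool.Agent.P.MP_e86632_nt
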