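import Pool.Agent.P.MP_e86632_nt.Main

/-! Explicit lower bounds for `f*`. -/

namespace Pool.Agent.P.MP_e86632_nt

open Finset Real Filter Pointwise Topology

/-- the hyperbola inequality -/
def H (K a c : ℝ) : Prop := K * (a * c) ≤ (1 - a) * (1 - c)

lemma H.mono {K K' a a' c c' : ℝ} (h : H K a c) (hK : K' ≤ K) (hK0 : 0 ≤ K) (ha0 : 0 ≤ a')
    (ha : a' ≤ a) (ha1 : a ≤ 1) (hc0 : 0 ≤ c') (hc : c' ≤ c) (hc1 : c ≤ 1) : H K' a' c' := by
  unfold H at *
  have h1 : a' * c' ≤ a * c := mul_le_mul ha hc hc0 (ha0.trans ha)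
  have h2 : (1 - a) * (1 - c) ≤ (1 - a') * (1 - c') :=
    mul_le_mul (by linarith) (by linarith) (by linarith) (by linarith)
  have h3 : K' * (a' * c') ≤ K * (a * c) := mul_le_mul hK h1 (mul_nonneg ha0 hc0) hK0
  linarith

lemma core2 {A C x y : ℝ} (hx : 0 ≤ x) (hy : 0 ≤ y) (hAC : A + C ≤ 1) (hxA : x ≤ A) (hyC : y ≤ C)
    (h1 : H 16 x C) (h2 : H 16 A y) : H 12 ((A + 2 * x) / 3) ((C + 2 * y) / 3) := by
  unfold H at *
  have hA : 0 ≤ A := hx.trans hxA
  have hC : 0 ≤ C := hy.trans hyC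
  rcases le_total A (1/5) with a1 | a1
  · rcases le_total C (1/5) with c1 | c1
    · nlinarith [mul_nonneg hx hy]
    · nlinarith [mul_nonneg hx hy, mul_nonneg hA hy, mul_nonneg hx hC,
        mul_nonneg (sub_nonneg.2 a1) (sub_nonneg.2 c1),
        mul_nonneg (sub_nonneg.2 hxA) (sub_nonneg.2 hyC),
        mul_nonneg (sub_nonneg.2 a1) (sub_nonneg.2 hyC)]
  · rcases le_total C (1/5) with c1 | c1
    · nlinarith [mul_nonneg hx hy, mul_nonneg hA hy, mul_nonneg hx hC,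
        mul_nonneg (sub_nonneg.2 a1) (sub_nonneg.2 c1),
        mul_nonneg (sub_nonneg.2 hxA) (sub_nonneg.2 hyC),
        mul_nonneg (sub_nonneg.2 c1) (sub_nonneg.2 hxA)]
    · nlinarith [mul_nonneg hx hy, mul_nonneg hA hy, mul_nonneg hx hC,
        mul_nonneg (sub_nonneg.2 a1) (sub_nonneg.2 c1), sq_nonneg (A - C), sq_nonneg (x - y)]

lemma lastc {A C x y : ℝ} (hx : 0 ≤ x) (hy : 0 ≤ y) (hAC : A + C ≤ 1) (a1 : 1/4 ≤ A) (c1 : 1/4 ≤ C)
    (h1 : H 12 x C) (h2 : H 12 A y) : H 6 ((A + x) / 2) ((C + y) / 2) := by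
  unfold H at *
  have hx1 : x * (1 + 11 * C) ≤ 1 - C := by nlinarith
  have hy1 : y * (1 + 11 * A) ≤ 1 - A := by nlinarith
  have hx2 : x ≤ (1 - C) / (1 + 11 * C) := by rw [le_div_iff₀ (by linarith)]; exact hx1
  have hy2 : y ≤ (1 - A) / (1 + 11 * A) := by rw [le_div_iff₀ (by linarith)]; exact hy1
  have key : 5 * ((A + (1 - C) / (1 + 11 * C)) * (C + (1 - A) / (1 + 11 * A)))
     + 2 * (A + (1 - C) / (1 + 11 * C)) + 2 * (C + (1 - A) / (1 + 11 * A)) ≤ 4 := by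
    have hA : 0 < 1 + 11 * A := by linarith
    have hC : 0 < 1 + 11 * C := by linarith
    rw [← sub_nonneg]
    have e : 4 - (5 * ((A + (1 - C) / (1 + 11 * C)) * (C + (1 - A) / (1 + 11 * A)))
        + 2 * (A + (1 - C) / (1 + 11 * C)) + 2 * (C + (1 - A) / (1 + 11 * A)))
        = (4 * (1 + 11 * A) * (1 + 11 * C)
          - 5 * (A * (1 + 11 * C) + 1 - C) * (C * (1 + 11 * A) + 1 - A)
          - 2 * (A * (1 + 11 * C) + 1 - C) * (1 + 11 * A)
          - 2 * (C * (1 + 11 * A) + 1 - A) * (1 + 11 * C)) / ((1 + 11 * A) * (1 + 11 * C)) := by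
      field_simp; ring
    rw [e]
    apply div_nonneg _ (by positivity)
    nlinarith [mul_nonneg (sub_nonneg.2 a1) (sub_nonneg.2 c1), sq_nonneg (A - C),
      mul_nonneg (sub_nonneg.2 hAC) (mul_nonneg (sub_nonneg.2 a1) (sub_nonneg.2 c1)),
      mul_nonneg (sub_nonneg.2 hAC) (sq_nonneg (A - C)),
      mul_nonneg (sq_nonneg (A - C)) (mul_nonneg (sub_nonneg.2 a1) (sub_nonneg.2 c1)),
      sq_nonneg (A * C - 1/4), mul_nonneg (sub_nonneg.2 hAC) (sub_nonneg.2 a1),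
      mul_nonneg (sub_nonneg.2 hAC) (sub_nonneg.2 c1)]
  nlinarith [mul_le_mul (add_le_add_left hx2 A) (add_le_add_left hy2 C) (by linarith) (by linarith)]

lemma core1 {A C x y : ℝ} (hx : 0 ≤ x) (hy : 0 ≤ y) (hAC : A + C ≤ 1) (hxA : x ≤ A) (hyC : y ≤ C)
    (h1 : H 12 x C) (h2 : H 12 A y) : H 6 ((A + x) / 2) ((C + y) / 2) := by
  have hA : 0 ≤ A := hx.trans hxA
  have hC : 0 ≤ C := hy.trans hyC
  rcases le_total A (1/4) with a1 | a1
  · unfold H at *
    rcases le_total C (1/4) with c1 | c1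
    · nlinarith [mul_nonneg hx hy]
    · nlinarith [mul_nonneg hx hy, mul_nonneg hA hy, mul_nonneg hx hC,
        mul_nonneg (sub_nonneg.2 a1) (sub_nonneg.2 c1),
        mul_nonneg (sub_nonneg.2 hxA) (sub_nonneg.2 hyC),
        mul_nonneg (sub_nonneg.2 a1) (sub_nonneg.2 hyC)]
  · rcases le_total C (1/4) with c1 | c1
    · unfold H at *
      nlinarith [mul_nonneg hx hy, mul_nonneg hA hy, mul_nonneg hx hC,
        mul_nonneg (sub_nonneg.2 a1) (sub_nonneg.2 c1),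
        mul_nonneg (sub_nonneg.2 hxA) (sub_nonneg.2 hyC),
        mul_nonneg (sub_nonneg.2 c1) (sub_nonneg.2 hxA)]
    · exact lastc hx hy hAC a1 c1 h1 h2

/-- three classes, the first one extremal for `a` -/
lemma three_aux {a1 a2 a3 c1 c2 c3 : ℝ} (p2 : 0 ≤ a2) (p3 : 0 ≤ a3) (q1 : 0 ≤ c1) (q2 : 0 ≤ c2)
    (q3 : 0 ≤ c3) (l1 : a1 + c1 ≤ 1) (l2 : a2 + c2 ≤ 1) (l3 : a3 + c3 ≤ 1) (m2 : a2 ≤ a1)
    (m3 : a3 ≤ a1) (h12 : H 16 a1 c2) (h13 : H 16 a1 c3) (h21 : H 16 a2 c1) (h31 : H 16 a3 c1) :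
    H 12 ((a1 + a2 + a3) / 3) ((c1 + c2 + c3) / 3) := by
  have hx : H 16 (max a2 a3) c1 := by rcases le_total a2 a3 with k | k <;> simp [*]
  have hy : H 16 a1 (max c2 c3) := by rcases le_total c2 c3 with k | k <;> simp [*]
  have b1 := le_max_left a2 a3
  have b2 := le_max_right a2 a3
  have b3 := le_max_left c2 c3
  have b4 := le_max_right c2 c3
  have b5 : max a2 a3 ≤ a1 := max_le m2 m3
  have b6 : max c2 c3 ≤ 1 := max_le (by linarith) (by linarith)
  rcases le_total (max c2 c3) c1 with k | k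
  · exact (core2 (by linarith) (by linarith) l1 b5 k hx hy).mono le_rfl (by norm_num)
      (by linarith) (by linarith) (by linarith) (by linarith) (by linarith) (by linarith)
  · exact hy.mono (by norm_num) (by norm_num) (by linarith) (by linarith) (by linarith)
      (by linarith) (by linarith) b6

lemma three {a1 a2 a3 c1 c2 c3 : ℝ} (p1 : 0 ≤ a1) (p2 : 0 ≤ a2) (p3 : 0 ≤ a3) (q1 : 0 ≤ c1)
    (q2 : 0 ≤ c2) (q3 : 0 ≤ c3) (l1 : a1 + c1 ≤ 1) (l2 : a2 + c2 ≤ 1) (l3 : a3 + c3 ≤ 1)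
    (h12 : H 16 a1 c2) (h13 : H 16 a1 c3) (h21 : H 16 a2 c1) (h23 : H 16 a2 c3)
    (h31 : H 16 a3 c1) (h32 : H 16 a3 c2) :
    H 12 ((a1 + a2 + a3) / 3) ((c1 + c2 + c3) / 3) := by
  have k2 : a1 ≤ a2 → a3 ≤ a2 → H 12 ((a1 + a2 + a3) / 3) ((c1 + c2 + c3) / 3) := fun k k' => by
    have := three_aux p1 p3 q2 q1 q3 l2 l1 l3 k k' h21 h23 h12 h32
    rwa [add_comm a2 a1, add_comm c2 c1] at this
  have k3 : a1 ≤ a3 → a2 ≤ a3 → H 12 ((a1 + a2 + a3) / 3) ((c1 + c2 + c3) / 3) := fun k k' => by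
    have := three_aux p1 p2 q3 q1 q2 l3 l1 l2 k k' h31 h32 h13 h23
    rwa [show a3 + a1 + a2 = a1 + a2 + a3 by ring, show c3 + c1 + c2 = c1 + c2 + c3 by ring] at this
  rcases le_total a1 a2 with k | k
  · rcases le_total a2 a3 with k' | k'
    · exact k3 (k.trans k') k'
    · exact k2 k k'
  · rcases le_total a1 a3 with k' | k'
    · exact k3 k' (k.trans k')
    · exact three_aux p2 p3 q1 q2 q3 l1 l2 l3 k k' h12 h13 h21 h31

lemma two_aux {a1 a2 c1 c2 : ℝ} (p2 : 0 ≤ a2) (q1 : 0 ≤ c1) (q2 : 0 ≤ c2) (l1 : a1 + c1 ≤ 1)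
    (l2 : a2 + c2 ≤ 1) (m : a2 ≤ a1) (h12 : H 12 a1 c2) (h21 : H 12 a2 c1) :
    H 6 ((a1 + a2) / 2) ((c1 + c2) / 2) := by
  rcases le_total c2 c1 with k | k
  · exact core1 p2 q2 l1 m k h21 h12
  · exact h12.mono (by norm_num) (by norm_num) (by linarith) (by linarith) (by linarith)
      (by linarith) (by linarith) (by linarith)

lemma Rel.hyp {a c : ℕ → ℝ} (h : Rel 6 4 a c) : H 6 (mean 6 a) (mean 6 c) := by
  have hh : ∀ n u m, u.Coprime 6 → (n + u = m ∨ n + u = m + 6) → H 16 (a n) (c m) := by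
    intro n u m hu hm
    have := h.hof n u hu
    rcases hm with hm | hm <;> rw [hm] at this
    · unfold H; norm_num at this; exact this
    · rw [h.pc] at this; unfold H; norm_num at this; exact this
  have hl : ∀ n p m, p.Prime → (n + p = m ∨ n + p = m + 6) → a n + c m ≤ 1 := by
    intro n p m hp hm
    have := h.loc n p hp
    rcases hm with hm | hm <;> rw [hm] at this
    · exact this
    · rwa [h.pc] at this
  have u1 : Nat.Coprime 1 6 := by norm_num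
  have u5 : Nat.Coprime 5 6 := by norm_num
  have t2 := Nat.prime_two
  have t3 := Nat.prime_three
  have e1 := three (h.a0 0) (h.a0 2) (h.a0 4) (h.c0 3) (h.c0 5) (h.c0 1) (hl 0 3 3 t3 (by simp))
    (hl 2 3 5 t3 (by simp)) (hl 4 3 1 t3 (by simp)) (hh 0 5 5 u5 (by simp)) (hh 0 1 1 u1 (by simp))
    (hh 2 1 3 u1 (by simp)) (hh 2 5 1 u5 (by simp)) (hh 4 5 3 u5 (by simp)) (hh 4 1 5 u1 (by simp))
  have e2 := three (h.a0 1) (h.a0 3) (h.a0 5) (h.c0 4) (h.c0 0) (h.c0 2) (hl 1 3 4 t3 (by simp))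
    (hl 3 3 0 t3 (by simp)) (hl 5 3 2 t3 (by simp)) (hh 1 5 0 u5 (by simp)) (hh 1 1 2 u1 (by simp))
    (hh 3 1 4 u1 (by simp)) (hh 3 5 2 u5 (by simp)) (hh 5 5 4 u5 (by simp)) (hh 5 1 0 u1 (by simp))
  have l0 := hl 0 2 2 t2 (by simp)
  have l1 := hl 1 2 3 t2 (by simp)
  have l2 := hl 2 2 4 t2 (by simp)
  have l3 := hl 3 2 5 t2 (by simp)
  have l4 := hl 4 2 0 t2 (by simp)
  have l5 := hl 5 2 1 t2 (by simp)
  have := h.a0 0; have := h.a0 1; have := h.a0 2; have := h.a0 3; have := h.a0 4; have := h.a0 5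
  have := h.c0 0; have := h.c0 1; have := h.c0 2; have := h.c0 3; have := h.c0 4; have := h.c0 5
  have ma : mean 6 a = ((a 0 + a 2 + a 4) / 3 + (a 1 + a 3 + a 5) / 3) / 2 := by
    simp [mean, Finset.sum_range_succ]; ring
  have mc : mean 6 c = ((c 4 + c 0 + c 2) / 3 + (c 3 + c 5 + c 1) / 3) / 2 := by
    simp [mean, Finset.sum_range_succ]; ring
  rcases le_total ((a 0 + a 2 + a 4) / 3) ((a 1 + a 3 + a 5) / 3) with k | k
  · rw [ma, mc, add_comm ((a 0 + a 2 + a 4) / 3), add_comm ((c 4 + c 0 + c 2) / 3)]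
    exact two_aux (by linarith) (by linarith) (by linarith) (by linarith) (by linarith) k e2 e1
  · rw [ma, mc]
    exact two_aux (by linarith) (by linarith) (by linarith) (by linarith) (by linarith) k e1 e2

theorem G_hyp {x : ℝ} (hx0 : 0 ≤ x) (hx : x ≤ 1) : G x ≤ (1 - x) / (1 + 5 * x) :=
  G_le hx fun q α γ hq h h1 => by
    have h2 := (h.rel (W := 6) (P := 4) hq (by norm_num) (by norm_num) fun p hp hd => by
      by_contra hc
      have := hp.two_le
      have : p ≤ 4 := by omega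
      interval_cases p <;> simp_all (config := {decide := true})).hyp
    rw [mean_avg h.pa (by norm_num), mean_avg h.pc (by norm_num)] at h2
    have h3 := h2.mono le_rfl (by norm_num) hx0 h1 (mean_le_one hq h.a1) (mean_nonneg h.c0) le_rfl
      (mean_le_one hq (h.c1 hq))
    unfold H at h3
    rw [le_div_iff₀ (by linarith)]
    linarith

lemma prod_Ioc_inv (P : ℕ) (hP : 0 < P) : ∏ n ∈ Ioc 1 P, (1 - (n : ℝ)⁻¹) = (P : ℝ)⁻¹ := by
  induction P, hP using Nat.le_induction with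
  | base => simp
  | succ P hP ih =>
    rw [Finset.prod_Ioc_succ_top hP, ih]
    have : (0 : ℝ) < P := by exact_mod_cast hP
    push_cast; field_simp; ring

lemma totient_fact (P : ℕ) (hP : 0 < P) : (P.factorial : ℝ) / P ≤ P.factorial.totient := by
  rw [totient_real, div_eq_mul_inv, ← prod_Ioc_inv P hP]
  refine mul_le_mul_of_nonneg_left ?_ (by positivity)
  refine Finset.prod_le_prod_of_subset_of_le_one (fun p hp => ?_) (fun n hn => ?_) fun n _ _ => ?_
  · have h1 := Nat.prime_of_mem_primeFactors hp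
    exact Finset.mem_Ioc.2 ⟨h1.one_lt, h1.dvd_factorial.1 (Nat.dvd_of_mem_primeFactors hp)⟩
  · have : (1 : ℝ) ≤ n := by exact_mod_cast (Finset.mem_Ioc.1 hn).1.le
    exact sub_nonneg.2 (inv_le_one_of_one_le₀ this)
  · exact sub_le_self _ (by positivity)

theorem G_small {x : ℝ} (hx : x ≤ 1) {P : ℕ} (hP : 0 < P) (hPx : 1 ≤ (P : ℝ) ^ 2 * x) :
    G x ≤ 1 - 1 / (2 * P) :=
  G_le hx fun q α γ hq h h1 => by
    set W := P.factorial with hWdef
    have hW : 0 < W := Nat.factorial_pos P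
    have hW' : (0 : ℝ) < W := by exact_mod_cast hW
    have hP' : (0 : ℝ) < P := by exact_mod_cast hP
    have h2 := h.rel (W := W) hq hW hP fun p hp hd => by
      rw [hp.dvd_factorial] at hd; omega
    rw [← mean_avg h.pa hW] at h1
    rw [← mean_avg h.pc hW]
    set a := avg W q α
    set c := avg W q γ
    obtain ⟨s, _, hs⟩ : ∃ s ∈ range W, x ≤ a s := by
      apply Finset.exists_le_of_sum_le ⟨0, Finset.mem_range.2 hW⟩
      rw [mean, le_div_iff₀ hW'] at h1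
      simpa [mul_comm] using h1
    have c1 := c_le_one hW h2.pc h2.a0 h2.loc
    have k : ∀ u, c (u + s) ≤ 1 * 1 + (-1 / 2) * if u.Coprime W then (1 : ℝ) else 0 := by
      intro u
      split_ifs with hu
      · have b1 := h2.hof s u hu
        rw [add_comm s u] at b1
        have b2 := h2.c0 (u + s)
        have b3 := c1 (u + s)
        have b4 := h2.a0 s
        have b5 : 1 ≤ (P : ℝ) ^ 2 * a s := hPx.trans (by gcongr)
        nlinarith
      · linarith [c1 (u + s)]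
    rw [← mean_shift h2.pc s]
    refine (mean_mono k).trans ?_
    rw [mean_lin, mean_const hW, mean, sum_coprime]
    have := totient_fact P hP
    rw [← hWdef, div_le_iff₀ hP'] at this
    have b : 1 / P ≤ (W.totient : ℝ) / W := by rw [div_le_div_iff₀ hP' hW']; linarith
    have e : 1 / (2 * (P : ℝ)) = 1 / 2 * (1 / P) := by field_simp
    rw [e]; linarith

theorem fstar_hyp {x : ℝ} (hx0 : 0 ≤ x) (hx : x < 1) : 6 * x / (1 + 5 * x) ≤ fstar x := by
  rw [fstar_eq hx0 hx]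
  have := G_hyp hx0 hx.le
  have e : 6 * x / (1 + 5 * x) = 1 - (1 - x) / (1 + 5 * x) := by field_simp; ring
  linarith

theorem rpow_lt_fstar {x : ℝ} (hx0 : 0 < x) (hx : x < 1) : x ^ (2 / 3 : ℝ) < fstar x := by
  set t := x ^ (1 / 6 : ℝ) with ht
  have t0 : 0 < t := Real.rpow_pos_of_pos hx0 _
  have t1 : t < 1 := Real.rpow_lt_one hx0.le hx (by norm_num)
  have e6 : x = t ^ 6 := by rw [ht, ← Real.rpow_natCast, ← Real.rpow_mul hx0.le]; norm_num
  have e4 : x ^ (2 / 3 : ℝ) = t ^ 4 := by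
    rw [ht, ← Real.rpow_natCast, ← Real.rpow_mul hx0.le]; norm_num
  rw [e4]
  rcases le_total t (42 / 100) with k | k
  · have t3 : 0 < t ^ 3 := by positivity
    set P := ⌈(t ^ 3)⁻¹⌉₊ with hP
    have p1 : (t ^ 3)⁻¹ ≤ P := Nat.le_ceil _
    have p2 : (P : ℝ) < (t ^ 3)⁻¹ + 1 := Nat.ceil_lt_add_one (by positivity)
    have p0 : (0 : ℝ) < P := lt_of_lt_of_le (by positivity) p1
    have p3 : 1 ≤ P * t ^ 3 := by rwa [inv_le_iff_one_le_mul₀ t3] at p1
    have p4 : P * t ^ 3 < 1 + t ^ 3 := by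
      have := mul_lt_mul_of_pos_right p2 t3
      rwa [add_mul, inv_mul_cancel₀ t3.ne', one_mul] at this
    have h := G_small hx.le (P := P) (by exact_mod_cast p0) (by rw [e6]; nlinarith)
    rw [fstar_eq hx0.le hx]
    have : t ^ 4 < 1 / (2 * P) := by
      rw [lt_div_iff₀ (by positivity)]
      have b1 : t ^ 3 ≤ (42 / 100) ^ 3 := by gcongr
      nlinarith
    linarith
  · refine lt_of_lt_of_le ?_ (fstar_hyp hx0.le hx)
    rw [lt_div_iff₀ (by positivity), e6]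
    have s0 : (42 / 100) ^ 2 ≤ t ^ 2 := by gcongr
    have s1 : t ^ 2 < 1 := pow_lt_one₀ t0.le t1 two_ne_zero
    have b : 0 < (1 - t ^ 2) * (5 * (t ^ 2) ^ 2 + 5 * t ^ 2 - 1) :=
      mul_pos (by linarith) (by nlinarith)
    nlinarith [mul_pos (pow_pos t0 4) b]

theorem fstar_strictMono : StrictMonoOn fstar (Set.Ioo 0 1) := by
  intro x hx y hy hxy
  rw [fstar_eq hx.1.le hx.2, fstar_eq hy.1.le hy.2]
  have h1 := G_anti hy.2.le hxy.le
  rcases h1.eq_or_lt with k | k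
  · have := G_G hx.1 hx.2
    rw [← k, G_G hy.1 hy.2] at this
    exact absurd this hxy.ne'
  · linarith

theorem fstar_cont : ContinuousOn fstar (Set.Ico 0 1) :=
  ((continuousOn_const (c := (1 : ℝ))).sub (G_continuousOn.mono fun _ hx => hx.2)).congr
    fun _ hx => fstar_eq hx.1 hx.2

theorem fstar_fe {x : ℝ} (hx0 : 0 < x) (hx : x < 1) : fstar (1 - fstar x) = 1 - x := by
  rw [fstar_eq hx0.le hx, sub_sub_cancel, fstar_eq (G_nonneg hx.le) (by linarith [G_le_sub hx.le]),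
    G_G hx0 hx]

end Pool.Agent.P.MP_e86632_nt
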