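import Pool.Agent.P.MP_e86632_nt.Major

/-! Discrete Fourier analysis and the Hoffman bound for the graph of unit differences. -/

namespace Pool.Agent.P.MP_e86632_nt

open Finset Real

lemma ee_ne_one {u : ℤ} {q : ℕ} (hq : 0 < q) (h : ¬ (q : ℤ) ∣ u) : ee ((u : ℝ) / q) ≠ 1 := by
  intro h1
  have h2 := four_nn_le ((u : ℝ) / q)
  have h3 := nn_div_ge hq h
  have : (0 : ℝ) < 1 / q := by positivity
  rw [h1, sub_self, norm_zero] at h2
  linarith

lemma sum_range_shift {E : Type*} [AddCommGroup E] (f : ℕ → E) (V : ℕ) (hf : ∀ n, f (n + V) = f n)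
    (h : ℕ) : ∑ z ∈ range V, f (z + h) = ∑ z ∈ range V, f z := by
  induction h with
  | zero => simp
  | succ h ih =>
    rw [← ih]
    have h1 := Finset.sum_range_succ (fun z => f (z + h)) V
    have h2 := Finset.sum_range_succ' (fun z => f (z + h)) V
    rw [h1, zero_add, add_comm V h, hf] at h2
    have h3 := add_right_cancel h2
    rw [h3]
    exact Finset.sum_congr rfl fun z _ => by congr 1; ring

lemma orth {M : ℕ} (hM : 0 < M) (n : ℤ) :
    ∑ k ∈ range M, ee (k * ((n : ℝ) / M)) = if (M : ℤ) ∣ n then (M : ℂ) else 0 := by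
  have hM' : (M : ℝ) ≠ 0 := by positivity
  split_ifs with h
  · obtain ⟨c, rfl⟩ := h
    rw [Finset.sum_congr rfl (g := fun _ => 1)]
    · simp
    · intro k _
      rw [← ee_int (k * c)]; congr 1; push_cast; field_simp
  · have h1 := sum_range_shift (fun k : ℕ => ee (k * ((n : ℝ) / M))) M (fun k => by
      rw [← ee_add_int (k * ((n : ℝ) / M)) n]; congr 1; push_cast; field_simp) 1
    have h2 : ∑ z ∈ range M, ee (((z + 1 : ℕ) : ℝ) * ((n : ℝ) / M))
        = ee ((n : ℝ) / M) * ∑ z ∈ range M, ee (z * ((n : ℝ) / M)) := by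
      rw [Finset.mul_sum]
      refine Finset.sum_congr rfl fun z _ => ?_
      rw [← ee_add]; congr 1; push_cast; ring
    rw [h2] at h1
    have h3 : (ee ((n : ℝ) / M) - 1) * ∑ z ∈ range M, ee (z * ((n : ℝ) / M)) = 0 := by
      rw [sub_mul, h1]; ring
    exact (mul_eq_zero.1 h3).resolve_left (sub_ne_zero.2 (ee_ne_one hM h))

noncomputable def FT (M : ℕ) (f : ℕ → ℝ) (k : ℕ) : ℂ := ∑ x ∈ range M, (f x : ℂ) * ee (x * (k / M))

lemma inversion {M : ℕ} (g : ℕ → ℝ) {n : ℕ} (hn : n < M) :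
    (M : ℂ) * g n = ∑ k ∈ range M, (starRingEnd ℂ) (FT M g k) * ee (n * (k / M)) := by
  have hM : 0 < M := by omega
  have e : ∀ k ∈ range M, (starRingEnd ℂ) (FT M g k) * ee (n * (k / M))
      = ∑ y ∈ range M, (g y : ℂ) * ee (k * ((((n : ℤ) - y : ℤ) : ℝ) / M)) := by
    intro k _
    rw [FT, map_sum, Finset.sum_mul]
    refine Finset.sum_congr rfl fun y _ => ?_
    rw [map_mul, Complex.conj_ofReal, ← ee_neg, mul_assoc, ← ee_add]
    congr 2; push_cast; ring
  rw [Finset.sum_congr rfl e, Finset.sum_comm]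
  simp_rw [← Finset.mul_sum, orth hM]
  rw [Finset.sum_eq_single n]
  · simp [mul_comm]
  · intro y hy hyn
    rw [if_neg, mul_zero]
    intro h
    have := Finset.mem_range.1 hy
    have h2 := Int.le_of_dvd (abs_pos.2 (by omega)) ((dvd_abs _ _).2 h)
    rcases abs_cases ((n : ℤ) - y) with c | c <;> omega
  · intro h; exact absurd (Finset.mem_range.2 hn) h

lemma inversion_per {M : ℕ} (hM : 0 < M) (g : ℕ → ℝ) (hg : ∀ n, g (n + M) = g n) (n : ℕ) :
    (M : ℂ) * g n = ∑ k ∈ range M, (starRingEnd ℂ) (FT M g k) * ee (n * (k / M)) := by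
  induction n using Nat.strong_induction_on with
  | _ n ih =>
    rcases lt_or_ge n M with h | h
    · exact inversion g h
    · obtain ⟨m, rfl⟩ : ∃ m, n = m + M := ⟨n - M, by omega⟩
      rw [hg, ih m (by omega)]
      refine Finset.sum_congr rfl fun k _ => ?_
      rw [← ee_add_int (m * (k / M)) k]
      have hM' : (M : ℝ) ≠ 0 := by positivity
      congr 2; push_cast; field_simp

lemma parseval (M : ℕ) (f : ℕ → ℝ) :
    ∑ k ∈ range M, ‖FT M f k‖ ^ 2 = M * ∑ x ∈ range M, f x ^ 2 := by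
  have : ((∑ k ∈ range M, ‖FT M f k‖ ^ 2 : ℝ) : ℂ) = ((M * ∑ x ∈ range M, f x ^ 2 : ℝ) : ℂ) := by
    push_cast
    rw [Finset.mul_sum]
    have e : ∀ x ∈ range M, (M : ℂ) * (f x : ℂ) ^ 2
        = ∑ k ∈ range M, (starRingEnd ℂ) (FT M f k) * ((f x : ℂ) * ee (x * (k / M))) := by
      intro x hx
      rw [sq, ← mul_assoc, inversion f (Finset.mem_range.1 hx), Finset.sum_mul]
      exact Finset.sum_congr rfl fun k _ => by ring
    rw [Finset.sum_congr rfl e, Finset.sum_comm]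
    refine Finset.sum_congr rfl fun k _ => ?_
    rw [← Finset.mul_sum, ← Complex.mul_conj', mul_comm]; rfl
  exact_mod_cast this

lemma trilinear {ι : Type*} (M : ℕ) (f g : ℕ → ℝ) (D : Finset ι) (κ : ι → ℝ) (pos : ι → ℕ)
    (hg : ∀ x ∈ range M, f x ≠ 0 → ∀ d ∈ D, (M : ℂ) * g (x + pos d)
      = ∑ k ∈ range M, (starRingEnd ℂ) (FT M g k) * ee ((x + pos d : ℕ) * (k / M))) :
    (M : ℂ) * ((∑ x ∈ range M, ∑ d ∈ D, f x * κ d * g (x + pos d) : ℝ) : ℂ)
      = ∑ k ∈ range M, (starRingEnd ℂ) (FT M g k) * FT M f k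
          * ∑ d ∈ D, (κ d : ℂ) * ee (pos d * (k / M)) := by
  push_cast
  have e : ∀ k ∈ range M, (starRingEnd ℂ) (FT M g k) * FT M f k
        * ∑ d ∈ D, (κ d : ℂ) * ee (pos d * (k / M))
      = ∑ x ∈ range M, ∑ d ∈ D, (f x : ℂ) * κ d *
        ((starRingEnd ℂ) (FT M g k) * ee ((x + pos d : ℕ) * (k / M))) := by
    intro k _
    rw [mul_assoc, FT.eq_1 M f, Finset.sum_mul_sum, Finset.mul_sum]
    refine Finset.sum_congr rfl fun x _ => ?_
    rw [Finset.mul_sum]
    refine Finset.sum_congr rfl fun d _ => ?_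
    push_cast
    rw [add_mul, ee_add]; ring
  rw [Finset.sum_congr rfl e, Finset.mul_sum]
  conv_rhs => rw [Finset.sum_comm]
  refine Finset.sum_congr rfl fun x hx => ?_
  rw [Finset.mul_sum]
  conv_rhs => rw [Finset.sum_comm]
  refine Finset.sum_congr rfl fun d hd => ?_
  rw [← Finset.mul_sum]
  by_cases h : f x = 0
  · simp [h]
  · rw [← hg x hx h d hd]; ring

lemma cs_bound (T : Finset ℕ) (F G c : ℕ → ℂ) {B : ℝ} (hB : 0 ≤ B) (hc : ∀ k ∈ T, ‖c k‖ ≤ B) :
    ‖∑ k ∈ T, (starRingEnd ℂ) (G k) * F k * c k‖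
      ≤ B * (√(∑ k ∈ T, ‖F k‖ ^ 2) * √(∑ k ∈ T, ‖G k‖ ^ 2)) := by
  refine (norm_sum_le _ _).trans ?_
  refine (Finset.sum_le_sum (g := fun k => B * (‖F k‖ * ‖G k‖)) fun k hk => ?_).trans ?_
  · rw [norm_mul, norm_mul, Complex.norm_conj]
    have := mul_le_mul_of_nonneg_left (hc k hk) (mul_nonneg (norm_nonneg (G k)) (norm_nonneg (F k)))
    linarith
  rw [← Finset.mul_sum]
  exact mul_le_mul_of_nonneg_left (Real.sum_mul_le_sqrt_mul_sqrt _ _ _) hB

lemma FT_zero (M : ℕ) (f : ℕ → ℝ) : FT M f 0 = ((∑ x ∈ range M, f x : ℝ) : ℂ) := by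
  simp [FT]

/-- Hoffman type bound on a cyclic group -/
lemma hoff_core {V : ℕ} (hV : 0 < V) (f g κ : ℕ → ℝ) (hg : ∀ n, g (n + V) = g n) {B : ℝ} (hB : 0 ≤ B)
    (hκ : ∀ k, 0 < k → k < V → ‖FT V κ k‖ ≤ B) :
    |V * (∑ x ∈ range V, ∑ z ∈ range V, f x * κ z * g (x + z))
      - (∑ x ∈ range V, g x) * (∑ x ∈ range V, f x) * ∑ x ∈ range V, κ x|
      ≤ B * (√(V * ∑ x ∈ range V, f x ^ 2 - (∑ x ∈ range V, f x) ^ 2)
        * √(V * ∑ x ∈ range V, g x ^ 2 - (∑ x ∈ range V, g x) ^ 2)) := by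
  have h1 := trilinear V f g (range V) κ id (fun x _ _ d _ => inversion_per hV g hg _)
  have h0 : 0 ∈ range V := Finset.mem_range.2 hV
  have pars : ∀ φ : ℕ → ℝ, ∑ k ∈ (range V).erase 0, ‖FT V φ k‖ ^ 2
      = V * ∑ x ∈ range V, φ x ^ 2 - (∑ x ∈ range V, φ x) ^ 2 := by
    intro φ
    rw [← parseval, ← Finset.add_sum_erase _ _ h0, FT_zero, Complex.norm_real, Real.norm_eq_abs,
      sq_abs]; ring
  have h2 := cs_bound ((range V).erase 0) (FT V f) (FT V g) (FT V κ) hB (fun k hk => by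
    simp only [Finset.mem_erase, Finset.mem_range] at hk
    exact hκ k (by omega) hk.2)
  rw [pars, pars] at h2
  refine le_trans (le_of_eq ?_) h2
  rw [← Real.norm_eq_abs, ← Complex.norm_real]
  congr 1
  simp only [id] at h1
  change _ = ∑ k ∈ range V, (starRingEnd ℂ) (FT V g k) * FT V f k * FT V κ k at h1
  rw [← Finset.add_sum_erase _ (fun k => (starRingEnd ℂ) (FT V g k) * FT V f k * FT V κ k) h0,
    FT_zero, FT_zero, FT_zero, Complex.conj_ofReal] at h1
  rw [Complex.ofReal_sub, Complex.ofReal_mul, Complex.ofReal_natCast, h1]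
  push_cast; ring

lemma FT_eq_zero {V : ℕ} (hV : 0 < V) (φ : ℕ → ℝ) (h k : ℕ) (h1 : ∀ n, φ (n + V) = φ n)
    (h2 : ∀ n, φ (n + h) = φ n) (h3 : ¬ V ∣ k * h) : FT V φ k = 0 := by
  have hV' : (V : ℝ) ≠ 0 := by positivity
  have e1 := sum_range_shift (fun x : ℕ => (φ x : ℂ) * ee (x * (k / V))) V (fun n => by
    rw [h1, ← ee_add_int (n * (k / V)) k]; congr 2; push_cast; field_simp) h
  have e2 : ∑ z ∈ range V, (φ (z + h) : ℂ) * ee (((z + h : ℕ) : ℝ) * (k / V))
      = ee ((((k * h : ℕ) : ℤ) : ℝ) / V) * FT V φ k := by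
    rw [FT, Finset.mul_sum]
    refine Finset.sum_congr rfl fun z _ => ?_
    rw [h2, mul_left_comm, ← ee_add]; congr 2; push_cast; ring
  rw [e2] at e1
  have e3 : (ee ((((k * h : ℕ) : ℤ) : ℝ) / V) - 1) * FT V φ k = 0 := by
    rw [sub_mul, e1, one_mul]; exact sub_self _
  exact (mul_eq_zero.1 e3).resolve_left
    (sub_ne_zero.2 (ee_ne_one hV (by exact_mod_cast h3)))

open Classical in
/-- indicator that no member of `Q` divides `u + W z` -/
noncomputable def kap (W u : ℕ) (Q : Finset ℕ) (z : ℕ) : ℝ :=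
  if ∀ p ∈ Q, ¬ p ∣ u + W * z then 1 else 0

lemma kap_nonneg (W u : ℕ) (Q : Finset ℕ) (z : ℕ) : 0 ≤ kap W u Q z := by
  unfold kap; split_ifs <;> norm_num

lemma kap_per (W u : ℕ) (Q : Finset ℕ) {h : ℕ} (hh : ∀ p ∈ Q, p ∣ h) (z : ℕ) :
    kap W u Q (z + h) = kap W u Q z := by
  unfold kap
  congr 1
  refine propext (forall₂_congr fun p hp => not_congr ?_)
  rw [mul_add, ← add_assoc]
  exact (Nat.dvd_add_iff_left ((hh p hp).mul_left W)).symm

lemma kap_insert (W u : ℕ) (Q : Finset ℕ) (p z : ℕ) :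
    kap W u (insert p Q) z = kap W u Q z - kap W u Q z * (if p ∣ u + W * z then 1 else 0) := by
  unfold kap
  simp only [Finset.forall_mem_insert]
  by_cases h : p ∣ u + W * z <;> simp [h]

lemma sum_dvd_one {p : ℕ} (hp : p.Prime) (c e : ℕ) (he : ¬ p ∣ e) :
    ∑ j ∈ range p, (if p ∣ c + j * e then (1 : ℝ) else 0) = 1 := by
  have := Fact.mk hp
  have he' : (e : ZMod p) ≠ 0 := by rwa [Ne, ZMod.natCast_eq_zero_iff]
  rw [Finset.sum_eq_single (-(c : ZMod p) / e).val]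
  · rw [if_pos]
    rw [← ZMod.natCast_eq_zero_iff]; push_cast
    rw [ZMod.natCast_zmod_val]; field_simp; ring
  · intro j hj hne
    rw [if_neg]
    intro h
    apply hne
    rw [← ZMod.natCast_eq_zero_iff] at h
    push_cast at h
    have : (j : ZMod p) = -(c : ZMod p) / e := by field_simp; linear_combination h
    rw [← this, ZMod.val_cast_of_lt (Finset.mem_range.1 hj)]
  · intro h; exact absurd (Finset.mem_range.2 (ZMod.val_lt _)) h

lemma kap_count {W u V p : ℕ} {Q : Finset ℕ} (hQ : ∀ r ∈ Q, r.Prime ∧ r ∣ V) (hp : p.Prime)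
    (hpV : p ∣ V) (hpW : ¬ p ∣ W) (hpQ : p ∉ Q) :
    p * ∑ z ∈ range V, kap W u Q z * (if p ∣ u + W * z then 1 else 0) = ∑ z ∈ range V, kap W u Q z := by
  set h := ∏ r ∈ Q, r with hh
  have h1 : ¬ p ∣ W * h := by
    intro h2
    rcases (Nat.Prime.dvd_mul hp).1 h2 with h2 | h2
    · exact hpW h2
    · obtain ⟨r, hr, h3⟩ := (Prime.dvd_finsetProd_iff hp.prime _).1 h2
      exact hpQ (((Nat.prime_dvd_prime_iff_eq hp (hQ r hr).1).1 h3) ▸ hr)
  have h2 : ∀ j, ∑ z ∈ range V, kap W u Q z * (if p ∣ u + W * z + j * (W * h) then 1 else 0)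
      = ∑ z ∈ range V, kap W u Q z * (if p ∣ u + W * z then 1 else 0) := by
    intro j
    rw [← sum_range_shift (fun z => kap W u Q z * (if p ∣ u + W * z then 1 else 0)) V (fun n => by
      rw [kap_per W u Q fun r hr => (hQ r hr).2]
      congr 2
      rw [mul_add, ← add_assoc]
      exact propext (Nat.dvd_add_iff_left (hpV.mul_left W)).symm) (j * h)]
    refine Finset.sum_congr rfl fun z _ => ?_
    rw [kap_per W u Q fun r hr => (Finset.dvd_prod_of_mem _ hr).mul_left j]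
    congr 3; ring
  calc _ = ∑ j ∈ range p, ∑ z ∈ range V,
        kap W u Q z * (if p ∣ u + W * z + j * (W * h) then 1 else 0) := by
        simp only [h2, Finset.sum_const, Finset.card_range, nsmul_eq_mul]
    _ = _ := by
        rw [Finset.sum_comm]
        refine Finset.sum_congr rfl fun z _ => ?_
        rw [← Finset.mul_sum, sum_dvd_one hp _ _ h1, mul_one]

lemma kap_total {W u V : ℕ} (Q : Finset ℕ) (hQ : ∀ r ∈ Q, r.Prime ∧ r ∣ V ∧ ¬ r ∣ W) :
    ∑ z ∈ range V, kap W u Q z = V * ∏ p ∈ Q, (1 - (p : ℝ)⁻¹) := by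
  induction Q using Finset.induction_on with
  | empty => simp [kap]
  | insert p Q hpQ ih =>
    have hp := hQ p (Finset.mem_insert_self _ _)
    have hQ' : ∀ r ∈ Q, r.Prime ∧ r ∣ V ∧ ¬ r ∣ W := fun r hr => hQ r (Finset.mem_insert_of_mem hr)
    have h1 := kap_count (u := u) (fun r hr => ⟨(hQ' r hr).1, (hQ' r hr).2.1⟩) hp.1 hp.2.1 hp.2.2 hpQ
    have hp0 : (p : ℝ) ≠ 0 := by exact_mod_cast hp.1.ne_zero
    simp_rw [kap_insert]
    rw [Finset.sum_sub_distrib, Finset.prod_insert hpQ, eq_inv_mul_iff_mul_eq₀ hp0 |>.2 h1, ih hQ']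
    ring

/-- the new primes of `V` -/
def newP (W V : ℕ) : Finset ℕ := V.primeFactors.filter fun p => ¬ p ∣ W

lemma mem_newP {W V p : ℕ} (hV : 0 < V) : p ∈ newP W V ↔ p.Prime ∧ p ∣ V ∧ ¬ p ∣ W := by
  simp [newP, hV.ne', and_assoc]

lemma kap_FT {W u V P : ℕ} (hV : 0 < V) (hP : ∀ p, p.Prime → ¬ p ∣ W → P < p)
    {k : ℕ} (hk0 : 0 < k) (hk : k < V) :
    P * ‖FT V (kap W u (newP W V)) k‖ ≤ ∑ z ∈ range V, kap W u (newP W V) z := by
  obtain ⟨g, hg⟩ := Nat.gcd_dvd_left V k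
  obtain ⟨k', hk'⟩ := Nat.gcd_dvd_right V k
  have hd : 0 < V.gcd k := Nat.gcd_pos_of_pos_left _ hV
  have hdk : V.gcd k ≤ k := Nat.gcd_le_right _ hk0
  have hg1 : g ≠ 1 := by rintro rfl; omega
  have hcop : g.Coprime k' := by
    have := Nat.coprime_div_gcd_div_gcd (m := V) (n := k) hd
    rwa [Nat.div_eq_of_eq_mul_right hd hg, Nat.div_eq_of_eq_mul_right hd hk'] at this
  obtain ⟨p, hp, hpg⟩ := Nat.exists_prime_and_dvd hg1
  have hpV : p ∣ V := hpg.trans (Dvd.intro_left _ hg.symm)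
  set Q := (newP W V).erase p with hQ
  have hQm : ∀ r ∈ Q, r.Prime ∧ r ∣ V := fun r hr =>
    have := (mem_newP hV).1 (Finset.mem_of_mem_erase hr); ⟨this.1, this.2.1⟩
  have hz : FT V (kap W u Q) k = 0 := by
    refine FT_eq_zero hV _ (∏ r ∈ Q, r) k (kap_per W u Q fun r hr => (hQm r hr).2)
      (kap_per W u Q fun r hr => Finset.dvd_prod_of_mem _ hr) fun h => ?_
    have h1 : g ∣ k' * ∏ r ∈ Q, r := by
      refine Nat.dvd_of_mul_dvd_mul_left hd ?_
      rwa [← hg, ← mul_assoc, ← hk']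
    obtain ⟨r, hr, h3⟩ := (Prime.dvd_finsetProd_iff hp.prime _).1
      (hpg.trans (hcop.dvd_of_dvd_mul_left h1))
    exact Finset.notMem_erase p _ (((Nat.prime_dvd_prime_iff_eq hp (hQm r hr).1).1 h3) ▸ hr)
  by_cases hpW : p ∣ W
  · have : Q = newP W V := Finset.erase_eq_of_notMem fun h => ((mem_newP hV).1 h).2.2 hpW
    rw [← this, hz, norm_zero, mul_zero]
    exact Finset.sum_nonneg fun _ _ => kap_nonneg _ _ _ _
  have hins : newP W V = insert p Q := (Finset.insert_erase ((mem_newP hV).2 ⟨hp, hpV, hpW⟩)).symm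
  have h1 := kap_count (u := u) hQm hp hpV hpW (Finset.notMem_erase p _)
  set A := ∑ z ∈ range V, kap W u Q z * (if p ∣ u + W * z then 1 else 0) with hA
  have hnn : ∀ z, 0 ≤ kap W u Q z * (if p ∣ u + W * z then 1 else 0) := fun z =>
    mul_nonneg (kap_nonneg _ _ _ _) (by split_ifs <;> norm_num)
  have h2 : ‖FT V (kap W u (insert p Q)) k‖ ≤ A := by
    have : FT V (kap W u (insert p Q)) k = FT V (kap W u Q) k
        - FT V (fun z => kap W u Q z * (if p ∣ u + W * z then 1 else 0)) k := by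
      unfold FT
      rw [← Finset.sum_sub_distrib]
      refine Finset.sum_congr rfl fun z _ => ?_
      rw [kap_insert, Complex.ofReal_sub, sub_mul]
    rw [this, hz, zero_sub, norm_neg]
    refine (norm_sum_le _ _).trans (le_of_eq (Finset.sum_congr rfl fun n _ => ?_))
    rw [norm_mul, norm_ee, mul_one, Complex.norm_real, Real.norm_eq_abs, abs_of_nonneg (hnn n)]
  rw [hins]
  simp_rw [kap_insert]
  rw [Finset.sum_sub_distrib, ← h1, ← hA]
  have h3 : (P : ℝ) + 1 ≤ p := by exact_mod_cast hP p hp hpW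
  have hA0 : 0 ≤ A := Finset.sum_nonneg fun z _ => hnn z
  have h4 := mul_le_mul_of_nonneg_left h2 (Nat.cast_nonneg P : (0 : ℝ) ≤ P)
  nlinarith

lemma kap_eq_coprime {W u V : ℕ} (hV : 0 < V) (hu : u.Coprime W) (z : ℕ) :
    kap W u (newP W V) z = if (u + W * z).Coprime (W * V) then 1 else 0 := by
  unfold kap
  congr 1
  refine propext ⟨fun h => ?_, fun h p hp hd => ?_⟩
  · refine Nat.coprime_of_dvd fun p hp h1 h2 => ?_
    by_cases hpW : p ∣ W
    · have : p ∣ u := (Nat.dvd_add_iff_left (hpW.mul_right z)).2 h1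
      exact hp.one_lt.ne' (Nat.eq_one_of_dvd_coprimes hu this hpW)
    · exact h p ((mem_newP hV).2 ⟨hp, ((Nat.Prime.dvd_mul hp).1 h2).resolve_left hpW, hpW⟩) h1
  · have := (mem_newP hV).1 hp
    exact this.1.one_lt.ne' (Nat.eq_one_of_dvd_coprimes h hd (this.2.1.mul_left W))

lemma totient_le_kap {W V : ℕ} (hW : 0 < W) (hV : 0 < V) (u : ℕ) :
    ((W * V).totient : ℝ) ≤ W * ∑ z ∈ range V, kap W u (newP W V) z := by
  rw [kap_total _ fun r hr => (mem_newP hV).1 hr]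
  have h := congrArg (fun x : ℚ => (x : ℝ)) (Nat.totient_eq_mul_prod_factors (W * V))
  simp only [Rat.cast_natCast, Rat.cast_mul, Rat.cast_prod, Rat.cast_sub, Rat.cast_one,
    Rat.cast_inv] at h
  rw [h, ← mul_assoc]
  push_cast
  refine mul_le_mul_of_nonneg_left ?_ (by positivity)
  apply Finset.prod_le_prod_of_subset_of_le_one
  · intro p hp
    have := (mem_newP hV).1 hp
    exact Nat.mem_primeFactors.2 ⟨this.1, this.2.1.mul_left W, by positivity⟩
  · intro p hp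
    have h3 : (1 : ℝ) ≤ p := by exact_mod_cast (Nat.prime_of_mem_primeFactors hp).one_lt.le
    exact sub_nonneg.2 (inv_le_one_of_one_le₀ h3)
  · intro p _ _
    have : (0 : ℝ) ≤ (p : ℝ)⁻¹ := by positivity
    linarith

/-- Hoffman bound for unit differences above a fixed unit class -/
theorem hoffman {W u V P : ℕ} (hV : 0 < V) (hP0 : 0 < P) (hP : ∀ p, p.Prime → ¬ p ∣ W → P < p)
    (f g : ℕ → ℝ) (hg : ∀ n, g (n + V) = g n) :
    (∑ z ∈ range V, kap W u (newP W V) z) * ((∑ x ∈ range V, g x) * (∑ x ∈ range V, f x)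
      - √(V * ∑ x ∈ range V, f x ^ 2 - (∑ x ∈ range V, f x) ^ 2)
        * √(V * ∑ x ∈ range V, g x ^ 2 - (∑ x ∈ range V, g x) ^ 2) / P)
      ≤ V * (∑ x ∈ range V, ∑ z ∈ range V, f x * kap W u (newP W V) z * g (x + z)) := by
  have hP' : (0 : ℝ) < P := by exact_mod_cast hP0
  have hR : 0 ≤ ∑ z ∈ range V, kap W u (newP W V) z := Finset.sum_nonneg fun _ _ => kap_nonneg _ _ _ _
  have := hoff_core hV f g (kap W u (newP W V)) hg
    (B := (∑ z ∈ range V, kap W u (newP W V) z) / P) (by positivity) (fun k hk0 hk => by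
      rw [le_div_iff₀ hP', mul_comm]; exact kap_FT hV hP hk0 hk)
  have h2 := (abs_le.1 this).1
  have e : ∀ R a b c : ℝ, R * (a - b * c / P) = a * R - R / P * (b * c) := by intros; ring
  rw [e]; linarith

end Pool.Agent.P.MP_e86632_nt
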