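import Pool.Agent.P.MP_e86632_nt.Fourier

/-! The finite model: feasible pairs, the chain lemma, relaxation, continuity. -/

namespace Pool.Agent.P.MP_e86632_nt

open Finset Real Filter

noncomputable def mean (q : ℕ) (α : ℕ → ℝ) : ℝ := (∑ n ∈ range q, α n) / q

/-- pairs satisfying the local constraints, with supports in `S` and `T` -/
structure FsR (q : ℕ) (S T : Set ℕ) (α γ : ℕ → ℝ) : Prop where
  pa : ∀ n, α (n + q) = α n
  pc : ∀ n, γ (n + q) = γ n
  a0 : ∀ n, 0 ≤ α n
  c0 : ∀ n, 0 ≤ γ n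
  loc : ∀ n p, p.Prime → α n + γ (n + p) ≤ 1
  sa : ∀ n, n ∉ S → α n = 0
  sc : ∀ n, n ∉ T → γ n = 0

/-- feasible pairs -/
structure Fs (q : ℕ) (α γ : ℕ → ℝ) : Prop where
  pa : ∀ n, α (n + q) = α n
  pc : ∀ n, γ (n + q) = γ n
  a0 : ∀ n, 0 ≤ α n
  c0 : ∀ n, 0 ≤ γ n
  loc : ∀ n p, p.Prime → α n + γ (n + p) ≤ 1
  un : ∀ n u, u.Coprime q → α n = 0 ∨ γ (n + u) = 0

def Cross (q : ℕ) (S T : Set ℕ) : Prop := ∀ n u, u.Coprime q → n ∈ S → n + u ∉ T

lemma FsR.fs {q : ℕ} {S T : Set ℕ} {α γ : ℕ → ℝ} (h : FsR q S T α γ) (hc : Cross q S T) : Fs q α γ :=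
  ⟨h.pa, h.pc, h.a0, h.c0, h.loc, fun n u hu => by
    by_cases hn : n ∈ S
    · exact Or.inr (h.sc _ (hc n u hu hn))
    · exact Or.inl (h.sa _ hn)⟩

lemma per_mul {f : ℕ → ℝ} {q : ℕ} (h : ∀ n, f (n + q) = f n) (n k : ℕ) : f (n + q * k) = f n := by
  induction k with
  | zero => simp
  | succ k ih => rw [mul_add, mul_one, ← add_assoc, h, ih]

lemma c_le_one {q : ℕ} (hq : 0 < q) {α γ : ℕ → ℝ} (pc : ∀ n, γ (n + q) = γ n) (a0 : ∀ n, 0 ≤ α n)
    (loc : ∀ n p, p.Prime → α n + γ (n + p) ≤ 1) (n : ℕ) : γ n ≤ 1 := by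
  have h1 := loc (n + (q * 2 - 2)) 2 Nat.prime_two
  rw [show n + (q * 2 - 2) + 2 = n + q * 2 by omega, per_mul pc] at h1
  linarith [a0 (n + (q * 2 - 2))]

lemma Fs.c1 {q : ℕ} (hq : 0 < q) {α γ : ℕ → ℝ} (h : Fs q α γ) (n : ℕ) : γ n ≤ 1 :=
  c_le_one hq h.pc h.a0 h.loc n

lemma Fs.a1 {q : ℕ} {α γ : ℕ → ℝ} (h : Fs q α γ) (n : ℕ) : α n ≤ 1 := by
  linarith [h.loc n 2 Nat.prime_two, h.c0 (n + 2)]

lemma mean_mono {q : ℕ} {f g : ℕ → ℝ} (h : ∀ n, f n ≤ g n) : mean q f ≤ mean q g :=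
  div_le_div_of_nonneg_right (Finset.sum_le_sum fun n _ => h n) (by positivity)

lemma mean_const {q : ℕ} (hq : 0 < q) (c : ℝ) : mean q (fun _ => c) = c := by
  have : (q : ℝ) ≠ 0 := by positivity
  simp [mean]; field_simp

lemma mean_lin (q : ℕ) (f g : ℕ → ℝ) (s t : ℝ) :
    mean q (fun n => s * f n + t * g n) = s * mean q f + t * mean q g := by
  simp only [mean, Finset.sum_add_distrib, ← Finset.mul_sum]; ring

lemma mean_nonneg {q : ℕ} {f : ℕ → ℝ} (h : ∀ n, 0 ≤ f n) : 0 ≤ mean q f :=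
  div_nonneg (Finset.sum_nonneg fun n _ => h n) (by positivity)

lemma mean_le_one {q : ℕ} (hq : 0 < q) {f : ℕ → ℝ} (h : ∀ n, f n ≤ 1) : mean q f ≤ 1 :=
  (mean_mono h).trans (mean_const hq 1).le

def Gset (q : ℕ) (x : ℝ) : Set ℝ := {c | ∃ α γ, Fs q α γ ∧ x ≤ mean q α ∧ c = mean q γ}

noncomputable def Gq (q : ℕ) (x : ℝ) : ℝ := sSup (Gset q x)

lemma Gset_bdd {q : ℕ} (hq : 0 < q) (x : ℝ) : BddAbove (Gset q x) :=
  ⟨1, by rintro c ⟨α, γ, h, _, rfl⟩; exact mean_le_one hq (h.c1 hq)⟩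

lemma Gset_ne {q : ℕ} (hq : 0 < q) {x : ℝ} (hx : x ≤ 1) : (Gset q x).Nonempty :=
  ⟨_, fun _ => 1, fun _ => 0, ⟨fun _ => rfl, fun _ => rfl, fun _ => zero_le_one, fun _ => le_rfl,
    fun _ _ _ => by simp, fun _ _ _ => Or.inr rfl⟩, by rwa [mean_const hq], rfl⟩

lemma le_Gq {q : ℕ} (hq : 0 < q) {x : ℝ} {α γ : ℕ → ℝ} (h : Fs q α γ) (hx : x ≤ mean q α) :
    mean q γ ≤ Gq q x := le_csSup (Gset_bdd hq x) ⟨α, γ, h, hx, rfl⟩

lemma Gq_le {q : ℕ} (hq : 0 < q) {x c : ℝ} (hx : x ≤ 1)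
    (h : ∀ α γ, Fs q α γ → x ≤ mean q α → mean q γ ≤ c) : Gq q x ≤ c :=
  csSup_le (Gset_ne hq hx) (by rintro _ ⟨α, γ, h1, h2, rfl⟩; exact h α γ h1 h2)

section Chain

variable {q : ℕ} {S T S' T' : Set ℕ} {α γ α' γ' : ℕ → ℝ}

lemma FsR.comb (h : FsR q S T α γ) (h' : FsR q S T α' γ') {s t : ℝ} (hs : 0 ≤ s) (ht : 0 ≤ t)
    (hst : s + t = 1) : FsR q S T (fun n => s * α n + t * α' n) (fun n => s * γ n + t * γ' n) :=
  ⟨fun n => by rw [h.pa, h'.pa], fun n => by rw [h.pc, h'.pc],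
    fun n => add_nonneg (mul_nonneg hs (h.a0 n)) (mul_nonneg ht (h'.a0 n)),
    fun n => add_nonneg (mul_nonneg hs (h.c0 n)) (mul_nonneg ht (h'.c0 n)),
    fun n p hp => by nlinarith [h.loc n p hp, h'.loc n p hp],
    fun n hn => by rw [h.sa n hn, h'.sa n hn]; simp,
    fun n hn => by rw [h.sc n hn, h'.sc n hn]; simp⟩

lemma FsR.meet (h : FsR q S T α γ) (h' : FsR q S' T' α' γ') (hT : T' ⊆ T) :
    FsR q S T (fun n => min (α n) (α' n)) (fun n => max (γ n) (γ' n)) :=
  ⟨fun n => by rw [h.pa, h'.pa], fun n => by rw [h.pc, h'.pc],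
    fun n => le_min (h.a0 n) (h'.a0 n), fun n => le_max_of_le_left (h.c0 n),
    fun n p hp => by
      have := h.loc n p hp; have := h'.loc n p hp
      simp only [min_def, max_def]; split_ifs <;> linarith,
    fun n hn => by rw [h.sa n hn, min_eq_left (h'.a0 n)],
    fun n hn => by rw [h.sc n hn, h'.sc n fun h => hn (hT h)]; simp⟩

lemma FsR.join (h : FsR q S T α γ) (h' : FsR q S' T' α' γ') (hS : S ⊆ S') :
    FsR q S' T' (fun n => max (α n) (α' n)) (fun n => min (γ n) (γ' n)) :=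
  ⟨fun n => by rw [h.pa, h'.pa], fun n => by rw [h.pc, h'.pc],
    fun n => le_max_of_le_left (h.a0 n), fun n => le_min (h.c0 n) (h'.c0 n),
    fun n p hp => by
      have := h.loc n p hp; have := h'.loc n p hp
      simp only [min_def, max_def]; split_ifs <;> linarith,
    fun n hn => by rw [h'.sa n hn, h.sa n fun h => hn (hS h)]; simp,
    fun n hn => by rw [h'.sc n hn, min_eq_right (h.c0 n)]⟩

def gset (q : ℕ) (S T : Set ℕ) (x : ℝ) : Set ℝ :=
  {c | ∃ α γ, FsR q S T α γ ∧ x ≤ mean q α ∧ c = mean q γ}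

lemma gset_bdd (hq : 0 < q) (x : ℝ) : BddAbove (gset q S T x) :=
  ⟨1, by rintro c ⟨α, γ, h, _, rfl⟩; exact mean_le_one hq (c_le_one hq h.pc h.a0 h.loc)⟩

lemma le_g (hq : 0 < q) {x : ℝ} (h : FsR q S T α γ) (hx : x ≤ mean q α) :
    mean q γ ≤ sSup (gset q S T x) := le_csSup (gset_bdd hq x) ⟨α, γ, h, hx, rfl⟩

lemma sSup_add_le {A B : Set ℝ} (hA : A.Nonempty) (hB : B.Nonempty) {s t M : ℝ} (hs : 0 < s)
    (ht : 0 < t) (h : ∀ u ∈ A, ∀ v ∈ B, s * u + t * v ≤ M) : s * sSup A + t * sSup B ≤ M := by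
  have h1 : ∀ v ∈ B, s * sSup A + t * v ≤ M := by
    intro v hv
    have : sSup A ≤ (M - t * v) / s := csSup_le hA fun u hu => by
      rw [le_div_iff₀ hs]; linarith [h u hu v hv]
    rw [le_div_iff₀ hs] at this; linarith
  have : sSup B ≤ (M - s * sSup A) / t := csSup_le hB fun v hv => by
    rw [le_div_iff₀ ht]; linarith [h1 v hv]
  rw [le_div_iff₀ ht] at this; linarith

lemma gset_ne_mono {x y : ℝ} (h : (gset q S T x).Nonempty) (hy : y ≤ x) : (gset q S T y).Nonempty := by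
  obtain ⟨_, α, γ, h1, h2, rfl⟩ := h
  exact ⟨_, α, γ, h1, hy.trans h2, rfl⟩

lemma g_anti (hq : 0 < q) {x y : ℝ} (h : (gset q S T x).Nonempty) (hy : y ≤ x) :
    sSup (gset q S T x) ≤ sSup (gset q S T y) :=
  csSup_le h (by rintro _ ⟨α, γ, h1, h2, rfl⟩; exact le_g hq h1 (hy.trans h2))

lemma g_conc (hq : 0 < q) {a b c : ℝ} (h : (gset q S T c).Nonempty) (hab : a < b) (hbc : b < c) :
    (c - b) * sSup (gset q S T a) + (b - a) * sSup (gset q S T c) ≤ (c - a) * sSup (gset q S T b) := by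
  apply sSup_add_le (gset_ne_mono h (by linarith)) h (by linarith) (by linarith)
  rintro _ ⟨α, γ, h1, h2, rfl⟩ _ ⟨α', γ', h1', h2', rfl⟩
  have hca : 0 < c - a := by linarith
  have h3 := h1.comb h1' (s := (c - b) / (c - a)) (t := (b - a) / (c - a))
    (div_nonneg (by linarith) hca.le) (div_nonneg (by linarith) hca.le) (by field_simp; ring)
  have h4 := le_g hq (x := b) h3 (by
    rw [mean_lin, div_mul_eq_mul_div, div_mul_eq_mul_div, ← add_div, le_div_iff₀ hca]
    nlinarith)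
  rw [mean_lin, div_mul_eq_mul_div, div_mul_eq_mul_div, ← add_div, div_le_iff₀ hca] at h4
  linarith

lemma g_incr (hq : 0 < q) (hS : S ⊆ S') (hT : T' ⊆ T) {a a' : ℝ} (h : (gset q S T a).Nonempty)
    (h' : (gset q S' T' a').Nonempty) (ha : a' ≤ a) :
    sSup (gset q S' T' a') + sSup (gset q S T a) ≤ sSup (gset q S' T' a) + sSup (gset q S T a') := by
  have := sSup_add_le h' h one_pos one_pos
    (M := sSup (gset q S' T' a) + sSup (gset q S T a')) ?_
  · simpa using this
  rintro _ ⟨α', γ', h1', h2', rfl⟩ _ ⟨α, γ, h1, h2, rfl⟩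
  rw [one_mul, one_mul]
  rcases le_or_gt a (mean q α') with h3 | h3
  · exact add_le_add (le_g hq h1' h3) (le_g hq h1 (ha.trans h2))
  set m := mean q fun n => min (α n) (α' n) with hm
  have hm1 : m ≤ mean q α' := mean_mono fun n => min_le_right _ _
  have hv : 0 < mean q α - m := by linarith
  set t := (a - mean q α') / (mean q α - m) with ht
  have ht0 : 0 ≤ t := div_nonneg (by linarith) hv.le
  have ht1 : t ≤ 1 := by rw [ht, div_le_one hv]; linarith
  have htv : t * (mean q α - m) = a - mean q α' := by rw [ht]; field_simp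
  have e1 : mean q (fun n => max (α n) (α' n)) = mean q α + mean q α' - m := by
    have := mean_lin q (fun n => max (α n) (α' n)) (fun n => min (α n) (α' n)) 1 1
    have h5 := mean_lin q α α' 1 1
    simp only [one_mul, max_add_min] at this h5
    linarith
  have e2 : mean q (fun n => max (γ n) (γ' n)) + mean q (fun n => min (γ n) (γ' n))
      = mean q γ + mean q γ' := by
    have := mean_lin q (fun n => max (γ n) (γ' n)) (fun n => min (γ n) (γ' n)) 1 1
    have h5 := mean_lin q γ γ' 1 1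
    simp only [one_mul, max_add_min] at this h5
    linarith
  have k1 := le_g hq (x := a') (h1.comb (h1.meet h1' hT) (s := 1 - t) (t := t) (by linarith) ht0
    (by ring)) (by rw [mean_lin]; nlinarith)
  have k2 := le_g hq (x := a) (h1'.comb (h1.join h1' hS) (s := 1 - t) (t := t) (by linarith) ht0
    (by ring)) (by rw [mean_lin, e1]; nlinarith)
  rw [mean_lin] at k1 k2
  nlinarith

lemma abel_pos (lam d : ℕ → ℝ) (K : ℕ) (h0 : ∀ j, j < K → 0 ≤ lam j)
    (h1 : ∀ j, j + 1 < K → lam (j + 1) ≤ lam j) (h2 : ∀ j, j ≤ K → 0 ≤ ∑ i ∈ range j, d i) :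
    0 ≤ ∑ i ∈ range K, lam i * d i := by
  have key : ∀ j, j < K → lam j * ∑ i ∈ range (j + 1), d i ≤ ∑ i ∈ range (j + 1), lam i * d i := by
    intro j hj
    induction j with
    | zero => simp
    | succ j ih =>
      rw [Finset.sum_range_succ _ (j + 1), Finset.sum_range_succ _ (j + 1)]
      have := ih (by omega)
      nlinarith [h1 j hj, h2 (j + 1) hj.le]
  rcases Nat.eq_zero_or_pos K with rfl | hK
  · simp
  obtain ⟨j, rfl⟩ : ∃ j, K = j + 1 := ⟨K - 1, by omega⟩
  exact (mul_nonneg (h0 j (by omega)) (h2 _ le_rfl)).trans (key j (by omega))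

/-- mixing in time along a chain of supports does not help -/
theorem chain (hq : 0 < q) (K : ℕ) (S T : ℕ → Set ℕ) (α γ : ℕ → ℕ → ℝ) (hS : Monotone S)
    (hT : Antitone T) (hc : ∀ j, Cross q (S j) (T j)) (hF : ∀ j, j < K → FsR q (S j) (T j) (α j) (γ j))
    {x h : ℝ} (hh : 0 < h) (hx : ∀ j, j ≤ K → j * x ≤ ∑ i ∈ range j, mean q (α i)) :
    ∑ j ∈ range K, mean q (γ j) ≤ K * Gq q (x - h) := by
  rcases Nat.eq_zero_or_pos K with rfl | hK
  · simp
  have h0 := hF 0 hK
  have hne : ∀ j, (gset q (S j) (T j) x).Nonempty := by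
    intro j
    refine ⟨_, α 0, fun _ => 0, ⟨h0.pa, fun _ => rfl, h0.a0, fun _ => le_rfl, fun n p hp => ?_,
      fun n hn => h0.sa n fun h => hn (hS (Nat.zero_le j) h), fun _ _ => rfl⟩, ?_, rfl⟩
    · linarith [h0.loc n p hp, h0.c0 (n + p)]
    · simpa using hx 1 hK
  set g : ℕ → ℝ → ℝ := fun j a => sSup (gset q (S j) (T j) a) with hg
  set lam : ℕ → ℝ := fun j => (g j (x - h) - g j x) / h with hlam
  have l0 : ∀ j, 0 ≤ lam j := fun j =>
    div_nonneg (sub_nonneg.2 (g_anti hq (hne j) (by linarith))) hh.le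
  have l1 : ∀ j, lam (j + 1) ≤ lam j := by
    intro j
    refine div_le_div_of_nonneg_right ?_ hh.le
    have := g_incr hq (hS (Nat.le_succ j)) (hT (Nat.le_succ j)) (hne j)
      (gset_ne_mono (hne (j + 1)) (by linarith : x - h ≤ x)) (by linarith)
    simp only [hg]; linarith
  have l2 : ∀ j, j < K → mean q (γ j) ≤ Gq q (x - h) - lam j * (mean q (α j) - x) := by
    intro j hj
    have a1 : mean q (γ j) ≤ g j (mean q (α j)) := le_g hq (hF j hj) le_rfl
    have a2 : g j (x - h) ≤ Gq q (x - h) :=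
      csSup_le (gset_ne_mono (hne j) (by linarith)) (by
        rintro _ ⟨α, γ, h1, h2, rfl⟩; exact le_Gq hq (h1.fs (hc j)) h2)
    have a3 : (gset q (S j) (T j) (mean q (α j))).Nonempty := ⟨_, _, _, hF j hj, le_rfl, rfl⟩
    have a4 : lam j * h = g j (x - h) - g j x := by simp only [hlam]; field_simp
    have a5 := l0 j
    set a := mean q (α j)
    refine a1.trans (le_trans ?_ (sub_le_sub_right a2 _))
    rcases lt_trichotomy a x with b | b | b
    · rcases lt_or_ge a (x - h) with c | c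
      · have := g_conc hq (hne j) c (by linarith : x - h < x)
        change (x - (x - h)) * g j a + (x - h - a) * g j x ≤ (x - a) * g j (x - h) at this
        have e : g j x = g j (x - h) - lam j * h := by linarith
        rw [e] at this
        have : h * g j a ≤ h * (g j (x - h) - lam j * (a - x)) := by
          nlinarith [mul_nonneg a5 (mul_nonneg hh.le hh.le)]
        exact le_of_mul_le_mul_left this hh
      · have := g_anti hq a3 c
        change g j a ≤ g j (x - h) at this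
        nlinarith
    · rw [b]; nlinarith
    · have := g_conc hq a3 (by linarith : x - h < x) b
      change (a - x) * g j (x - h) + (x - (x - h)) * g j a ≤ (a - (x - h)) * g j x at this
      have e : g j x = g j (x - h) - lam j * h := by linarith
      rw [e] at this
      have : h * g j a ≤ h * (g j (x - h) - lam j * (a - x)) := by
          nlinarith [mul_nonneg a5 (mul_nonneg hh.le hh.le)]
      exact le_of_mul_le_mul_left this hh
  have l3 := abel_pos lam (fun j => mean q (α j) - x) K (fun j _ => l0 j) (fun j _ => l1 j)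
    (fun j hj => by
      rw [Finset.sum_sub_distrib]; simp only [Finset.sum_const, Finset.card_range, nsmul_eq_mul]
      linarith [hx j hj])
  refine (Finset.sum_le_sum fun j hj => l2 j (Finset.mem_range.1 hj)).trans ?_
  rw [Finset.sum_sub_distrib]
  simp only [Finset.sum_const, Finset.card_range, nsmul_eq_mul]
  linarith

end Chain

lemma sum_range_mul (f : ℕ → ℝ) (W V : ℕ) :
    ∑ n ∈ range (W * V), f n = ∑ s ∈ range W, ∑ x ∈ range V, f (s + W * x) := by
  induction V with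
  | zero => simp
  | succ V ih =>
    rw [mul_add, mul_one, Finset.sum_range_add, ih]
    simp_rw [Finset.sum_range_succ]
    rw [Finset.sum_add_distrib]
    congr 1
    exact Finset.sum_congr rfl fun s _ => by rw [add_comm]

lemma mean_mul {f : ℕ → ℝ} {q : ℕ} (h : ∀ n, f (n + q) = f n) {V : ℕ} (hV : 0 < V) :
    mean (q * V) f = mean q f := by
  have : (V : ℝ) ≠ 0 := by positivity
  unfold mean
  rw [sum_range_mul]
  simp_rw [per_mul h]
  simp only [Finset.sum_const, Finset.card_range, nsmul_eq_mul, ← Finset.mul_sum]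
  push_cast
  rw [mul_comm (q : ℝ), mul_div_mul_left _ _ this]

/-- average over the fibres above the classes modulo `W` -/
noncomputable def avg (W V : ℕ) (f : ℕ → ℝ) (s : ℕ) : ℝ := mean V fun x => f (s + W * x)

lemma avg_per {f : ℕ → ℝ} {W V : ℕ} (h : ∀ n, f (n + V) = f n) (s : ℕ) :
    avg W V f (s + W) = avg W V f s := by
  unfold avg mean
  rw [← sum_range_shift (fun x => f (s + W * x)) V (fun n => by
    rw [mul_add, ← add_assoc, mul_comm W V, per_mul h]) 1]
  congr 1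
  exact Finset.sum_congr rfl fun x _ => by ring_nf

lemma mean_avg {f : ℕ → ℝ} {W V : ℕ} (h : ∀ n, f (n + V) = f n) (hW : 0 < W) :
    mean W (avg W V f) = mean V f := by
  rw [← mean_mul h hW, mul_comm V W]
  unfold avg mean
  rw [sum_range_mul, ← Finset.sum_div]; push_cast; ring

/-- the relaxed problem modulo `W` -/
structure Rel (W P : ℕ) (a c : ℕ → ℝ) : Prop where
  pa : ∀ n, a (n + W) = a n
  pc : ∀ n, c (n + W) = c n
  a0 : ∀ n, 0 ≤ a n
  c0 : ∀ n, 0 ≤ c n
  loc : ∀ n p, p.Prime → a n + c (n + p) ≤ 1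
  hof : ∀ n u, u.Coprime W → (P : ℝ) ^ 2 * (a n * c (n + u)) ≤ (1 - a n) * (1 - c (n + u))

theorem Fs.rel {q W P : ℕ} (hq : 0 < q) (hW : 0 < W) (hP0 : 0 < P)
    (hP : ∀ p, p.Prime → ¬ p ∣ W → P < p) {α γ : ℕ → ℝ} (h : Fs q α γ) :
    Rel W P (avg W q α) (avg W q γ) := by
  have hq' : (0 : ℝ) < q := by exact_mod_cast hq
  have hP' : (0 : ℝ) < P := by exact_mod_cast hP0
  refine ⟨avg_per h.pa, avg_per h.pc, fun n => mean_nonneg fun _ => h.a0 _,
    fun n => mean_nonneg fun _ => h.c0 _, fun n p hp => ?_, fun n u hu => ?_⟩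
  · have := mean_lin q (fun x => α (n + W * x)) (fun x => γ (n + p + W * x)) 1 1
    simp only [one_mul] at this
    unfold avg
    rw [← this]
    refine mean_le_one hq fun x => ?_
    rw [add_right_comm]; exact h.loc _ p hp
  have h1 := hoffman (W := W) (u := u) hq hP0 hP (fun x => α (n + W * x)) (fun x => γ (n + u + W * x))
    (fun x => by rw [mul_add, ← add_assoc, mul_comm W q, per_mul h.pc])
  rw [Finset.sum_eq_zero (s := range q) (f := fun x => ∑ z ∈ range q,
    α (n + W * x) * kap W u (newP W q) z * γ (n + u + W * (x + z))), mul_zero] at h1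
  swap
  · intro x _
    refine Finset.sum_eq_zero fun z _ => ?_
    rw [kap_eq_coprime hq hu]
    split_ifs with hc
    · rcases h.un (n + W * x) (u + W * z) (Nat.Coprime.coprime_mul_left_right hc) with k | k
      · rw [k]; simp
      · rw [show n + u + W * (x + z) = n + W * x + (u + W * z) by ring, k]; simp
    · simp
  have hR : 0 < ∑ z ∈ range q, kap W u (newP W q) z := by
    have := totient_le_kap hW hq u
    have h2 : (0 : ℝ) < (W * q).totient := by exact_mod_cast Nat.totient_pos.2 (by positivity)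
    exact pos_of_mul_pos_left (by linarith : 0 < (∑ z ∈ range q, kap W u (newP W q) z) * W)
      (by positivity)
  have h2 := nonpos_of_mul_nonpos_right h1 hR
  set a := avg W q α n with ha
  set c := avg W q γ (n + u) with hc
  have ea : ∑ x ∈ range q, α (n + W * x) = q * a := by rw [ha]; unfold avg mean; field_simp
  have ec : ∑ x ∈ range q, γ (n + u + W * x) = q * c := by rw [hc]; unfold avg mean; field_simp
  have ha0 : 0 ≤ a := mean_nonneg fun _ => h.a0 _
  have hc0 : 0 ≤ c := mean_nonneg fun _ => h.c0 _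
  have ha1 : a ≤ 1 := mean_le_one hq fun _ => h.a1 _
  have hc1 : c ≤ 1 := mean_le_one hq fun _ => h.c1 hq _
  have sq : ∀ (φ : ℕ → ℝ) (b : ℝ), (∀ j, 0 ≤ φ j) → (∀ j, φ j ≤ 1) → ∑ j ∈ range q, φ j = q * b →
      √(q * ∑ x ∈ range q, φ x ^ 2 - (q * b) ^ 2) ≤ q * √(b * (1 - b)) := by
    intro φ b h0 h1 hb
    rw [← Real.sqrt_sq hq'.le, ← Real.sqrt_mul (sq_nonneg _), Real.sqrt_sq hq'.le]
    apply Real.sqrt_le_sqrt
    have k1 : ∑ x ∈ range q, φ x ^ 2 ≤ q * b := by
      rw [← hb]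
      exact Finset.sum_le_sum fun j _ => by nlinarith [h0 j, h1 j]
    nlinarith
  have s1 := sq _ a (fun x => h.a0 (n + W * x)) (fun x => h.a1 _) ea
  have s2 := sq _ c (fun x => h.c0 (n + u + W * x)) (fun x => h.c1 hq _) ec
  rw [ea, ec, sub_nonpos, le_div_iff₀ hP'] at h2
  have s3 := h2.trans (mul_le_mul s1 s2 (Real.sqrt_nonneg _) (by positivity))
  have s4 : P * (a * c) ≤ √(a * (1 - a)) * √(c * (1 - c)) := by
    have : (q : ℝ) ^ 2 * (P * (a * c)) ≤ q ^ 2 * (√(a * (1 - a)) * √(c * (1 - c))) := by nlinarith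
    exact le_of_mul_le_mul_left this (by positivity)
  have s5 := pow_le_pow_left₀ (by positivity) s4 2
  rw [mul_pow (√_), Real.sq_sqrt (mul_nonneg ha0 (by linarith)),
    Real.sq_sqrt (mul_nonneg hc0 (by linarith))] at s5
  rcases (mul_nonneg ha0 hc0).eq_or_lt with k | k
  · rw [← k, mul_zero]; exact mul_nonneg (by linarith) (by linarith)
  · exact le_of_mul_le_mul_left (a := a * c) (by nlinarith) k

/-- cutting off the small values of a relaxed pair gives a feasible pair -/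
theorem Rel.le_Gq {W P : ℕ} (hW : 0 < W) {a c : ℕ → ℝ} (h : Rel W P a c) {x : ℝ}
    (hx : x ≤ mean W a) : mean W c ≤ Gq W (x - 1 / (P + 1)) + 1 / (P + 1) := by
  set θ : ℝ := 1 / (P + 1) with hθ
  have hθ0 : 0 < θ := by positivity
  have hθ1 : (P + 1) * θ = 1 := by rw [hθ]; field_simp
  have cut : ∀ f : ℕ → ℝ, mean W f - θ ≤ mean W fun n => if θ < f n then f n else 0 := by
    intro f
    have := mean_lin W f (fun _ => θ) 1 (-1)
    rw [mean_const hW] at this
    refine le_trans (le_of_eq (by linarith)) (mean_mono (f := fun n => 1 * f n + -1 * θ) fun n => ?_)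
    split_ifs <;> linarith
  have hF : Fs W (fun n => if θ < a n then a n else 0) (fun n => if θ < c n then c n else 0) := by
    refine ⟨fun n => by rw [h.pa], fun n => by rw [h.pc], fun n => ?_, fun n => ?_,
      fun n p hp => ?_, fun n u hu => ?_⟩
    · split_ifs; exacts [h.a0 n, le_rfl]
    · split_ifs; exacts [h.c0 n, le_rfl]
    · have := h.loc n p hp
      have := h.a0 n
      have := h.c0 (n + p)
      split_ifs <;> linarith
    · by_contra hcon
      push Not at hcon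
      have k1 : θ < a n := by by_contra k; simp [k] at hcon
      have k2 : θ < c (n + u) := by by_contra k; simp [k] at hcon
      have k3 := h.hof n u hu
      have k4 : 1 - a n < P * a n := by nlinarith
      have k5 : 1 - c (n + u) < P * c (n + u) := by nlinarith
      have k6 : 0 ≤ 1 - a n := by linarith [h.loc n 2 Nat.prime_two, h.c0 (n + 2)]
      have k7 : 0 ≤ 1 - c (n + u) := by linarith [c_le_one hW h.pc h.a0 h.loc (n + u)]
      nlinarith [mul_lt_mul'' k4 k5 k6 k7]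
  have := Pool.Agent.P.MP_e86632_nt.le_Gq hW hF (x := x - θ) (by linarith [cut a])
  linarith [cut c]

end Pool.Agent.P.MP_e86632_nt
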