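import Pool.Agent.P.MP_e86632_nt.Transfer
import Pool.Agent.P.MP_e86632_nt.Model
import Pool.Agent.P.MP_e86632_nt.Defs

/-! The lower bound for the density of `A + primes`. -/

namespace Pool.Agent.P.MP_e86632_nt

open Finset Real Filter Pointwise

open Classical in
noncomputable def ind (A : Set ℕ) (n : ℕ) : ℝ := if n ∈ A then 1 else 0

noncomputable def cnt (A : Set ℕ) (n : ℕ) : ℝ := ∑ i ∈ Ioc 0 n, ind A i

lemma ind_nonneg (A : Set ℕ) (n : ℕ) : 0 ≤ ind A n := by unfold ind; split_ifs <;> norm_num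

lemma ind_le_one (A : Set ℕ) (n : ℕ) : ind A n ≤ 1 := by unfold ind; split_ifs <;> norm_num

lemma cnt_nonneg (A : Set ℕ) (n : ℕ) : 0 ≤ cnt A n := Finset.sum_nonneg fun _ _ => ind_nonneg _ _

lemma cnt_le (A : Set ℕ) (n : ℕ) : cnt A n ≤ n :=
  (Finset.sum_le_sum fun i _ => ind_le_one A i).trans (by simp)

lemma ncard_eq (A : Set ℕ) (n : ℕ) : ((A ∩ Set.Icc 1 n).ncard : ℝ) = cnt A n := by
  classical
  have : A ∩ Set.Icc 1 n = ↑((Ioc 0 n).filter (· ∈ A)) := by
    ext i; simp only [Set.mem_inter_iff, Set.mem_Icc, Finset.coe_filter, Finset.mem_Ioc,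
      Set.mem_ofPred_eq]
    constructor
    · rintro ⟨h, h1, h2⟩; exact ⟨⟨h1, h2⟩, h⟩
    · rintro ⟨⟨h1, h2⟩, h⟩; exact ⟨h, h1, h2⟩
  rw [this, Set.ncard_coe_finset, Finset.card_filter]
  push_cast
  exact Finset.sum_congr rfl fun i _ => by unfold ind; congr

lemma ld_eq (A : Set ℕ) : lowerDensity A = liminf (fun n : ℕ => cnt A n / n) atTop := by
  unfold lowerDensity; simp_rw [ncard_eq]

lemma cnt_div_le (A : Set ℕ) (n : ℕ) : cnt A n / n ≤ 1 :=
  div_le_one_of_le₀ (cnt_le A n) (by positivity)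

lemma cnt_div_nonneg (A : Set ℕ) (n : ℕ) : 0 ≤ cnt A n / n := div_nonneg (cnt_nonneg A n) (by positivity)

lemma ev_of_lt_ld {A : Set ℕ} {c : ℝ} (h : c < lowerDensity A) : ∀ᶠ n : ℕ in atTop, c < cnt A n / n := by
  rw [ld_eq] at h
  exact eventually_lt_of_lt_liminf h (isBoundedUnder_of ⟨0, cnt_div_nonneg A⟩)

lemma le_ld {A : Set ℕ} {c : ℝ} (h : ∀ᶠ n : ℕ in atTop, c ≤ cnt A n / n) : c ≤ lowerDensity A := by
  rw [ld_eq]
  exact le_liminf_of_le (isCoboundedUnder_ge_of_le _ (cnt_div_le A)) h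

lemma ld_le {A : Set ℕ} {c : ℝ} (h : ∀ᶠ n : ℕ in atTop, cnt A n / n ≤ c) : lowerDensity A ≤ c := by
  rw [ld_eq]
  exact liminf_le_of_frequently_le h.frequently (isBoundedUnder_of ⟨0, cnt_div_nonneg A⟩)

lemma ld_le_one (A : Set ℕ) : lowerDensity A ≤ 1 := ld_le (Eventually.of_forall (cnt_div_le A))

lemma ld_nonneg (A : Set ℕ) : 0 ≤ lowerDensity A := le_ld (Eventually.of_forall (cnt_div_nonneg A))

lemma Gq_nonneg {q : ℕ} (hq : 0 < q) {x : ℝ} (hx : x ≤ 1) : 0 ≤ Gq q x := by
  obtain ⟨_, α, γ, h, h1, rfl⟩ := Gset_ne hq hx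
  exact (mean_nonneg h.c0).trans (le_Gq hq h h1)

lemma Gq_le_one {q : ℕ} (hq : 0 < q) {x : ℝ} (hx : x ≤ 1) : Gq q x ≤ 1 :=
  Gq_le hq hx fun _ _ h _ => mean_le_one hq (h.c1 hq)

open Classical in
/-- elements of `A` in the `j`-th block and in the class of `s` -/
noncomputable def blk (A : Set ℕ) (W l j s : ℕ) : Finset ℕ :=
  (Ioc (j * l) ((j + 1) * l)).filter fun i => i ∈ A ∧ i ≡ s [MOD W]

lemma mem_blk {A : Set ℕ} {W l j s i : ℕ} :
    i ∈ blk A W l j s ↔ (j * l < i ∧ i ≤ (j + 1) * l) ∧ i ∈ A ∧ i ≡ s [MOD W] := by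
  simp [blk]

lemma blk_per (A : Set ℕ) (W l j s : ℕ) : blk A W l j (s + W) = blk A W l j s := by
  ext i
  simp only [mem_blk, and_congr_right_iff]
  exact fun _ _ => ⟨fun h => h.trans Nat.add_modEq_right, fun h => h.trans Nat.add_modEq_right.symm⟩

lemma sum_blk (A : Set ℕ) {W : ℕ} (hW : 0 < W) (l j : ℕ) :
    ∑ s ∈ range W, ((blk A W l j s).card : ℝ) = cnt A ((j + 1) * l) - cnt A (j * l) := by
  classical
  unfold cnt
  rw [← Finset.sum_Ioc_consecutive _ (Nat.zero_le (j * l)) (by nlinarith : j * l ≤ (j + 1) * l),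
    add_sub_cancel_left]
  simp only [blk, Finset.card_filter]
  push_cast
  rw [Finset.sum_comm]
  refine Finset.sum_congr rfl fun i _ => ?_
  have := fiber_one one_pos hW (x := i) (s := 0) Nat.modEq_one
  simp only [one_mul, zero_add] at this
  unfold ind
  by_cases h : i ∈ A
  · simpa [h] using this
  · simp [h]

lemma card_le_of_class {X : Finset ℕ} {W m a r : ℕ} (hW : 0 < W)
    (hX : ∀ x ∈ X, (a ≤ x ∧ x < a + W * (m + 1)) ∧ x ≡ r [MOD W]) : (X.card : ℝ) ≤ m + 2 := by
  have := class_count (M := W) (r := r) X fun x hx => (hX x hx).1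
  rw [Finset.sum_congr rfl fun x hx => if_pos (hX x hx).2] at this
  have hW' : (W : ℝ) ≠ 0 := by positivity
  simp only [Finset.sum_const, nsmul_eq_mul, mul_one] at this
  push_cast at this
  rw [mul_div_cancel_left₀ _ hW'] at this
  linarith

theorem lower {W P : ℕ} (hW : 0 < W) (hP0 : 0 < P) (hP : ∀ p, p.Prime → ¬ p ∣ W → P < p)
    (A : Set ℕ) {ε : ℝ} (hε : 0 < ε) :
    1 - Gq W (lowerDensity A - 2 / P - ε) - 2 / P - ε ≤ lowerDensity (A + {p | p.Prime}) := by
  classical
  set x := lowerDensity A with hx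
  set B : Set ℕ := A + {p | p.Prime} with hB
  have hW' : (0 : ℝ) < W := by exact_mod_cast hW
  have hP' : (1 : ℝ) ≤ P := by exact_mod_cast hP0
  obtain ⟨K, hK⟩ := exists_nat_ge (4 * W / ε + 2 * W)
  have hK1 : 4 * W / ε ≤ K := le_trans (le_add_of_nonneg_right (by positivity)) hK
  have hK2 : 2 * (W : ℝ) ≤ K := le_trans (le_add_of_nonneg_left (by positivity)) hK
  have hK0' : (0 : ℝ) < K := by linarith
  have hK0 : 0 < K := by exact_mod_cast hK0'
  obtain ⟨n₀, hn₀⟩ := eventually_atTop.1 (ev_of_lt_ld (A := A) (c := x - ε / 4) (by linarith))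
  obtain ⟨m₀, hm₀⟩ := exists_nat_ge (8 / ε)
  apply le_ld
  filter_upwards [prime_diff hW hP0 hP (η := 1 / (2 * K)) (by positivity),
    eventually_ge_atTop (K * W * (n₀ + m₀ + 1)),
    tendsto_natCast_atTop_atTop.eventually_ge_atTop (18 * W * K / ε : ℝ)] with N hpd hN1 hN2
  set m := N / (K * W) with hm
  set l := W * m with hl
  have hKW : 0 < K * W := by positivity
  have hm1 : n₀ + m₀ + 1 ≤ m := (Nat.le_div_iff_mul_le hKW).2 (by linarith)
  have hKl : K * l ≤ N := by rw [hl, ← mul_assoc]; exact Nat.mul_div_le N _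
  have hKl2 : N < K * l + K * W := by
    have := Nat.lt_mul_div_succ N hKW
    rw [← hm] at this
    rw [hl]; linarith
  have hN0 : (0 : ℝ) < N := by
    have : 0 < K * W * (n₀ + m₀ + 1) := by positivity
    exact_mod_cast (by omega : 0 < N)
  have hml : m ≤ l := Nat.le_mul_of_pos_left _ hW
  have hWl : W ≤ l := Nat.le_mul_of_pos_right _ (by omega)
  have hηl : 1 / (2 * K) * (N : ℝ) ≤ l := by
    have : N ≤ 2 * K * l := by nlinarith
    have : (N : ℝ) ≤ 2 * K * l := by exact_mod_cast this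
    rw [div_mul_eq_mul_div, div_le_iff₀ (by positivity)]; linarith
  have hm2 : (0 : ℝ) < m + 2 := by positivity
  set a₀ : ℕ → ℕ → ℝ := fun j s => (blk A W l j s).card / (m + 2) with ha₀
  set c₀ : ℕ → ℕ → ℝ := fun j s => (blk Bᶜ W l j s).card / (m + 2) with hc₀
  have le1 : ∀ (C : Set ℕ) j s, ((blk C W l j s).card : ℝ) / (m + 2) ≤ 1 := by
    intro C j s
    rw [div_le_one hm2]
    refine card_le_of_class (a := j * l + 1) (r := s) hW fun i hi => ?_
    rw [mem_blk] at hi
    exact ⟨⟨hi.1.1, by nlinarith [hi.1.2]⟩, hi.2.2⟩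
  have cross : ∀ i j, i + 2 ≤ j → j < K → ∀ n u, u.Coprime W → 2 / P < a₀ i n →
      ¬ 2 / P < c₀ j (n + u) := by
    intro i j hij hj n u hu h1 h2
    have e : ∀ c : ℝ, 2 / P < c / (m + 2) → 2 * l / (P * W) ≤ c := by
      intro c hc
      rw [lt_div_iff₀ hm2] at hc
      have : 2 * (l : ℝ) / (P * W) = 2 / P * m := by rw [hl]; push_cast; field_simp
      have : 0 ≤ 2 / (P : ℝ) := by positivity
      nlinarith
    obtain ⟨y, hy, p, hp, hyp⟩ := hpd (blk A W l i n) (blk Bᶜ W l j (n + u)) n u l (i * l + 1)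
      (j * l + 1) hu hηl
      (fun y hy => by rw [mem_blk] at hy; exact ⟨hy.1.1, by nlinarith [hy.1.2], hy.2.2⟩)
      (fun y hy => by rw [mem_blk] at hy; exact ⟨hy.1.1, by nlinarith [hy.1.2], hy.2.2⟩)
      (fun y hy => by rw [mem_blk] at hy; nlinarith [hy.1.2])
      (fun y hy z hz => by
        rw [mem_blk] at hy hz
        have : y + l ≤ z := by nlinarith [hy.1.2, hz.1.1]
        have : (y : ℝ) + l ≤ z := by exact_mod_cast this
        linarith) (e _ h1) (e _ h2)
    exact (mem_blk.1 hyp).2.1 ⟨y, (mem_blk.1 hy).2.1, p, hp, rfl⟩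
  set U : ℕ → Set ℕ := fun j => {s | ∃ i, i < j ∧ 2 / P < a₀ i s} with hU
  have hUm : Monotone U := fun j j' h s ⟨i, hi, hs⟩ => ⟨i, hi.trans_le h, hs⟩
  set T : ℕ → Set ℕ := fun j => {t | ∀ n u, u.Coprime W → n ∈ U (j + 1) → n + u ≠ t} with hT
  set a : ℕ → ℕ → ℝ := fun j s => if 2 / P < a₀ j s then a₀ j s else 0 with ha
  set c : ℕ → ℕ → ℝ := fun j s => if U (j + 1) ⊆ U (j - 1) ∧ 2 / P < c₀ j s then c₀ j s else 0 with hc
  have hcross : ∀ j, Cross W (U (j + 1)) (T j) := fun j n u hu hn h => h n u hu hn rfl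
  have a₀0 : ∀ j s, 0 ≤ a₀ j s := fun j s => by positivity
  have c₀0 : ∀ j s, 0 ≤ c₀ j s := fun j s => by positivity
  have hF : ∀ j, j < K → FsR W (U (j + 1)) (T j) (a j) (c j) := by
    intro j hj
    have sa : ∀ n, n ∉ U (j + 1) → a j n = 0 := fun n hn => if_neg fun h => hn ⟨j, by omega, h⟩
    have sc : ∀ n, n ∉ T j → c j n = 0 := fun t ht => if_neg fun h => ht fun n u hu hn e => by
      obtain ⟨i, hi, hs⟩ := h.1 hn
      exact cross i j (by omega) hj n u hu hs (e ▸ h.2)
    have aa : ∀ n, a j n ≤ a₀ j n := fun n => by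
      simp only [ha]; split_ifs; exacts [le_rfl, a₀0 j n]
    have cc : ∀ n, c j n ≤ c₀ j n := fun n => by
      simp only [hc]; split_ifs; exacts [le_rfl, c₀0 j n]
    refine ⟨fun n => by simp only [ha, ha₀, blk_per], fun n => by simp only [hc, hc₀, blk_per],
      fun n => ?_, fun n => ?_, fun n p hp => ?_, sa, sc⟩
    · simp only [ha]; split_ifs; exacts [a₀0 j n, le_rfl]
    · simp only [hc]; split_ifs; exacts [c₀0 j n, le_rfl]
    by_cases hpW : p ∣ W
    · refine (add_le_add (aa n) (cc _)).trans ?_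
      simp only [ha₀, hc₀]
      rw [← add_div, div_le_one hm2, ← Finset.card_image_of_injective _ (add_left_injective p),
        ← Nat.cast_add, ← Finset.card_union_of_disjoint]
      · refine card_le_of_class (a := j * l + 1) (r := n + p) hW fun i hi => ?_
        have hpl := Nat.le_of_dvd hW hpW
        rcases Finset.mem_union.1 hi with h | h
        · obtain ⟨y, hy, rfl⟩ := Finset.mem_image.1 h
          rw [mem_blk] at hy
          exact ⟨⟨by omega, by nlinarith [hy.1.2]⟩, hy.2.2.add_right p⟩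
        · rw [mem_blk] at h
          exact ⟨⟨h.1.1, by nlinarith [h.1.2]⟩, h.2.2⟩
      · rw [Finset.disjoint_left]
        intro i h1 h2
        obtain ⟨y, hy, rfl⟩ := Finset.mem_image.1 h1
        exact (mem_blk.1 h2).2.1 ⟨y, (mem_blk.1 hy).2.1, p, hp, rfl⟩
    · by_cases hn : n ∈ U (j + 1)
      · rw [sc _ (hcross j n p ((Nat.Prime.coprime_iff_not_dvd hp).2 hpW) hn), add_zero]
        exact (aa n).trans (le1 _ _ _)
      · rw [sa n hn, zero_add]; exact (cc _).trans (le1 _ _ _)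
  have mean0 : ∀ (C : Set ℕ) j, mean W (fun s => ((blk C W l j s).card : ℝ) / (m + 2))
      = (cnt C ((j + 1) * l) - cnt C (j * l)) / ((m + 2) * W) := by
    intro C j
    unfold mean
    rw [← Finset.sum_div, sum_blk C hW, div_div]
  have tele : ∀ (C : Set ℕ) j, ∑ i ∈ range j, mean W (fun s => ((blk C W l i s).card : ℝ) / (m + 2))
      = cnt C (j * l) / ((m + 2) * W) := by
    intro C j
    simp_rw [mean0]
    rw [← Finset.sum_div, Finset.sum_range_sub (fun i => cnt C (i * l))]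
    simp [cnt]
  have hx1 : x ≤ 1 := ld_le_one A
  have hch := chain hW K (fun j => U (j + 1)) T a c (fun j j' h => hUm (by omega))
    (fun j j' h t ht n u hu hn => ht n u hu (hUm (by omega) hn)) hcross hF
    (x := x - 2 / P - ε / 2) (h := ε / 2) (by positivity) (fun j _ => by
      have k1 : ∀ i ∈ range j, mean W (a₀ i) - 2 / P ≤ mean W (a i) := by
        intro i _
        have := mean_lin W (a₀ i) (fun _ => 2 / P) 1 (-1)
        rw [mean_const hW] at this
        refine le_trans (le_of_eq (by linarith))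
          (mean_mono (f := fun n => 1 * a₀ i n + -1 * (2 / P)) fun n => ?_)
        have : 0 ≤ 2 / (P : ℝ) := by positivity
        simp only [ha]; split_ifs <;> linarith
      refine le_trans ?_ (Finset.sum_le_sum k1)
      rw [Finset.sum_sub_distrib, tele A j]
      simp only [Finset.sum_const, Finset.card_range, nsmul_eq_mul]
      rcases Nat.eq_zero_or_pos j with rfl | hj
      · simp [cnt]
      have k2 := hn₀ (j * l) (by nlinarith)
      rw [lt_div_iff₀ (by exact_mod_cast (by nlinarith : 0 < j * l))] at k2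
      have k3 : j * (x - ε / 2) ≤ cnt A (j * l) / ((m + 2) * W) := by
        rw [le_div_iff₀ (by positivity)]
        refine le_trans ?_ k2.le
        rw [hl]; push_cast
        have k4 : (m₀ : ℝ) ≤ m := by exact_mod_cast (by omega : m₀ ≤ m)
        rw [div_le_iff₀ hε] at hm₀
        have k5 : (x - ε / 2) * (m + 2) ≤ (x - ε / 4) * m := by nlinarith
        have := mul_le_mul_of_nonneg_left k5 (by positivity : (0 : ℝ) ≤ j * W)
        linarith
      linarith)
  rw [show x - 2 / P - ε / 2 - ε / 2 = x - 2 / P - ε by ring] at hch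
  set G := Gq W (x - 2 / P - ε) with hG
  have hP2 : 0 ≤ 2 / (P : ℝ) := by positivity
  have hP3 : 2 / (P : ℝ) ≤ 2 := div_le_self (by norm_num) hP'
  have hG0 : 0 ≤ G := Gq_nonneg hW (by linarith)
  have hG1 : G ≤ 1 := Gq_le_one hW (by linarith)
  set r : ℕ → ℕ := fun j => ((range W).filter (· ∈ U j)).card with hr
  have hrm : Monotone r := fun j j' h =>
    Finset.card_le_card (Finset.monotone_filter_right _ fun s _ hs => hUm h hs)
  have hrW : ∀ j, r j ≤ W := fun j => (Finset.card_filter_le _ _).trans (by simp)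
  have hbad : ∀ k, ∑ j ∈ range k, (if U (j + 1) ⊆ U (j - 1) then (0 : ℝ) else 1) ≤ r k + r (k - 1) := by
    intro k
    induction k with
    | zero => simp
    | succ k ih =>
      rw [Finset.sum_range_succ, Nat.add_sub_cancel]
      split_ifs with h
      · have : (r (k - 1) : ℝ) ≤ r (k + 1) := by exact_mod_cast hrm (by omega)
        linarith
      · have : r (k - 1) < r (k + 1) := by
          apply Finset.card_lt_card
          refine ⟨Finset.monotone_filter_right _ fun s _ hs => hUm (by omega) hs, fun hsub => h ?_⟩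
          rintro s ⟨i, hi, hs⟩
          have e : ∀ i, a₀ i (s % W) = a₀ i s := fun i => by
            conv_rhs => rw [← Nat.mod_add_div s W]
            exact (per_mul (f := a₀ i) (fun n => by simp only [ha₀, blk_per]) _ _).symm
          have k1 : s % W ∈ (range W).filter (· ∈ U (k + 1)) :=
            Finset.mem_filter.2 ⟨Finset.mem_range.2 (Nat.mod_lt _ hW), i, hi, by rwa [e]⟩
          obtain ⟨i', hi', hs'⟩ := (Finset.mem_filter.1 (hsub k1)).2
          exact ⟨i', hi', by rwa [e] at hs'⟩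
        have : (r (k - 1) : ℝ) + 1 ≤ r (k + 1) := by exact_mod_cast this
        linarith
  have hc1 : ∀ j ∈ range K, mean W (c₀ j)
      ≤ mean W (c j) + 2 / P + (if U (j + 1) ⊆ U (j - 1) then (0 : ℝ) else 1) := by
    intro j _
    have := mean_lin W (c j) (fun _ => 2 / P + (if U (j + 1) ⊆ U (j - 1) then (0 : ℝ) else 1)) 1 1
    rw [mean_const hW] at this
    refine le_trans (mean_mono fun n => ?_) (le_of_eq (this.trans (by ring)))
    have := le1 Bᶜ j n
    simp only [hc]
    by_cases h1 : U (j + 1) ⊆ U (j - 1)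
    · by_cases h2 : 2 / P < c₀ j n
      · simp [h1, h2, hP2]
      · simp only [h1, h2, and_false, if_false, if_true]; linarith
    · simp only [h1, false_and, if_false]; linarith
  have f1 := Finset.sum_le_sum hc1
  rw [tele Bᶜ K, Finset.sum_add_distrib, Finset.sum_add_distrib] at f1
  simp only [Finset.sum_const, Finset.card_range, nsmul_eq_mul] at f1
  have f2 : (r K : ℝ) + r (K - 1) ≤ 2 * W := by
    have := hrW K; have := hrW (K - 1)
    exact_mod_cast (by omega : r K + r (K - 1) ≤ 2 * W)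
  have f3 : cnt Bᶜ (K * l) ≤ (K * G + K * (2 / P) + 2 * W) * ((m + 2) * W) := by
    rw [← div_le_iff₀ (by positivity)]; linarith [hbad K]
  have f4 : cnt Bᶜ (K * l) + cnt B (K * l) = (K * l : ℕ) := by
    unfold cnt
    rw [← Finset.sum_add_distrib, Finset.sum_congr rfl (g := fun _ => (1 : ℝ))]
    · simp
    · intro i _; unfold ind; by_cases h : i ∈ B <;> simp [h]
  have f5 : cnt B (K * l) ≤ cnt B N :=
    Finset.sum_le_sum_of_subset_of_nonneg (Finset.Ioc_subset_Ioc_right hKl) fun _ _ _ => ind_nonneg _ _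
  have f6 : (N : ℝ) ≤ (K * l : ℕ) + K * W := by exact_mod_cast hKl2.le
  have f7 : (K : ℝ) * ((m + 2) * W) ≤ N + 2 * W * K := by
    have : ((K * l : ℕ) : ℝ) ≤ N := by exact_mod_cast hKl
    rw [hl] at this; push_cast at this; linarith
  have f8 : 2 * (W : ℝ) ≤ K * (ε / 2) := by rw [div_le_iff₀ hε] at hK1; linarith
  have f9 : (K * G + K * (2 / P) + 2 * W) * ((m + 2) * W)
      = (G + 2 / P + 2 * W / K) * (K * ((m + 2) * W)) := by field_simp
  have f10 : 2 * (W : ℝ) / K ≤ ε / 2 := by rw [div_le_iff₀ hK0']; linarith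
  have f11 : 2 * (W : ℝ) / K ≤ 1 := by rw [div_le_one hK0']; exact hK2
  have f12 : 0 ≤ 2 * (W : ℝ) / K := by positivity
  have f13 := mul_le_mul_of_nonneg_left f7 (by positivity : 0 ≤ G + 2 / P + 2 * W / K)
  have f14 : (G + 2 / P + 2 * W / K) * (2 * W * K) ≤ 4 * (2 * W * K) :=
    mul_le_mul_of_nonneg_right (by linarith) (by positivity)
  have f15 : (G + 2 / P + 2 * W / K) * N ≤ (G + 2 / P + ε / 2) * N :=
    mul_le_mul_of_nonneg_right (by linarith) hN0.le
  rw [div_le_iff₀ hε] at hN2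
  rw [le_div_iff₀ hN0]
  nlinarith

end Pool.Agent.P.MP_e86632_nt
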