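import Pool.Agent.P.MP_e86632_nt.Upper

/-! The formula for `f*`, continuity, the functional equation. -/

namespace Pool.Agent.P.MP_e86632_nt

open Finset Real Filter Pointwise Topology

noncomputable def G (x : ℝ) : ℝ :=
  sSup {c | ∃ q α γ, 0 < q ∧ Fs q α γ ∧ x ≤ mean q α ∧ c = mean q γ}

lemma le_G {q : ℕ} (hq : 0 < q) {x : ℝ} {α γ : ℕ → ℝ} (h : Fs q α γ) (hx : x ≤ mean q α) :
    mean q γ ≤ G x :=
  le_csSup ⟨1, by rintro c ⟨q, α, γ, hq, h, _, rfl⟩; exact mean_le_one hq (h.c1 hq)⟩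
    ⟨q, α, γ, hq, h, hx, rfl⟩

lemma G_le {x c : ℝ} (hx : x ≤ 1)
    (h : ∀ q α γ, 0 < q → Fs q α γ → x ≤ mean q α → mean q γ ≤ c) : G x ≤ c := by
  obtain ⟨_, α, γ, h1, h2, rfl⟩ := Gset_ne one_pos hx
  exact csSup_le ⟨_, 1, α, γ, one_pos, h1, h2, rfl⟩
    (by rintro _ ⟨q, α, γ, hq, h1, h2, rfl⟩; exact h q α γ hq h1 h2)

lemma Gq_le_G {q : ℕ} (hq : 0 < q) {x : ℝ} (hx : x ≤ 1) : Gq q x ≤ G x :=
  Gq_le hq hx fun _ _ h h1 => le_G hq h h1

lemma G_anti {x y : ℝ} (hx : x ≤ 1) (h : y ≤ x) : G x ≤ G y :=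
  G_le hx fun _ _ _ hq h1 h2 => le_G hq h1 (h.trans h2)

lemma G_nonneg {x : ℝ} (hx : x ≤ 1) : 0 ≤ G x := (Gq_nonneg one_pos hx).trans (Gq_le_G one_pos hx)

lemma G_effective {W P : ℕ} (hW : 0 < W) (hP0 : 0 < P) (hP : ∀ p, p.Prime → ¬ p ∣ W → P < p)
    {x : ℝ} (hx : x ≤ 1) : G x ≤ Gq W (x - 1 / (P + 1)) + 1 / (P + 1) :=
  G_le hx fun _ _ _ hq h1 h2 => by
    have := (h1.rel hq hW hP0 hP).le_Gq hW (x := x) (by rwa [mean_avg h1.pa hW])
    rwa [mean_avg h1.pc hW] at this

lemma mean_shift {q : ℕ} {f : ℕ → ℝ} (h : ∀ n, f (n + q) = f n) (k : ℕ) :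
    mean q (fun n => f (n + k)) = mean q f := by
  unfold mean; rw [sum_range_shift f q h]

/-- classes of primes and units -/
def D (W : ℕ) : Set ℕ := {n | n.Coprime W ∨ ∃ p, p.Prime ∧ p ∣ W ∧ n ≡ p [MOD W]}

lemma D_congr {W n m : ℕ} (h : n ≡ m [MOD W]) (hm : m ∈ D W) : n ∈ D W := by
  rcases hm with hm | ⟨p, hp, h1, h2⟩
  · left; unfold Nat.Coprime; rw [h.gcd_eq]; exact hm
  · exact Or.inr ⟨p, hp, h1, h.trans h2⟩

lemma D_per (W n : ℕ) : ind (D W) (n + W) = ind (D W) n := by
  unfold ind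
  congr 1
  exact propext ⟨D_congr Nat.add_modEq_right.symm, D_congr Nat.add_modEq_right⟩

lemma G_step {W : ℕ} (hW : 0 < W) {x y : ℝ} (hy1 : y ≤ 1) (hy : x - (1 - x) / W ≤ y) :
    G y ≤ G x + mean W (ind (D W)) := by
  classical
  have hW' : (0 : ℝ) < W := by exact_mod_cast hW
  have hD0 : 0 ≤ mean W (ind (D W)) := mean_nonneg (ind_nonneg _)
  refine G_le hy1 fun q α γ hq h h2 => ?_
  rcases le_or_gt x (mean q α) with h3 | h3
  · linarith [le_G hq h h3]
  have hqW : 0 < q * W := by positivity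
  set gain : ℕ → ℝ := fun e => mean (q * W) fun n => if n ≡ e [MOD W] then 1 - α n else 0 with hgain
  have hsum : ∑ e ∈ range W, gain e = 1 - mean q α := by
    have e1 := mean_lin (q * W) (fun _ => 1) α 1 (-1)
    rw [mean_const hqW, mean_mul h.pa hW] at e1
    rw [show 1 - mean q α = 1 * 1 + -1 * mean q α by ring, ← e1]
    simp only [hgain, mean]
    rw [← Finset.sum_div, Finset.sum_comm]
    congr 1
    refine Finset.sum_congr rfl fun n _ => ?_
    have := fiber_one one_pos hW (x := n) (s := 0) Nat.modEq_one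
    simp only [one_mul, zero_add] at this
    calc _ = (∑ e ∈ range W, if n ≡ e [MOD W] then (1 : ℝ) else 0) * (1 - α n) := by
          rw [Finset.sum_mul]; exact Finset.sum_congr rfl fun e _ => by split_ifs <;> simp
      _ = _ := by rw [this]; ring
  obtain ⟨e, he, hge⟩ : ∃ e ∈ range W, (1 - x) / W ≤ gain e := by
    apply Finset.exists_le_of_sum_le ⟨0, Finset.mem_range.2 hW⟩
    rw [hsum]
    simp only [Finset.sum_const, Finset.card_range, nsmul_eq_mul]
    rw [mul_div_cancel₀ _ hW'.ne']; linarith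
  have heW := Finset.mem_range.1 he
  have hmod : ∀ n u, n ≡ e [MOD W] → n + u + (W - e) ≡ u [MOD W] := by
    intro n u hn
    refine ((hn.add_right u).add_right _).trans ?_
    rw [show e + u + (W - e) = u + W by omega]; exact Nat.add_modEq_right
  have hF : Fs (q * W) (fun n => if n ≡ e [MOD W] then 1 else α n)
      (fun n => if n + (W - e) ∈ D W then 0 else γ n) := by
    refine ⟨fun n => ?_, fun n => ?_, fun n => ?_, fun n => ?_, fun n p hp => ?_, fun n u hu => ?_⟩
    · rw [per_mul h.pa]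
      congr 1
      have : n + q * W ≡ n [MOD W] := by simp [Nat.ModEq]
      exact propext ⟨fun k => this.symm.trans k, fun k => this.trans k⟩
    · rw [per_mul h.pc]
      congr 1
      have : n + q * W + (W - e) ≡ n + (W - e) [MOD W] := Nat.ModEq.add_right _ (by simp [Nat.ModEq])
      exact propext ⟨D_congr this.symm, D_congr this⟩
    · split_ifs; exacts [zero_le_one, h.a0 n]
    · split_ifs; exacts [le_rfl, h.c0 n]
    · by_cases hn : n ≡ e [MOD W]
      · rw [if_pos hn, if_pos, add_zero]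
        refine D_congr (hmod n p hn) ?_
        by_cases hpW : p ∣ W
        · exact Or.inr ⟨p, hp, hpW, Nat.ModEq.refl _⟩
        · exact Or.inl ((Nat.Prime.coprime_iff_not_dvd hp).2 hpW)
      · rw [if_neg hn]
        have := h.loc n p hp
        have := h.c0 (n + p)
        split_ifs <;> linarith
    · by_cases hn : n ≡ e [MOD W]
      · right
        rw [if_pos]
        exact D_congr (hmod n u hn) (Or.inl (Nat.Coprime.coprime_mul_left_right hu))
      · rcases h.un n u (Nat.Coprime.coprime_mul_right_right hu) with k | k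
        · left; rw [if_neg hn, k]
        · right; rw [k]; simp
  have k1 := le_G hqW hF (x := x) (by
    have e1 := mean_lin (q * W) α (fun n => if n ≡ e [MOD W] then 1 - α n else 0) 1 1
    rw [mean_mul h.pa hW] at e1
    refine le_trans ?_ (le_trans e1.ge (mean_mono fun n => ?_))
    · change _ ≤ 1 * mean q α + 1 * gain e
      linarith
    · split_ifs <;> linarith)
  have e1 := mean_lin (q * W) (fun n => if n + (W - e) ∈ D W then 0 else γ n)
    (fun n => ind (D W) (n + (W - e))) 1 1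
  rw [mean_shift (f := ind (D W)) (fun n => by rw [mul_comm, per_mul (D_per W)]), mul_comm q W,
    mean_mul (D_per W) hq, mul_comm W q] at e1
  rw [← mean_mul h.pc hW]
  refine le_trans (mean_mono fun n => ?_) (e1.le.trans (by linarith))
  have := h.c1 hq n
  unfold ind
  split_ifs <;> linarith

lemma totient_real (W : ℕ) : (W.totient : ℝ) = W * ∏ p ∈ W.primeFactors, (1 - (p : ℝ)⁻¹) := by
  have h := congrArg (fun x : ℚ => (x : ℝ)) (Nat.totient_eq_mul_prod_factors W)
  simpa using h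

lemma sum_coprime (W : ℕ) : ∑ n ∈ range W, (if n.Coprime W then (1 : ℝ) else 0) = W.totient := by
  rw [Finset.sum_boole, Nat.totient]
  congr 2; ext n; simp [Nat.coprime_comm]

lemma D_small {ε : ℝ} (hε : 0 < ε) : ∃ W, 0 < W ∧ mean W (ind (D W)) ≤ ε := by
  classical
  have h1 := (not_summable_iff_tendsto_nat_atTop_of_nonneg fun n =>
    Set.indicator_nonneg (fun _ _ => by positivity) n).1 not_summable_one_div_on_primes
  obtain ⟨w, hw1, hw2, hw3⟩ := ((h1.eventually_ge_atTop (2 / ε)).and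
    ((tendsto_natCast_atTop_atTop.eventually_ge_atTop (2 / ε + 1 : ℝ)).and
      (eventually_ge_atTop 2))).exists
  set W := w.factorial with hWdef
  have hW : 0 < W := Nat.factorial_pos w
  have hW' : (0 : ℝ) < W := by exact_mod_cast hW
  refine ⟨W, hW, ?_⟩
  have k1 : ∑ n ∈ range W, ind (D W) n ≤ W.totient + w := by
    rw [← sum_coprime]
    have : ∀ n ∈ range W, ind (D W) n ≤ (if n.Coprime W then (1 : ℝ) else 0)
        + ∑ p ∈ Ioc 0 w, (if n ≡ p [MOD W] then (1 : ℝ) else 0) := by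
      intro n _
      have h0 : ∀ p ∈ Ioc 0 w, 0 ≤ (if n ≡ p [MOD W] then (1 : ℝ) else 0) := fun p _ => by
        split_ifs <;> norm_num
      have h0' := Finset.sum_nonneg h0
      unfold ind
      split_ifs with a b b
      · linarith
      · obtain ⟨p, hp, h2, h3⟩ := a.resolve_left b
        have := Finset.single_le_sum h0 (Finset.mem_Ioc.2 ⟨hp.pos, (hp.dvd_factorial).1 h2⟩)
        rw [if_pos h3] at this; linarith
      · linarith
      · linarith
    refine (Finset.sum_le_sum this).trans ?_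
    rw [Finset.sum_add_distrib, Finset.sum_comm]
    refine add_le_add le_rfl (le_of_eq ?_)
    rw [Finset.sum_congr rfl (g := fun _ => (1 : ℝ))]
    · simp
    · intro p _
      have := fiber_one one_pos hW (x := p) (s := 0) Nat.modEq_one
      simp only [one_mul, zero_add] at this
      refine Eq.trans (Finset.sum_congr rfl fun n _ => ?_) this
      simp only [Nat.ModEq.comm]
  have k2 : (w : ℝ) ≤ ε / 2 * W := by
    obtain ⟨v, rfl⟩ : ∃ v, w = v + 1 := ⟨w - 1, by omega⟩
    have b1 : (v : ℝ) ≤ v.factorial := by exact_mod_cast Nat.self_le_factorial v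
    have b2 : 2 / ε ≤ v := by push_cast at hw2; linarith
    rw [div_le_iff₀ hε] at b2
    rw [hWdef, Nat.factorial_succ]; push_cast
    have : (0 : ℝ) ≤ v := by positivity
    nlinarith [mul_le_mul_of_nonneg_right b1 hε.le]
  have k3 : ∏ p ∈ W.primeFactors, (1 - (p : ℝ)⁻¹) ≤ ε / 2 := by
    have b1 : ∏ p ∈ W.primeFactors, (1 - (p : ℝ)⁻¹) ≤ Real.exp (-∑ p ∈ W.primeFactors, (p : ℝ)⁻¹) := by
      rw [← Finset.sum_neg_distrib, Real.exp_sum]
      refine Finset.prod_le_prod (fun p hp => ?_) fun p _ => ?_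
      · have h3 : (1 : ℝ) ≤ p := by exact_mod_cast (Nat.prime_of_mem_primeFactors hp).one_lt.le
        exact sub_nonneg.2 (inv_le_one_of_one_le₀ h3)
      · linarith [Real.add_one_le_exp (-(p : ℝ)⁻¹)]
    have b2 : 2 / ε ≤ ∑ p ∈ W.primeFactors, (p : ℝ)⁻¹ := by
      refine hw1.trans ?_
      simp only [Set.indicator_apply, Set.mem_ofPred_eq, one_div]
      rw [← Finset.sum_filter]
      refine Finset.sum_le_sum_of_subset_of_nonneg (fun p hp => ?_) fun _ _ _ => by positivity
      simp only [Finset.mem_filter, Finset.mem_range] at hp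
      exact Nat.mem_primeFactors.2 ⟨hp.2, hp.2.dvd_factorial.2 hp.1.le, hW.ne'⟩
    refine b1.trans ((Real.exp_le_exp.2 (neg_le_neg b2)).trans ?_)
    rw [Real.exp_neg, inv_le_comm₀ (Real.exp_pos _) (by positivity), inv_div]
    linarith [Real.add_one_le_exp (2 / ε)]
  rw [totient_real] at k1
  rw [mean, div_le_iff₀ hW']
  nlinarith

lemma G_cont {δ : ℝ} (hδ : 0 < δ) : ∃ W : ℕ, 0 < W ∧ ∀ x y : ℝ, x < 1 → y ≤ 1 → x - (1 - x) / W ≤ y →
    G y ≤ G x + δ := by
  obtain ⟨W, hW, h⟩ := D_small hδ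
  exact ⟨W, hW, fun x y _ hy h1 => (G_step hW hy h1).trans (by linarith)⟩

theorem fstar_eq {x : ℝ} (hx0 : 0 ≤ x) (hx : x < 1) : fstar x = 1 - G x := by
  have bdd : BddBelow {y | ∃ A : Set ℕ, 0 ∉ A ∧ lowerDensity A = x ∧
      lowerDensity (A + {p | p.Prime}) = y} := ⟨0, by rintro _ ⟨A, _, _, rfl⟩; exact ld_nonneg _⟩
  apply le_antisymm
  · have : G x ≤ 1 - fstar x := G_le hx.le fun q α γ hq h h1 => by
      refine le_of_forall_pos_le_add fun ε hε => ?_
      obtain ⟨A, h2, h3, h4⟩ := upper hq h hx0 h1 hε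
      have : fstar x ≤ lowerDensity (A + {p | p.Prime}) := csInf_le bdd ⟨A, h2, h3, rfl⟩
      linarith
    linarith
  · obtain ⟨_, α, γ, h1, h2, rfl⟩ := Gset_ne one_pos hx.le
    obtain ⟨A, h3, h4, _⟩ := upper one_pos h1 hx0 h2 one_pos
    refine le_csInf ⟨_, A, h3, h4, rfl⟩ ?_
    rintro _ ⟨A, _, hA, rfl⟩
    refine le_of_forall_pos_le_add fun δ hδ => ?_
    obtain ⟨W, hW, hc⟩ := G_cont (half_pos hδ)
    set η := min ((1 - x) / W) (δ / 2) with hη
    have hη0 : 0 < η := lt_min (div_pos (by linarith) (by exact_mod_cast hW)) (half_pos hδ)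
    obtain ⟨P, hP⟩ := exists_nat_ge (4 / η)
    have hP0 : (0 : ℝ) < P := lt_of_lt_of_le (by positivity) hP
    have hP1 : 2 / (P : ℝ) ≤ η / 2 := by
      rw [div_le_iff₀ hη0] at hP
      rw [div_le_iff₀ hP0]; linarith
    have hP2 : 0 ≤ 2 / (P : ℝ) := by positivity
    have k1 := lower (Nat.factorial_pos P) (by exact_mod_cast hP0) (fun p hp h => by
      rw [hp.dvd_factorial] at h; omega) A (half_pos hη0)
    rw [hA] at k1
    have k2 := Gq_le_G (Nat.factorial_pos P) (x := x - 2 / P - η / 2) (by linarith)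
    have k3 := hc x (x - 2 / P - η / 2) hx (by linarith) (by linarith [min_le_left ((1 - x) / W) (δ / 2)])
    linarith [min_le_right ((1 - x) / W) (δ / 2)]

lemma mean_neg {q : ℕ} (hq : 0 < q) {f : ℕ → ℝ} (h : ∀ n, f (n + q) = f n) :
    mean q (fun n => f ((q - 1) * n)) = mean q f := by
  rw [← mean_shift h 1]
  unfold mean
  rw [← Finset.sum_range_reflect (fun n => f (n + 1))]
  congr 1
  refine Finset.sum_congr rfl fun n hn => ?_
  have := Finset.mem_range.1 hn
  obtain ⟨r, rfl⟩ : ∃ r, q = r + 1 := ⟨q - 1, by omega⟩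
  beta_reduce
  rw [← h ((r + 1 - 1) * n), ← per_mul h (r + 1 - 1 - n + 1) n]
  congr 1
  obtain ⟨k, rfl⟩ : ∃ k, r = n + k := ⟨r - n, by omega⟩
  simp only [Nat.add_sub_cancel, Nat.add_sub_cancel_left]; ring

lemma Fs.symm {q : ℕ} (hq : 0 < q) {α γ : ℕ → ℝ} (h : Fs q α γ) :
    Fs q (fun n => γ ((q - 1) * n)) (fun n => α ((q - 1) * n)) := by
  have e : ∀ n p, γ ((q - 1) * n) = γ ((q - 1) * (n + p) + p) := by
    intro n p
    rw [← per_mul h.pc _ p]
    obtain ⟨r, rfl⟩ : ∃ r, q = r + 1 := ⟨q - 1, by omega⟩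
    congr 1; simp only [Nat.add_sub_cancel]; ring
  refine ⟨fun n => ?_, fun n => ?_, fun n => h.c0 _, fun n => h.a0 _, fun n p hp => ?_,
    fun n u hu => ?_⟩
  · rw [mul_add, mul_comm _ q, per_mul h.pc]
  · rw [mul_add, mul_comm _ q, per_mul h.pa]
  · rw [e n p, add_comm]; exact h.loc _ p hp
  · rw [e n u]; exact (h.un _ u hu).symm

lemma G_sym {x c : ℝ} (hx : x ≤ 1) (h : c < G x) : x ≤ G c := by
  by_contra hcon
  refine absurd h (not_lt.2 (G_le hx fun q α γ hq h1 h2 => ?_))
  by_contra h3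
  have := le_G hq (h1.symm hq) (x := c) (by rw [mean_neg hq h1.pc]; linarith)
  rw [mean_neg hq h1.pa] at this
  linarith

lemma G_le_sub {x : ℝ} (hx : x ≤ 1) : G x ≤ 1 - x :=
  G_le hx fun q α γ hq h h1 => by
    have := mean_lin q α (fun n => γ (n + 2)) 1 1
    rw [mean_shift h.pc] at this
    have h2 := mean_le_one hq (f := fun n => 1 * α n + 1 * γ (n + 2)) fun n => by
      linarith [h.loc n 2 Nat.prime_two]
    linarith

theorem G_G {x : ℝ} (hx0 : 0 < x) (hx : x < 1) : G (G x) = x := by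
  have c1 : G x < 1 := by linarith [G_le_sub hx.le]
  apply le_antisymm
  · by_contra hcon
    push Not at hcon
    obtain ⟨W, hW, hc⟩ := G_cont (half_pos (sub_pos.2 hcon))
    have hW' : (0 : ℝ) < W := by exact_mod_cast hW
    set η := (1 - G x) / (W + 1) with hη
    have hη0 : 0 < η := div_pos (by linarith) (by positivity)
    have hη1 : η * (W + 1) = 1 - G x := by rw [hη]; field_simp
    have k0 : G x + η < 1 := by nlinarith
    have k1 := hc (G x + η) (G x) k0 c1.le (by
      have : η ≤ (1 - (G x + η)) / W := by rw [le_div_iff₀ hW']; linarith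
      linarith)
    have := G_sym k0.le (c := x) (by linarith)
    linarith
  · refine le_of_forall_pos_le_add fun δ hδ => ?_
    obtain ⟨W, hW, hc⟩ := G_cont hδ
    have hW' : (0 : ℝ) < W := by exact_mod_cast hW
    have k0 : 0 < (1 - G x) / W := div_pos (by linarith) hW'
    have k1 := hc (G x) (G x - (1 - G x) / W) c1 (by linarith) le_rfl
    have := G_sym hx.le (c := G x - (1 - G x) / W) (by linarith)
    linarith

theorem G_continuousOn : ContinuousOn G (Set.Iio 1) := by
  intro x hx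
  apply ContinuousAt.continuousWithinAt
  rw [Metric.continuousAt_iff]
  intro δ hδ
  have hx' : x < 1 := hx
  obtain ⟨W, hW, hc⟩ := G_cont (half_pos hδ)
  have hW' : (0 : ℝ) < W := by exact_mod_cast hW
  set η := (1 - x) / (W + 1) with hη
  have hη0 : 0 < η := div_pos (by linarith) (by positivity)
  have hη1 : η * (W + 1) = 1 - x := by rw [hη]; field_simp
  refine ⟨η, hη0, fun y hy => ?_⟩
  rw [Real.dist_eq, abs_lt] at hy ⊢
  have hy1 : y < 1 := by nlinarith
  have k1 := hc x y hx' hy1.le (by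
    have : η ≤ (1 - x) / W := by rw [le_div_iff₀ hW']; linarith
    linarith)
  have k2 := hc y x hy1 hx'.le (by
    have : η ≤ (1 - y) / W := by rw [le_div_iff₀ hW']; linarith
    linarith)
  constructor <;> linarith

lemma sum_zmod (q : ℕ) [NeZero q] (f : ZMod q → ℝ) : ∑ s, f s = ∑ n ∈ range q, f n := by
  refine Finset.sum_bij' (fun s _ => s.val) (fun n _ => (n : ZMod q)) ?_ ?_ ?_ ?_ ?_
  · intro s _; exact Finset.mem_range.2 (ZMod.val_lt s)
  · intro n _; exact Finset.mem_univ _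
  · intro s _; exact ZMod.natCast_zmod_val s
  · intro n hn; exact ZMod.val_cast_of_lt (Finset.mem_range.1 hn)
  · intro s _; rw [ZMod.natCast_zmod_val]

lemma per_val {q : ℕ} [NeZero q] {f : ℕ → ℝ} (h : ∀ n, f (n + q) = f n) (n : ℕ) :
    f (n : ZMod q).val = f n := by
  rw [ZMod.val_natCast]
  conv_rhs => rw [← Nat.mod_add_div n q, per_mul h]

theorem F_eq (q : ℕ+) {x : ℝ} (hx : x ≤ 1) : F q x = 1 - Gq q x := by
  have hq : 0 < (q : ℕ) := q.pos
  have hq' : ((q : ℕ) : ℝ) ≠ 0 := by positivity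
  have e : {y | ∃ α β : ZMod q → ℝ, Admissible q α β ∧ x ≤ (∑ s, α s) / q ∧ y = (∑ s, β s) / q}
      = (fun c => 1 - c) '' Gset q x := by
    ext y
    constructor
    · rintro ⟨α, β, ⟨h1, h2, h3, h4⟩, h5, rfl⟩
      refine ⟨_, ⟨fun n => α n, fun n => 1 - β n, ⟨fun n => by simp, fun n => by simp,
        fun n => h1 _, fun n => sub_nonneg.2 (h2 _), fun n p hp => ?_, fun n u hu => ?_⟩, ?_, rfl⟩, ?_⟩
      · have := h3 n p hp; push_cast; linarith
      · rcases (h1 n).eq_or_lt with k | k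
        · exact Or.inl k.symm
        · right
          have := h4 n (ZMod.unitOfCoprime u hu) k
          rw [ZMod.coe_unitOfCoprime] at this
          push_cast; rw [this, sub_self]
      · rwa [sum_zmod] at h5
      · simp only [mean, sum_zmod, Finset.sum_sub_distrib, Finset.sum_const, Finset.card_range,
          nsmul_eq_mul]
        field_simp; ring
    · rintro ⟨_, ⟨α, γ, h, h1, rfl⟩, rfl⟩
      refine ⟨fun s => α s.val, fun s => 1 - γ s.val, ⟨fun s => h.a0 _,
        fun s => sub_le_self _ (h.c0 _), fun s p hp => ?_, fun s u hs => ?_⟩, ?_, ?_⟩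
      · have := h.loc s.val p hp
        rw [← per_val h.pc] at this
        push_cast at this
        rw [ZMod.natCast_zmod_val] at this
        linarith
      · rcases h.un s.val (u : ZMod q).val (ZMod.val_coe_unit_coprime u) with k | k
        · exact absurd k hs.ne'
        · rw [← per_val h.pc] at k
          push_cast at k
          rw [ZMod.natCast_zmod_val, ZMod.natCast_zmod_val] at k
          simp only [k, sub_zero]
      · rw [sum_zmod]; simp only [per_val h.pa]; exact h1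
      · simp only [mean, sum_zmod, per_val h.pc, Finset.sum_sub_distrib, Finset.sum_const,
          nsmul_eq_mul, Finset.card_univ, ZMod.card]
        field_simp
  unfold F
  rw [e]
  refine IsGLB.csInf_eq ⟨?_, fun b hb => ?_⟩ ((Gset_ne hq hx).image _)
  · rintro _ ⟨c, hc, rfl⟩
    exact sub_le_sub_left (le_csSup (Gset_bdd hq x) hc) 1
  · have : Gq q x ≤ 1 - b := csSup_le (Gset_ne hq hx) fun c hc => by
      have := hb ⟨c, hc, rfl⟩; simp only at this; linarith
    linarith

theorem iInf_F {x : ℝ} (hx : x ≤ 1) : ⨅ q : ℕ+, F q x = 1 - G x := by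
  have h1 : ∀ q : ℕ+, 1 - G x ≤ F q x := fun q => by
    rw [F_eq q hx]; linarith [Gq_le_G q.pos hx]
  refine le_antisymm ?_ (le_ciInf h1)
  have : G x ≤ 1 - ⨅ q : ℕ+, F q x := G_le hx fun q α γ hq h h2 => by
    have k1 : ⨅ q : ℕ+, F q x ≤ F ⟨q, hq⟩ x :=
      ciInf_le ⟨1 - G x, by rintro _ ⟨q, rfl⟩; exact h1 q⟩ _
    rw [F_eq _ hx] at k1
    have := le_Gq hq h h2
    change _ ≤ 1 - Gq q x at k1
    linarith
  linarith

end Pool.Agent.P.MP_e86632_nt
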