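import Pool.Agent.P.MP_e86632_nt.Lam

/-! Type I sums for `Lam K` near rationals with small denominator. -/

namespace Pool.Agent.P.MP_e86632_nt

open Finset Real ArithmeticFunction
open scoped ArithmeticFunction.zeta ArithmeticFunction.Moebius

noncomputable def ell (K : ℕ) (u : ℝ) : ℝ := Real.posLog u ^ K

lemma ell_nonneg (K : ℕ) (u : ℝ) : 0 ≤ ell K u := pow_nonneg Real.posLog_nonneg _

lemma ell_mono (K : ℕ) {u v : ℝ} (hu : 0 ≤ u) (h : u ≤ v) : ell K u ≤ ell K v :=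
  pow_le_pow_left₀ Real.posLog_nonneg (Real.posLog_le_posLog hu h) _

lemma ell_eq_zero (k : ℕ) {u : ℝ} (hu : 0 ≤ u) (h : u ≤ 1) : ell (k + 1) u = 0 := by
  unfold ell
  rw [(Real.posLog_eq_zero_iff u).2 (by rwa [abs_of_nonneg hu])]; simp

lemma ell_eq_log (K : ℕ) {u : ℝ} (hu : 1 ≤ u) : ell K u = Real.log u ^ K := by
  unfold ell; rw [Real.posLog_eq_log (by rwa [abs_of_nonneg (by linarith)])]

lemma conv_logpow_apply (c : ArithmeticFunction ℝ) (k : ℕ) {n D : ℕ} (hn : 0 < n) (hD : n ≤ D) :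
    (c * ppow log (k + 1)) n
      = ∑ d ∈ Ioc 0 D, c d * ((if d ∣ n then 1 else 0) * ell (k + 1) ((n : ℝ) / d)) := by
  rw [ArithmeticFunction.mul_apply,
    Nat.sum_divisorsAntidiagonal (fun a b => c a * (ppow log (k + 1) : ArithmeticFunction ℝ) b)]
  have : n.divisors = (Ioc 0 D).filter (· ∣ n) := by
    ext d
    simp only [Nat.mem_divisors, Finset.mem_filter, Finset.mem_Ioc]
    constructor
    · rintro ⟨h, _⟩
      exact ⟨⟨Nat.pos_of_dvd_of_pos h hn, (Nat.le_of_dvd hn h).trans hD⟩, h⟩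
    · rintro ⟨_, h⟩; exact ⟨h, hn.ne'⟩
  rw [this, Finset.sum_filter]
  refine Finset.sum_congr rfl fun d hd => ?_
  split_ifs with h
  · rw [ppow_apply (by omega), log_apply, one_mul, ell, ← Real.log_of_nat_eq_posLog,
      Nat.cast_div h (by have := (Finset.mem_Ioc.1 hd).1; positivity)]
  · simp

lemma sum_multiples {E : Type*} [AddCommMonoid E] (G : ℕ → E) {d : ℕ} (hd : 0 < d) (a b : ℕ) :
    ∑ i ∈ Ioc a b, (if d ∣ i then G i else 0) = ∑ m ∈ Ioc (a / d) (b / d), G (m * d) := by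
  rw [← Finset.sum_filter]
  symm
  refine Finset.sum_bij' (fun m _ => m * d) (fun i _ => i / d) ?_ ?_ ?_ ?_ ?_
  · intro m hm
    simp only [Finset.mem_Ioc, Finset.mem_filter] at hm ⊢
    refine ⟨⟨?_, ?_⟩, Dvd.intro_left _ rfl⟩
    · exact (Nat.div_lt_iff_lt_mul hd).1 hm.1
    · exact (Nat.le_div_iff_mul_le hd).1 hm.2
  · intro i hi
    simp only [Finset.mem_Ioc, Finset.mem_filter] at hi ⊢
    obtain ⟨⟨h1, h2⟩, m, rfl⟩ := hi
    rw [Nat.mul_div_cancel_left _ hd]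
    exact ⟨(Nat.div_lt_iff_lt_mul hd).2 (by linarith), (Nat.le_div_iff_mul_le hd).2 (by linarith)⟩
  · intro m _; exact Nat.mul_div_cancel _ hd
  · intro i hi
    exact Nat.div_mul_cancel (Finset.mem_filter.1 hi).2
  · intro m _; rfl

lemma count_multiples {d : ℕ} (hd : 0 < d) (a n : ℕ) :
    ‖∑ i ∈ Ioc a n, ((if d ∣ i then (1 : ℂ) else 0) - 1 / (d : ℂ))‖ ≤ 1 := by
  rcases le_or_gt n a with h | h
  · rw [Finset.Ioc_eq_empty (by omega)]; simp
  rw [Finset.sum_sub_distrib, sum_multiples (fun _ => (1 : ℂ)) hd]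
  simp only [Finset.sum_const, Nat.card_Ioc, nsmul_eq_mul, mul_one]
  have h1 : a / d ≤ n / d := Nat.div_le_div_right h.le
  rw [Nat.cast_sub h1, Nat.cast_sub h.le]
  have e : (((n / d : ℕ) : ℂ) - ((a / d : ℕ) : ℂ)) - ((n : ℂ) - a) * (1 / d)
      = ((((n / d : ℕ) : ℝ) - ((a / d : ℕ) : ℝ) - ((n : ℝ) - a) / d : ℝ) : ℂ) := by
    push_cast; ring
  rw [e, Complex.norm_real, Real.norm_eq_abs]
  have hd' : (0 : ℝ) < d := by exact_mod_cast hd
  have key : ∀ x : ℕ, ((x / d : ℕ) : ℝ) ≤ x / d ∧ (x : ℝ) / d ≤ ((x / d : ℕ) : ℝ) + 1 := by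
    intro x
    refine ⟨Nat.cast_div_le, ?_⟩
    rw [div_le_iff₀ hd']
    have := Nat.lt_div_mul_add (a := x) hd
    have h2 : x ≤ (x / d + 1) * d := by nlinarith
    exact_mod_cast h2
  have k1 := key n
  have k2 := key a
  rw [sub_div, abs_le]
  constructor <;> linarith [k1.1, k1.2, k2.1, k2.2]

lemma nn_div_ge {u : ℤ} {q : ℕ} (hq : 0 < q) (h : ¬ (q : ℤ) ∣ u) : 1 / (q : ℝ) ≤ nn ((u : ℝ) / q) := by
  have hq' : (0 : ℝ) < q := by exact_mod_cast hq
  unfold nn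
  set k := round ((u : ℝ) / q)
  have h1 : u - k * q ≠ 0 := fun h0 => h ⟨k, by linarith⟩
  have h2 : (1 : ℝ) ≤ |((u - k * q : ℤ) : ℝ)| := by
    rw [← Int.cast_abs]; exact_mod_cast Int.one_le_abs h1
  have h3 : (u : ℝ) / q - k = ((u - k * q : ℤ) : ℝ) / q := by push_cast; field_simp
  rw [h3, abs_div, abs_of_pos hq']
  exact div_le_div_of_nonneg_right h2 hq'.le

lemma psum_major {a : ℤ} {q d : ℕ} (hq : 0 < q) (hd : 0 < d) (hc : IsCoprime a q) (N n : ℕ) :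
    ‖∑ i ∈ Ioc N n, ((if d ∣ i then ee (i * (a / q)) else 0)
      - (if q ∣ d then 1 / (d : ℂ) else 0))‖ ≤ q := by
  have hq' : (0 : ℝ) < q := by exact_mod_cast hq
  have hq1 : (1 : ℝ) ≤ q := by exact_mod_cast hq
  by_cases h : q ∣ d
  · simp only [h, if_true]
    refine le_trans (le_of_eq ?_) ((count_multiples hd N n).trans hq1)
    congr 1
    refine Finset.sum_congr rfl fun i _ => ?_
    split_ifs with hi
    · obtain ⟨c, rfl⟩ := h.trans hi
      have : (((q * c : ℕ) : ℝ) * (a / q)) = ((c * a : ℤ) : ℝ) := by push_cast; field_simp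
      rw [this, ee_int]
    · rfl
  · simp only [h, if_false, sub_zero]
    rw [sum_multiples (fun i => ee (i * (a / q))) hd]
    have h1 : ¬ (q : ℤ) ∣ d * a := by
      intro h2
      exact h (by exact_mod_cast hc.symm.dvd_of_dvd_mul_right h2)
    have h2 := nn_div_ge hq h1
    have h3 : 0 < nn (((d * a : ℤ) : ℝ) / q) := lt_of_lt_of_le (by positivity) h2
    have h4 := geom_bound h3 (N / d) (n / d)
    have e : ∀ m : ℕ, (((m * d : ℕ) : ℝ) * (a / q)) = m * (((d * a : ℤ) : ℝ) / q) := by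
      intro m; push_cast; ring
    simp_rw [e]
    refine h4.trans ?_
    rw [div_le_iff₀ (by positivity)]
    rw [div_le_iff₀ hq'] at h2
    nlinarith

/-- the common error estimate -/
lemma err_gen (K : ℕ) : ∃ C : ℝ, 0 < C ∧ ∀ (c : ℕ → ℝ) (b : ℕ → ℕ → ℂ) (B β : ℝ) (N₁ N₂ Y : ℕ),
    0 ≤ B → N₂ ≤ Y → (∀ d, |c d| ≤ 1) → (∀ d, 0 < d → ∀ n, ‖∑ i ∈ Ioc N₁ n, b d i‖ ≤ B) →
    ‖∑ d ∈ Ioc 0 Y, (c d : ℂ) * ∑ i ∈ Ioc N₁ N₂, b d i * (ell K ((i : ℝ) / d) * ee (i * β))‖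
      ≤ B * (2 + 2 * π * |β| * Y) * (C * Y) := by
  obtain ⟨C, hC, h⟩ := sum_log_pow_le K
  refine ⟨C, hC, fun c b B β N₁ N₂ Y hB hN hc hb => ?_⟩
  refine le_trans ?_ (mul_le_mul_of_nonneg_left (h Y) (by positivity))
  rw [Finset.mul_sum]
  refine (norm_sum_le _ _).trans (Finset.sum_le_sum fun d hd => ?_)
  obtain ⟨hd0, hdY⟩ := Finset.mem_Ioc.1 hd
  have hd' : (0 : ℝ) < d := by exact_mod_cast hd0
  have hY1 : 1 ≤ (Y : ℝ) / d := by rw [le_div_iff₀ hd', one_mul]; exact_mod_cast hdY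
  have h1 := abel_mono (b d) (fun i => ell K ((i : ℝ) / d)) β N₁ N₂ B (Real.log ((Y : ℝ) / d) ^ K)
    hB (pow_nonneg (Real.log_nonneg hY1) _) (fun n _ => hb d hd0 n) (fun i => ell_nonneg _ _)
    (fun i _ _ => ell_mono _ (by positivity) (by gcongr; omega))
    (fun i hi => by
      rw [← ell_eq_log K hY1]
      exact ell_mono _ (by positivity) (by gcongr; omega))
  rw [norm_mul, Complex.norm_real, Real.norm_eq_abs]
  have h2 : (2 + 2 * π * |β| * N₂) ≤ (2 + 2 * π * |β| * Y) := by gcongr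
  have h3 : 0 ≤ Real.log ((Y : ℝ) / d) ^ K := pow_nonneg (Real.log_nonneg hY1) _
  calc _ ≤ 1 * (B * (Real.log ((Y : ℝ) / d) ^ K * (2 + 2 * π * |β| * N₂))) :=
        mul_le_mul (hc d) h1 (norm_nonneg _) zero_le_one
    _ ≤ 1 * (B * (Real.log ((Y : ℝ) / d) ^ K * (2 + 2 * π * |β| * Y))) := by gcongr
    _ = _ := by ring

/-- Möbius function restricted to multiples of `q` -/
noncomputable def nu (q : ℕ) : ArithmeticFunction ℝ :=
  ⟨fun d => if q ∣ d then (μ d : ℝ) else 0, by simp⟩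

lemma nu_apply (q d : ℕ) : nu q d = if q ∣ d then (μ d : ℝ) else 0 := rfl

lemma abs_mu_le (d : ℕ) : |(μ d : ℝ)| ≤ 1 := by
  rw [← Int.cast_abs]; exact_mod_cast abs_moebius_le_one

lemma abs_nu_le (q d : ℕ) : |nu q d| ≤ 1 := by
  rw [nu_apply]; split_ifs
  · exact abs_mu_le d
  · simp

noncomputable def mq (K q t : ℕ) : ℝ := ∑ d ∈ Ioc 0 t, nu q d / d * ell K ((t : ℝ) / d)

lemma mq_eq (k q : ℕ) {t D : ℕ} (h : t ≤ D) :
    mq (k + 1) q t = ∑ d ∈ Ioc 0 D, nu q d / d * ell (k + 1) ((t : ℝ) / d) := by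
  unfold mq
  refine Finset.sum_subset (Finset.Ioc_subset_Ioc_right h) fun d hd hd' => ?_
  simp only [Finset.mem_Ioc, not_and, not_le] at hd hd'
  have h1 := hd' hd.1
  have hd0 : (0 : ℝ) < d := by exact_mod_cast hd.1
  rw [ell_eq_zero k (by positivity) (by rw [div_le_one hd0]; exact_mod_cast h1.le), mul_zero]

lemma major1 (k : ℕ) : ∃ C : ℝ, 0 < C ∧ ∀ (a : ℤ) (q : ℕ) (β : ℝ) (N₁ N₂ Y : ℕ),
    0 < q → IsCoprime a q → N₂ ≤ Y →
    ‖∑ n ∈ Ioc N₁ N₂, (Lam (k + 1) n : ℂ) * ee (n * (a / q + β))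
      - ∑ n ∈ Ioc N₁ N₂, (mq (k + 1) q n : ℂ) * ee (n * β)‖
      ≤ q * (2 + 2 * π * |β| * Y) * (C * Y) := by
  obtain ⟨C, hC, h⟩ := err_gen (k + 1)
  refine ⟨C, hC, fun a q β N₁ N₂ Y hq hc hN => ?_⟩
  have := h (fun d => (μ d : ℝ)) (fun d i => (if d ∣ i then ee (i * (a / q)) else 0)
      - (if q ∣ d then 1 / (d : ℂ) else 0)) q β N₁ N₂ Y (by positivity) hN abs_mu_le
      (fun d hd n => psum_major hq hd hc N₁ n)
  refine le_trans (le_of_eq ?_) this
  congr 1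
  simp_rw [Finset.mul_sum]
  rw [Finset.sum_comm, ← Finset.sum_sub_distrib]
  refine Finset.sum_congr rfl fun n hn => ?_
  obtain ⟨h1, h2⟩ := Finset.mem_Ioc.1 hn
  rw [Lam_eq, conv_logpow_apply _ k (by omega) (h2.trans hN), mq_eq k q (h2.trans hN)]
  push_cast
  rw [Finset.sum_mul, Finset.sum_mul, ← Finset.sum_sub_distrib]
  refine Finset.sum_congr rfl fun d _ => ?_
  rw [mul_add, ee_add, nu_apply]
  simp only [intCoe_apply]
  split_ifs <;> push_cast <;> ring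

lemma major2 (k : ℕ) : ∃ C : ℝ, 0 < C ∧ ∀ (q : ℕ) (β : ℝ) (N₁ N₂ Y : ℕ), N₂ ≤ Y →
    ‖∑ n ∈ Ioc N₁ N₂, ((nu q * ppow log (k + 1)) n : ℂ) * ee (n * β)
      - ∑ n ∈ Ioc N₁ N₂, (mq (k + 1) q n : ℂ) * ee (n * β)‖
      ≤ (2 + 2 * π * |β| * Y) * (C * Y) := by
  obtain ⟨C, hC, h⟩ := err_gen (k + 1)
  refine ⟨C, hC, fun q β N₁ N₂ Y hN => ?_⟩
  have := h (fun d => nu q d) (fun d i => (if d ∣ i then (1 : ℂ) else 0) - 1 / (d : ℂ))
      1 β N₁ N₂ Y (by positivity) hN (abs_nu_le q) (fun d hd n => count_multiples hd N₁ n)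
  rw [one_mul] at this
  refine le_trans (le_of_eq ?_) this
  congr 1
  simp_rw [Finset.mul_sum]
  rw [Finset.sum_comm, ← Finset.sum_sub_distrib]
  refine Finset.sum_congr rfl fun n hn => ?_
  obtain ⟨h1, h2⟩ := Finset.mem_Ioc.1 hn
  rw [conv_logpow_apply _ k (by omega) (h2.trans hN), mq_eq k q (h2.trans hN)]
  push_cast
  rw [Finset.sum_mul, Finset.sum_mul, ← Finset.sum_sub_distrib]
  refine Finset.sum_congr rfl fun d _ => ?_
  split_ifs <;> push_cast <;> ring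

lemma exists_coprime_part (q : ℕ) (n : ℕ) (hn : 0 < n) :
    ∃ m, 0 < m ∧ ∀ e, e ∣ m ↔ e ∣ n ∧ e.Coprime q := by
  induction n using Nat.strong_induction_on with
  | _ n ih =>
    by_cases h : n.Coprime q
    · exact ⟨n, hn, fun e => ⟨fun he => ⟨he, h.coprime_dvd_left he⟩, fun he => he.1⟩⟩
    · obtain ⟨n', hn'⟩ := Nat.gcd_dvd_left n q
      have hg : 1 < n.gcd q := by
        have := Nat.gcd_pos_of_pos_left q hn
        have h2 : n.gcd q ≠ 1 := h
        omega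
      have hn0 : 0 < n' := Nat.pos_of_ne_zero (by rintro rfl; omega)
      obtain ⟨m, hm, hm'⟩ := ih n' (by nlinarith) hn0
      refine ⟨m, hm, fun e => (hm' e).trans ⟨fun he => ⟨?_, he.2⟩, fun he => ⟨?_, he.2⟩⟩⟩
      · rw [hn']; exact he.1.mul_left _
      · have h3 : e.Coprime (n.gcd q) := he.2.coprime_dvd_right (Nat.gcd_dvd_right n q)
        exact h3.dvd_of_dvd_mul_left (hn' ▸ he.1)

lemma nu_zeta (q : ℕ) (hq : 0 < q) (n : ℕ) :
    |(nu q * ζ) n| ≤ if q ∣ n ∧ n / q ∈ Nat.factoredNumbers q.primeFactors then 1 else 0 := by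
  rcases Nat.eq_zero_or_pos n with rfl | hn
  · simp only [ArithmeticFunction.map_zero, abs_zero]; split_ifs <;> norm_num
  rw [coe_mul_zeta_apply]
  by_cases hqn : q ∣ n
  swap
  · rw [Finset.sum_eq_zero]
    · simp [hqn]
    · intro d hd
      rw [nu_apply, if_neg]
      exact fun h => hqn (h.trans (Nat.dvd_of_mem_divisors hd))
  obtain ⟨n', rfl⟩ := hqn
  have hn' : 0 < n' := Nat.pos_of_ne_zero (by rintro rfl; omega)
  obtain ⟨m, hm, hm'⟩ := exists_coprime_part q n' hn'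
  have e1 : ∑ d ∈ (q * n').divisors, nu q d = ∑ e ∈ m.divisors, (μ q : ℝ) * μ e := by
    simp_rw [nu_apply]
    rw [← Finset.sum_filter]
    symm
    refine Finset.sum_bij_ne_zero (fun e _ _ => q * e) ?_ ?_ ?_ ?_
    · intro e he _
      simp only [Finset.mem_filter, Nat.mem_divisors] at he ⊢
      exact ⟨⟨Nat.mul_dvd_mul_left q ((hm' e).1 he.1).1, by positivity⟩, Dvd.intro _ rfl⟩
    · intro e₁ _ _ e₂ _ _ h
      exact Nat.eq_of_mul_eq_mul_left hq h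
    · intro d hd hd0
      simp only [Finset.mem_filter, Nat.mem_divisors] at hd
      obtain ⟨⟨h1, _⟩, e, rfl⟩ := hd
      have hsq : Squarefree (q * e) := moebius_ne_zero_iff_squarefree.1 (by exact_mod_cast hd0)
      have hc := (Nat.squarefree_mul_iff.1 hsq).1
      refine ⟨e, Nat.mem_divisors.2 ⟨(hm' e).2 ⟨Nat.dvd_of_mul_dvd_mul_left hq h1, hc.symm⟩, hm.ne'⟩,
        ?_, rfl⟩
      have := isMultiplicative_moebius.map_mul_of_coprime hc
      rw [this] at hd0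
      exact_mod_cast hd0
    · intro e he _
      have hc := ((hm' e).1 (Nat.dvd_of_mem_divisors he)).2
      rw [isMultiplicative_moebius.map_mul_of_coprime hc.symm]; push_cast; ring
  rw [e1, ← Finset.mul_sum]
  have e2 : ∑ e ∈ m.divisors, (μ e : ℝ) = if m = 1 then 1 else 0 := by
    have := congrArg (fun f : ArithmeticFunction ℝ => f m) (coe_moebius_mul_coe_zeta (R := ℝ))
    simp only [coe_mul_zeta_apply, intCoe_apply, ArithmeticFunction.one_apply] at this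
    exact this
  rw [e2, Nat.mul_div_cancel_left _ hq]
  by_cases hm1 : m = 1
  · rw [if_pos hm1, if_pos, mul_one]
    · exact abs_mu_le q
    refine ⟨Dvd.intro _ rfl, Nat.mem_factoredNumbers'.2 fun p hp hpn => ?_⟩
    rw [Nat.mem_primeFactors]
    refine ⟨hp, ?_, hq.ne'⟩
    by_contra hpq
    have := (hm' p).2 ⟨hpn, (Nat.Prime.coprime_iff_not_dvd hp).2 hpq⟩
    rw [hm1] at this
    exact hp.one_lt.ne' (Nat.dvd_one.1 this)
  · rw [if_neg hm1, mul_zero, abs_zero]; split_ifs <;> norm_num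

lemma abs_nu_zeta_le (q : ℕ) (hq : 0 < q) (n : ℕ) : |(nu q * ζ) n| ≤ 1 :=
  (nu_zeta q hq n).trans (by split_ifs <;> norm_num)

lemma psum_nu (q : ℕ) (hq : 0 < q) (E : ℕ) : |∑ d ∈ Ioc 0 E, nu q d / d| ≤ 2 := by
  rcases Nat.eq_zero_or_pos E with rfl | hE
  · simp
  have hE' : (0 : ℝ) < E := by exact_mod_cast hE
  have h1 := sum_Ioc_mul_zeta_eq_sum (nu q) E
  have h2 : |∑ n ∈ Ioc 0 E, (nu q * ζ) n| ≤ E := by
    refine (Finset.abs_sum_le_sum_abs _ _).trans ?_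
    refine (Finset.sum_le_sum fun n _ => abs_nu_zeta_le q hq n).trans ?_
    simp
  have h3 : |∑ d ∈ Ioc 0 E, nu q d * ((E : ℝ) / d - ((E / d : ℕ) : ℝ))| ≤ E := by
    refine (Finset.abs_sum_le_sum_abs _ _).trans ?_
    refine (Finset.sum_le_sum (g := fun _ => (1 : ℝ)) fun d hd => ?_).trans (by simp)
    have hd0 := (Finset.mem_Ioc.1 hd).1
    have hd' : (0 : ℝ) < d := by exact_mod_cast hd0
    have k1 : ((E / d : ℕ) : ℝ) ≤ E / d := Nat.cast_div_le
    have k2 : (E : ℝ) / d ≤ ((E / d : ℕ) : ℝ) + 1 := by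
      rw [div_le_iff₀ hd']
      have := Nat.lt_div_mul_add (a := E) hd0
      have h2 : E ≤ (E / d + 1) * d := by nlinarith
      exact_mod_cast h2
    rw [abs_mul]
    exact mul_le_one₀ (abs_nu_le q d) (abs_nonneg _) (abs_le.2 ⟨by linarith, by linarith⟩)
  have h4 : (E : ℝ) * ∑ d ∈ Ioc 0 E, nu q d / d = ∑ n ∈ Ioc 0 E, (nu q * ζ) n
      + ∑ d ∈ Ioc 0 E, nu q d * ((E : ℝ) / d - ((E / d : ℕ) : ℝ)) := by
    rw [h1, Finset.mul_sum, ← Finset.sum_add_distrib]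
    exact Finset.sum_congr rfl fun d _ => by ring
  have h5 : |(E : ℝ) * ∑ d ∈ Ioc 0 E, nu q d / d| ≤ E + E := by
    rw [h4]; exact (abs_add_le _ _).trans (add_le_add h2 h3)
  rw [abs_mul, abs_of_pos hE'] at h5
  nlinarith

lemma prod_primeFactors_le (q : ℕ) (hq : 0 < q) :
    ∏ p ∈ q.primeFactors with p.Prime, (1 - (p : ℝ)⁻¹)⁻¹ ≤ 2 * √(q : ℝ) := by
  have h1 : ∀ p ∈ q.primeFactors.filter Nat.Prime,
      (1 - (p : ℝ)⁻¹)⁻¹ ≤ (if p = 2 then 2 else 1) * √(p : ℝ) := by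
    intro p hp
    have hpp := (Finset.mem_filter.1 hp).2
    split_ifs with h2
    · subst h2
      have : (1 : ℝ) ≤ √((2 : ℕ) : ℝ) := Real.one_le_sqrt.2 (by norm_num)
      norm_num at this ⊢
    · have h3 : (3 : ℝ) ≤ p := by
        have := hpp.two_le
        exact_mod_cast (by omega : 3 ≤ p)
      have h4 : (3 / 2 : ℝ) ≤ √(p : ℝ) := Real.le_sqrt_of_sq_le (by linarith)
      have h5 : (p : ℝ)⁻¹ ≤ 1 / 3 := by rw [inv_eq_one_div]; gcongr
      rw [one_mul]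
      refine le_trans ?_ h4
      rw [inv_le_comm₀ (by linarith) (by norm_num)]
      linarith
  refine (Finset.prod_le_prod (fun p hp => ?_) h1).trans ?_
  · have h3 : (2 : ℝ) ≤ p := by exact_mod_cast (Finset.mem_filter.1 hp).2.two_le
    have h5 : (p : ℝ)⁻¹ ≤ 1 / 2 := by rw [inv_eq_one_div]; gcongr
    exact inv_nonneg.2 (by linarith)
  rw [Finset.prod_mul_distrib]
  apply mul_le_mul _ _ (Finset.prod_nonneg fun _ _ => Real.sqrt_nonneg _) (by norm_num)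
  · rw [Finset.prod_ite_eq']; split_ifs <;> norm_num
  · rw [← Real.sqrt_prod _ (fun _ _ => by positivity)]
    apply Real.sqrt_le_sqrt
    rw [Finset.filter_true_of_mem fun p hp => Nat.prime_of_mem_primeFactors hp, ← Nat.cast_prod]
    exact_mod_cast Nat.le_of_dvd hq (Nat.prod_primeFactors_dvd q)

lemma sum_nu_zeta_div (q : ℕ) (hq : 0 < q) (Y : ℕ) :
    ∑ d ∈ Ioc 0 Y, |(nu q * ζ) d| / d ≤ 2 / √(q : ℝ) := by
  classical
  have hq' : (0 : ℝ) < q := by exact_mod_cast hq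
  let f : ℕ →* ℝ := ⟨⟨fun n => (n : ℝ)⁻¹, by simp⟩, fun a b => by push_cast; rw [mul_inv]⟩
  have hf : ∀ {p : ℕ}, p.Prime → ‖f p‖ < 1 := by
    intro p hp
    have h3 : (1 : ℝ) < p := by exact_mod_cast hp.one_lt
    change ‖(p : ℝ)⁻¹‖ < 1
    rw [Real.norm_eq_abs, abs_of_pos (by positivity)]
    exact inv_lt_one_of_one_lt₀ h3
  have hs := (EulerProduct.summable_and_hasSum_factoredNumbers_prod_filter_prime_geometric hf
    q.primeFactors).2
  have hs' := (hasSum_subtype_iff_indicator (f := fun n => f n)).1 hs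
  have h1 : ∑ e ∈ Ioc (0 / q) (Y / q), (Nat.factoredNumbers q.primeFactors).indicator (fun n => f n) e
      ≤ 2 * √(q : ℝ) := by
    refine (sum_le_hasSum _ (fun i _ => Set.indicator_nonneg (fun n _ => ?_) _) hs').trans
      (prod_primeFactors_le q hq)
    change 0 ≤ (n : ℝ)⁻¹; positivity
  have h2 : ∑ d ∈ Ioc 0 Y, |(nu q * ζ) d| / d ≤ ∑ d ∈ Ioc 0 Y, (if q ∣ d then
      (Nat.factoredNumbers q.primeFactors).indicator (fun n => f n) (d / q) / q else 0) := by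
    refine Finset.sum_le_sum fun d hd => ?_
    have hd0 : (0 : ℝ) < d := by exact_mod_cast (Finset.mem_Ioc.1 hd).1
    refine (div_le_div_of_nonneg_right (nu_zeta q hq d) hd0.le).trans ?_
    by_cases h3 : q ∣ d
    · by_cases h4 : d / q ∈ Nat.factoredNumbers q.primeFactors
      · rw [if_pos ⟨h3, h4⟩, if_pos h3, Set.indicator_of_mem h4]
        change 1 / (d : ℝ) ≤ ((d / q : ℕ) : ℝ)⁻¹ / q
        rw [Nat.cast_div h3 hq'.ne']; apply le_of_eq; field_simp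
      · rw [if_neg (fun h => h4 h.2), if_pos h3, Set.indicator_of_notMem h4]; simp
    · simp [h3]
  refine h2.trans ?_
  rw [sum_multiples (fun d => (Nat.factoredNumbers q.primeFactors).indicator (fun n => f n) (d / q) / q) hq]
  simp_rw [Nat.mul_div_cancel _ hq]
  rw [← Finset.sum_div]
  refine (div_le_div_of_nonneg_right h1 hq'.le).trans (le_of_eq ?_)
  have h7 : √(q : ℝ) * √(q : ℝ) = q := Real.mul_self_sqrt hq'.le
  have h8 : 0 < √(q : ℝ) := Real.sqrt_pos.2 hq'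
  rw [div_eq_div_iff hq'.ne' h8.ne']; nlinarith

lemma lamq_bound (k : ℕ) : ∃ C : ℝ, 0 < C ∧ ∀ (q Y : ℕ) (L : ℝ), 0 < q → 1 ≤ L → Real.log Y ≤ L →
    ∑ n ∈ Ioc 0 Y, |(nu q * ppow log (k + 1)) n| ≤ C * Y * L ^ k / √(q : ℝ) := by
  obtain ⟨C, hC, h⟩ := cheb k
  refine ⟨2 * C, by linarith, fun q Y L hq hL hY => ?_⟩
  have e : nu q * ppow log (k + 1) = (nu q * ζ) * Lam (k + 1) := by
    rw [mul_assoc, zeta_mul_Lam]
  rw [e]
  have h1 : ∑ n ∈ Ioc 0 Y, |((nu q * ζ) * Lam (k + 1)) n|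
      ≤ ∑ n ∈ Ioc 0 Y, ∑ x ∈ n.divisorsAntidiagonal, |(nu q * ζ) x.1| * Lam (k + 1) x.2 := by
    refine Finset.sum_le_sum fun n _ => ?_
    rw [ArithmeticFunction.mul_apply]
    refine (Finset.abs_sum_le_sum_abs _ _).trans (le_of_eq ?_)
    exact Finset.sum_congr rfl fun x _ => by rw [abs_mul, abs_of_nonneg (Lam_nonneg _ _)]
  rw [sum_antidiag (fun a b => |(nu q * ζ) a| * Lam (k + 1) b)] at h1
  refine h1.trans ?_
  have h2 : ∑ m ∈ Ioc 0 Y, ∑ j ∈ Ioc 0 (Y / m), |(nu q * ζ) m| * Lam (k + 1) j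
      ≤ ∑ m ∈ Ioc 0 Y, (C * Y * L ^ k) * (|(nu q * ζ) m| / m) := by
    refine Finset.sum_le_sum fun m hm => ?_
    rw [← Finset.mul_sum]
    have hlog : Real.log ((Y / m : ℕ) : ℝ) ≤ L := by
      rcases Nat.eq_zero_or_pos (Y / m) with h0 | h0
      · rw [h0]; simp; linarith
      · exact (Real.log_le_log (by exact_mod_cast h0)
          (by exact_mod_cast Nat.div_le_self _ _)).trans hY
    have h3 := h (Y / m) L hL hlog
    have h4 : ((Y / m : ℕ) : ℝ) ≤ Y / m := Nat.cast_div_le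
    have h5 : C * ((Y / m : ℕ) : ℝ) * L ^ k ≤ C * (Y / m) * L ^ k := by gcongr
    calc _ ≤ |(nu q * ζ) m| * (C * (Y / m) * L ^ k) :=
          mul_le_mul_of_nonneg_left (h3.trans h5) (abs_nonneg _)
      _ = _ := by ring
  refine h2.trans ?_
  rw [← Finset.mul_sum]
  refine (mul_le_mul_of_nonneg_left (sum_nu_zeta_div q hq Y) (by positivity)).trans (le_of_eq ?_)
  ring

end Pool.Agent.P.MP_e86632_nt
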