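import Pool.Agent.P.MP_e86632_nt.TypeII

/-! The exponential sum over primes is small off the major arcs. -/

namespace Pool.Agent.P.MP_e86632_nt

open Finset Real ArithmeticFunction Filter

lemma sum_hyperbola_comm (G : ℕ → ℕ → ℝ) (y : ℕ) :
    ∑ m ∈ Ioc 0 y, ∑ n ∈ Ioc 0 (y / m), G m n = ∑ n ∈ Ioc 0 y, ∑ m ∈ Ioc 0 (y / n), G m n := by
  refine Finset.sum_comm' fun m n => ?_
  simp only [Finset.mem_Ioc]
  constructor
  · rintro ⟨⟨h1, h2⟩, h3, h4⟩
    rw [Nat.le_div_iff_mul_le h1] at h4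
    rw [Nat.le_div_iff_mul_le h3]
    exact ⟨⟨h1, by linarith⟩, h3, by nlinarith⟩
  · rintro ⟨⟨h1, h2⟩, h3, h4⟩
    rw [Nat.le_div_iff_mul_le h3] at h2
    rw [Nat.le_div_iff_mul_le h1]
    exact ⟨⟨h1, by nlinarith⟩, h3, by linarith⟩

theorem typeII {ε : ℝ} (hε : 0 < ε) (j i : ℕ) (hij : j + i = 7) :
    ∃ Q : ℕ, 0 < Q ∧ ∀ᶠ x : ℕ in atTop, ∀ θ : ℝ, ¬ Maj Q x θ → ∀ y, y ≤ x →
    ‖∑ n ∈ Ioc 0 y, ((Λ * Lam (j + 1)) n : ℂ) * ee (n * θ)‖ ≤ ε * x * Real.log x ^ (j + 1) := by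
  obtain ⟨C, hC, h₁⟩ := cheb j
  obtain ⟨C', hC', h₂⟩ := mertensLam j
  set δ : ℝ := min 1 (ε / (4 * (C + 6))) with hδ
  have hδ0 : 0 < δ := lt_min one_pos (by positivity)
  have hδ1 : δ ≤ 1 := min_le_left _ _
  have hδ2 : (C + 6) * δ ≤ ε / 4 := by
    have : δ ≤ ε / (4 * (C + 6)) := min_le_right _ _
    rw [le_div_iff₀ (by positivity)] at this; linarith
  obtain ⟨Q, hQ, hb⟩ := block (ε := ε / 6) (by positivity) hδ0 j i hij
  refine ⟨Q, hQ, ?_⟩
  filter_upwards [hb, ev_log 1, ev_log (1 / δ), ev_log (4 * (6 * C + 6 * C') / ε),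
    eventually_gt_atTop 0] with x hb hL hL2 hL3 hx θ hθ y hy
  set L := Real.log x with hLdef
  set Z := Zf δ x with hZdef
  have hx' : (0 : ℝ) < x := by exact_mod_cast hx
  have hy' : (y : ℝ) ≤ x := by exact_mod_cast hy
  have hδL : 1 ≤ δ * L := by rw [div_le_iff₀ hδ0] at hL2; linarith
  have hlogZ : Real.log Z ≤ δ * L := log_Zf_le hδ0.le x
  set v : ℕ → ℝ := fun n => Lam (j + 1) n with hv
  have hv0 : ∀ n, 0 ≤ v n := Lam_nonneg _
  rw [sum_mul_weight]
  set F : ℕ → ℕ → ℂ := fun m n => (Λ m : ℂ) * v n * ee (((m * n : ℕ) : ℝ) * θ) with hF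
  have hFn : ∀ m n, ‖F m n‖ = Λ m * v n := by
    intro m n
    simp only [hF]
    rw [norm_mul, norm_mul, norm_ee, mul_one, Complex.norm_real, Complex.norm_real,
      Real.norm_eq_abs, Real.norm_eq_abs, abs_of_nonneg vonMangoldt_nonneg, abs_of_nonneg (hv0 _)]
  have split : ∑ m ∈ Ioc 0 y, ∑ n ∈ Ioc 0 (y / m), F m n
      = ∑ m ∈ Ioc 0 y, ∑ n ∈ Ioc 0 (y / m), (if Z < m ∧ Z < n then F m n else 0)
        + ∑ m ∈ Ioc 0 y, ∑ n ∈ Ioc 0 (y / m), (if Z < m ∧ Z < n then 0 else F m n) := by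
    rw [← Finset.sum_add_distrib]
    refine Finset.sum_congr rfl fun m _ => ?_
    rw [← Finset.sum_add_distrib]
    exact Finset.sum_congr rfl fun n _ => by split_ifs <;> simp
  change ‖∑ m ∈ Ioc 0 y, ∑ n ∈ Ioc 0 (y / m), F m n‖ ≤ _
  rw [split]
  have hLj : 0 < L ^ j := by positivity
  have pA : ∑ m ∈ Ioc 0 y, ∑ n ∈ Ioc 0 (y / m), (if m ≤ Z then Λ m * v n else 0)
      ≤ C * x * L ^ j * (δ * L + 6) := by
    have k1 : ∀ m ∈ Ioc 0 y, ∑ n ∈ Ioc 0 (y / m), (if m ≤ Z then Λ m * v n else 0)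
        ≤ C * x * L ^ j * (if m ≤ Z then Λ m / m else 0) := by
      intro m hm
      split_ifs
      · rw [← Finset.mul_sum]
        have h3 := h₁ (y / m) L hL (log_le_of_le ((Nat.div_le_self _ _).trans hy) le_rfl)
        have h4 : ((y / m : ℕ) : ℝ) ≤ x / m := Nat.cast_div_le.trans (by gcongr)
        have h5 : C * ((y / m : ℕ) : ℝ) * L ^ j ≤ C * (x / m) * L ^ j := by gcongr
        calc _ ≤ Λ m * (C * (x / m) * L ^ j) :=
              mul_le_mul_of_nonneg_left (h3.trans h5) vonMangoldt_nonneg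
          _ = _ := by ring
      · simp
    refine (Finset.sum_le_sum k1).trans ?_
    rw [← Finset.mul_sum, ← Finset.sum_filter]
    refine mul_le_mul_of_nonneg_left ?_ (by positivity)
    refine (Finset.sum_le_sum_of_subset_of_nonneg (t := Ioc 0 Z) (fun m hm => ?_)
      fun _ _ _ => div_nonneg vonMangoldt_nonneg (by positivity)).trans ((mertens Z).trans (by linarith))
    simp only [Finset.mem_filter, Finset.mem_Ioc] at hm ⊢
    exact ⟨hm.1.1, hm.2⟩
  have pB : ∑ m ∈ Ioc 0 y, ∑ n ∈ Ioc 0 (y / m), (if n ≤ Z then Λ m * v n else 0)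
      ≤ 6 * x * (δ * L ^ (j + 1) + C' * L ^ j) := by
    rw [sum_hyperbola_comm]
    have k1 : ∀ n ∈ Ioc 0 y, ∑ m ∈ Ioc 0 (y / n), (if n ≤ Z then Λ m * v n else 0)
        ≤ 6 * x * (if n ≤ Z then v n / n else 0) := by
      intro n hn
      split_ifs
      · rw [← Finset.sum_mul]
        have h3 := psi_le (y / n)
        have h4 : ((y / n : ℕ) : ℝ) ≤ x / n := Nat.cast_div_le.trans (by gcongr)
        calc _ ≤ 6 * (x / n) * v n := mul_le_mul_of_nonneg_right (by linarith) (hv0 n)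
          _ = _ := by ring
      · simp
    refine (Finset.sum_le_sum k1).trans ?_
    rw [← Finset.mul_sum, ← Finset.sum_filter]
    refine mul_le_mul_of_nonneg_left ?_ (by positivity)
    refine (Finset.sum_le_sum_of_subset_of_nonneg (t := Ioc 0 Z) (fun m hm => ?_)
      fun _ _ _ => div_nonneg (hv0 _) (by positivity)).trans ((h₂ Z (δ * L) hδL hlogZ).trans ?_)
    · simp only [Finset.mem_filter, Finset.mem_Ioc] at hm ⊢
      exact ⟨hm.1.1, hm.2⟩
    have k2 : (δ * L) ^ j ≤ L ^ j :=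
      pow_le_pow_left₀ (by positivity) (mul_le_of_le_one_left (by positivity) hδ1) _
    have k3 : (δ * L) ^ (j + 1) ≤ δ * L ^ (j + 1) := by
      rw [pow_succ, pow_succ]
      calc (δ * L) ^ j * (δ * L) ≤ L ^ j * (δ * L) := by gcongr
        _ = _ := by ring
    have k4 : C' * (δ * L) ^ j ≤ C' * L ^ j := by gcongr
    linarith
  have p2 : ‖∑ m ∈ Ioc 0 y, ∑ n ∈ Ioc 0 (y / m), (if Z < m ∧ Z < n then 0 else F m n)‖
      ≤ ε / 2 * x * L ^ (j + 1) := by
    refine (norm_sum_le _ _).trans ?_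
    refine (Finset.sum_le_sum (g := fun m => ∑ n ∈ Ioc 0 (y / m), (if m ≤ Z then Λ m * v n else 0)
      + ∑ n ∈ Ioc 0 (y / m), (if n ≤ Z then Λ m * v n else 0)) fun m _ => ?_).trans ?_
    · refine (norm_sum_le _ _).trans ?_
      rw [← Finset.sum_add_distrib]
      refine Finset.sum_le_sum fun n _ => ?_
      have := mul_nonneg (vonMangoldt_nonneg (n := m)) (hv0 n)
      split_ifs <;> first | omega | (simp only [hFn, norm_zero]; linarith)
    rw [Finset.sum_add_distrib]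
    refine (add_le_add pA pB).trans ?_
    rw [div_le_iff₀ hε] at hL3
    have e : ε / 2 * x * L ^ (j + 1) - (C * x * L ^ j * (δ * L + 6)
        + 6 * x * (δ * L ^ (j + 1) + C' * L ^ j))
        = x * L ^ j * ((ε / 4 - (C + 6) * δ) * L + (L * ε - 4 * (6 * C + 6 * C')) / 4) := by ring
    rw [← sub_nonneg, e]
    have : 0 ≤ (ε / 4 - (C + 6) * δ) * L := mul_nonneg (by linarith) (by linarith)
    exact mul_nonneg (by positivity) (by linarith)
  have p1 : ‖∑ m ∈ Ioc 0 y, ∑ n ∈ Ioc 0 (y / m), (if Z < m ∧ Z < n then F m n else 0)‖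
      ≤ ε / 2 * x * L ^ (j + 1) := by
    have e1 : ∑ m ∈ Ioc 0 y, ∑ n ∈ Ioc 0 (y / m), (if Z < m ∧ Z < n then F m n else 0)
        = ∑ m ∈ Ioc Z y, (Λ m : ℂ) * ∑ n ∈ Ioc Z (y / m), (Lam (j + 1) n : ℂ) * ee (m * n * θ) := by
      have e2 : Ioc Z y = (Ioc 0 y).filter (Z < ·) := by
        ext m; simp only [Finset.mem_filter, Finset.mem_Ioc]; omega
      rw [e2, Finset.sum_filter]
      refine Finset.sum_congr rfl fun m _ => ?_
      split_ifs with hm
      · have e3 : Ioc Z (y / m) = (Ioc 0 (y / m)).filter (Z < ·) := by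
          ext n; simp only [Finset.mem_filter, Finset.mem_Ioc]; omega
        rw [e3, Finset.sum_filter, Finset.mul_sum]
        refine Finset.sum_congr rfl fun n _ => ?_
        simp only [hm, true_and, hF, hv]
        split_ifs
        · push_cast; ring
        · simp
      · simp [hm]
    rw [e1, ← Finset.sum_fiberwise_of_maps_to (g := Nat.log 2) (t := range (Nat.log 2 x + 1))]
    swap
    · intro m hm
      exact Finset.mem_range.2 (Nat.lt_succ_of_le
        (Nat.log_mono_right ((Finset.mem_Ioc.1 hm).2.trans hy)))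
    refine (norm_sum_le _ _).trans ?_
    refine (Finset.sum_le_sum (g := fun _ => ε / 6 * x * L ^ j) fun k _ => ?_).trans ?_
    · refine le_trans (le_of_eq ?_) (hb θ hθ y hy (2 ^ k))
      congr 2
      ext m
      simp only [Finset.mem_filter, Finset.mem_Ioc, and_congr_right_iff]
      rintro ⟨h1, _⟩
      rw [Nat.log_eq_iff (Or.inr ⟨by norm_num, by omega⟩), pow_succ, mul_comm]
    · simp only [Finset.sum_const, Finset.card_range, nsmul_eq_mul]
      have k1 : (Nat.log 2 x : ℝ) * Real.log 2 ≤ L := by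
        rw [← Real.log_pow]
        apply Real.log_le_log (by positivity)
        exact_mod_cast Nat.pow_log_le_self 2 hx.ne'
      have k2 := Real.log_two_gt_d9
      have k3 : (Nat.log 2 x : ℝ) ≤ 2 * L := by
        nlinarith [(Nat.cast_nonneg (Nat.log 2 x) : (0 : ℝ) ≤ _)]
      have k4 : ((Nat.log 2 x + 1 : ℕ) : ℝ) ≤ 3 * L := by push_cast; linarith
      refine (mul_le_mul_of_nonneg_right k4 (by positivity)).trans (le_of_eq ?_)
      ring
  refine (norm_add_le _ _).trans ?_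
  linarith

theorem descend (i j : ℕ) (hij : j + i = 7) {ε : ℝ} (hε : 0 < ε) :
    ∃ Q : ℕ, 0 < Q ∧ ∀ᶠ x : ℕ in atTop, ∀ θ : ℝ, ¬ Maj Q x θ → ∀ y, y ≤ x →
    ‖∑ n ∈ Ioc 0 y, (Lam (j + 1) n : ℂ) * ee (n * θ)‖ ≤ ε * x * Real.log x ^ j := by
  induction i generalizing j ε with
  | zero =>
    obtain rfl : j = 7 := by omega
    exact typeI hε
  | succ i ih =>
    obtain ⟨Q₁, hQ₁, h₁⟩ := ih (j + 1) (by omega) (ε := ε / 4) (by positivity)
    obtain ⟨Q₂, hQ₂, h₂⟩ := typeII (ε := ε / 4) (by positivity) j (i + 1) hij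
    obtain ⟨C, hC, h₃⟩ := cheb j
    set δ : ℝ := min 1 (ε / (4 * C)) with hδ
    have hδ0 : 0 < δ := lt_min one_pos (by positivity)
    have hδ1 : δ ≤ 1 := min_le_left _ _
    have hδ2 : C * δ ≤ ε / 4 := by
      have : δ ≤ ε / (4 * C) := min_le_right _ _
      rw [le_div_iff₀ (by positivity)] at this; linarith
    set T : ℝ := -Real.log δ with hT
    have hT0 : 0 ≤ T := neg_nonneg.2 (Real.log_nonpos hδ0.le hδ1)
    refine ⟨max Q₁ Q₂, lt_max_of_lt_left hQ₁, ?_⟩
    filter_upwards [h₁, h₂, ev_log 1, ev_log (4 * C * T / ε), eventually_gt_atTop 0]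
      with x h₁ h₂ hL hL2 hx θ hθ y hy
    set L := Real.log x with hLdef
    have hx' : (0 : ℝ) < x := by exact_mod_cast hx
    have k1 := h₁ θ (fun h => hθ (Maj_mono hx'.le (le_max_left _ _) h)) y hy
    have k2 := h₂ θ (fun h => hθ (Maj_mono hx'.le (le_max_right _ _) h)) y hy
    have e : (L : ℂ) * ∑ n ∈ Ioc 0 y, (Lam (j + 1) n : ℂ) * ee (n * θ)
        = ∑ n ∈ Ioc 0 y, (Lam (j + 1 + 1) n : ℂ) * ee (n * θ)
          - ∑ n ∈ Ioc 0 y, ((Λ * Lam (j + 1)) n : ℂ) * ee (n * θ)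
          + ∑ n ∈ Ioc 0 y, (((L - Real.log n) * Lam (j + 1) n : ℝ) : ℂ) * ee (n * θ) := by
      rw [Finset.mul_sum, ← Finset.sum_sub_distrib, ← Finset.sum_add_distrib]
      refine Finset.sum_congr rfl fun n _ => ?_
      rw [Lam_succ_apply (j + 1) n]; push_cast; ring
    set N₁ := ⌊δ * x⌋₊ with hN₁
    have hN1 : (N₁ : ℝ) ≤ δ * x := Nat.floor_le (by positivity)
    have hN1x : N₁ ≤ x := by
      have : (N₁ : ℝ) ≤ x := hN1.trans (mul_le_of_le_one_left hx'.le hδ1)
      exact_mod_cast this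
    have k3 : ‖∑ n ∈ Ioc 0 y, (((L - Real.log n) * Lam (j + 1) n : ℝ) : ℂ) * ee (n * θ)‖
        ≤ ε / 2 * x * L ^ (j + 1) := by
      refine (norm_sum_le _ _).trans ?_
      refine (Finset.sum_le_sum (g := fun n => L * (if n ≤ N₁ then Lam (j + 1) n else 0)
        + T * Lam (j + 1) n) fun n hn => ?_).trans ?_
      · obtain ⟨hn0, hny⟩ := Finset.mem_Ioc.1 hn
        have b1 : Real.log n ≤ L := log_le_of_le (hny.trans hy) le_rfl
        have b2 := Lam_nonneg (j + 1) n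
        rw [norm_mul, norm_ee, mul_one, Complex.norm_real, Real.norm_eq_abs,
          abs_of_nonneg (mul_nonneg (by linarith) b2)]
        split_ifs with h
        · have := log_nat_nonneg n
          nlinarith
        · have b3 : δ * x < n := Nat.lt_of_floor_lt (by omega)
          have b4 := Real.log_le_log (by positivity) b3.le
          rw [Real.log_mul hδ0.ne' hx'.ne'] at b4
          rw [mul_zero, zero_add]
          exact mul_le_mul_of_nonneg_right (by linarith) b2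
      rw [Finset.sum_add_distrib, ← Finset.mul_sum, ← Finset.mul_sum, ← Finset.sum_filter]
      have b1 : ∑ n ∈ (Ioc 0 y).filter (· ≤ N₁), Lam (j + 1) n ≤ ε / 4 * x * L ^ j := by
        refine (Finset.sum_le_sum_of_subset_of_nonneg (t := Ioc 0 N₁) (fun m hm => ?_)
          fun _ _ _ => Lam_nonneg _ _).trans ((h₃ N₁ L hL (log_le_of_le hN1x le_rfl)).trans ?_)
        · simp only [Finset.mem_filter, Finset.mem_Ioc] at hm ⊢
          exact ⟨hm.1.1, hm.2⟩
        · refine mul_le_mul_of_nonneg_right ?_ (by positivity)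
          nlinarith
      have b2 : ∑ n ∈ Ioc 0 y, Lam (j + 1) n ≤ C * x * L ^ j := by
        refine (h₃ y L hL (log_le_of_le hy le_rfl)).trans ?_
        gcongr
      have b3 := mul_le_mul_of_nonneg_left b1 (by linarith : 0 ≤ L)
      have b4 := mul_le_mul_of_nonneg_left b2 hT0
      rw [div_le_iff₀ hε] at hL2
      have b5 : T * (C * x * L ^ j) ≤ ε / 4 * x * L ^ (j + 1) := by
        have : 0 ≤ x * L ^ j := by positivity
        rw [pow_succ]; nlinarith
      rw [pow_succ] at b5 ⊢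
      linarith
    have k4 := congrArg norm e
    rw [norm_mul, Complex.norm_real, Real.norm_eq_abs, abs_of_nonneg (by linarith)] at k4
    have k5 := (norm_add_le _ _).trans (add_le_add ((norm_sub_le _ _).trans (add_le_add k1 k2)) k3)
    rw [← k4] at k5
    refine le_of_mul_le_mul_left (k5.trans (le_of_eq ?_)) (by linarith : 0 < L)
    ring

/-- Vinogradov type estimate: the exponential sum over primes is small off the major arcs. -/
theorem minor_arcs {ε : ℝ} (hε : 0 < ε) :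
    ∃ Q : ℕ, 0 < Q ∧ ∀ᶠ x : ℕ in atTop, ∀ θ : ℝ, ¬ Maj Q x θ → ∀ y, y ≤ x →
    ‖∑ n ∈ Ioc 0 y, (Λ n : ℂ) * ee (n * θ)‖ ≤ ε * x := by
  obtain ⟨Q, hQ, h⟩ := descend 7 0 rfl hε
  refine ⟨Q, hQ, ?_⟩
  filter_upwards [h] with x hx θ hθ y hy
  have := hx θ hθ y hy
  rwa [zero_add, Lam_one, pow_zero, mul_one] at this

end Pool.Agent.P.MP_e86632_nt
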