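import Pool.Agent.P.MP_e86632_nt.Minor
import Pool.Agent.P.MP_e86632_nt.Fourier
import Pool.Agent.P.MP_e86632_nt.PNT

/-! Two dense sets in classes differing by a unit have a prime difference. -/

namespace Pool.Agent.P.MP_e86632_nt

open Finset Real ArithmeticFunction Filter
open ArithmeticFunction.vonMangoldt (residueClass)

lemma fiber_one {W V : ℕ} (hW : 0 < W) (hV : 0 < V) {x s : ℕ} (h : x ≡ s [MOD W]) :
    ∑ j ∈ range V, (if x ≡ s + W * j [MOD W * V] then (1 : ℝ) else 0) = 1 := by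
  obtain ⟨c, hc⟩ := (Nat.modEq_iff_dvd.1 h.symm)
  have hV' : (0 : ℤ) < V := by exact_mod_cast hV
  have h0 := Int.emod_nonneg c hV'.ne'
  have h1 := Int.emod_lt_of_pos c hV'
  rw [Finset.sum_eq_single (c % V).toNat]
  · rw [if_pos]
    rw [Nat.modEq_iff_dvd]; push_cast
    rw [Int.toNat_of_nonneg h0]
    refine ⟨-(c / V), ?_⟩
    have := Int.emod_add_mul_ediv c V
    linear_combination (W : ℤ) * this - hc
  · intro j hj hne
    rw [if_neg]
    intro h2
    rw [Nat.modEq_iff_dvd] at h2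
    push_cast at h2
    have h3 : (W : ℤ) * V ∣ W * (j - c) := by
      convert h2 using 1; linear_combination hc
    have h4 := Int.dvd_of_mul_dvd_mul_left (by positivity) h3
    have h5 : c % V = j := by
      rw [← Int.emod_eq_of_lt (a := (j : ℤ)) (b := V) (by positivity)
        (by exact_mod_cast Finset.mem_range.1 hj)]
      exact (Int.emod_emod_of_dvd _ dvd_rfl).symm.trans
        ((Int.emod_emod_of_dvd _ dvd_rfl).trans (Int.modEq_iff_dvd.2 h4))
    exact hne (by rw [h5]; simp)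
  · intro h; exact absurd (Finset.mem_range.2 (by omega)) h

lemma mul_eq_left₀' {a b : ℝ} (h : b = 1) : a * b = a := by rw [h, mul_one]

lemma class_count {M a l r : ℕ} (X : Finset ℕ) (hX : ∀ x ∈ X, a ≤ x ∧ x < a + l) :
    ∑ x ∈ X, (if x ≡ r [MOD M] then (1 : ℝ) else 0) ≤ l / M + 1 := by
  rw [Finset.sum_boole]
  have h1 : (X.filter fun x => x ≡ r [MOD M]).card ≤ (range (l / M + 1)).card := by
    apply Finset.card_le_card_of_injOn (fun x => (x - a) / M)
    · intro x hx
      simp only [Finset.coe_filter, Set.mem_ofPred_eq] at hx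
      have := hX x hx.1
      simp only [Finset.coe_range, Set.mem_Iio]
      exact Nat.lt_succ_of_le (Nat.div_le_div_right (by omega))
    · intro x hx y hy he
      simp only [Finset.coe_filter, Set.mem_ofPred_eq] at hx hy he
      have h1 := hX x hx.1
      have h2 := hX y hy.1
      have h3 : x - a ≡ y - a [MOD M] := by
        apply Nat.ModEq.add_right_cancel' a
        rw [Nat.sub_add_cancel h1.1, Nat.sub_add_cancel h2.1]
        exact hx.2.trans hy.2.symm
      have h4 := Nat.div_add_mod (x - a) M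
      have h5 := Nat.div_add_mod (y - a) M
      rw [he, h3] at h4
      omega
  rw [Finset.card_range] at h1
  have h2 : ((l / M : ℕ) : ℝ) ≤ l / M := Nat.cast_div_le
  have h3 : (((X.filter fun x => x ≡ r [MOD M]).card : ℕ) : ℝ) ≤ ((l / M + 1 : ℕ) : ℝ) := by
    exact_mod_cast h1
  push_cast at h3
  linarith

lemma coprime_pairs {W V P : ℕ} (hW : 0 < W) (hV : 0 < V) (hP0 : 0 < P)
    (hP : ∀ p, p.Prime → ¬ p ∣ W → P < p) (X Y : Finset ℕ) {s u l a b : ℕ}
    (hu : u.Coprime W) (hX : ∀ x ∈ X, a ≤ x ∧ x < a + l ∧ x ≡ s [MOD W])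
    (hY : ∀ y ∈ Y, b ≤ y ∧ y < b + l ∧ y ≡ s + u [MOD W]) (hXY : ∀ x ∈ X, ∀ y ∈ Y, x ≤ y)
    (hl : 2 * (W * V) ≤ l) (hXc : 2 * l / (P * W) ≤ (X.card : ℝ))
    (hYc : 2 * l / (P * W) ≤ (Y.card : ℝ)) :
    ((W * V).totient : ℝ) * (l / (P * W)) ^ 2
      ≤ (W * V) * ∑ x ∈ X, ∑ y ∈ Y, (if (y - x).Coprime (W * V) then (1 : ℝ) else 0) := by
  have hW' : (0 : ℝ) < W := by exact_mod_cast hW
  have hV' : (0 : ℝ) < V := by exact_mod_cast hV
  have hP' : (0 : ℝ) < P := by exact_mod_cast hP0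
  set F : ℕ → ℝ := fun j => ∑ x ∈ X, (if x ≡ s + W * j [MOD W * V] then (1 : ℝ) else 0) with hF
  set G : ℕ → ℝ := fun j => ∑ y ∈ Y, (if y ≡ s + u + W * j [MOD W * V] then (1 : ℝ) else 0) with hG
  have hGp : ∀ n, G (n + V) = G n := by
    intro n
    refine Finset.sum_congr rfl fun y _ => ?_
    congr 1
    rw [mul_add, ← add_assoc]
    exact propext ⟨fun h => h.trans (Nat.add_modEq_right), fun h => h.trans Nat.add_modEq_right.symm⟩
  have h1 := hoffman (u := u) hV hP0 hP F G hGp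
  have hFs : ∑ j ∈ range V, F j = X.card := by
    rw [Finset.sum_comm, Finset.sum_congr rfl fun x hx => fiber_one hW hV (hX x hx).2.2]; simp
  have hGs : ∑ j ∈ range V, G j = Y.card := by
    rw [Finset.sum_comm, Finset.sum_congr rfl fun x hx => fiber_one hW hV (hY x hx).2.2]; simp
  set τ : ℝ := 2 * l / (P * W) with hτ
  have hm : V * ((l : ℝ) / (W * V : ℕ) + 1) ≤ 3 * P / 4 * τ := by
    have : (2 * (W * V) : ℝ) ≤ l := by exact_mod_cast hl
    have e1 : V * ((l : ℝ) / (W * V : ℕ) + 1) = (l + W * V) / W := by push_cast; field_simp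
    have e2 : 3 * P / 4 * τ = (3 / 2 * l) / W := by rw [hτ]; field_simp; ring
    rw [e1, e2]; gcongr; linarith
  have sq : ∀ (φ : ℕ → ℝ) (c d : ℝ), (∀ j, 0 ≤ φ j) → (∀ j, φ j ≤ (l : ℝ) / (W * V : ℕ) + 1) →
      ∑ j ∈ range V, φ j = c → τ ≤ d →
      √(V * ∑ x ∈ range V, φ x ^ 2 - c ^ 2) ≤ √(3 * P / 4 * (c * d)) := by
    intro φ c d h0 h1 hc hd
    apply Real.sqrt_le_sqrt
    have hc0 : 0 ≤ c := hc ▸ Finset.sum_nonneg fun j _ => h0 j
    have k1 : ∑ x ∈ range V, φ x ^ 2 ≤ ((l : ℝ) / (W * V : ℕ) + 1) * c := by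
      rw [← hc, Finset.mul_sum]
      exact Finset.sum_le_sum fun j _ => by rw [sq]; exact mul_le_mul_of_nonneg_right (h1 j) (h0 j)
    have k2 := mul_le_mul_of_nonneg_left k1 hV'.le
    have k3 := mul_le_mul_of_nonneg_right hm hc0
    have k4 : 3 * P / 4 * τ * c ≤ 3 * P / 4 * d * c := by gcongr
    nlinarith [sq_nonneg c]
  have ind0 : ∀ (Q : Prop) [Decidable Q], 0 ≤ (if Q then (1 : ℝ) else 0) := fun Q _ => by
    split_ifs <;> norm_num
  have s1 := sq F X.card Y.card (fun j => Finset.sum_nonneg fun _ _ => ind0 _)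
    (fun j => class_count X (fun x hx => ⟨(hX x hx).1, (hX x hx).2.1⟩)) hFs hYc
  have s2 := sq G Y.card X.card (fun j => Finset.sum_nonneg fun _ _ => ind0 _)
    (fun j => class_count Y (fun x hx => ⟨(hY x hx).1, (hY x hx).2.1⟩)) hGs hXc
  rw [hFs, hGs] at h1
  rw [mul_comm (Y.card : ℝ)] at s2
  have s3 := mul_le_mul s1 s2 (Real.sqrt_nonneg _) (Real.sqrt_nonneg _)
  rw [Real.mul_self_sqrt (by positivity)] at s3
  have hτ0 : 0 ≤ τ := by positivity
  have s4 : τ * τ ≤ X.card * Y.card := mul_le_mul hXc hYc hτ0 (by positivity)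
  have s5 : (l / (P * W) : ℝ) ^ 2 ≤ (Y.card : ℝ) * X.card
      - √(V * ∑ x ∈ range V, F x ^ 2 - (X.card : ℝ) ^ 2)
        * √(V * ∑ x ∈ range V, G x ^ 2 - (Y.card : ℝ) ^ 2) / P := by
    have e : (l / (P * W) : ℝ) ^ 2 = τ * τ / 4 := by rw [hτ]; ring
    have := div_le_div_of_nonneg_right s3 hP'.le
    have e2 : 3 * (P : ℝ) / 4 * (X.card * Y.card) / P = 3 / 4 * (X.card * Y.card) := by field_simp
    rw [e]; linarith
  have hR : 0 ≤ ∑ z ∈ range V, kap W u (newP W V) z := Finset.sum_nonneg fun _ _ => kap_nonneg _ _ _ _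
  have h2 := (mul_le_mul_of_nonneg_left s5 hR).trans h1
  have h3 := mul_le_mul_of_nonneg_right (totient_le_kap hW hV u) (sq_nonneg (l / (P * W) : ℝ))
  have h4 : ∑ x ∈ range V, ∑ z ∈ range V, F x * kap W u (newP W V) z * G (x + z)
      ≤ ∑ x ∈ X, ∑ y ∈ Y, (if (y - x).Coprime (W * V) then (1 : ℝ) else 0) := by
    have e : ∑ j ∈ range V, ∑ z ∈ range V, F j * kap W u (newP W V) z * G (j + z)
        = ∑ x ∈ X, ∑ y ∈ Y, ∑ j ∈ range V, ∑ z ∈ range V,
          (if x ≡ s + W * j [MOD W * V] then (1 : ℝ) else 0) * kap W u (newP W V) z *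
          (if y ≡ s + u + W * (j + z) [MOD W * V] then (1 : ℝ) else 0) := by
      simp only [hF, hG, Finset.sum_mul, Finset.mul_sum]
      conv_rhs => rw [Finset.sum_comm]
      conv_rhs => enter [2, y]; rw [Finset.sum_comm]
      conv_rhs => rw [Finset.sum_comm]
      refine Finset.sum_congr rfl fun j _ => ?_
      conv_rhs => enter [2, y]; rw [Finset.sum_comm]
      conv_rhs => rw [Finset.sum_comm]
    rw [e]
    refine Finset.sum_le_sum fun x hx => Finset.sum_le_sum fun y hy => ?_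
    have k1 : ∀ j ∈ range V, ∑ z ∈ range V,
          (if x ≡ s + W * j [MOD W * V] then (1 : ℝ) else 0) * kap W u (newP W V) z *
          (if y ≡ s + u + W * (j + z) [MOD W * V] then (1 : ℝ) else 0)
        ≤ (if (y - x).Coprime (W * V) then (1 : ℝ) else 0)
          * (if x ≡ s + W * j [MOD W * V] then (1 : ℝ) else 0) := by
      intro j _
      have k2 : y ≡ (s + u + W * j) [MOD W] := (hY y hy).2.2.trans (by simp [Nat.ModEq])
      refine le_trans ?_ (le_of_eq (mul_eq_left₀' (fiber_one hW hV k2)))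
      rw [Finset.mul_sum]
      refine Finset.sum_le_sum fun z _ => ?_
      rw [mul_add, ← add_assoc, kap_eq_coprime hV hu]
      by_cases c1 : x ≡ s + W * j [MOD W * V]
      · by_cases c2 : y ≡ s + u + W * j + W * z [MOD W * V]
        · have c3 : y - x ≡ u + W * z [MOD W * V] := by
            apply Nat.ModEq.add_right_cancel' x
            rw [Nat.sub_add_cancel (hXY x hx y hy)]
            refine c2.trans (Nat.ModEq.trans (by rw [show s + u + W * j + W * z
              = u + W * z + (s + W * j) by ring]) (Nat.ModEq.add_left _ c1.symm))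
          have c4 : (y - x).Coprime (W * V) ↔ (u + W * z).Coprime (W * V) := by
            unfold Nat.Coprime; rw [c3.gcd_eq]
          simp [c1, c2, c4]
        · simp [c2]
      · simp [c1]
    refine (Finset.sum_le_sum k1).trans ?_
    rw [← Finset.mul_sum, fiber_one hW hV (hX x hx).2.2, mul_one]
  have h5 := mul_le_mul_of_nonneg_left (h2.trans (mul_le_mul_of_nonneg_left h4 hV'.le)) hW'.le
  rw [mul_assoc] at h3 ⊢
  exact h3.trans h5

lemma pnt_unif (q : ℕ) [NeZero q] {ε : ℝ} (hε : 0 < ε) : ∀ᶠ N : ℕ in atTop, ∀ r : ZMod q, IsUnit r →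
    ∀ n, n ≤ N → |∑ i ∈ range (n + 1), residueClass r i - n / q.totient| ≤ ε * N := by
  rw [Filter.eventually_all]
  intro r
  by_cases hr : IsUnit r
  swap
  · simp [hr]
  obtain ⟨n₀, h⟩ := Metric.tendsto_atTop.1 (pnt_ap q r hr) ε hε
  have hφ : (1 : ℝ) ≤ q.totient := by exact_mod_cast Nat.totient_pos.2 (NeZero.pos q)
  filter_upwards [tendsto_natCast_atTop_atTop.eventually_ge_atTop (6 * ((n₀ : ℝ) + 1) / ε)]
    with N hN _ n hn
  have hn' : (n : ℝ) ≤ N := by exact_mod_cast hn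
  rcases lt_or_ge n (n₀ + 1) with h1 | h1
  · have a0 : 0 ≤ ∑ i ∈ range (n + 1), residueClass r i :=
      Finset.sum_nonneg fun i _ => vonMangoldt.residueClass_nonneg r i
    have a1 : ∑ i ∈ range (n + 1), residueClass r i ≤ 6 * n := by
      refine (Finset.sum_le_sum fun i _ => vonMangoldt.residueClass_le r i).trans ?_
      rw [Finset.range_eq_Ico, Finset.sum_eq_sum_Ico_succ_bot (by omega)]
      have : Ico (0 + 1) (n + 1) = Ioc 0 n := by ext; simp; omega
      rw [this]; simpa using psi_le n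
    have a2 : (n : ℝ) / q.totient ≤ n := div_le_self (by positivity) hφ
    have a3 : (0 : ℝ) ≤ n / q.totient := by positivity
    have a4 : (n : ℝ) ≤ n₀ + 1 := by exact_mod_cast h1.le
    rw [div_le_iff₀ hε] at hN
    rw [abs_le]; constructor <;> nlinarith
  · have := h n (by omega)
    have hn0 : (0 : ℝ) < n := by exact_mod_cast (by omega : 0 < n)
    rw [Real.dist_eq] at this
    have e : ∑ i ∈ range (n + 1), residueClass r i - n / q.totient
        = n * ((∑ i ∈ range (n + 1), residueClass r i) / n - 1 / q.totient) := by field_simp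
    rw [e, abs_mul, abs_of_pos hn0]
    nlinarith [abs_nonneg ((∑ i ∈ range (n + 1), residueClass r i) / n - 1 / q.totient)]

lemma window_eq (q H d : ℕ) (hq : 0 < q) (hd : q * H ≤ d) :
    ∑ i ∈ range (d + 1), residueClass (d : ZMod q) i
      - ∑ i ∈ range (d - q * H + 1), residueClass (d : ZMod q) i = ∑ z ∈ range H, Λ (d - q * z) := by
  rw [← Finset.sum_Ico_eq_sub _ (by omega)]
  simp only [Set.indicator_apply, Set.mem_ofPred_eq]
  rw [← Finset.sum_filter]
  symm
  refine Finset.sum_bij' (fun z _ => d - q * z) (fun i _ => (d - i) / q) ?_ ?_ ?_ ?_ ?_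
  · intro z hz
    have h1 := Finset.mem_range.1 hz
    have h2 : q * z + q ≤ q * H := by nlinarith
    simp only [Finset.mem_filter, Finset.mem_Ico]
    refine ⟨by omega, ?_⟩
    rw [Nat.cast_sub (by omega)]; simp
  · intro i hi
    simp only [Finset.mem_filter, Finset.mem_Ico] at hi
    rw [Finset.mem_range, Nat.div_lt_iff_lt_mul hq, mul_comm]; omega
  · intro z hz
    have h1 := Finset.mem_range.1 hz
    have h2 : q * z + q ≤ q * H := by nlinarith
    rw [Nat.sub_sub_self (by omega), Nat.mul_div_cancel_left _ hq]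
  · intro i hi
    simp only [Finset.mem_filter, Finset.mem_Ico] at hi
    have h1 : q ∣ d - i := (Nat.modEq_iff_dvd' (by omega)).1 ((ZMod.natCast_eq_natCast_iff _ _ _).1 hi.2)
    rw [Nat.mul_div_cancel' h1]; omega
  · intro z _; rfl

lemma sum_ind {M : ℕ} (X : Finset ℕ) (hX : ∀ x ∈ X, x < M) (φ : ℕ → ℝ) :
    ∑ x ∈ range M, (if x ∈ X then (1 : ℝ) else 0) * φ x = ∑ x ∈ X, φ x := by
  simp only [ite_mul, one_mul, zero_mul]
  rw [← Finset.sum_filter]
  congr 1; ext x; simp only [Finset.mem_filter, Finset.mem_range]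
  exact ⟨fun h => h.2, fun h => ⟨hX x h, h⟩⟩

lemma smooth_bound (X Y : Finset ℕ) {N q H : ℕ} (hH : 0 < H) (hX : ∀ x ∈ X, x ≤ N) (hY : ∀ x ∈ Y, x ≤ N)
    (hqH : q * H ≤ N) {B : ℝ} (hB : 0 ≤ B)
    (h : ∀ θ : ℝ, ‖(∑ d ∈ Ioc 0 N, (Λ d : ℂ) * ee (d * θ))
      * ((∑ z ∈ range H, (ee ((q * z : ℕ) * θ) - 1)) / H)‖ ≤ B) :
    ∑ x ∈ X, ∑ d ∈ Ioc 0 N ×ˢ range H, Λ d.1 / H * (if x + (d.1 + q * d.2) ∈ Y then (1 : ℝ) else 0)
      ≤ ∑ x ∈ X, ∑ d ∈ Ioc 0 N, Λ d * (if x + d ∈ Y then (1 : ℝ) else 0) + B * (N + 1) := by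
  set M := 3 * N + 1 with hM
  have hM0 : (0 : ℝ) < M := by positivity
  have hH' : (H : ℂ) ≠ 0 := by exact_mod_cast hH.ne'
  set f : ℕ → ℝ := fun x => if x ∈ X then 1 else 0 with hf
  set g : ℕ → ℝ := fun x => if x ∈ Y then 1 else 0 with hg
  have hfX : ∀ x, f x ≠ 0 → x ≤ N := fun x hx => hX x (by by_contra h; simp [hf, h] at hx)
  have t1 := trilinear M f g (Ioc 0 N) (fun d => Λ d) id fun x _ hx d hd =>
    inversion g (by have := hfX x hx; have := (Finset.mem_Ioc.1 hd).2; simp only [id]; omega)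
  have t2 := trilinear M f g (Ioc 0 N ×ˢ range H) (fun d => Λ d.1 / H) (fun d => d.1 + q * d.2)
    fun x _ hx d hd => inversion g (by
      have := hfX x hx
      simp only [Finset.mem_product, Finset.mem_Ioc, Finset.mem_range] at hd
      have : q * d.2 ≤ q * H := Nat.mul_le_mul_left _ hd.2.le
      omega)
  have cs := cs_bound (range M) (FT M f) (FT M g) (fun k => (∑ d ∈ Ioc 0 N, (Λ d : ℂ) * ee (d * (k / M)))
      * ((∑ z ∈ range H, (ee ((q * z : ℕ) * (k / M)) - 1)) / H)) hB fun k _ => h _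
  have card : ∀ Z : Finset ℕ, (∀ x ∈ Z, x ≤ N) →
      √(∑ k ∈ range M, ‖FT M (fun x => if x ∈ Z then 1 else 0) k‖ ^ 2) ≤ √(M * (N + 1)) := by
    intro Z hZ
    apply Real.sqrt_le_sqrt
    rw [parseval]
    refine mul_le_mul_of_nonneg_left ?_ hM0.le
    simp_rw [sq]
    rw [sum_ind Z fun x hx => by have := hZ x hx; omega]
    refine (Finset.sum_le_sum (g := fun _ => (1 : ℝ)) fun x hx => by simp [hx]).trans ?_
    have : Z.card ≤ (range (N + 1)).card :=
      Finset.card_le_card fun x hx => Finset.mem_range.2 (Nat.lt_succ_of_le (hZ x hx))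
    rw [Finset.card_range] at this
    simp only [Finset.sum_const, nsmul_eq_mul, mul_one]; exact_mod_cast this
  have c2 := mul_le_mul (card X hX) (card Y hY) (Real.sqrt_nonneg _) (Real.sqrt_nonneg _)
  rw [Real.mul_self_sqrt (by positivity)] at c2
  have c3 := cs.trans (mul_le_mul_of_nonneg_left c2 hB)
  have hXM : ∀ x ∈ X, x < M := fun x hx => by have := hX x hx; omega
  simp only [id, mul_assoc, ← Finset.mul_sum] at t1 t2
  rw [hf, sum_ind X hXM] at t1 t2
  have e : ∑ k ∈ range M, (starRingEnd ℂ) (FT M g k) * FT M f k *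
      ((∑ d ∈ Ioc 0 N, (Λ d : ℂ) * ee (d * (k / M)))
        * ((∑ z ∈ range H, (ee ((q * z : ℕ) * (k / M)) - 1)) / H))
      = ((M * (∑ x ∈ X, ∑ d ∈ Ioc 0 N ×ˢ range H, Λ d.1 / H * g (x + (d.1 + q * d.2))
        - ∑ x ∈ X, ∑ d ∈ Ioc 0 N, Λ d * g (x + d)) : ℝ) : ℂ) := by
    rw [mul_sub, Complex.ofReal_sub, Complex.ofReal_mul, Complex.ofReal_mul, Complex.ofReal_natCast,
      t1, t2, ← Finset.sum_sub_distrib]
    refine Finset.sum_congr rfl fun k _ => ?_
    rw [← mul_sub, ← mul_sub, mul_assoc]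
    congr 2
    rw [Finset.sum_product, Finset.sum_mul, ← Finset.sum_sub_distrib]
    refine Finset.sum_congr rfl fun d _ => ?_
    rw [Finset.sum_sub_distrib, sub_div, mul_sub, Finset.sum_div, Finset.mul_sum]
    congr 1
    · refine Finset.sum_congr rfl fun z _ => ?_
      push_cast
      rw [add_mul, ee_add]; ring
    · simp [hH']
  rw [e, Complex.norm_real, Real.norm_eq_abs, abs_mul, abs_of_pos hM0] at c3
  have c4 : |∑ x ∈ X, ∑ d ∈ Ioc 0 N ×ˢ range H, Λ d.1 / H * g (x + (d.1 + q * d.2))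
        - ∑ x ∈ X, ∑ d ∈ Ioc 0 N, Λ d * g (x + d)| ≤ B * (N + 1) :=
    le_of_mul_le_mul_left (c3.trans (le_of_eq (by ring))) hM0
  have := (abs_le.1 c4).2
  simp only [hg] at this
  linarith

theorem prime_diff {W P : ℕ} (hW : 0 < W) (hP0 : 0 < P) (hP : ∀ p, p.Prime → ¬ p ∣ W → P < p)
    {η : ℝ} (hη : 0 < η) : ∀ᶠ N : ℕ in atTop, ∀ (X Y : Finset ℕ) (s u l a b : ℕ), u.Coprime W →
    η * N ≤ l → (∀ x ∈ X, a ≤ x ∧ x < a + l ∧ x ≡ s [MOD W]) →
    (∀ y ∈ Y, b ≤ y ∧ y < b + l ∧ y ≡ s + u [MOD W]) → (∀ y ∈ Y, y ≤ N) →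
    (∀ x ∈ X, ∀ y ∈ Y, x + η * N ≤ y) →
    2 * l / (P * W) ≤ (X.card : ℝ) → 2 * l / (P * W) ≤ (Y.card : ℝ) →
    ∃ x ∈ X, ∃ p : ℕ, p.Prime ∧ x + p ∈ Y := by
  have hW' : (0 : ℝ) < W := by exact_mod_cast hW
  have hP' : (0 : ℝ) < P := by exact_mod_cast hP0
  set c₀ : ℝ := (η / (P * W)) ^ 2 / 2 with hc₀
  have hc₀0 : 0 < c₀ := by positivity
  obtain ⟨Q, hQ, hmin⟩ := minor_arcs (ε := c₀ / 16) (by positivity)
  have hQ' : (0 : ℝ) < Q := by exact_mod_cast hQ
  set V := Q.factorial with hVdef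
  have hV : 0 < V := Nat.factorial_pos Q
  set q := W * V with hqdef
  have hq : 0 < q := by positivity
  have hq' : (0 : ℝ) < q := by exact_mod_cast hq
  have : NeZero q := ⟨hq.ne'⟩
  set η' : ℝ := min (min η 1 / q) (c₀ / (400 * q * Q)) with hη'
  have hη'0 : 0 < η' := lt_min (div_pos (lt_min hη one_pos) hq') (by positivity)
  have hη'1 : q * η' ≤ min η 1 := by
    have : η' ≤ min η 1 / q := min_le_left _ _
    rwa [le_div_iff₀' hq'] at this
  have hη'2 : 400 * q * Q * η' ≤ c₀ := by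
    have : η' ≤ c₀ / (400 * q * Q) := min_le_right _ _
    rwa [le_div_iff₀' (by positivity)] at this
  obtain ⟨C, hC⟩ := Chebyshev.psi_sub_theta_le_mul_sqrt
  filter_upwards [hmin, pnt_unif q (ε := η' / 8) (by positivity),
    tendsto_natCast_atTop_atTop.eventually_ge_atTop (2 / η' : ℝ),
    tendsto_natCast_atTop_atTop.eventually_ge_atTop (2 * q / η : ℝ),
    tendsto_natCast_atTop_atTop.eventually_ge_atTop ((8 * |C| / c₀) ^ 2 : ℝ), eventually_gt_atTop 0]
    with N hmin hpnt hN1 hN2 hN3 hN0 X Y s u l a b hu hl hX hY hYN hXY hXc hYc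
  have hN' : (0 : ℝ) < N := by exact_mod_cast hN0
  have hN1' : (1 : ℝ) ≤ N := by exact_mod_cast hN0
  by_contra hcon
  push Not at hcon
  set H := ⌊η' * N⌋₊ with hH
  have hH1 : (H : ℝ) ≤ η' * N := Nat.floor_le (by positivity)
  have hH2 : η' * N ≤ 2 * H := by
    have := Nat.lt_floor_add_one (η' * N)
    rw [div_le_iff₀ hη'0] at hN1
    linarith
  have hH0' : (0 : ℝ) < H := by have : 0 < η' * N := by positivity
                                linarith
  have hH0 : 0 < H := by exact_mod_cast hH0'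
  have hqH : (q : ℝ) * H ≤ min η 1 * N := by
    calc (q : ℝ) * H ≤ q * (η' * N) := by gcongr
      _ = q * η' * N := by ring
      _ ≤ _ := by gcongr
  have hqH1 : (q : ℝ) * H ≤ η * N := hqH.trans (by gcongr; exact min_le_left _ _)
  have hqH2 : q * H ≤ N := by
    have : (q : ℝ) * H ≤ 1 * N := hqH.trans (by gcongr; exact min_le_right _ _)
    rw [one_mul] at this; exact_mod_cast this
  have hl0 : (0 : ℝ) < l := lt_of_lt_of_le (by positivity) hl
  have hYne : Y.Nonempty := by
    rw [← Finset.card_pos]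
    have : (0 : ℝ) < Y.card := lt_of_lt_of_le (by positivity) hYc
    exact_mod_cast this
  have hXY' : ∀ x ∈ X, ∀ y ∈ Y, x + q * H ≤ y := by
    intro x hx y hy
    have : (x : ℝ) + q * H ≤ y := by linarith [hXY x hx y hy]
    exact_mod_cast this
  have hXN : ∀ x ∈ X, x ≤ N := by
    obtain ⟨y, hy⟩ := hYne
    intro x hx
    have := hXY' x hx y hy
    have := hYN y hy
    omega
  have sb := smooth_bound X Y hH0 hXN hYN hqH2 (B := c₀ / 8 * N) (by positivity) (fun θ => by
    rw [norm_mul, norm_div, Complex.norm_natCast]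
    by_cases hθ : Maj Q N θ
    · obtain ⟨r, hr0, hrQ, k, hk⟩ := hθ
      obtain ⟨c, hc⟩ := Nat.dvd_factorial hr0 hrQ
      have a1 : ‖∑ d ∈ Ioc 0 N, (Λ d : ℂ) * ee (d * θ)‖ ≤ 6 * N :=
        (norm_sum_ee_le _ (fun _ => vonMangoldt_nonneg) _ _).trans (psi_le N)
      have a2 : ‖∑ z ∈ range H, (ee ((q * z : ℕ) * θ) - 1)‖ / H ≤ 7 * (q * η' * Q) := by
        rw [div_le_iff₀' hH0']
        refine (norm_sum_le _ _).trans ?_
        refine (Finset.sum_le_sum (g := fun _ => 7 * (q * η' * Q)) fun z hz => ?_).trans (by simp)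
        rw [← ee_sub_int _ (W * c * z * k)]
        refine (norm_ee_sub_one_le _).trans ?_
        have e : ((q * z : ℕ) : ℝ) * θ - ((W * c * z * k : ℤ) : ℝ) = (W * c * z) * (r * θ - k) := by
          rw [hqdef, hVdef, hc]; push_cast; ring
        rw [e, abs_mul, abs_of_nonneg (by positivity : (0 : ℝ) ≤ W * c * z)]
        have b1 : (W : ℝ) * c ≤ q := by
          have : W * c ≤ q := by
            rw [hqdef, hVdef, hc]; exact Nat.mul_le_mul_left _ (Nat.le_mul_of_pos_left _ hr0)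
          exact_mod_cast this
        have b2 : (z : ℝ) ≤ η' * N := le_trans (by exact_mod_cast (Finset.mem_range.1 hz).le) hH1
        have b3 : (W : ℝ) * c * z * |r * θ - k| ≤ q * (η' * N) * (Q / N) := by gcongr
        have b4 : (q : ℝ) * (η' * N) * (Q / N) = q * η' * Q := by field_simp
        have hpi : 2 * π ≤ 7 := by have := Real.pi_lt_d2; linarith
        rw [b4] at b3
        exact mul_le_mul hpi b3 (by positivity) (by norm_num)
      refine (mul_le_mul a1 a2 (by positivity) (by positivity)).trans ?_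
      have : 0 ≤ q * η' * Q := by positivity
      nlinarith
    · have a2 : ‖∑ z ∈ range H, (ee ((q * z : ℕ) * θ) - 1)‖ / H ≤ 2 := by
        rw [div_le_iff₀' hH0']
        refine (norm_sum_le _ _).trans ?_
        refine (Finset.sum_le_sum (g := fun _ => (2 : ℝ)) fun z hz => ?_).trans (by simp)
        refine (norm_sub_le _ _).trans ?_
        simp; norm_num
      refine (mul_le_mul (hmin θ hθ N le_rfl) a2 (by positivity) (by positivity)).trans
        (le_of_eq (by ring)))
  have up : ∑ x ∈ X, ∑ d ∈ Ioc 0 N, Λ d * (if x + d ∈ Y then (1 : ℝ) else 0) ≤ c₀ / 4 * N ^ 2 := by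
    have a1 : ∀ x ∈ X, ∑ d ∈ Ioc 0 N, Λ d * (if x + d ∈ Y then (1 : ℝ) else 0) ≤ c₀ / 8 * N := by
      intro x hx
      have a2 := hC N
      rw [Chebyshev.psi_sub_theta_eq_sum_not_prime, Nat.floor_natCast, Finset.sum_filter] at a2
      refine (Finset.sum_le_sum fun d _ => ?_).trans (a2.trans ?_)
      · split_ifs with h1 h2 h2
        · exact absurd h1 (hcon x hx d h2)
        · simp
        · simp
        · simp
      · have b1 : 8 * |C| / c₀ ≤ √(N : ℝ) := Real.le_sqrt_of_sq_le hN3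
        rw [div_le_iff₀ hc₀0] at b1
        have b2 : √(N : ℝ) * √(N : ℝ) = N := Real.mul_self_sqrt hN'.le
        have b3 := le_abs_self C
        have b4 := Real.sqrt_nonneg (N : ℝ)
        nlinarith
    refine (Finset.sum_le_sum a1).trans ?_
    have : X.card ≤ (range (N + 1)).card :=
      Finset.card_le_card fun x hx => Finset.mem_range.2 (Nat.lt_succ_of_le (hXN x hx))
    rw [Finset.card_range] at this
    have b1 : (X.card : ℝ) ≤ 2 * N := by
      have : (X.card : ℝ) ≤ ((N + 1 : ℕ) : ℝ) := by exact_mod_cast this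
      push_cast at this; linarith
    rw [Finset.sum_const, nsmul_eq_mul]
    have : 0 ≤ c₀ / 8 * N := by positivity
    nlinarith
  have hφ : (0 : ℝ) < q.totient := by exact_mod_cast Nat.totient_pos.2 hq
  have low : (q : ℝ) / (2 * q.totient) * ∑ x ∈ X, ∑ y ∈ Y, (if (y - x).Coprime q then (1 : ℝ) else 0)
      ≤ ∑ x ∈ X, ∑ d ∈ Ioc 0 N ×ˢ range H,
        Λ d.1 / H * (if x + (d.1 + q * d.2) ∈ Y then (1 : ℝ) else 0) := by
    rw [Finset.mul_sum]
    refine Finset.sum_le_sum fun x hx => ?_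
    have a1 : ∀ y ∈ Y, (q : ℝ) / (2 * q.totient) * (if (y - x).Coprime q then (1 : ℝ) else 0)
        ≤ ∑ z ∈ range H, Λ (y - x - q * z) / H := by
      intro y hy
      split_ifs with hc
      swap
      · rw [mul_zero]; exact Finset.sum_nonneg fun _ _ => div_nonneg vonMangoldt_nonneg hH0'.le
      have b0 := hXY' x hx y hy
      have b0' := hYN y hy
      have hunit : IsUnit ((y - x : ℕ) : ZMod q) := (ZMod.isUnit_iff_coprime _ _).2 hc
      have b1 := hpnt _ hunit (y - x) (by omega)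
      have b2 := hpnt _ hunit (y - x - q * H) (by omega)
      rw [← Finset.sum_div, ← window_eq q H (y - x) hq (by omega), mul_one, le_div_iff₀ hH0']
      rw [Nat.cast_sub (by omega : q * H ≤ y - x), sub_div] at b2
      have b3 := (abs_le.1 b1).1
      have b4 := (abs_le.1 b2).2
      have b5 : (H : ℝ) ≤ q * H / q.totient := by
        rw [le_div_iff₀ hφ, mul_comm]
        have : (q.totient : ℝ) ≤ q := by exact_mod_cast Nat.totient_le q
        gcongr
      have e : (q : ℝ) / (2 * q.totient) * H = q * H / q.totient / 2 := by field_simp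
      push_cast at b4
      rw [e]; linarith
    rw [Finset.mul_sum]
    refine (Finset.sum_le_sum a1).trans ?_
    rw [Finset.sum_comm, Finset.sum_product_right]
    refine Finset.sum_le_sum fun z hz => ?_
    have hz' : q * z + q ≤ q * H := by have := Finset.mem_range.1 hz; nlinarith
    simp only [mul_ite, mul_one, mul_zero]
    rw [← Finset.sum_filter]
    rw [← Finset.sum_image (g := fun y => y - x - q * z) (f := fun d => Λ d / H) (by
      intro y hy y' hy' he
      have := hXY' x hx y hy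
      have := hXY' x hx y' hy'
      simp only at he
      omega)]
    refine Finset.sum_le_sum_of_subset_of_nonneg ?_
      fun _ _ _ => div_nonneg vonMangoldt_nonneg hH0'.le
    · intro d hd
      obtain ⟨y, hy, rfl⟩ := Finset.mem_image.1 hd
      have := hXY' x hx y hy
      have := hYN y hy
      simp only [Finset.mem_filter, Finset.mem_Ioc]
      refine ⟨by omega, ?_⟩
      rwa [show x + (y - x - q * z + q * z) = y by omega]
  have cp := coprime_pairs hW hV hP0 hP X Y hu hX hY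
    (fun x hx y hy => by have := hXY' x hx y hy; omega) (by
      rw [div_le_iff₀ hη] at hN2
      have : (2 * q : ℝ) ≤ l := by linarith
      exact_mod_cast this) hXc hYc
  rw [← Nat.cast_mul W V, ← hqdef] at cp
  have f1 : c₀ * N ^ 2 ≤ (q : ℝ) / (2 * q.totient) *
      ∑ x ∈ X, ∑ y ∈ Y, (if (y - x).Coprime q then (1 : ℝ) else 0) := by
    rw [div_mul_eq_mul_div (q : ℝ), le_div_iff₀ (by positivity)]
    refine le_trans ?_ cp
    have e : c₀ * N ^ 2 * (2 * q.totient) = q.totient * (η * N / (P * W)) ^ 2 := by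
      rw [hc₀]; ring
    rw [e]; gcongr
  have f2 := f1.trans (low.trans sb)
  have : 0 < c₀ * N := by positivity
  nlinarith

end Pool.Agent.P.MP_e86632_nt
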