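import Pool.Agent.P.MP_e86632_nt.Major

/-! The exponential sum of `Lam 8` is small off the major arcs; short interval upper bounds. -/

namespace Pool.Agent.P.MP_e86632_nt

open Finset Real ArithmeticFunction Filter
open scoped ArithmeticFunction.zeta ArithmeticFunction.Moebius

lemma phi_mono (k : ℕ) {h : ℝ} (hh : 0 ≤ h) {u v : ℝ} (huv : u ≤ v) :
    (max 0 u) ^ k - (max 0 (u - h)) ^ k ≤ (max 0 v) ^ k - (max 0 (v - h)) ^ k := by
  induction k with
  | zero => simp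
  | succ k ih =>
    have h1 : 0 ≤ (max 0 u) ^ k - (max 0 (u - h)) ^ k :=
      sub_nonneg.2 (pow_le_pow_left₀ (le_max_left _ _) (max_le_max le_rfl (by linarith)) _)
    have h2 : max 0 u ≤ max 0 v := max_le_max le_rfl huv
    have h3 : (max 0 (u - h)) ^ k ≤ (max 0 (v - h)) ^ k :=
      pow_le_pow_left₀ (le_max_left _ _) (max_le_max le_rfl (by linarith)) _
    have h4 : max 0 u - max 0 (u - h) ≤ max 0 v - max 0 (v - h) := by
      simp only [max_def]; split_ifs <;> linarith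
    have h5 : 0 ≤ max 0 u - max 0 (u - h) := sub_nonneg.2 (max_le_max le_rfl (by linarith))
    have e : ∀ w : ℝ, (max 0 w) ^ (k + 1) - (max 0 (w - h)) ^ (k + 1)
        = max 0 w * ((max 0 w) ^ k - (max 0 (w - h)) ^ k)
          + (max 0 (w - h)) ^ k * (max 0 w - max 0 (w - h)) := fun w => by ring
    rw [e, e]
    exact add_le_add (mul_le_mul h2 ih h1 (le_max_left _ _))
      (mul_le_mul h3 h4 h5 (pow_nonneg (le_max_left _ _) _))

lemma mq_lip (k q : ℕ) (hq : 0 < q) {t t' : ℕ} (L : ℝ) (ht' : 0 < t') (h : t' ≤ t)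
    (hL : Real.log t ≤ L) :
    |mq (k + 1) q t - mq (k + 1) q t'| ≤ 2 * (k + 1) * L ^ k * (Real.log t - Real.log t') := by
  have ht'' : (0 : ℝ) < t' := by exact_mod_cast ht'
  have htt : (t' : ℝ) ≤ t := by exact_mod_cast h
  have ht : (0 : ℝ) < t := by linarith
  have hh : 0 ≤ Real.log t - Real.log t' := sub_nonneg.2 (Real.log_le_log ht'' htt)
  rw [mq_eq k q (le_refl t), mq_eq k q h, ← Finset.sum_sub_distrib]
  simp_rw [← mul_sub]
  have e : ∀ d : ℕ, 0 < d → ell (k + 1) ((t : ℝ) / d) - ell (k + 1) ((t' : ℝ) / d)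
      = (max 0 (Real.log t - Real.log d)) ^ (k + 1)
        - (max 0 (Real.log t - Real.log d - (Real.log t - Real.log t'))) ^ (k + 1) := by
    intro d hd
    have hd' : (0 : ℝ) < d := by exact_mod_cast hd
    unfold ell
    rw [Real.posLog_apply, Real.posLog_apply, Real.log_div ht.ne' hd'.ne',
      Real.log_div ht''.ne' hd'.ne']
    congr 3; ring
  have := abel_anti (fun d => nu q d / d)
    (fun d => ell (k + 1) ((t : ℝ) / d) - ell (k + 1) ((t' : ℝ) / d)) 0 t 2 (by norm_num)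
    (fun n _ => psum_nu q hq n)
    (fun d => sub_nonneg.2 (ell_mono _ (by positivity) (by gcongr)))
    (fun d hd => by
      rw [e d hd, e (d + 1) (by omega)]
      apply phi_mono _ hh
      have : Real.log d ≤ Real.log ((d + 1 : ℕ) : ℝ) :=
        Real.log_le_log (by exact_mod_cast hd) (by push_cast; linarith)
      linarith)
  refine this.trans ?_
  have h1 : (1 : ℝ) ≤ t' := by exact_mod_cast ht'
  simp only [zero_add, Nat.cast_one, div_one]
  rw [ell_eq_log _ h1, ell_eq_log _ (h1.trans htt)]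
  have h2 := abs_pow_sub_pow_le (Real.log t) (Real.log t') (k + 1)
  rw [abs_of_nonneg hh, abs_of_nonneg (log_nat_nonneg t), abs_of_nonneg (log_nat_nonneg t'),
    max_eq_left (by linarith), Nat.add_sub_cancel] at h2
  have h3 : Real.log t ^ k ≤ L ^ k := pow_le_pow_left₀ (log_nat_nonneg t) hL _
  have h4 := le_abs_self (Real.log t ^ (k + 1) - Real.log t' ^ (k + 1))
  push_cast at h2
  have h5 : (Real.log t - Real.log t') * (k + 1) * Real.log t ^ k
      ≤ (Real.log t - Real.log t') * (k + 1) * L ^ k := by gcongr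
  nlinarith

lemma mq_sup (k : ℕ) : ∃ C : ℝ, 0 < C ∧ ∀ (q n : ℕ) (L : ℝ), 0 < q → 1 ≤ L → Real.log n ≤ L →
    |mq (k + 1) q n| ≤ C * L ^ k := by
  obtain ⟨C₁, hC₁, h₁⟩ := lamq_bound k
  obtain ⟨C₂, hC₂, h₂⟩ := major2 k
  refine ⟨2 * C₁ + 4 * C₂ + 2 * (k + 1), by positivity, fun q n L hq hL hn => ?_⟩
  have hLk : 1 ≤ L ^ k := one_le_pow₀ hL
  rcases Nat.eq_zero_or_pos n with rfl | hn0
  · simp [mq]; positivity
  have hn' : (0 : ℝ) < n := by exact_mod_cast hn0
  have a1 := h₂ q 0 (n / 2) n n le_rfl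
  simp only [mul_zero, ee_zero, mul_one, abs_zero, zero_mul, add_zero] at a1
  rw [← Complex.ofReal_sum, ← Complex.ofReal_sum, ← Complex.ofReal_sub, Complex.norm_real,
    Real.norm_eq_abs] at a1
  have a2 : |∑ i ∈ Ioc (n / 2) n, (nu q * ppow log (k + 1)) i| ≤ C₁ * n * L ^ k := by
    refine (Finset.abs_sum_le_sum_abs _ _).trans ?_
    refine (Finset.sum_le_sum_of_subset_of_nonneg (Finset.Ioc_subset_Ioc_left (Nat.zero_le _))
      (fun _ _ _ => abs_nonneg _)).trans ((h₁ q n L hq hL hn).trans ?_)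
    exact div_le_self (by positivity) (Real.one_le_sqrt.2 (by exact_mod_cast hq))
  have a3 : |∑ i ∈ Ioc (n / 2) n, (mq (k + 1) q n - mq (k + 1) q i)|
      ≤ ((n - n / 2 : ℕ) : ℝ) * (2 * (k + 1) * L ^ k) := by
    refine (Finset.abs_sum_le_sum_abs _ _).trans ?_
    refine (Finset.sum_le_sum (g := fun _ => 2 * (k + 1) * L ^ k) fun i hi => ?_).trans (by simp)
    obtain ⟨hi1, hi2⟩ := Finset.mem_Ioc.1 hi
    refine (mq_lip k q hq L (by omega) hi2 hn).trans ?_
    have hi0 : (0 : ℝ) < i := by exact_mod_cast (by omega : 0 < i)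
    have b1 : Real.log n ≤ Real.log (2 * i) :=
      Real.log_le_log hn' (by exact_mod_cast (by omega : n ≤ 2 * i))
    rw [Real.log_mul (by norm_num) hi0.ne'] at b1
    have b2 := Real.log_two_lt_d9
    have b3 : 0 ≤ 2 * ((k : ℝ) + 1) * L ^ k := by positivity
    nlinarith
  rw [Finset.sum_sub_distrib, Finset.sum_const, Nat.card_Ioc, nsmul_eq_mul] at a3
  have a4 : (n : ℝ) ≤ 2 * ((n - n / 2 : ℕ) : ℝ) := by exact_mod_cast (by omega : n ≤ 2 * (n - n / 2))
  set c : ℝ := ((n - n / 2 : ℕ) : ℝ)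
  have hc : 0 < c := by linarith
  have a5 : |c * mq (k + 1) q n| ≤ c * (2 * (k + 1) * L ^ k) + C₁ * n * L ^ k + 2 * (C₂ * n) := by
    rw [abs_le] at a1 a2 a3 ⊢
    constructor <;> linarith [a1.1, a1.2, a2.1, a2.2, a3.1, a3.2]
  rw [abs_mul, abs_of_pos hc] at a5
  have a6 : C₁ * n * L ^ k ≤ c * (2 * C₁ * L ^ k) := by
    have : 0 ≤ C₁ * L ^ k := by positivity
    nlinarith
  have a7 : 2 * (C₂ * n) ≤ c * (4 * C₂ * L ^ k) := by
    have : C₂ * n ≤ C₂ * (2 * c) := by gcongr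
    have : c * (4 * C₂) ≤ c * (4 * C₂ * L ^ k) := by
      exact mul_le_mul_of_nonneg_left (le_mul_of_one_le_right (by positivity) hLk) hc.le
    nlinarith
  have a8 : c * |mq (k + 1) q n| ≤ c * ((2 * C₁ + 4 * C₂ + 2 * (k + 1)) * L ^ k) := by nlinarith
  exact le_of_mul_le_mul_left a8 hc

lemma log_le_of_le {n Y : ℕ} {L : ℝ} (h : n ≤ Y) (hY : Real.log Y ≤ L) : Real.log n ≤ L := by
  rcases Nat.eq_zero_or_pos n with rfl | h0
  · simp; exact (log_nat_nonneg Y).trans hY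
  · exact (Real.log_le_log (by exact_mod_cast h0) (by exact_mod_cast h)).trans hY

/-- upper bound in short intervals -/
lemma short (k : ℕ) : ∃ C : ℝ, 0 < C ∧ ∀ (N₁ N₂ Y : ℕ) (L : ℝ), N₂ ≤ Y → 1 ≤ L → Real.log Y ≤ L →
    ∑ n ∈ Ioc N₁ N₂, Lam (k + 1) n ≤ C * (((N₂ - N₁ : ℕ) : ℝ) * L ^ k + Y) := by
  obtain ⟨C₁, hC₁, h₁⟩ := mq_sup k
  obtain ⟨C₂, hC₂, h₂⟩ := major1 k
  refine ⟨C₁ + 2 * C₂, by positivity, fun N₁ N₂ Y L hN hL hY => ?_⟩
  have a1 := h₂ 0 1 0 N₁ N₂ Y one_pos (by simpa using isCoprime_one_right) hN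
  simp only [Int.cast_zero, zero_div, add_zero, mul_zero, ee_zero, mul_one, abs_zero, zero_mul,
    Nat.cast_one, one_mul] at a1
  rw [← Complex.ofReal_sum, ← Complex.ofReal_sum, ← Complex.ofReal_sub, Complex.norm_real,
    Real.norm_eq_abs] at a1
  have a2 : ∑ n ∈ Ioc N₁ N₂, mq (k + 1) 1 n ≤ ((N₂ - N₁ : ℕ) : ℝ) * (C₁ * L ^ k) := by
    refine (Finset.sum_le_sum (g := fun _ => C₁ * L ^ k) fun i hi => ?_).trans (by simp)
    exact (le_abs_self _).trans
      (h₁ 1 i L one_pos hL (log_le_of_le ((Finset.mem_Ioc.1 hi).2.trans hN) hY))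
  have a3 := (abs_le.1 a1).2
  have a4 : 0 ≤ ((N₂ - N₁ : ℕ) : ℝ) * L ^ k := by positivity
  have a5 : (0 : ℝ) ≤ Y := by positivity
  nlinarith

lemma mq_exp (k : ℕ) : ∃ C : ℝ, 0 < C ∧ ∀ (q N₁ N₂ : ℕ) (L β T : ℝ), 0 < q → 1 ≤ L →
    Real.log N₂ ≤ L → 0 < |β| → |β| ≤ 1 / 2 → 0 ≤ T → Real.log N₂ - Real.log (N₁ + 1) ≤ T →
    ‖∑ n ∈ Ioc N₁ N₂, (mq (k + 1) q n : ℂ) * ee (n * β)‖ ≤ 1 / (2 * |β|) * (C * (1 + T) * L ^ k) := by
  obtain ⟨C₁, hC₁, h₁⟩ := mq_sup k
  refine ⟨C₁ + 2 * (k + 1), by positivity, fun q N₁ N₂ L β T hq hL hN hβ0 hβ hT0 hT => ?_⟩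
  simp_rw [mul_comm ((mq (k + 1) q _ : ℝ) : ℂ)]
  apply abel_bound (fun n => ee (n * β)) (fun n => (mq (k + 1) q n : ℂ)) N₁ N₂ _ _ (by positivity)
    (by positivity)
  · intro n _
    have := geom_bound (θ := β) (by rwa [nn_of_abs_le hβ]) N₁ n
    rwa [nn_of_abs_le hβ] at this
  intro hlt
  obtain ⟨M, rfl⟩ : ∃ M, N₂ = M + 1 := ⟨N₂ - 1, by omega⟩
  simp only [Nat.add_sub_cancel]
  have a1 : ‖(mq (k + 1) q (M + 1) : ℂ)‖ ≤ C₁ * L ^ k := by
    rw [Complex.norm_real]; exact h₁ q _ L hq hL hN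
  have a2 : ∑ i ∈ Ioc N₁ M, ‖(mq (k + 1) q (i + 1) : ℂ) - mq (k + 1) q i‖
      ≤ ∑ i ∈ Ioc N₁ M, 2 * (k + 1) * L ^ k * (Real.log ((i + 1 : ℕ) : ℝ) - Real.log i) := by
    refine Finset.sum_le_sum fun i hi => ?_
    obtain ⟨hi1, hi2⟩ := Finset.mem_Ioc.1 hi
    rw [← Complex.ofReal_sub, Complex.norm_real]
    exact mq_lip k q hq L (by omega) (by omega) (log_le_of_le (by omega) hN)
  rw [← Finset.mul_sum, tele_Ioc (fun i => Real.log (i : ℝ)) N₁ M (by omega)] at a2
  push_cast at a2 hT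
  have a3 : 2 * ((k : ℝ) + 1) * L ^ k * (Real.log (M + 1) - Real.log (N₁ + 1))
      ≤ 2 * ((k : ℝ) + 1) * L ^ k * T := by gcongr
  have a4 : 0 ≤ L ^ k := by positivity
  have a5 : 0 ≤ C₁ * T * L ^ k := by positivity
  have a6 : 0 ≤ ((k : ℝ) + 1) * L ^ k := by positivity
  nlinarith

lemma sep_lemma {θ : ℝ} {a : ℤ} {q : ℕ} (hq : 0 < q) (hc : IsCoprime a q)
    (hβ : |θ - a / q| ≤ 1 / (q : ℝ) ^ 2) {h : ℤ} (h0 : h ≠ 0) (h1 : 2 * |h| ≤ q) :
    1 / (2 * (q : ℝ)) ≤ nn (h * θ) := by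
  have hq' : (0 : ℝ) < q := by exact_mod_cast hq
  have h2 : ¬ (q : ℤ) ∣ h * a := by
    intro h2
    have h3 := hc.symm.dvd_of_dvd_mul_right h2
    have h4 := Int.le_of_dvd (abs_pos.2 h0) ((dvd_abs _ _).2 h3)
    have := abs_pos.2 h0
    omega
  have h3 := (nn_div_ge hq h2).trans (nn_le _ (round (h * θ)))
  have h4 : |(h : ℝ)| ≤ q / 2 := by
    have : (2 * |(h : ℝ)|) ≤ q := by exact_mod_cast h1
    linarith
  have h5 : |(h : ℝ) * (θ - a / q)| ≤ 1 / (2 * q) := by
    rw [abs_mul]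
    refine (mul_le_mul h4 hβ (abs_nonneg _) (by positivity)).trans (le_of_eq ?_)
    field_simp
  have e : ((h * a : ℤ) : ℝ) / q - round (h * θ) = (h * θ - round (h * θ)) - h * (θ - a / q) := by
    push_cast; ring
  rw [e] at h3
  have h6 := h3.trans (abs_sub _ _)
  have h7 : 1 / (q : ℝ) = 1 / (2 * q) + 1 / (2 * q) := by field_simp; ring
  unfold nn
  linarith

lemma count_bad {θ : ℝ} {a : ℤ} {q : ℕ} (hq : 0 < q) (hc : IsCoprime a q)
    (hβ : |θ - a / q| ≤ 1 / (q : ℝ) ^ 2) (t : ℕ) {η : ℝ} (hη : 0 ≤ η) :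
    (((Ioc 0 t).filter fun d : ℕ => nn (d * θ) < η).card : ℝ) ≤ (2 * t / q + 1) * (4 * η * q + 1) := by
  have hq' : (0 : ℝ) < q := by exact_mod_cast hq
  set m := q / 2 + 1 with hm
  have hm0 : 0 < m := by omega
  have h1 : ((Ioc 0 t).filter fun d : ℕ => nn (d * θ) < η).card
      ≤ (range (t / m + 1) ×ˢ range (⌊4 * η * q⌋₊ + 1)).card := by
    apply Finset.card_le_card_of_injOn
      (fun d : ℕ => (d / m, ⌊((d * θ - round (d * θ)) + η) * (2 * q)⌋₊))
    · intro d hd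
      simp only [Finset.coe_filter, Finset.mem_Ioc, Set.mem_ofPred_eq] at hd
      simp only [Finset.coe_product, Finset.coe_range, Set.mem_prod, Set.mem_Iio]
      refine ⟨Nat.lt_succ_of_le (Nat.div_le_div_right hd.1.2), Nat.lt_succ_of_le ?_⟩
      apply Nat.floor_le_floor
      have := (abs_lt.1 hd.2).2
      nlinarith
    · intro d hd d' hd' he
      simp only [Finset.coe_filter, Finset.mem_Ioc, Set.mem_ofPred_eq] at hd hd'
      simp only [Prod.mk.injEq] at he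
      obtain ⟨e1, e2⟩ := he
      by_contra hne
      have b1 : 2 * |(d : ℤ) - d'| ≤ q := by
        have c1 := Nat.div_add_mod d m
        have c2 := Nat.div_add_mod d' m
        have c3 := Nat.mod_lt d hm0
        have c4 := Nat.mod_lt d' hm0
        rw [e1] at c1
        rcases abs_cases ((d : ℤ) - d') with c | c <;> omega
      have b2 := (sep_lemma hq hc hβ (h := (d : ℤ) - d') (by omega) b1).trans
        (nn_le _ (round (d * θ) - round (d' * θ)))
      have p1 : 0 ≤ ((d * θ - round (d * θ)) + η) * (2 * q) := by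
        have := (abs_lt.1 hd.2).1
        exact mul_nonneg (by linarith) (by positivity)
      have p2 : 0 ≤ ((d' * θ - round (d' * θ)) + η) * (2 * q) := by
        have := (abs_lt.1 hd'.2).1
        exact mul_nonneg (by linarith) (by positivity)
      have f1 := Nat.floor_le p1
      have f2 := Nat.floor_le p2
      have f3 := Nat.lt_floor_add_one (((d * θ - round (d * θ)) + η) * (2 * q))
      have f4 := Nat.lt_floor_add_one (((d' * θ - round (d' * θ)) + η) * (2 * q))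
      rw [e2] at f1 f3
      push_cast at b2
      rw [div_le_iff₀ (by positivity), ← abs_of_pos (by positivity : (0 : ℝ) < 2 * q),
        ← abs_mul, le_abs] at b2
      rcases b2 with b2 | b2 <;> nlinarith
  rw [Finset.card_product, Finset.card_range, Finset.card_range] at h1
  have h2 : ((t / m : ℕ) : ℝ) ≤ 2 * t / q := by
    refine Nat.cast_div_le.trans ?_
    rw [div_le_div_iff₀ (by exact_mod_cast hm0) hq']
    have : (q : ℝ) ≤ 2 * m := by exact_mod_cast (by omega : q ≤ 2 * m)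
    nlinarith [(Nat.cast_nonneg t : (0 : ℝ) ≤ t)]
  have h3 : (⌊4 * η * q⌋₊ : ℝ) ≤ 4 * η * q := Nat.floor_le (by positivity)
  calc _ ≤ (((t / m + 1) * (⌊4 * η * q⌋₊ + 1) : ℕ) : ℝ) := by exact_mod_cast h1
    _ ≤ _ := by push_cast; gcongr

lemma minor_sum {θ : ℝ} {a : ℤ} {q : ℕ} (hc : IsCoprime a q)
    (hβ : |θ - a / q| ≤ 1 / (q : ℝ) ^ 2) {Y R R' : ℝ} (hR' : 1 ≤ R') (hR : 0 < R) (hY : 0 < Y)
    (hq1 : R < q) (hq2 : q ≤ Y / R) (D : ℕ) (hD : D ≤ Y / R) (T : ℕ → ℝ)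
    (hT1 : ∀ d, 0 < d → T d ≤ Y / d) (hT2 : ∀ d : ℕ, 0 < d → 0 < nn (d * θ) → T d ≤ 1 / nn (d * θ)) :
    ∑ d ∈ Ioc 0 D, T d ≤ Y * (1 + Real.log D) * (1 / R' + 16 * R' / R) := by
  have hq' : (0 : ℝ) < q := by linarith
  have hq : 0 < q := by exact_mod_cast hq'
  set b : ℕ → ℝ := fun d => if nn (d * θ) < R' * d / Y then 1 else 0 with hb
  have h1 : ∀ d ∈ Ioc 0 D, T d ≤ Y / R' * (1 / d) + Y * (b d * (1 / d)) := by
    intro d hd
    have hd0 := (Finset.mem_Ioc.1 hd).1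
    have hd' : (0 : ℝ) < d := by exact_mod_cast hd0
    simp only [hb]
    split_ifs with h
    · have := hT1 d hd0
      have h2 : 0 ≤ Y / R' * (1 / d) := by positivity
      have h3 : Y * (1 * (1 / (d : ℝ))) = Y / d := by ring
      linarith
    · push Not at h
      have h2 : 0 < R' * d / Y := by positivity
      refine (hT2 d hd0 (by linarith)).trans ?_
      refine (one_div_le_one_div_of_le h2 h).trans (le_of_eq ?_)
      field_simp; ring
  have h2 : ∀ t, t ≤ D → ∑ d ∈ Ioc 0 t, b d ≤ 16 * R' / R * t := by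
    intro t ht
    have ht' : (t : ℝ) ≤ Y / R := le_trans (by exact_mod_cast ht) hD
    have ht0 : (0 : ℝ) ≤ t := by positivity
    rcases lt_or_ge (t : ℝ) (R / (2 * R')) with h | h
    · rw [Finset.sum_eq_zero]
      · positivity
      intro d hd
      obtain ⟨hd0, hdt⟩ := Finset.mem_Ioc.1 hd
      have hdt' : (d : ℝ) ≤ t := by exact_mod_cast hdt
      simp only [hb]
      rw [if_neg]
      push Not
      rw [lt_div_iff₀ (by positivity)] at h
      have c1 : 2 * |(d : ℤ)| ≤ q := by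
        have : (2 * d : ℝ) ≤ q := by nlinarith
        rw [abs_of_nonneg (by positivity)]; exact_mod_cast this
      have c2 := sep_lemma hq hc hβ (h := (d : ℤ)) (by omega) c1
      refine le_trans ?_ (by exact_mod_cast c2)
      rw [div_le_div_iff₀ hY (by positivity)]
      rw [le_div_iff₀ hR] at hq2
      have c3 : R' * d * 2 ≤ R := by nlinarith
      push_cast
      nlinarith
    · have c1 : ∑ d ∈ Ioc 0 t, b d
          ≤ (((Ioc 0 t).filter fun d : ℕ => nn (d * θ) < R' * t / Y).card : ℝ) := by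
        rw [Finset.card_filter]; push_cast
        refine Finset.sum_le_sum fun d hd => ?_
        have hdt' : (d : ℝ) ≤ t := by exact_mod_cast (Finset.mem_Ioc.1 hd).2
        simp only [hb]
        split_ifs with k1 k2
        · exact le_rfl
        · exact absurd (k1.trans_le (by gcongr)) k2
        · norm_num
        · exact le_rfl
      refine c1.trans ((count_bad hq hc hβ t (by positivity)).trans ?_)
      have d1 : (t : ℝ) / Y ≤ 1 / R := by
        rw [div_le_div_iff₀ hY hR]; rw [le_div_iff₀ hR] at ht'; linarith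
      have d2 : (q : ℝ) / Y ≤ 1 / R := by
        rw [div_le_div_iff₀ hY hR]; rw [le_div_iff₀ hR] at hq2; linarith
      have d3 : 1 / (q : ℝ) ≤ R' * (1 / R) := by
        refine (one_div_le_one_div_of_le hR hq1.le).trans ?_
        exact le_mul_of_one_le_left (by positivity) hR'
      have d4 : 1 ≤ 2 * R' * (1 / R) * t := by
        rw [div_le_iff₀ (by positivity)] at h
        rw [mul_one_div, div_mul_eq_mul_div, le_div_iff₀ hR]; linarith
      have e : (2 * (t : ℝ) / q + 1) * (4 * (R' * t / Y) * q + 1)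
          = 8 * R' * t * (t / Y) + 2 * t * (1 / q) + 4 * R' * t * (q / Y) + 1 := by
        field_simp; ring
      rw [e]
      have d5 : 8 * R' * t * (t / Y) ≤ 8 * R' * t * (1 / R) := by gcongr
      have d6 : 2 * t * (1 / (q : ℝ)) ≤ 2 * t * (R' * (1 / R)) := by gcongr
      have d7 : 4 * R' * t * (q / Y) ≤ 4 * R' * t * (1 / R) := by gcongr
      have e2 : 16 * R' / R * t = 16 * R' * (1 / R) * t := by ring
      rw [e2]; linarith
  have h3 := abel_onesided b (fun d => 1 / (d : ℝ)) (16 * R' / R) D h2 (fun _ => by positivity)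
    (fun i hi => one_div_le_one_div_of_le (by exact_mod_cast hi) (by push_cast; linarith))
  refine (Finset.sum_le_sum h1).trans ?_
  rw [Finset.sum_add_distrib, ← Finset.mul_sum, ← Finset.mul_sum]
  have h4 := sum_inv_le D
  have h5 : 16 * R' / R * ∑ d ∈ Ioc 0 D, 1 / (d : ℝ) ≤ 16 * R' / R * (1 + Real.log D) := by gcongr
  have h6 : Y / R' * ∑ d ∈ Ioc 0 D, 1 / (d : ℝ) ≤ Y / R' * (1 + Real.log D) := by gcongr
  have h7 := mul_le_mul_of_nonneg_left (h3.trans h5) hY.le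
  calc _ ≤ Y / R' * (1 + Real.log D) + Y * (16 * R' / R * (1 + Real.log D)) := add_le_add h6 h7
    _ = _ := by ring

end Pool.Agent.P.MP_e86632_nt
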