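import Pool.Agent.P.MP_e86632_nt.TypeI

/-! The exponential sum of `Lam 8` is small off the major arcs. -/

namespace Pool.Agent.P.MP_e86632_nt

open Finset Real ArithmeticFunction Filter
open scoped ArithmeticFunction.zeta ArithmeticFunction.Moebius

lemma minor_bound (k : ℕ) : ∃ C : ℝ, 0 < C ∧ ∀ (θ : ℝ) (a : ℤ) (q Y y : ℕ) (R R' L : ℝ),
    IsCoprime a q → |θ - a / q| ≤ 1 / (q : ℝ) ^ 2 → 1 ≤ R' → 1 ≤ R → R < q → q ≤ Y / R → y ≤ Y →
    1 ≤ L → Real.log Y ≤ L →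
    ‖∑ n ∈ Ioc 0 y, (Lam (k + 1) n : ℂ) * ee (n * θ)‖
      ≤ L ^ (k + 1) * (Y * (1 + L) * (1 / R' + 16 * R' / R)) + R * (C * Y) := by
  obtain ⟨C, hC, h⟩ := sum_log_pow_le (k + 1)
  refine ⟨C, hC, fun θ a q Y y R R' L hc hβ hR' hR hq1 hq2 hy hL hY => ?_⟩
  have hY0 : (0 : ℝ) < Y := by
    have : (0 : ℝ) < Y / R := by linarith
    exact (div_pos_iff_of_pos_right (by linarith)).1 this
  set inner : ℕ → ℂ := fun d => ∑ m ∈ Ioc 0 (y / d), ee (m * (d * θ)) * (ell (k + 1) m * ee (m * 0))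
    with hinner
  have e : ∑ n ∈ Ioc 0 y, (Lam (k + 1) n : ℂ) * ee (n * θ) = ∑ d ∈ Ioc 0 Y, (μ d : ℂ) * inner d := by
    have : ∀ d ∈ Ioc 0 Y, (μ d : ℂ) * inner d = ∑ n ∈ Ioc 0 y,
        (μ d : ℂ) * (if d ∣ n then (ell (k + 1) ((n : ℝ) / d) : ℂ) * ee (n * θ) else 0) := by
      intro d hd
      have hd0 := (Finset.mem_Ioc.1 hd).1
      have hd' : (0 : ℝ) < d := by exact_mod_cast hd0
      rw [← Finset.mul_sum, sum_multiples (fun n => (ell (k + 1) ((n : ℝ) / d) : ℂ) * ee (n * θ)) hd0,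
        Nat.zero_div]
      congr 1
      refine Finset.sum_congr rfl fun m _ => ?_
      have e1 : (((m * d : ℕ) : ℝ) / d) = m := by push_cast; field_simp
      have e2 : (((m * d : ℕ) : ℝ) * θ) = m * (d * θ) := by push_cast; ring
      rw [e1, e2]; simp [mul_comm]
    rw [Finset.sum_congr rfl this, Finset.sum_comm]
    refine Finset.sum_congr rfl fun n hn => ?_
    obtain ⟨h1, h2⟩ := Finset.mem_Ioc.1 hn
    rw [Lam_eq, conv_logpow_apply _ k h1 (h2.trans hy)]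
    push_cast
    rw [Finset.sum_mul]
    refine Finset.sum_congr rfl fun d _ => ?_
    simp only [intCoe_apply]
    split_ifs <;> push_cast <;> ring
  have triv : ∀ (d : ℕ) (G : ℝ), 0 ≤ G → (∀ m, 0 < m → m ≤ y / d → ell (k + 1) m ≤ G) →
      ‖inner d‖ ≤ Y / d * G := by
    intro d G hG hm
    refine (norm_sum_le _ _).trans ?_
    refine (Finset.sum_le_sum (g := fun _ => G) fun m hm' => ?_).trans ?_
    · rw [norm_mul, norm_mul, norm_ee, norm_ee, one_mul, mul_one, Complex.norm_real,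
        Real.norm_eq_abs, abs_of_nonneg (ell_nonneg _ _)]
      exact hm m (Finset.mem_Ioc.1 hm').1 (Finset.mem_Ioc.1 hm').2
    · simp only [Finset.sum_const, Nat.card_Ioc, Nat.sub_zero, nsmul_eq_mul]
      refine mul_le_mul_of_nonneg_right (Nat.cast_div_le.trans ?_) hG
      gcongr
  have hell : ∀ m, m ≤ Y → ell (k + 1) m ≤ L ^ (k + 1) := by
    intro m hm
    unfold ell
    rw [Real.log_of_nat_eq_posLog]
    exact pow_le_pow_left₀ (log_nat_nonneg m) (log_le_of_le hm hY) _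
  set D := ⌊(Y : ℝ) / R⌋₊ with hD
  have hD1 : (D : ℝ) ≤ Y / R := Nat.floor_le (by positivity)
  have hD2 : D ≤ Y := by
    have : (D : ℝ) ≤ Y := hD1.trans (div_le_self hY0.le hR)
    exact_mod_cast this
  have hLk : 0 < L ^ (k + 1) := by positivity
  have s1 := minor_sum hc hβ hR' (by linarith) hY0 hq1 hq2 D hD1 (fun d => ‖inner d‖ / L ^ (k + 1))
    (fun d hd => by
      rw [div_le_iff₀ hLk]
      exact triv d _ hLk.le fun m _ hm => hell m (hm.trans ((Nat.div_le_self _ _).trans hy)))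
    (fun d hd hnn => by
      rw [div_le_iff₀ hLk]
      have := abel_mono (fun m => ee (m * (d * θ))) (fun m => ell (k + 1) m) 0 0 (y / d)
        (1 / (2 * nn (d * θ))) (L ^ (k + 1)) (by positivity) hLk.le (fun n _ => geom_bound hnn 0 n)
        (fun _ => ell_nonneg _ _) (fun i _ _ => ell_mono _ (by positivity) (by push_cast; linarith))
        (fun m hm => hell m (hm.trans ((Nat.div_le_self _ _).trans hy)))
      refine this.trans (le_of_eq ?_)
      simp only [abs_zero, mul_zero, zero_mul, add_zero]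
      field_simp)
  rw [← Finset.sum_div, div_le_iff₀ hLk] at s1
  have s2 : ∑ d ∈ Ioc D Y, ‖inner d‖ ≤ R * (C * Y) := by
    refine le_trans ?_ (mul_le_mul_of_nonneg_left (h Y) (by linarith))
    rw [Finset.mul_sum]
    refine le_trans (Finset.sum_le_sum fun d hd => ?_) (Finset.sum_le_sum_of_subset_of_nonneg
      (Finset.Ioc_subset_Ioc_left (Nat.zero_le D)) fun d hd _ => ?_)
    · obtain ⟨h1, h2⟩ := Finset.mem_Ioc.1 hd
      have hd' : (0 : ℝ) < d := by exact_mod_cast (by omega : 0 < d)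
      have hY1 : 1 ≤ (Y : ℝ) / d := by rw [le_div_iff₀ hd', one_mul]; exact_mod_cast h2
      have hG := pow_nonneg (Real.log_nonneg hY1) (k + 1)
      refine (triv d _ hG fun m _ hm => ?_).trans (mul_le_mul_of_nonneg_right ?_ hG)
      · rw [← ell_eq_log _ hY1]
        refine ell_mono _ (by positivity) ?_
        have : (m : ℝ) ≤ ((y / d : ℕ) : ℝ) := by exact_mod_cast hm
        refine this.trans (Nat.cast_div_le.trans ?_)
        gcongr
      · have h3 : (Y : ℝ) / R < d := Nat.lt_of_floor_lt h1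
        rw [div_lt_iff₀ (by linarith)] at h3
        rw [div_le_iff₀ hd']; linarith
    · obtain ⟨h1, h2⟩ := Finset.mem_Ioc.1 hd
      have hd' : (0 : ℝ) < d := by exact_mod_cast h1
      have hY1 : 1 ≤ (Y : ℝ) / d := by rw [le_div_iff₀ hd', one_mul]; exact_mod_cast h2
      exact mul_nonneg (by linarith) (pow_nonneg (Real.log_nonneg hY1) _)
  rw [e]
  refine (norm_sum_le _ _).trans ?_
  have s3 : ∑ d ∈ Ioc 0 Y, ‖(μ d : ℂ) * inner d‖ ≤ ∑ d ∈ Ioc 0 Y, ‖inner d‖ := by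
    refine Finset.sum_le_sum fun d _ => ?_
    rw [norm_mul]
    refine mul_le_of_le_one_left (norm_nonneg _) ?_
    rw [Complex.norm_intCast]; exact abs_mu_le d
  rw [← Finset.sum_Ioc_consecutive (fun d => ‖inner d‖) (Nat.zero_le D) hD2] at s3
  have s4 : (Y : ℝ) * (1 + Real.log D) * (1 / R' + 16 * R' / R) * L ^ (k + 1)
      ≤ Y * (1 + L) * (1 / R' + 16 * R' / R) * L ^ (k + 1) := by
    have := log_le_of_le hD2 hY
    gcongr
  linarith

/-- major arcs -/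
def Maj (Q : ℕ) (Y θ : ℝ) : Prop := ∃ q : ℕ, 0 < q ∧ q ≤ Q ∧ ∃ a : ℤ, |q * θ - a| ≤ Q / Y

lemma ev_log (c : ℝ) : ∀ᶠ Y : ℕ in atTop, c ≤ Real.log Y :=
  (Real.tendsto_log_atTop.comp tendsto_natCast_atTop_atTop).eventually_ge_atTop c

lemma ev_log_pow (n : ℕ) {c : ℝ} (hc : 0 < c) : ∀ᶠ Y : ℕ in atTop, Real.log Y ^ n ≤ c * Y := by
  have := (Real.isLittleO_pow_log_id_atTop (n := n)).bound hc
  filter_upwards [tendsto_natCast_atTop_atTop.eventually this] with Y hY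
  simp only [id, Real.norm_eq_abs, Nat.abs_cast] at hY
  exact (le_abs_self _).trans hY

lemma norm_sum_ee_le (f : ℕ → ℝ) (hf : ∀ n, 0 ≤ f n) (s : Finset ℕ) (θ : ℝ) :
    ‖∑ n ∈ s, (f n : ℂ) * ee (n * θ)‖ ≤ ∑ n ∈ s, f n := by
  refine (norm_sum_le _ _).trans (le_of_eq (Finset.sum_congr rfl fun n _ => ?_))
  rw [norm_mul, norm_ee, mul_one, Complex.norm_real, Real.norm_eq_abs, abs_of_nonneg (hf n)]

theorem typeI {ε : ℝ} (hε : 0 < ε) : ∃ Q : ℕ, 0 < Q ∧ ∀ᶠ Y : ℕ in atTop, ∀ θ : ℝ, ¬ Maj Q Y θ →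
    ∀ y, y ≤ Y → ‖∑ n ∈ Ioc 0 y, (Lam 8 n : ℂ) * ee (n * θ)‖ ≤ ε * Y * Real.log Y ^ 7 := by
  obtain ⟨C₀, hC₀, h₀⟩ := minor_bound 7
  obtain ⟨C₁, hC₁, h₁⟩ := major1 7
  obtain ⟨C₂, hC₂, h₂⟩ := major2 7
  obtain ⟨C₃, hC₃, h₃⟩ := lamq_bound 7
  obtain ⟨C₄, hC₄, h₄⟩ := mq_exp 7
  obtain ⟨C₅, hC₅, h₅⟩ := cheb 7
  obtain ⟨Q₁, hQ₁⟩ := exists_nat_ge ((2 * C₃ / ε) ^ 2 + 1)
  set δ : ℝ := min 1 (ε / (3 * C₅)) with hδ
  have hδ0 : 0 < δ := lt_min one_pos (by positivity)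
  have hδ1 : δ ≤ 1 := min_le_left _ _
  have hδ2 : C₅ * δ ≤ ε / 3 := by
    have : δ ≤ ε / (3 * C₅) := min_le_right _ _
    rw [le_div_iff₀ (by positivity)] at this; linarith
  set T : ℝ := -Real.log δ with hT
  have hT0 : 0 ≤ T := neg_nonneg.2 (Real.log_nonpos hδ0.le hδ1)
  obtain ⟨Q, hQ⟩ := exists_nat_ge (Q₁ + 1 + 3 * Q₁ * (C₄ * (1 + T)) / ε)
  have hQ₁0 : (0 : ℝ) < Q₁ := lt_of_lt_of_le (by positivity) hQ₁
  have hQQ : (Q₁ : ℝ) + 1 ≤ Q := le_trans (le_add_of_nonneg_right (by positivity)) hQ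
  refine ⟨Q, by exact_mod_cast (by linarith : (0 : ℝ) < Q), ?_⟩
  filter_upwards [ev_log 1, ev_log (3 * (34 + C₀ + 9 * C₁ + 9 * C₂) / ε),
    ev_log_pow 6 (by norm_num : (0 : ℝ) < 1 / 2), eventually_gt_atTop 0] with Y hL hL2 hY6 hY0 θ hθ y hy
  set L := Real.log Y with hLdef
  have hY0' : (0 : ℝ) < Y := by exact_mod_cast hY0
  set R := L ^ 6 with hR
  have hR1 : 1 ≤ R := one_le_pow₀ hL
  have hbig : (34 + C₀ + 9 * C₁ + 9 * C₂) * (R * Y) ≤ ε / 3 * Y * L ^ 7 := by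
    rw [div_le_iff₀ hε] at hL2
    have : 0 ≤ R * Y := by positivity
    have e : ε / 3 * Y * L ^ 7 = L * ε / 3 * (R * Y) := by rw [hR]; ring
    rw [e]; exact mul_le_mul_of_nonneg_right (by linarith) this
  have hYL : 0 ≤ Y * L ^ 7 := by positivity
  have hRY : 0 ≤ R * Y := by positivity
  set D := ⌊(Y : ℝ) / R⌋₊ with hD
  have hD1 : (D : ℝ) ≤ Y / R := Nat.floor_le (by positivity)
  have hD0 : 0 < D := Nat.floor_pos.2 (by rw [le_div_iff₀ (by linarith)]; linarith)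
  have hD2 : (Y : ℝ) / R < D + 1 := Nat.lt_floor_add_one _
  obtain ⟨r, hr1, hr2⟩ := Real.exists_rat_abs_sub_le_and_den_le θ hD0
  set q := r.den with hqdef
  set a := r.num with hadef
  have hq : 0 < q := r.pos
  have hq' : (0 : ℝ) < q := by exact_mod_cast hq
  have hq1' : (1 : ℝ) ≤ q := by exact_mod_cast hq
  have hc : IsCoprime a q := by
    rw [Int.isCoprime_iff_gcd_eq_one]; exact r.reduced
  have hr : (r : ℝ) = a / q := by rw [Rat.cast_def]
  rw [hr] at hr1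
  have hqD : (q : ℝ) ≤ D := by exact_mod_cast hr2
  set β := θ - a / q with hβ
  have hθe : θ = a / q + β := by rw [hβ]; ring
  have hβ1 : q * |β| * Y ≤ R := by
    rw [le_div_iff₀ (by positivity)] at hr1
    rw [div_lt_iff₀ (by linarith)] at hD2
    have : 0 ≤ q * |β| := by positivity
    nlinarith
  rcases lt_or_ge R q with hRq | hRq
  · have hβ2 : |θ - a / q| ≤ 1 / (q : ℝ) ^ 2 := by
      refine hr1.trans (one_div_le_one_div_of_le (by positivity) ?_)
      nlinarith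
    refine (h₀ θ a q Y y R (L ^ 3) L hc hβ2 (one_le_pow₀ hL) hR1 hRq (hqD.trans hD1) hy hL
      le_rfl).trans ?_
    have e : L ^ (7 + 1) * (Y * (1 + L) * (1 / L ^ 3 + 16 * L ^ 3 / R))
        = 17 * (1 + L) * L ^ 5 * Y := by rw [hR]; field_simp; ring
    rw [e]
    have : 17 * (1 + L) * L ^ 5 * Y ≤ 34 * (R * Y) := by
      have : 0 ≤ L ^ 5 * Y := by positivity
      rw [hR]; nlinarith
    nlinarith
  have hpi : π ≤ 7 / 2 := by have := Real.pi_lt_d2; linarith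
  have herr : q * (2 + 2 * π * |β| * Y) ≤ 9 * R := by
    have : 0 ≤ q * |β| * Y := by positivity
    nlinarith
  have herr2 : (2 + 2 * π * |β| * Y) ≤ 9 * R :=
    le_trans (le_mul_of_one_le_left (by positivity) hq1') herr
  have m1 : ∀ N₁, ‖∑ n ∈ Ioc N₁ y, (Lam 8 n : ℂ) * ee (n * θ)
      - ∑ n ∈ Ioc N₁ y, (mq 8 q n : ℂ) * ee (n * β)‖ ≤ 9 * C₁ * (R * Y) := by
    intro N₁
    have := h₁ a q β N₁ y Y hq hc hy
    rw [← hθe] at this
    refine this.trans ((mul_le_mul_of_nonneg_right herr (by positivity)).trans (le_of_eq ?_))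
    ring
  rcases lt_or_ge Q₁ q with hQq | hQq
  · have m2 : ‖∑ n ∈ Ioc 0 y, ((nu q * ppow log 8) n : ℂ) * ee (n * β)
        - ∑ n ∈ Ioc 0 y, (mq 8 q n : ℂ) * ee (n * β)‖ ≤ 9 * C₂ * (R * Y) := by
      refine (h₂ q β 0 y Y hy).trans
        ((mul_le_mul_of_nonneg_right herr2 (by positivity)).trans (le_of_eq ?_))
      ring
    have m3 : ‖∑ n ∈ Ioc 0 y, ((nu q * ppow log 8) n : ℂ) * ee (n * β)‖ ≤ ε / 2 * Y * L ^ 7 := by
      refine (norm_sum_le _ _).trans ?_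
      have : ∀ n ∈ Ioc 0 y, ‖((nu q * ppow log 8) n : ℂ) * ee (n * β)‖ = |(nu q * ppow log 8) n| := by
        intro n _; rw [norm_mul, norm_ee, mul_one, Complex.norm_real, Real.norm_eq_abs]
      rw [Finset.sum_congr rfl this]
      refine (Finset.sum_le_sum_of_subset_of_nonneg (Finset.Ioc_subset_Ioc_right hy)
        fun _ _ _ => abs_nonneg _).trans ((h₃ q Y L hq hL le_rfl).trans ?_)
      have b1 : 2 * C₃ / ε ≤ √(q : ℝ) := by
        apply Real.le_sqrt_of_sq_le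
        have : (Q₁ : ℝ) ≤ q := by exact_mod_cast hQq.le
        linarith
      rw [div_le_iff₀ hε] at b1
      rw [div_le_iff₀ (Real.sqrt_pos.2 hq')]
      nlinarith
    have := norm_add₃_le (a := ∑ n ∈ Ioc 0 y, (Lam 8 n : ℂ) * ee (n * θ)
      - ∑ n ∈ Ioc 0 y, (mq 8 q n : ℂ) * ee (n * β))
      (b := -(∑ n ∈ Ioc 0 y, ((nu q * ppow log 8) n : ℂ) * ee (n * β)
        - ∑ n ∈ Ioc 0 y, (mq 8 q n : ℂ) * ee (n * β)))
      (c := ∑ n ∈ Ioc 0 y, ((nu q * ppow log 8) n : ℂ) * ee (n * β))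
    rw [norm_neg] at this
    simp only [neg_sub, sub_add_sub_cancel, sub_add_cancel] at this
    have := m1 0
    nlinarith
  · have hQq' : (q : ℝ) ≤ Q₁ := by exact_mod_cast hQq
    have b1 : (Q : ℝ) / Y < q * |β| := by
      by_contra hcon
      push Not at hcon
      refine hθ ⟨q, hq, by exact_mod_cast (by linarith : (q : ℝ) ≤ Q), a, ?_⟩
      have : (q : ℝ) * θ - a = q * β := by rw [hβ]; field_simp
      rwa [this, abs_mul, abs_of_pos hq']
    have hQ0 : (0 : ℝ) < Q := by linarith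
    have b2 : 0 < |β| := by
      have : 0 < (Q : ℝ) / Y := by positivity
      exact pos_of_mul_pos_left (by linarith : 0 < |β| * q) hq'.le
    have b3 : |β| ≤ 1 / 2 := by
      have : |β| * Y ≤ q * |β| * Y := by
        have := le_mul_of_one_le_left (abs_nonneg β) hq1'
        gcongr
      have : |β| * Y ≤ 1 / 2 * Y := by linarith
      exact le_of_mul_le_mul_right this hY0'
    set N₁ := ⌊δ * Y⌋₊ with hN₁
    have hN1 : (N₁ : ℝ) ≤ δ * Y := Nat.floor_le (by positivity)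
    have hN2 : δ * Y < N₁ + 1 := Nat.lt_floor_add_one _
    have triv : ∀ z, z ≤ N₁ → ‖∑ n ∈ Ioc 0 z, (Lam 8 n : ℂ) * ee (n * θ)‖ ≤ ε / 3 * Y * L ^ 7 := by
      intro z hz
      have hz' : (z : ℝ) ≤ δ * Y := le_trans (by exact_mod_cast hz) hN1
      have hzY : z ≤ Y := by
        have : (z : ℝ) ≤ Y := hz'.trans (mul_le_of_le_one_left hY0'.le hδ1)
        exact_mod_cast this
      refine (norm_sum_ee_le _ (Lam_nonneg 8) _ _).trans
        ((h₅ z L hL (log_le_of_le hzY le_rfl)).trans ?_)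
      have : C₅ * z ≤ ε / 3 * Y := by nlinarith
      exact mul_le_mul_of_nonneg_right this (by positivity)
    rcases le_or_gt y N₁ with hyN | hyN
    · have := triv y hyN; nlinarith
    rw [← Finset.sum_Ioc_consecutive _ (Nat.zero_le N₁) hyN.le]
    have c1 := triv N₁ le_rfl
    have c2 := m1 N₁
    have c3 := h₄ q N₁ y L β T hq hL (log_le_of_le hy le_rfl) b2 b3 hT0 (by
      have d1 : Real.log (δ * Y) ≤ Real.log (N₁ + 1) := Real.log_le_log (by positivity) hN2.le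
      rw [Real.log_mul hδ0.ne' hY0'.ne'] at d1
      have := log_le_of_le hy (le_refl L)
      linarith)
    have c4 : 1 / (2 * |β|) * (C₄ * (1 + T) * L ^ 7) ≤ ε / 3 * Y * L ^ 7 := by
      rw [← mul_assoc]
      refine mul_le_mul_of_nonneg_right ?_ (by positivity)
      rw [div_mul_eq_mul_div, one_mul, div_le_iff₀ (by positivity)]
      rw [div_lt_iff₀ hY0'] at b1
      have d1 : 3 * Q₁ * (C₄ * (1 + T)) / ε ≤ Q := le_trans (le_add_of_nonneg_left (by positivity)) hQ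
      rw [div_le_iff₀ hε] at d1
      have d2 : (Q : ℝ) ≤ Q₁ * (|β| * Y) := by
        have : q * |β| * Y ≤ Q₁ * |β| * Y := by gcongr
        linarith
      have d3 : Q₁ * (3 * (C₄ * (1 + T))) ≤ Q₁ * (|β| * Y * ε) := by nlinarith
      have d4 := le_of_mul_le_mul_left d3 hQ₁0
      have : 0 ≤ |β| * Y * ε := by positivity
      nlinarith
    have c5 := norm_add₃_le (a := ∑ n ∈ Ioc 0 N₁, (Lam 8 n : ℂ) * ee (n * θ))
      (b := ∑ n ∈ Ioc N₁ y, (Lam 8 n : ℂ) * ee (n * θ)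
        - ∑ n ∈ Ioc N₁ y, (mq 8 q n : ℂ) * ee (n * β))
      (c := ∑ n ∈ Ioc N₁ y, (mq 8 q n : ℂ) * ee (n * β))
    rw [add_assoc, sub_add_cancel] at c5
    nlinarith

end Pool.Agent.P.MP_e86632_nt
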