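import Pool.Agent.P.MP_e86632_nt.Bohr

/-! Type II sums and the exponential sum over primes off the major arcs. -/

namespace Pool.Agent.P.MP_e86632_nt

open Finset Real ArithmeticFunction Filter

noncomputable def Zf (δ : ℝ) (x : ℕ) : ℕ := ⌊Real.exp (δ * Real.log x)⌋₊

lemma log_of_gt_Zf {δ : ℝ} {x n : ℕ} (h : Zf δ x < n) : δ * Real.log x ≤ Real.log n := by
  have h1 : Real.exp (δ * Real.log x) < n := Nat.lt_of_floor_lt h
  rw [Real.le_log_iff_exp_le (lt_trans (Real.exp_pos _) h1)]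
  exact h1.le

lemma log_Zf_le {δ : ℝ} (hδ : 0 ≤ δ) (x : ℕ) : Real.log (Zf δ x) ≤ δ * Real.log x := by
  rcases Nat.eq_zero_or_pos (Zf δ x) with h | h
  · rw [h]; simp; exact mul_nonneg hδ (log_nat_nonneg x)
  · rw [Real.log_le_iff_le_exp (by exact_mod_cast h)]
    exact Nat.floor_le (Real.exp_pos _).le

lemma ev_Zf {δ : ℝ} (hδ : 0 < δ) (Z : ℕ) : ∀ᶠ x : ℕ in atTop, Z ≤ Zf δ x := by
  filter_upwards [ev_log (Z / δ)] with x hx
  apply Nat.le_floor
  rw [div_le_iff₀ hδ] at hx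
  have := Real.add_one_le_exp (δ * Real.log x)
  linarith

lemma Maj_mul {Q₁ Q₂ r : ℕ} {Y θ : ℝ} (hY : 0 < Y) (hr : 0 < r) (hr1 : r ≤ Q₁)
    (h : Maj Q₂ Y (r * θ)) : Maj (Q₁ * Q₂) Y θ := by
  obtain ⟨q, hq, hqQ, a, ha⟩ := h
  refine ⟨r * q, by positivity, Nat.mul_le_mul hr1 hqQ, a, ?_⟩
  push_cast
  rw [show (r : ℝ) * q * θ = q * (r * θ) by ring]
  refine ha.trans (div_le_div_of_nonneg_right ?_ hY.le)
  have : (1 : ℝ) ≤ Q₁ := by exact_mod_cast hr.trans_le hr1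
  exact le_mul_of_one_le_left (by positivity) this

lemma Maj_mono {Q₁ Q₂ : ℕ} {Y θ : ℝ} (hY : 0 ≤ Y) (hQ : Q₁ ≤ Q₂) (h : Maj Q₁ Y θ) : Maj Q₂ Y θ := by
  obtain ⟨q, hq, hqQ, a, ha⟩ := h
  exact ⟨q, hq, hqQ.trans hQ, a, ha.trans (div_le_div_of_nonneg_right (by exact_mod_cast hQ) hY)⟩

theorem block {ε δ : ℝ} (hε : 0 < ε) (hδ : 0 < δ) (j i : ℕ) (hij : j + i = 7) :
    ∃ Q : ℕ, 0 < Q ∧ ∀ᶠ x : ℕ in atTop, ∀ θ : ℝ, ¬ Maj Q x θ → ∀ y, y ≤ x → ∀ M : ℕ,
    ‖∑ m ∈ (Ioc (Zf δ x) y).filter (fun m => M ≤ m ∧ m < 2 * M),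
      (Λ m : ℂ) * ∑ n ∈ Ioc (Zf δ x) (y / m), (Lam (j + 1) n : ℂ) * ee (m * n * θ)‖
      ≤ ε * x * Real.log x ^ j := by
  obtain ⟨C, hC, h₁⟩ := cheb j
  obtain ⟨C₈, hC₈, h₈⟩ := cheb 7
  set ε₁ : ℝ := ε ^ 2 * δ ^ 7 / (96 * C ^ 2) with hε₁
  have hε₁0 : 0 < ε₁ := by positivity
  obtain ⟨Q₁, hQ₁, hI⟩ := typeI hε₁0
  have hQ₁' : (0 : ℝ) < Q₁ := by exact_mod_cast hQ₁
  set ε₃ : ℝ := ε ^ 2 * δ ^ 7 * δ ^ i / (48 * C₈ * C * Q₁) with hε₃
  have hε₃0 : 0 < ε₃ := by positivity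
  obtain ⟨Q₂, Z₀, hQ₂, hB⟩ := bohr hε₃0 Q₁
  obtain ⟨Y₀, hY₀⟩ := eventually_atTop.1 hI
  refine ⟨Q₁ * Q₂, by positivity, ?_⟩
  filter_upwards [ev_log 1, ev_Zf hδ (2 * (Y₀ + Z₀) + 2), eventually_gt_atTop 0]
    with x hL hZ hx θ hθ y hy M
  set L := Real.log x with hLdef
  set Z := Zf δ x with hZdef
  have hx' : (0 : ℝ) < x := by exact_mod_cast hx
  set S := (Ioc Z y).filter (fun m => M ≤ m ∧ m < 2 * M) with hS
  have hSm : ∀ m ∈ S, Z < m ∧ M ≤ m ∧ m < 2 * M := by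
    intro m hm
    simp only [hS, Finset.mem_filter, Finset.mem_Ioc] at hm
    exact ⟨hm.1.1, hm.2⟩
  rcases S.eq_empty_or_nonempty with h0 | ⟨m₀, hm₀⟩
  · rw [h0]; simp; positivity
  have hZM : Z < 2 * M := by have := hSm m₀ hm₀; omega
  have hM0 : 0 < M := by omega
  have hM0' : (0 : ℝ) < M := by exact_mod_cast hM0
  set N := x / M with hN
  have hyN : ∀ m, M ≤ m → y / m ≤ N := fun m hm =>
    (Nat.div_le_div_right hy).trans (Nat.div_le_div_left hm hM0)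
  rcases le_or_gt N Z with hNZ | hNZ
  · rw [Finset.sum_eq_zero]
    · simp; positivity
    intro m hm
    have := hyN m (hSm m hm).2.1
    rw [Finset.Ioc_eq_empty (by omega)]; simp
  have hMN : M * N ≤ x := Nat.mul_div_le x M
  have hMN' : (M : ℝ) * N ≤ x := by exact_mod_cast hMN
  have h2M : 2 * M ≤ x := by nlinarith
  have hxMN : (x : ℝ) ≤ 2 * M * N := by
    have := Nat.lt_mul_div_succ x hM0
    have : x ≤ 2 * M * N := by nlinarith
    exact_mod_cast this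
  have hNx : N ≤ x := Nat.div_le_self _ _
  have hδL : 0 < δ * L := by positivity
  set v : ℕ → ℝ := fun n => Lam (j + 1) n with hv
  have hv0 : ∀ n, 0 ≤ v n := Lam_nonneg _
  set c : ℕ → ℕ → ℂ := fun m n => if n ≤ y / m then (v n : ℂ) * ee (m * n * θ) else 0 with hc
  have hT : ∀ m, M ≤ m → ∑ n ∈ Ioc Z (y / m), (Lam (j + 1) n : ℂ) * ee (m * n * θ)
      = ∑ n ∈ Ioc Z N, c m n := by
    intro m hm
    simp only [hc]
    rw [← Finset.sum_filter]
    congr 1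
    ext n
    have := hyN m hm
    simp only [Finset.mem_filter, Finset.mem_Ioc]; omega
  set V : ℝ := C * N * L ^ j with hV
  have hVle : ∑ n ∈ Ioc Z N, v n ≤ V :=
    (Finset.sum_le_sum_of_subset_of_nonneg (Finset.Ioc_subset_Ioc_left (Nat.zero_le _))
      fun _ _ _ => hv0 _).trans (h₁ N L hL (log_le_of_le hNx le_rfl))
  have hV0 : 0 ≤ V := by positivity
  -- the inner exponential sums
  have inner : ∀ n ∈ Ioc Z N, ∀ n' ∈ Ioc Z N,
      ‖∑ m ∈ Ioc (M - 1) (2 * M), (Lam 8 m : ℂ) * (c m n * (starRingEnd ℂ) (c m n'))‖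
      ≤ v n * v n' * (4 * ε₁ * M * L ^ 7) + (C₈ * (2 * M) * L ^ 7) * (v n' *
        ∑ r ∈ Ioc 0 Q₁, (if nn (((n : ℝ) - n') * (r * θ)) ≤ Q₁ / M then v n else 0)) := by
    intro n hn n' hn'
    have hn0 : 0 < n := by have := (Finset.mem_Ioc.1 hn).1; omega
    have hn0' : 0 < n' := by have := (Finset.mem_Ioc.1 hn').1; omega
    set b := min (2 * M) (min (y / n) (y / n')) with hb
    have e : ∑ m ∈ Ioc (M - 1) (2 * M), (Lam 8 m : ℂ) * (c m n * (starRingEnd ℂ) (c m n'))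
        = ((v n * v n' : ℝ) : ℂ) * ∑ m ∈ Ioc (M - 1) b,
          (Lam 8 m : ℂ) * ee (m * (((n : ℝ) - n') * θ)) := by
      have e1 : Ioc (M - 1) b = (Ioc (M - 1) (2 * M)).filter fun m => n ≤ y / m ∧ n' ≤ y / m := by
        ext m
        simp only [hb, Finset.mem_filter, Finset.mem_Ioc, le_min_iff]
        constructor
        · rintro ⟨h1, h2, h3, h4⟩
          have hm : 0 < m := by omega
          rw [Nat.le_div_iff_mul_le hn0] at h3
          rw [Nat.le_div_iff_mul_le hn0'] at h4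
          rw [Nat.le_div_iff_mul_le hm, Nat.le_div_iff_mul_le hm]
          exact ⟨⟨h1, h2⟩, by linarith, by linarith⟩
        · rintro ⟨⟨h1, h2⟩, h3, h4⟩
          have hm : 0 < m := by omega
          rw [Nat.le_div_iff_mul_le hm] at h3 h4
          rw [Nat.le_div_iff_mul_le hn0, Nat.le_div_iff_mul_le hn0']
          exact ⟨h1, h2, by linarith, by linarith⟩
      rw [e1, Finset.sum_filter, Finset.mul_sum]
      refine Finset.sum_congr rfl fun m _ => ?_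
      simp only [hc]
      by_cases k1 : n ≤ y / m
      · by_cases k2 : n' ≤ y / m
        · simp only [k1, k2, and_self, if_true, map_mul, Complex.conj_ofReal]
          rw [← ee_neg]
          have : ee (m * (((n : ℝ) - n') * θ)) = ee (m * n * θ) * ee (-(m * n' * θ)) := by
            rw [← ee_add]; congr 1; ring
          rw [this]; push_cast; ring
        · simp [k2]
      · simp [k1]
    rw [e, norm_mul, Complex.norm_real, Real.norm_eq_abs, abs_of_nonneg (mul_nonneg (hv0 _) (hv0 _))]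
    have hb2 : b ≤ 2 * M := min_le_left _ _
    have hsum0 : 0 ≤ ∑ r ∈ Ioc 0 Q₁, (if nn (((n : ℝ) - n') * (r * θ)) ≤ Q₁ / M then v n else 0) :=
      Finset.sum_nonneg fun r _ => by split_ifs; exacts [hv0 _, le_rfl]
    have hvv := mul_nonneg (hv0 n) (hv0 n')
    have hlog2M : Real.log ((2 * M : ℕ) : ℝ) ≤ L := log_le_of_le h2M le_rfl
    by_cases hmaj : Maj Q₁ ((2 * M : ℕ) : ℝ) (((n : ℝ) - n') * θ)
    · obtain ⟨r, hr0, hrQ, a, ha⟩ := hmaj
      have k1 : v n ≤ ∑ r ∈ Ioc 0 Q₁,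
          (if nn (((n : ℝ) - n') * (r * θ)) ≤ Q₁ / M then v n else 0) := by
        refine le_trans (le_of_eq ?_) (Finset.single_le_sum
          (f := fun r : ℕ => if nn (((n : ℝ) - n') * (r * θ)) ≤ Q₁ / M then v n else 0)
          (fun r _ => by split_ifs; exacts [hv0 _, le_rfl]) (Finset.mem_Ioc.2 ⟨hr0, hrQ⟩))
        rw [if_pos]
        refine (nn_le _ a).trans ?_
        rw [show ((n : ℝ) - n') * (r * θ) = r * (((n : ℝ) - n') * θ) by ring]
        refine ha.trans ?_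
        push_cast
        exact div_le_div_of_nonneg_left hQ₁'.le hM0' (by linarith)
      have k2 : ‖∑ m ∈ Ioc (M - 1) b, (Lam 8 m : ℂ) * ee (m * (((n : ℝ) - n') * θ))‖
          ≤ C₈ * (2 * M) * L ^ 7 := by
        refine (norm_sum_ee_le _ (Lam_nonneg 8) _ _).trans ?_
        refine (Finset.sum_le_sum_of_subset_of_nonneg (Finset.Ioc_subset_Ioc (Nat.zero_le _) hb2)
          fun _ _ _ => Lam_nonneg _ _).trans ?_
        have := h₈ (2 * M) L hL hlog2M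
        push_cast at this; exact this
      have k3 : 0 ≤ v n * v n' * (4 * ε₁ * M * L ^ 7) := by positivity
      have k4 := mul_le_mul_of_nonneg_left k2 hvv
      have k5 : (C₈ * (2 * M) * L ^ 7) * (v n' * v n) ≤ (C₈ * (2 * M) * L ^ 7) * (v n' *
        ∑ r ∈ Ioc 0 Q₁, (if nn (((n : ℝ) - n') * (r * θ)) ≤ Q₁ / M then v n else 0)) :=
        mul_le_mul_of_nonneg_left (mul_le_mul_of_nonneg_left k1 (hv0 _)) (by positivity)
      nlinarith
    · have k0 := hY₀ (2 * M) (by omega) _ hmaj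
      have k1 : ∀ z, z ≤ 2 * M → ‖∑ m ∈ Ioc 0 z, (Lam 8 m : ℂ) * ee (m * (((n : ℝ) - n') * θ))‖
          ≤ 2 * ε₁ * M * L ^ 7 := by
        intro z hz
        refine (k0 z hz).trans ?_
        have := pow_le_pow_left₀ (log_nat_nonneg _) hlog2M 7
        calc _ ≤ ε₁ * ((2 * M : ℕ) : ℝ) * L ^ 7 := by gcongr
          _ = _ := by push_cast; ring
      have k2 : ‖∑ m ∈ Ioc (M - 1) b, (Lam 8 m : ℂ) * ee (m * (((n : ℝ) - n') * θ))‖
          ≤ 4 * ε₁ * M * L ^ 7 := by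
        rcases le_or_gt b (M - 1) with hbM | hbM
        · rw [Finset.Ioc_eq_empty (by omega)]; simp; positivity
        · have := Finset.sum_Ioc_consecutive
            (fun m : ℕ => (Lam 8 m : ℂ) * ee (m * (((n : ℝ) - n') * θ))) (Nat.zero_le (M - 1)) hbM.le
          rw [← eq_sub_iff_add_eq'] at this
          rw [this]
          refine (norm_sub_le _ _).trans ?_
          have := k1 b hb2
          have := k1 (M - 1) (by omega)
          linarith
      refine (mul_le_mul_of_nonneg_left k2 hvv).trans (le_add_of_nonneg_right ?_)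
      exact mul_nonneg (by positivity) (mul_nonneg (hv0 _) hsum0)
  have bohrb : ∀ n' ∈ Ioc Z N, ∑ n ∈ Ioc Z N, ∑ r ∈ Ioc 0 Q₁,
      (if nn (((n : ℝ) - n') * (r * θ)) ≤ Q₁ / M then v n else 0)
      ≤ Q₁ * (ε₃ * N * L ^ j / δ ^ i) := by
    intro n' hn'
    rw [Finset.sum_comm]
    refine (Finset.sum_le_sum (g := fun _ => ε₃ * N * L ^ j / δ ^ i) fun r hr => ?_).trans (by simp)
    obtain ⟨hr0, hrQ⟩ := Finset.mem_Ioc.1 hr
    have k1 := hB x M N L (r * θ) (by omega) (by omega) hx hxMN (log_le_of_le hNx le_rfl)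
      (fun h => hθ (Maj_mul hx' hr0 hrQ h)) n' (Finset.mem_Ioc.1 hn').2
    have k2 : (δ * L) ^ i * ∑ n ∈ Ioc Z N,
        (if nn (((n : ℝ) - n') * (r * θ)) ≤ Q₁ / M then v n else 0) ≤ ε₃ * N * L ^ 7 := by
      refine le_trans ?_ k1
      rw [Finset.mul_sum]
      refine le_trans (Finset.sum_le_sum fun n hn => ?_) (Finset.sum_le_sum_of_subset_of_nonneg
        (Finset.Ioc_subset_Ioc_left (Nat.zero_le Z)) fun n _ _ => ?_)
      · split_ifs
        · have := log_pow_mul_Lam_le i (j + 1) n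
          rw [show j + 1 + i = 8 by omega] at this
          refine le_trans (mul_le_mul_of_nonneg_right ?_ (hv0 _)) this
          exact pow_le_pow_left₀ hδL.le (log_of_gt_Zf (Finset.mem_Ioc.1 hn).1) _
        · simp
      · split_ifs; exacts [Lam_nonneg _ _, le_rfl]
    rw [le_div_iff₀ (by positivity)]
    rw [← hij, pow_add, mul_pow] at k2
    have hLi : 0 < L ^ i := by positivity
    refine le_of_mul_le_mul_right ?_ hLi
    linarith
  have main : ∑ m ∈ Ioc (M - 1) (2 * M), Lam 8 m * ‖∑ n ∈ Ioc Z N, c m n‖ ^ 2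
      ≤ V * V * (4 * ε₁ * M * L ^ 7)
        + (C₈ * (2 * M) * L ^ 7) * (V * (Q₁ * (ε₃ * N * L ^ j / δ ^ i))) := by
    refine (sum_norm_sq_le _ _ _ _).trans ?_
    refine (Finset.sum_le_sum fun n hn => Finset.sum_le_sum (inner n hn)).trans ?_
    simp_rw [Finset.sum_add_distrib]
    refine add_le_add ?_ ?_
    · simp_rw [← Finset.sum_mul]
      refine mul_le_mul_of_nonneg_right ?_ (by positivity)
      rw [← Finset.sum_mul_sum]
      exact mul_le_mul hVle hVle (Finset.sum_nonneg fun _ _ => hv0 _) hV0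
    · rw [Finset.sum_comm]
      simp_rw [← Finset.mul_sum]
      refine mul_le_mul_of_nonneg_left ?_ (by positivity)
      refine (Finset.sum_le_sum fun n' hn' =>
        mul_le_mul_of_nonneg_left (bohrb n' hn') (hv0 _)).trans ?_
      rw [← Finset.sum_mul]
      exact mul_le_mul_of_nonneg_right hVle (by positivity)
  have cs1 : ‖∑ m ∈ S, (Λ m : ℂ) * ∑ n ∈ Ioc Z (y / m), (Lam (j + 1) n : ℂ) * ee (m * n * θ)‖
      ≤ ∑ m ∈ S, Λ m * ‖∑ n ∈ Ioc Z N, c m n‖ := by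
    refine (norm_sum_le _ _).trans (le_of_eq (Finset.sum_congr rfl fun m hm => ?_))
    rw [norm_mul, Complex.norm_real, Real.norm_eq_abs, abs_of_nonneg vonMangoldt_nonneg,
      hT m (hSm m hm).2.1]
  have cs2 : (∑ m ∈ S, Λ m * ‖∑ n ∈ Ioc Z N, c m n‖) ^ 2
      ≤ (∑ m ∈ S, Λ m) * ∑ m ∈ S, Λ m * ‖∑ n ∈ Ioc Z N, c m n‖ ^ 2 :=
    Finset.sum_sq_le_sum_mul_sum_of_sq_le_mul S (fun _ _ => vonMangoldt_nonneg)
      (fun _ _ => mul_nonneg vonMangoldt_nonneg (sq_nonneg _)) (fun _ _ => le_of_eq (by ring))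
  have hSsub : S ⊆ Ioc (M - 1) (2 * M) := fun m hm => by
    have := hSm m hm
    rw [Finset.mem_Ioc]; omega
  have cs3 : ∑ m ∈ S, Λ m ≤ 12 * M := by
    refine (Finset.sum_le_sum_of_subset_of_nonneg
      (hSsub.trans (Finset.Ioc_subset_Ioc_left (Nat.zero_le _)))
      fun _ _ _ => vonMangoldt_nonneg).trans ((psi_le _).trans (le_of_eq ?_))
    push_cast; ring
  have cs4 : (δ * L) ^ 7 * ∑ m ∈ S, Λ m * ‖∑ n ∈ Ioc Z N, c m n‖ ^ 2
      ≤ ∑ m ∈ Ioc (M - 1) (2 * M), Lam 8 m * ‖∑ n ∈ Ioc Z N, c m n‖ ^ 2 := by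
    rw [Finset.mul_sum]
    refine le_trans (Finset.sum_le_sum fun m hm => ?_) (Finset.sum_le_sum_of_subset_of_nonneg hSsub
      fun _ _ _ => mul_nonneg (Lam_nonneg _ _) (sq_nonneg _))
    rw [← mul_assoc]
    refine mul_le_mul_of_nonneg_right ?_ (sq_nonneg _)
    have := log_pow_mul_Lam_le 7 1 m
    rw [Lam_one] at this
    refine le_trans (mul_le_mul_of_nonneg_right ?_ vonMangoldt_nonneg) this
    exact pow_le_pow_left₀ hδL.le (log_of_gt_Zf (hSm m hm).1) _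
  have fin : 12 * M * (V * V * (4 * ε₁ * M * L ^ 7)
        + (C₈ * (2 * M) * L ^ 7) * (V * (Q₁ * (ε₃ * N * L ^ j / δ ^ i))))
      = (δ * L) ^ 7 * (ε * (M * N) * L ^ j) ^ 2 := by
    rw [hV, hε₁, hε₃]; field_simp; ring
  have cs5 : ∑ m ∈ S, Λ m * ‖∑ n ∈ Ioc Z N, c m n‖ ≤ ε * (M * N) * L ^ j := by
    refine (pow_le_pow_iff_left₀ (Finset.sum_nonneg fun _ _ =>
      mul_nonneg vonMangoldt_nonneg (norm_nonneg _)) (by positivity) two_ne_zero).1 ?_
    refine le_of_mul_le_mul_left ?_ (pow_pos hδL 7)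
    rw [← fin]
    have k0 : 0 ≤ ∑ m ∈ S, Λ m * ‖∑ n ∈ Ioc Z N, c m n‖ ^ 2 :=
      Finset.sum_nonneg fun _ _ => mul_nonneg vonMangoldt_nonneg (sq_nonneg _)
    calc _ ≤ (δ * L) ^ 7 * (12 * M * ∑ m ∈ S, Λ m * ‖∑ n ∈ Ioc Z N, c m n‖ ^ 2) :=
          mul_le_mul_of_nonneg_left (cs2.trans (mul_le_mul_of_nonneg_right cs3 k0)) (by positivity)
      _ = 12 * M * ((δ * L) ^ 7 * ∑ m ∈ S, Λ m * ‖∑ n ∈ Ioc Z N, c m n‖ ^ 2) := by ring
      _ ≤ _ := mul_le_mul_of_nonneg_left (cs4.trans main) (by positivity)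
  refine cs1.trans (cs5.trans ?_)
  gcongr

end Pool.Agent.P.MP_e86632_nt
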