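import Pool.Agent.P.MP_e86632_nt.Lower

/-! Construction of sets from feasible pairs. -/

namespace Pool.Agent.P.MP_e86632_nt

open Finset Real Filter Pointwise Topology

lemma cnt_succ (A : Set ℕ) (n : ℕ) : cnt A (n + 1) = cnt A n + ind A (n + 1) :=
  Finset.sum_Ioc_succ_top (Nat.zero_le n) _

lemma tendsto_of_abs_le {f : ℕ → ℝ} {d L : ℝ} (h : ∀ n, |f n - n * d| ≤ L) :
    Tendsto (fun n : ℕ => f n / n) atTop (𝓝 d) := by
  rw [← tendsto_sub_nhds_zero_iff]
  refine squeeze_zero_norm' ?_ (tendsto_const_div_atTop_nhds_zero_nat L)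
  filter_upwards [eventually_gt_atTop 0] with n hn
  have hn' : (0 : ℝ) < n := by exact_mod_cast hn
  have : f n / n - d = (f n - n * d) / n := by field_simp
  rw [this, Real.norm_eq_abs, abs_div, abs_of_pos hn']
  exact div_le_div_of_nonneg_right (h n) hn'.le

lemma cnt_per {B : Set ℕ} {L : ℕ} (hL : 0 < L) (h : ∀ n, ind B (n + L) = ind B n) (n : ℕ) :
    |cnt B n - n * mean L (ind B)| ≤ L := by
  have d0 : 0 ≤ mean L (ind B) := mean_nonneg (ind_nonneg B)
  have d1 : mean L (ind B) ≤ 1 := mean_le_one hL (ind_le_one B)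
  induction n using Nat.strong_induction_on with
  | _ n ih =>
    rcases lt_or_ge n L with h1 | h1
    · have : (n : ℝ) ≤ L := by exact_mod_cast h1.le
      have h0 : (0 : ℝ) ≤ n := by positivity
      rw [abs_le]
      constructor <;> nlinarith [cnt_nonneg B n, cnt_le B n]
    · obtain ⟨m, rfl⟩ : ∃ m, n = m + L := ⟨n - L, by omega⟩
      have e : cnt B (m + L) = cnt B m + L * mean L (ind B) := by
        unfold cnt
        rw [← Finset.sum_Ioc_consecutive _ (Nat.zero_le m) (Nat.le_add_right m L)]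
        congr 1
        have hL' : (L : ℝ) ≠ 0 := by positivity
        rw [mean, mul_div_cancel₀ _ hL', ← sum_range_shift _ L h (m + 1), Finset.range_eq_Ico,
          Finset.sum_Ico_add']
        congr 1; ext i; simp only [Finset.mem_Ioc, Finset.mem_Ico]; omega
      rw [e]; push_cast
      convert ih m (by omega) using 2; ring

lemma thin (A₀ : Set ℕ) {ρ : ℝ} (h0 : 0 ≤ ρ) (h1 : ρ ≤ 1) :
    ∃ A : Set ℕ, 0 ∉ A ∧ A ⊆ A₀ ∧ ∀ n, cnt A n = ⌊ρ * cnt A₀ n⌋ := by
  refine ⟨{n | 0 < n ∧ n ∈ A₀ ∧ ⌊ρ * cnt A₀ n⌋ ≠ ⌊ρ * cnt A₀ (n - 1)⌋}, by simp,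
    fun n hn => hn.2.1, fun n => ?_⟩
  induction n with
  | zero => simp [cnt]
  | succ n ih =>
    rw [cnt_succ, ih]
    unfold ind
    simp only [Set.mem_ofPred_eq, Nat.add_sub_cancel]
    have e := cnt_succ A₀ n
    unfold ind at e
    by_cases h : n + 1 ∈ A₀
    · rw [if_pos h] at e
      have k1 : ⌊ρ * cnt A₀ n⌋ ≤ ⌊ρ * cnt A₀ (n + 1)⌋ := Int.floor_mono (by rw [e]; nlinarith)
      have k2 : ⌊ρ * cnt A₀ (n + 1)⌋ ≤ ⌊ρ * cnt A₀ n⌋ + 1 := by
        rw [← Int.floor_add_one]; exact Int.floor_mono (by rw [e]; nlinarith)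
      split_ifs with k
      · have : ⌊ρ * cnt A₀ (n + 1)⌋ = ⌊ρ * cnt A₀ n⌋ + 1 := by
          have : ⌊ρ * cnt A₀ (n + 1)⌋ ≠ ⌊ρ * cnt A₀ n⌋ := k.2.2
          omega
        rw [this]; push_cast; ring
      · have : ⌊ρ * cnt A₀ (n + 1)⌋ = ⌊ρ * cnt A₀ n⌋ := by
          by_contra hne; exact k ⟨by omega, h, hne⟩
        rw [this, add_zero]
    · rw [if_neg h, add_zero] at e
      rw [if_neg (fun k => h k.2.1), e, add_zero]

lemma count_lt (M : ℕ) {t : ℝ} (h0 : 0 ≤ t) :
    (t ≤ M → t ≤ ∑ x ∈ range M, (if (x : ℝ) < t then (1 : ℝ) else 0)) ∧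
    ∑ x ∈ range M, (if (x : ℝ) < t then (1 : ℝ) else 0) ≤ t + 1 := by
  rw [Finset.sum_boole]
  constructor
  · intro h
    have : range ⌈t⌉₊ ⊆ (range M).filter fun x : ℕ => (x : ℝ) < t := by
      intro x hx
      rw [Finset.mem_range, Nat.lt_ceil] at hx
      exact Finset.mem_filter.2 ⟨Finset.mem_range.2 (by exact_mod_cast hx.trans_le h), hx⟩
    have h2 := Finset.card_le_card this
    rw [Finset.card_range] at h2
    exact (Nat.le_ceil t).trans (by exact_mod_cast h2)
  · have : ((range M).filter fun x : ℕ => (x : ℝ) < t) ⊆ range ⌈t⌉₊ := fun x hx =>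
      Finset.mem_range.2 (Nat.lt_ceil.2 (Finset.mem_filter.1 hx).2)
    have h2 := Finset.card_le_card this
    rw [Finset.card_range] at h2
    exact le_trans (by exact_mod_cast h2) (Nat.ceil_lt_add_one h0).le

theorem upper {q : ℕ} (hq : 0 < q) {α γ : ℕ → ℝ} (h : Fs q α γ) {x : ℝ} (hx0 : 0 ≤ x)
    (hx : x ≤ mean q α) {ε : ℝ} (hε : 0 < ε) : ∃ A : Set ℕ, 0 ∉ A ∧ lowerDensity A = x ∧
      lowerDensity (A + {p | p.Prime}) ≤ 1 - mean q γ + ε := by
  classical
  obtain ⟨M, hM⟩ := exists_nat_ge (2 / ε + 1)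
  have hM0' : (0 : ℝ) < M := lt_of_lt_of_le (by positivity) hM
  have hM0 : 0 < M := by exact_mod_cast hM0'
  have hq' : (0 : ℝ) < q := by exact_mod_cast hq
  set k : ℕ → ℕ := fun n => n / q % M with hk
  have kper : ∀ n, k (n + q * M) = k n := fun n => by
    simp only [hk]; rw [Nat.add_mul_div_left _ _ hq, Nat.add_mod_right]
  have kval : ∀ s ∈ range q, ∀ y ∈ range M, k (s + q * y) = y := fun s hs y hy => by
    simp only [hk]
    rw [Nat.add_mul_div_left _ _ hq, Nat.div_eq_of_lt (Finset.mem_range.1 hs), zero_add,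
      Nat.mod_eq_of_lt (Finset.mem_range.1 hy)]
  set A₀ : Set ℕ := {n | (k n : ℝ) < M * α n} with hA₀
  set B : Set ℕ := {n | (k n : ℝ) < M * (1 - γ n) + 1} with hB
  have hL : 0 < q * M := by positivity
  have tA := tendsto_of_abs_le (cnt_per (B := A₀) hL fun n => by
    simp only [ind, hA₀, Set.mem_ofPred_eq, kper, per_mul h.pa])
  have tB := tendsto_of_abs_le (cnt_per (B := B) hL fun n => by
    simp only [ind, hB, Set.mem_ofPred_eq, kper, per_mul h.pc])
  have dA : mean q α ≤ mean (q * M) (ind A₀) := by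
    unfold mean
    rw [sum_range_mul, div_le_div_iff₀ hq' (by positivity)]
    push_cast
    have : ∑ s ∈ range q, M * α s ≤ ∑ s ∈ range q, ∑ y ∈ range M, ind A₀ (s + q * y) := by
      refine Finset.sum_le_sum fun s hs => ?_
      refine ((count_lt M (mul_nonneg hM0'.le (h.a0 s))).1
        (mul_le_of_le_one_right hM0'.le (h.a1 s))).trans (le_of_eq ?_)
      refine Finset.sum_congr rfl fun y hy => ?_
      simp only [ind, hA₀, Set.mem_ofPred_eq, kval s hs y hy, per_mul h.pa]
    rw [← Finset.mul_sum] at this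
    nlinarith
  have dB : mean (q * M) (ind B) ≤ 1 - mean q γ + ε := by
    have e := mean_lin q (fun _ => 1 + ε) γ 1 (-1)
    rw [mean_const hq] at e
    refine le_trans ?_ (le_of_eq (e.trans (by ring)))
    unfold mean
    rw [sum_range_mul, div_le_div_iff₀ (by positivity) hq']
    push_cast
    have : ∑ s ∈ range q, ∑ y ∈ range M, ind B (s + q * y)
        ≤ ∑ s ∈ range q, M * (1 * (1 + ε) + -1 * γ s) := by
      refine Finset.sum_le_sum fun s hs => ?_
      have k1 := (count_lt M (t := M * (1 - γ s) + 1)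
        (add_nonneg (mul_nonneg hM0'.le (sub_nonneg.2 (h.c1 hq s))) zero_le_one)).2
      refine le_trans (le_of_eq ?_) (k1.trans ?_)
      · refine Finset.sum_congr rfl fun y hy => ?_
        simp only [ind, hB, Set.mem_ofPred_eq, kval s hs y hy, per_mul h.pc]
      · have : 2 / ε ≤ M := by linarith
        rw [div_le_iff₀ hε] at this
        linarith
    rw [← Finset.mul_sum] at this
    nlinarith
  set d := mean (q * M) (ind A₀) with hd
  have hxd : x ≤ d := hx.trans dA
  have hρ : x / d * d = x := by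
    rcases (hx0.trans hxd).eq_or_lt with h0 | h0
    · rw [← h0, mul_zero]; linarith
    · field_simp
  obtain ⟨A, hA0, hAs, hA⟩ := thin A₀ (ρ := x / d) (div_nonneg hx0 (hx0.trans hxd))
    (div_le_one_of_le₀ hxd (hx0.trans hxd))
  refine ⟨A, hA0, ?_, ?_⟩
  · rw [ld_eq]
    apply Tendsto.liminf_eq
    have t1 := tA.const_mul (x / d)
    rw [hρ] at t1
    have t2 : Tendsto (fun n : ℕ => (cnt A n - x / d * cnt A₀ n) / n) atTop (𝓝 0) := by
      apply tendsto_of_abs_le (L := 1)
      intro n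
      rw [hA, mul_zero, sub_zero, abs_le]
      constructor <;> linarith [Int.floor_le (x / d * cnt A₀ n), Int.lt_floor_add_one (x / d * cnt A₀ n)]
    have t3 := t1.add t2
    rw [add_zero] at t3
    exact t3.congr fun n => by ring
  · refine le_trans ?_ dB
    have hsub : A + {p | p.Prime} ⊆ B := by
      rintro _ ⟨a, ha, p, hp, rfl⟩
      have h1 : (k a : ℝ) < M * α a := hAs ha
      change (k (a + p) : ℝ) < M * (1 - γ (a + p)) + 1
      by_cases hpq : p ∣ q
      · have k1 : k (a + p) ≤ k a + 1 := by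
          have b1 : (a + p) / q ≤ a / q + 1 := by
            rw [← Nat.add_div_right _ hq]
            exact Nat.div_le_div_right (by have := Nat.le_of_dvd hq hpq; omega)
          have b2 : a / q ≤ (a + p) / q := Nat.div_le_div_right (by omega)
          simp only [hk]
          rcases b1.eq_or_lt with b | b
          · rw [b, Nat.add_mod]
            exact (Nat.mod_le _ _).trans (Nat.add_le_add_left (Nat.mod_le _ _) _)
          · rw [show (a + p) / q = a / q by omega]; omega
        have k2 : (k (a + p) : ℝ) ≤ k a + 1 := by exact_mod_cast k1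
        have := h.loc a p hp
        nlinarith
      · rcases h.un a p ((Nat.Prime.coprime_iff_not_dvd hp).2 hpq) with b | b
        · rw [b, mul_zero] at h1
          exact absurd h1 (not_lt.2 (by positivity))
        · rw [b]
          have : (k (a + p) : ℝ) < M := by exact_mod_cast Nat.mod_lt _ hM0
          linarith
    refine le_of_forall_pos_le_add fun δ hδ => ld_le ?_
    filter_upwards [tB.eventually (gt_mem_nhds (lt_add_of_pos_right _ hδ))] with n hn
    refine le_trans (div_le_div_of_nonneg_right (Finset.sum_le_sum fun i _ => ?_) (by positivity)) hn.le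
    unfold ind
    split_ifs with h1 h2
    · exact le_rfl
    · exact absurd (hsub h1) h2
    · norm_num
    · exact le_rfl

end Pool.Agent.P.MP_e86632_nt
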